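import Pool.Agent.Lib.MP_134bf7_pr.RL.Zb

/-!
# RL-Pr: the formula of the problem and `PG`

* `PG_mono_K` (`PG K k = PG k k` for `k ≤ K`): write `K = k + d`; `(Fin (k + d) → ℕ)` is
  `(Fin k → ℕ) × (Fin d → ℕ)` (`Fin.appendEquiv`), `wt (mu (k + d))` is the product of
  `wt (mu k)` and `wt μ'` for `μ' i = 1 / (k + i + 1)`, `HH (k + d) = HH k + ∑ μ'`, and `Good k a` depends
  only on the first `k` coordinates: if `len c = k` then `c i = 0` for `i ≥ k` (a cycle of length
  `i + 1 > k` does not fit).  Sum over the second factor first: `Z_one` for `μ'`.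
* `PG_self`: for `K = k` the set of the sum in `p k` is the complement of `Good k`;
  `∑' a, exp (- H_k) * wt a = 1` (`Ex_one`), so `PG k k + ofReal (the sum) = 1`; the real sum is
  summable (the `ℝ≥0∞` sum is finite), its terms are `≥ 0` and
  `∏ i, exp (-(1 / (i + 1))) * (1 / (i + 1)) ^ a i / (a i)! = exp (- HH k) * wt (mu k) a`.
-/

namespace Pool.Agent.Lib.MP_134bf7_pr.RL

open Finset
open scoped ENNReal NNReal

private theorem Pr_good {k d : ℕ} (a : Fin k → ℕ) (b : Fin d → ℕ) :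
    Good k (Fin.append a b) ↔ Good k a := by
  constructor
  · rintro ⟨c, hc, hl⟩
    unfold len at hl
    rw [Fin.sum_univ_add] at hl
    have h0 : ∀ i : Fin d, c (Fin.natAdd k i) = 0 := by
      intro i
      by_contra h
      have h1 : (((Fin.natAdd k i : Fin (k + d)) : ℕ) + 1) * c (Fin.natAdd k i) ≤
          ∑ i : Fin d, (((Fin.natAdd k i : Fin (k + d)) : ℕ) + 1) * c (Fin.natAdd k i) :=
        Finset.single_le_sum
          (f := fun i : Fin d => (((Fin.natAdd k i : Fin (k + d)) : ℕ) + 1) * c (Fin.natAdd k i))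
          (fun _ _ => Nat.zero_le _) (Finset.mem_univ i)
      have h2 : (((Fin.natAdd k i : Fin (k + d)) : ℕ) + 1) * 1 ≤
          (((Fin.natAdd k i : Fin (k + d)) : ℕ) + 1) * c (Fin.natAdd k i) :=
        Nat.mul_le_mul_left _ (Nat.one_le_iff_ne_zero.2 h)
      rw [Fin.val_natAdd] at h2 h1
      simp only [Fin.val_natAdd] at h1 hl
      omega
    refine ⟨fun i => c (Fin.castAdd d i), fun i => ?_, ?_⟩
    · have := hc (Fin.castAdd d i)
      rwa [Fin.append_left] at this
    · unfold len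
      have h1 : ∑ i : Fin d, (((Fin.natAdd k i : Fin (k + d)) : ℕ) + 1) * c (Fin.natAdd k i) = 0 := by
        refine Finset.sum_eq_zero fun i _ => ?_
        rw [h0 i, mul_zero]
      rw [h1, add_zero] at hl
      refine Eq.trans ?_ hl
      refine Finset.sum_congr rfl fun i _ => ?_
      rw [Fin.val_castAdd]
  · rintro ⟨c, hc, hl⟩
    refine ⟨Fin.append c (fun _ => 0), fun i => ?_, ?_⟩
    · refine Fin.addCases (fun i => ?_) (fun i => ?_) i
      · rw [Fin.append_left, Fin.append_left]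
        exact hc i
      · rw [Fin.append_right]
        exact Nat.zero_le _
    · unfold len at hl ⊢
      rw [Fin.sum_univ_add]
      simp only [Fin.append_left, Fin.append_right, mul_zero, Finset.sum_const_zero, add_zero,
        Fin.val_castAdd]
      exact hl

private theorem Pr_wt {k d : ℕ} (a : Fin k → ℕ) (b : Fin d → ℕ) :
    wt (mu (k + d)) (Fin.append a b) =
      wt (mu k) a * wt (fun i : Fin d => mu (k + d) (Fin.natAdd k i)) b := by
  unfold wt
  rw [Fin.prod_univ_add]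
  simp only [Fin.append_left, Fin.append_right]
  rfl

theorem PG_mono_K {k K : ℕ} (h : k ≤ K) : PG K k = PG k k := by
  obtain ⟨d, rfl⟩ := Nat.exists_eq_add_of_le h
  unfold PG Ex
  have hZ : Z (mu (k + d)) (fun a => ind (Good k a)) =
      Z (mu k) (fun a => ind (Good k a)) *
        Z (fun i : Fin d => mu (k + d) (Fin.natAdd k i)) (fun _ => 1) := by
    unfold Z
    rw [← (Fin.appendEquiv k d).tsum_eq, ENNReal.tsum_prod', ← ENNReal.tsum_mul_right]
    refine tsum_congr fun a => ?_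
    rw [← ENNReal.tsum_mul_left]
    refine tsum_congr fun b => ?_
    have e : (Fin.appendEquiv k d) (a, b) = Fin.append a b := rfl
    rw [e, Pr_wt]
    have hg : ind (Good k (Fin.append a b)) = ind (Good k a) := by
      by_cases hG : Good k a
      · rw [ind_true hG, ind_true ((Pr_good a b).2 hG)]
      · rw [ind_false hG, ind_false (fun h => hG ((Pr_good a b).1 h))]
    beta_reduce
    rw [hg, ENNReal.coe_mul]
    ring
  have hH : HH (k + d) = HH k + ∑ i : Fin d, ((mu (k + d) (Fin.natAdd k i) : ℝ≥0) : ℝ) := by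
    unfold HH
    rw [Fin.sum_univ_add]
    congr 1
  rw [hZ, Z_one, hH]
  obtain ⟨S, hS⟩ : ∃ S : ℝ, S = ∑ i : Fin d, ((mu (k + d) (Fin.natAdd k i) : ℝ≥0) : ℝ) := ⟨_, rfl⟩
  rw [← hS]
  have h1 : ENNReal.ofReal (Real.exp (-(HH k + S))) * ENNReal.ofReal (Real.exp S) =
      ENNReal.ofReal (Real.exp (-(HH k))) := by
    rw [← ENNReal.ofReal_mul (Real.exp_pos _).le, ← Real.exp_add]
    congr 2
    ring
  calc ENNReal.ofReal (Real.exp (-(HH k + S))) *
        (Z (mu k) (fun a => ind (Good k a)) * ENNReal.ofReal (Real.exp S))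
      = (ENNReal.ofReal (Real.exp (-(HH k + S))) * ENNReal.ofReal (Real.exp S)) *
          Z (mu k) (fun a => ind (Good k a)) := by ring
    _ = _ := by rw [h1]

/-- the terms of the sum in `p k` -/
private noncomputable def Pr_term (k : ℕ) (a : Fin k → ℕ) : ℝ :=
  ∏ i : Fin k, Real.exp (-(1 / (((i : ℕ) : ℝ) + 1))) * (1 / (((i : ℕ) : ℝ) + 1)) ^ (a i) /
      ((a i).factorial : ℝ)

private theorem Pr_term_nonneg (k : ℕ) (a : Fin k → ℕ) : 0 ≤ Pr_term k a := by
  unfold Pr_term
  exact Finset.prod_nonneg fun i _ => by positivity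

private theorem Pr_term_eq (k : ℕ) (a : Fin k → ℕ) :
    ENNReal.ofReal (Pr_term k a) = ENNReal.ofReal (Real.exp (-(HH k))) * (wt (mu k) a : ℝ≥0∞) := by
  have h1 : Pr_term k a = Real.exp (-(HH k)) * ((wt (mu k) a : ℝ≥0) : ℝ) := by
    unfold Pr_term HH wt mu
    rw [← Finset.sum_neg_distrib, Real.exp_sum]
    push_cast
    rw [← Finset.prod_mul_distrib]
    refine Finset.prod_congr rfl fun i _ => ?_
    rw [mul_div_assoc]
  rw [h1, ENNReal.ofReal_mul (Real.exp_pos _).le, ENNReal.ofReal_coe_nnreal]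

private theorem Pr_p (k : ℕ) : p k = 1 - ∑' a : {a : Fin k → ℕ // ¬ Good k a}, Pr_term k a.1 := rfl

private theorem Pr_sum (k : ℕ) :
    Ex k (fun a => ind (¬ Good k a)) =
      ∑' a : {a : Fin k → ℕ // ¬ Good k a}, ENNReal.ofReal (Pr_term k a.1) := by
  unfold Ex Z
  rw [← ENNReal.tsum_mul_left]
  have h1 : (∑' a : {a : Fin k → ℕ // ¬ Good k a}, ENNReal.ofReal (Pr_term k a.1)) =
      ∑' a : Fin k → ℕ, Set.indicator {a : Fin k → ℕ | ¬ Good k a}
        (fun a => ENNReal.ofReal (Pr_term k a)) a :=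
    tsum_subtype {a : Fin k → ℕ | ¬ Good k a} (fun a => ENNReal.ofReal (Pr_term k a))
  rw [h1]
  refine tsum_congr fun a => ?_
  beta_reduce
  by_cases hG : Good k a
  · rw [ind_false (not_not.2 hG), mul_zero, mul_zero, Set.indicator_of_notMem]
    intro h
    exact h hG
  · rw [ind_true hG, mul_one, Set.indicator_of_mem (show a ∈ {a : Fin k → ℕ | ¬ Good k a} from hG),
      Pr_term_eq]

private theorem Pr_add (k : ℕ) : PG k k + Ex k (fun a => ind (¬ Good k a)) = 1 := by
  unfold PG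
  rw [← Ex_add, ← Ex_one k]
  congr 1
  funext a
  by_cases hG : Good k a
  · rw [ind_true hG, ind_false (not_not.2 hG), add_zero]
  · rw [ind_false hG, ind_true hG, zero_add]

private theorem Pr_gen {X : Type} (f : X → ℝ) (hf : ∀ x, 0 ≤ f x)
    (h1 : ∑' x, ENNReal.ofReal (f x) ≤ 1) :
    ∑' x, ENNReal.ofReal (f x) = ENNReal.ofReal (∑' x, f x) := by
  have hs : Summable f := by
    have h2 := ENNReal.summable_toReal (ne_top_of_le_ne_top ENNReal.one_ne_top h1)
    refine h2.congr fun a => ?_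
    rw [ENNReal.toReal_ofReal (hf a)]
  rw [ENNReal.ofReal_tsum_of_nonneg hf hs]

private theorem Pr_real (k : ℕ) :
    Ex k (fun a => ind (¬ Good k a)) =
      ENNReal.ofReal (∑' a : {a : Fin k → ℕ // ¬ Good k a}, Pr_term k a.1) := by
  have hle : Ex k (fun a => ind (¬ Good k a)) ≤ 1 := by
    rw [← Pr_add k]
    exact le_add_self
  rw [Pr_sum] at hle ⊢
  exact Pr_gen (fun a : {a : Fin k → ℕ // ¬ Good k a} => Pr_term k a.1)
    (fun a => Pr_term_nonneg k a.1) hle

private theorem Pr_tsum_le (k : ℕ) :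
    ∑' a : {a : Fin k → ℕ // ¬ Good k a}, Pr_term k a.1 ≤ 1 := by
  have hle : Ex k (fun a => ind (¬ Good k a)) ≤ 1 := by
    rw [← Pr_add k]
    exact le_add_self
  rw [Pr_real] at hle
  exact ENNReal.ofReal_le_one.1 hle

theorem PG_self (k : ℕ) : PG k k = ENNReal.ofReal (p k) := by
  have h0 : 0 ≤ ∑' a : {a : Fin k → ℕ // ¬ Good k a}, Pr_term k a.1 :=
    tsum_nonneg fun a => Pr_term_nonneg k a.1
  have h1 := Pr_add k
  rw [Pr_real] at h1
  rw [Pr_p, ENNReal.ofReal_sub _ h0, ENNReal.ofReal_one]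
  exact ENNReal.eq_sub_of_add_eq ENNReal.ofReal_ne_top h1

theorem p_nonneg (k : ℕ) : 0 ≤ p k := by
  rw [Pr_p]
  have := Pr_tsum_le k
  linarith

theorem p_eq {k K : ℕ} (h : k ≤ K) : PG K k = ENNReal.ofReal (p k) := by
  rw [PG_mono_K h, PG_self]

theorem p_toReal {k K : ℕ} (h : k ≤ K) : (PG K k).toReal = p k := by
  rw [p_eq h, ENNReal.toReal_ofReal (p_nonneg k)]

theorem PG_le_one (K m : ℕ) : PG K m ≤ 1 := by
  calc PG K m ≤ Ex K (fun _ => 1) := Ex_mono K fun a => ind_le_one _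
    _ = 1 := Ex_one K

end Pool.Agent.Lib.MP_134bf7_pr.RL
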