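import Pool.Agent.Lib.MP_134bf7_pr.RL.LiDefs

/-!
# RL-LiB: Cauchy's formula

* `len_cyc`: `∑ i, (i + 1) * count (i + 1) parts = parts.sum = n` (all parts are between `1` and `n`).
* `card_cyc`: `cyc σ = a` iff `σ.partition` is the partition with `a i` parts `i + 1`, i.e. iff
  `σ.cycleType` is the multiset `m` with `a i` elements `i + 1` for `i ≥ 1` (then the number of fixed points
  is `n - m.sum = a 0`); `Equiv.Perm.card_of_cycleType` gives
  `n! / ((n - m.sum)! * m.prod * ∏ (count)!) = n! / (∏ i, (i + 1) ^ a i * (a i)!)`.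
-/

namespace Pool.Agent.Lib.MP_134bf7_pr.RL

open Finset
open scoped ENNReal NNReal

private theorem lb_sum {n : ℕ} (s : Multiset ℕ) (hs : ∀ x ∈ s, 1 ≤ x ∧ x ≤ n) :
    s.sum = ∑ i : Fin n, ((i : ℕ) + 1) * s.count ((i : ℕ) + 1) := by
  have h1 : s.toFinset ⊆ Finset.Icc 1 n := by
    intro x hx
    exact Finset.mem_Icc.2 (hs x (Multiset.mem_toFinset.1 hx))
  rw [Finset.sum_multiset_count_of_subset s _ h1]
  rw [Fin.sum_univ_eq_sum_range (fun i => (i + 1) * s.count (i + 1)) n]
  rw [Finset.range_eq_Ico, Finset.sum_Ico_add' (fun i => i * s.count i) 0 n 1]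
  have h2 : Finset.Ico (0 + 1) (n + 1) = Finset.Icc 1 n := by
    ext x
    simp [Finset.mem_Icc, Finset.mem_Ico]
  rw [h2]
  refine Finset.sum_congr rfl fun x _ => ?_
  rw [smul_eq_mul, mul_comm]

private theorem lb_parts {n : ℕ} (σ : Equiv.Perm (Fin n)) :
    ∀ x ∈ σ.partition.parts, 1 ≤ x ∧ x ≤ n := by
  intro x hx
  refine ⟨σ.partition.parts_pos hx, ?_⟩
  have h1 := Multiset.le_sum_of_mem hx
  rw [σ.partition.parts_sum, Fintype.card_fin] at h1
  exact h1

theorem len_cyc {n : ℕ} (σ : Equiv.Perm (Fin n)) : len (cyc σ) = n := by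
  have h1 := lb_sum σ.partition.parts (lb_parts σ)
  have h2 : σ.partition.parts.sum = n := by
    rw [σ.partition.parts_sum, Fintype.card_fin]
  unfold len cyc
  exact h1.symm.trans h2

/-- The multiset with `a i` elements `i + 1`. -/
private def lbP {n : ℕ} (a : Fin n → ℕ) : Multiset ℕ :=
  ∑ i : Fin n, Multiset.replicate (a i) ((i : ℕ) + 1)

private theorem lbP_mem {n : ℕ} (a : Fin n → ℕ) : ∀ x ∈ lbP a, 1 ≤ x ∧ x ≤ n := by
  intro x hx
  unfold lbP at hx
  rw [Multiset.mem_sum] at hx
  obtain ⟨i, _, hi⟩ := hx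
  rw [Multiset.eq_of_mem_replicate hi]
  have := i.2
  omega

private theorem lbP_count {n : ℕ} (a : Fin n → ℕ) (i : Fin n) :
    (lbP a).count ((i : ℕ) + 1) = a i := by
  unfold lbP
  rw [Multiset.count_sum']
  rw [Finset.sum_eq_single i]
  · rw [Multiset.count_replicate_self]
  · intro j _ hj
    rw [Multiset.count_replicate, if_neg]
    intro h
    exact hj (Fin.ext (by omega))
  · intro h
    exact absurd (Finset.mem_univ i) h

private theorem lbP_sum {n : ℕ} (a : Fin n → ℕ) : (lbP a).sum = len a := by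
  rw [lb_sum (lbP a) (lbP_mem a)]
  unfold len
  exact Finset.sum_congr rfl fun i _ => by rw [lbP_count]

private theorem lbP_prod {n : ℕ} (a : Fin n → ℕ) :
    (lbP a).prod = ∏ i : Fin n, ((i : ℕ) + 1) ^ a i := by
  unfold lbP
  rw [Multiset.prod_sum]
  exact Finset.prod_congr rfl fun i _ => by rw [Multiset.prod_replicate]

private theorem lb_ext {n : ℕ} {s t : Multiset ℕ} (hs : ∀ x ∈ s, 1 ≤ x ∧ x ≤ n)
    (ht : ∀ x ∈ t, 1 ≤ x ∧ x ≤ n)
    (h : ∀ i : Fin n, s.count ((i : ℕ) + 1) = t.count ((i : ℕ) + 1)) : s = t := by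
  ext x
  by_cases hx : 1 ≤ x ∧ x ≤ n
  · have h1 := h ⟨x - 1, by omega⟩
    have h2 : ((⟨x - 1, by omega⟩ : Fin n) : ℕ) + 1 = x := by
      change x - 1 + 1 = x
      omega
    rw [h2] at h1
    exact h1
  · rw [Multiset.count_eq_zero_of_notMem fun h1 => hx (hs x h1),
      Multiset.count_eq_zero_of_notMem fun h1 => hx (ht x h1)]

private theorem lb_split {n : ℕ} (s : Multiset ℕ) (hs : ∀ x ∈ s, 1 ≤ x ∧ x ≤ n) :
    s = s.filter (fun x => 2 ≤ x) + Multiset.replicate (s.count 1) 1 := by
  have h1 := Multiset.filter_add_not (fun x => 2 ≤ x) s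
  have h2 : s.filter (fun x => ¬ 2 ≤ x) = Multiset.replicate (s.count 1) 1 := by
    rw [← Multiset.filter_eq']
    apply Multiset.filter_congr
    intro x hx
    have := hs x hx
    omega
  rw [h2] at h1
  exact h1.symm

private theorem lb_iff {n : ℕ} (a : Fin n → ℕ) (h : len a = n) (σ : Equiv.Perm (Fin n)) :
    cyc σ = a ↔ σ.cycleType = (lbP a).filter (fun x => 2 ≤ x) := by
  constructor
  · intro h1
    have h2 : σ.partition.parts = lbP a := by
      refine lb_ext (lb_parts σ) (lbP_mem a) fun i => ?_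
      rw [lbP_count, ← h1]
      rfl
    rw [← Equiv.Perm.filter_parts_partition_eq_cycleType, h2]
  · intro h1
    have h2 := lb_split (lbP a) (lbP_mem a)
    have h3 : (lbP a).sum = ((lbP a).filter (fun x => 2 ≤ x)).sum + (lbP a).count 1 := by
      conv_lhs => rw [h2]
      rw [Multiset.sum_add, Multiset.sum_replicate, smul_eq_mul, mul_one]
    rw [lbP_sum, h] at h3
    have h4 : σ.partition.parts = lbP a := by
      rw [Equiv.Perm.parts_partition, ← Equiv.Perm.sum_cycleType, h1, Fintype.card_fin]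
      conv_rhs => rw [h2]
      congr 2
      omega
    funext i
    unfold cyc
    rw [h4, lbP_count]

theorem card_cyc {n : ℕ} (a : Fin n → ℕ) (h : len a = n) :
    ((univ.filter fun σ : Equiv.Perm (Fin n) => cyc σ = a).card : ℝ≥0) =
      (n.factorial : ℝ≥0) * wt (mu n) a := by
  classical
  set m : Multiset ℕ := (lbP a).filter (fun x => 2 ≤ x) with hm
  have hcard : (univ.filter fun σ : Equiv.Perm (Fin n) => cyc σ = a).card =
      (univ.filter fun σ : Equiv.Perm (Fin n) => σ.cycleType = m).card := by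
    congr 1
    ext σ
    simp only [mem_filter, mem_univ, true_and]
    exact lb_iff a h σ
  have h2 := lb_split (lbP a) (lbP_mem a)
  rw [← hm] at h2
  have h3 : n = m.sum + (lbP a).count 1 := by
    have h4 : (lbP a).sum = m.sum + (lbP a).count 1 := by
      conv_lhs => rw [h2]
      rw [Multiset.sum_add, Multiset.sum_replicate, smul_eq_mul, mul_one]
    rw [lbP_sum, h] at h4
    exact h4
  have hm2 : ∀ x ∈ m, 2 ≤ x := fun x hx => (Multiset.mem_filter.1 hx).2
  have hmul := Equiv.Perm.card_of_cycleType_mul_eq (Fin n) m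
  rw [Fintype.card_fin, if_pos ⟨by omega, hm2⟩] at hmul
  have hprod : m.prod = ∏ i : Fin n, ((i : ℕ) + 1) ^ a i := by
    rw [← lbP_prod]
    conv_rhs => rw [h2]
    rw [Multiset.prod_add, Multiset.prod_replicate, one_pow, mul_one]
  have hsub : n - m.sum = (lbP a).count 1 := by omega
  have hfact : (n - m.sum).factorial * ∏ x ∈ m.toFinset, (m.count x).factorial =
      ∏ i : Fin n, (a i).factorial := by
    have h1m : (1 : ℕ) ∉ m.toFinset := by
      intro h1
      have := hm2 1 (Multiset.mem_toFinset.1 h1)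
      omega
    have e1 : (n - m.sum).factorial * ∏ x ∈ m.toFinset, (m.count x).factorial =
        ∏ x ∈ insert 1 m.toFinset, ((lbP a).count x).factorial := by
      rw [prod_insert h1m, hsub]
      congr 1
      refine prod_congr rfl fun x hx => ?_
      rw [hm, Multiset.count_filter_of_pos (hm2 x (Multiset.mem_toFinset.1 hx))]
    have e2 : ∏ x ∈ (lbP a).toFinset, ((lbP a).count x).factorial =
        ∏ x ∈ insert 1 m.toFinset, ((lbP a).count x).factorial := by
      apply prod_subset
      · intro x hx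
        rw [Multiset.mem_toFinset] at hx
        rw [mem_insert, Multiset.mem_toFinset]
        have h5 := lbP_mem a x hx
        by_cases h6 : x = 1
        · exact Or.inl h6
        · exact Or.inr (Multiset.mem_filter.2 ⟨hx, by omega⟩)
      · intro x _ hx
        rw [Multiset.mem_toFinset] at hx
        rw [Multiset.count_eq_zero_of_notMem hx, Nat.factorial_zero]
    have e3 : ∏ x ∈ (lbP a).toFinset, ((lbP a).count x).factorial =
        ∏ x ∈ univ.image (fun i : Fin n => (i : ℕ) + 1), ((lbP a).count x).factorial := by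
      apply prod_subset
      · intro x hx
        rw [Multiset.mem_toFinset] at hx
        have h5 := lbP_mem a x hx
        rw [mem_image]
        refine ⟨⟨x - 1, by omega⟩, mem_univ _, ?_⟩
        change x - 1 + 1 = x
        omega
      · intro x _ hx
        rw [Multiset.mem_toFinset] at hx
        rw [Multiset.count_eq_zero_of_notMem hx, Nat.factorial_zero]
    rw [e1, ← e2, e3, prod_image]
    · exact prod_congr rfl fun i _ => by rw [lbP_count]
    · intro i _ j _ hij
      exact Fin.ext (by simpa using hij)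
  have hN : (univ.filter fun σ : Equiv.Perm (Fin n) => σ.cycleType = m).card *
      ∏ i : Fin n, (((i : ℕ) + 1) ^ a i * (a i).factorial) = n.factorial := by
    rw [prod_mul_distrib, ← hprod, ← hfact]
    rw [← hmul]
    ring
  rw [hcard]
  have hwt : wt (mu n) a =
      (∏ i : Fin n, ((((i : ℕ) + 1 : ℕ) : ℝ≥0) ^ a i * ((a i).factorial : ℝ≥0)))⁻¹ := by
    unfold wt mu
    rw [← prod_inv_distrib]
    refine prod_congr rfl fun i _ => ?_
    rw [mul_inv, div_eq_mul_inv, one_div, inv_pow]
    push_cast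
    rfl
  rw [hwt, ← div_eq_mul_inv, eq_div_iff]
  · rw [← hN]
    push_cast
    rfl
  · refine prod_ne_zero_iff.2 fun i _ => ?_
    refine mul_ne_zero (pow_ne_zero _ ?_) ?_
    · exact_mod_cast Nat.succ_ne_zero (i : ℕ)
    · exact_mod_cast (Nat.factorial_ne_zero (a i))

end Pool.Agent.Lib.MP_134bf7_pr.RL
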