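import Pool.Agent.Lib.MP_134bf7_pr.RL.LiC

/-!
# RL-LiD: `Dk k l → exp (- HH k)` as `l → ∞`

* `Dk_le_one`: induction.
* Convergence: for `l ≥ k`, `(l + 1) * D (l + 1) - l * D l = D (l - k)` (the two sums differ by the term
  `i = l - k`), so `D (l + 1) - D l = (D (l - k) - D l) / (l + 1)`; with `M_l = max_{l - k ≤ i < l} |D (i + 1) - D i|`
  the right side is at most `k * M_l / (l + 1)`, so for `l + 1 ≥ 2 * k` the differences are at most half of
  the maximum of the `k` preceding ones, hence they decay geometrically and are summable: `D` is a Cauchy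
  sequence, with a limit `L`.  (For `k = 0`: `D l = 1` for all `l`.)
* `L = exp (- HH k)`: `conv` with `F = 1` and `total`: `1 = ∑' a, wt a * D (n - len a) * [len a ≤ n]` for
  `n ≥ k`; `∑' a, wt a = exp (HH k)` (`Z_one`), the terms are at most `wt a` and tend to `wt a * L`, so by
  dominated convergence `1 = exp (HH k) * L`.
-/

namespace Pool.Agent.Lib.MP_134bf7_pr.RL

open Finset Filter Topology
open scoped ENNReal NNReal

private theorem LiD_rec (k l : ℕ) : Dk k (l + 1) =
    (∑ i : Fin (l + 1), if (i : ℕ) + k < l + 1 then Dk k i else 0) / ((l : ℝ) + 1) := by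
  rw [Dk]

theorem Dk_le_one (k l : ℕ) : Dk k l ≤ 1 := by
  induction l using Nat.strong_induction_on with
  | _ l ih =>
    cases l with
    | zero => rw [Dk]
    | succ l =>
      rw [LiD_rec, div_le_one (by positivity)]
      calc (∑ i : Fin (l + 1), if (i : ℕ) + k < l + 1 then Dk k i else 0)
          ≤ ∑ i : Fin (l + 1), (1 : ℝ) := Finset.sum_le_sum fun i _ => by
              split_ifs
              · exact ih i i.2
              · exact zero_le_one
        _ = (l : ℝ) + 1 := by simp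

private theorem LiD_rec2 (k l : ℕ) (h : k ≤ l) :
    ((l : ℝ) + 1) * Dk k (l + 1) = ∑ i ∈ range (l + 1 - k), Dk k i := by
  rw [LiD_rec, mul_div_cancel₀ _ (by positivity)]
  rw [Fin.sum_univ_eq_sum_range (fun i => if i + k < l + 1 then Dk k i else 0) (l + 1)]
  rw [← Finset.sum_filter]
  refine Finset.sum_congr ?_ fun _ _ => rfl
  ext i
  rw [Finset.mem_filter, Finset.mem_range, Finset.mem_range]
  omega

private theorem LiD_diff (k l : ℕ) (h : k + 1 ≤ l) :
    ((l : ℝ) + 1) * (Dk k (l + 1) - Dk k l) = Dk k (l - k) - Dk k l := by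
  obtain ⟨m, rfl⟩ : ∃ m, l = m + 1 := ⟨l - 1, by omega⟩
  have h1 := LiD_rec2 k (m + 1) (by omega)
  have h2 := LiD_rec2 k m (by omega)
  have e : m + 1 + 1 - k = (m + 1 - k) + 1 := by omega
  rw [e, Finset.sum_range_succ, ← h2] at h1
  push_cast at h1 ⊢
  linarith

private theorem LiD_dist (k l : ℕ) (h : k + 1 ≤ l) :
    ((l : ℝ) + 1) * dist (Dk k l) (Dk k (l + 1)) ≤
      ∑ j ∈ range k, dist (Dk k (l - k + j)) (Dk k (l - k + j + 1)) := by
  have h1 := LiD_diff k l h
  have h2 : ((l : ℝ) + 1) * dist (Dk k l) (Dk k (l + 1)) = dist (Dk k (l - k)) (Dk k l) := by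
    rw [dist_comm, Real.dist_eq, Real.dist_eq, ← h1, abs_mul, abs_of_pos (by positivity : (0:ℝ) < (l : ℝ) + 1)]
  rw [h2]
  have h3 := dist_le_Ico_sum_dist (Dk k) (show l - k ≤ l by omega)
  rw [Finset.sum_Ico_eq_sum_range] at h3
  have h4 : l - (l - k) = k := by omega
  rw [h4] at h3
  exact h3

private theorem LiD_d1 (k l : ℕ) : dist (Dk k l) (Dk k (l + 1)) ≤ 1 := by
  rw [Real.dist_eq, abs_le]
  have a1 := Dk_le_one k l
  have a2 := Dk_le_one k (l + 1)
  have a3 := Dk_nonneg k l
  have a4 := Dk_nonneg k (l + 1)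
  constructor <;> linarith

private theorem LiD_summable (k : ℕ) : Summable fun l => dist (Dk k l) (Dk k (l + 1)) := by
  obtain ⟨d, hd⟩ : ∃ d : ℕ → ℝ, d = fun l => dist (Dk k l) (Dk k (l + 1)) := ⟨_, rfl⟩
  rw [← hd]
  have hd0 : ∀ l, 0 ≤ d l := fun l => by rw [hd]; exact dist_nonneg
  have hd1 : ∀ l, d l ≤ 1 := fun l => by rw [hd]; exact LiD_d1 k l
  have hs : ∀ m, 0 ≤ ∑ i ∈ range m, d i := fun m => Finset.sum_nonneg fun i _ => hd0 i
  have hpt : ∀ s, d (k + s) ≤ (if s < k + 1 then (1 : ℝ) else 0) +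
      1 / (2 * (k : ℝ) + 1) * ∑ j ∈ range k, d (j + s) := by
    intro s
    have hsum : 0 ≤ ∑ j ∈ range k, d (j + s) := Finset.sum_nonneg fun i _ => hd0 _
    by_cases hsk : s < k + 1
    · rw [if_pos hsk]
      have : 0 ≤ 1 / (2 * (k : ℝ) + 1) * ∑ j ∈ range k, d (j + s) := by positivity
      linarith [hd1 (k + s)]
    · rw [if_neg hsk, zero_add]
      have h1 := LiD_dist k (k + s) (by omega)
      have h2 : ∑ j ∈ range k, dist (Dk k (k + s - k + j)) (Dk k (k + s - k + j + 1)) =
          ∑ j ∈ range k, d (j + s) := by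
        refine Finset.sum_congr rfl fun j _ => ?_
        have : k + s - k + j = j + s := by omega
        rw [this, hd]
      rw [h2] at h1
      have h3 : (((k + s : ℕ) : ℝ) + 1) * d (k + s) ≤ ∑ j ∈ range k, d (j + s) := by
        rw [hd]
        rw [hd] at h1
        exact h1
      have h4 : (2 * (k : ℝ) + 1) ≤ (((k + s : ℕ) : ℝ) + 1) := by
        have : 2 * k + 1 ≤ k + s + 1 := by omega
        exact_mod_cast this
      have h5 : (2 * (k : ℝ) + 1) * d (k + s) ≤ ∑ j ∈ range k, d (j + s) :=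
        (mul_le_mul_of_nonneg_right h4 (hd0 _)).trans h3
      rw [one_div, ← div_eq_inv_mul, le_div_iff₀ (by positivity), mul_comm]
      exact h5
  have hN : ∀ N, ∑ i ∈ range (k + N), d i ≤ 4 * (k : ℝ) + 2 := by
    intro N
    have e1 : ∑ i ∈ range (k + N), d i = ∑ i ∈ range k, d i + ∑ s ∈ range N, d (k + s) :=
      Finset.sum_range_add _ _ _
    have e2 : ∑ i ∈ range k, d i ≤ k := by
      calc ∑ i ∈ range k, d i ≤ ∑ i ∈ range k, (1 : ℝ) := Finset.sum_le_sum fun i _ => hd1 i
        _ = k := by simp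
    have e3 : ∑ s ∈ range N, (if s < k + 1 then (1 : ℝ) else 0) ≤ (k : ℝ) + 1 := by
      rw [← Finset.sum_filter, Finset.sum_const, nsmul_eq_mul, mul_one]
      have h1 : ((range N).filter fun s => s < k + 1).card ≤ k + 1 := by
        refine (Finset.card_le_card (t := range (k + 1)) fun s hs => ?_).trans (by simp)
        rw [Finset.mem_filter] at hs
        exact Finset.mem_range.2 hs.2
      exact_mod_cast h1
    have e4 : ∀ j ∈ range k, ∑ s ∈ range N, d (j + s) ≤ ∑ i ∈ range (k + N), d i := by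
      intro j hj
      have h1 : ∑ i ∈ range (j + N), d i = ∑ i ∈ range j, d i + ∑ s ∈ range N, d (j + s) :=
        Finset.sum_range_add _ _ _
      have h2 : ∑ i ∈ range (j + N), d i ≤ ∑ i ∈ range (k + N), d i := by
        refine Finset.sum_le_sum_of_subset_of_nonneg ?_ fun i _ _ => hd0 i
        have := Finset.mem_range.1 hj
        exact Finset.range_subset_range.2 (by omega)
      linarith [hs j]
    have e5 : ∑ s ∈ range N, ∑ j ∈ range k, d (j + s) ≤ k * ∑ i ∈ range (k + N), d i := by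
      rw [Finset.sum_comm]
      calc ∑ j ∈ range k, ∑ s ∈ range N, d (j + s)
          ≤ ∑ j ∈ range k, ∑ i ∈ range (k + N), d i := Finset.sum_le_sum e4
        _ = k * ∑ i ∈ range (k + N), d i := by simp
    have e6 : ∑ s ∈ range N, d (k + s) ≤ ((k : ℝ) + 1) +
        1 / (2 * (k : ℝ) + 1) * (k * ∑ i ∈ range (k + N), d i) := by
      calc ∑ s ∈ range N, d (k + s)
          ≤ ∑ s ∈ range N, ((if s < k + 1 then (1 : ℝ) else 0) +
              1 / (2 * (k : ℝ) + 1) * ∑ j ∈ range k, d (j + s)) :=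
            Finset.sum_le_sum fun s _ => hpt s
        _ = ∑ s ∈ range N, (if s < k + 1 then (1 : ℝ) else 0) +
              1 / (2 * (k : ℝ) + 1) * ∑ s ∈ range N, ∑ j ∈ range k, d (j + s) := by
            rw [Finset.sum_add_distrib, ← Finset.mul_sum]
        _ ≤ _ := by
            refine add_le_add e3 ?_
            exact mul_le_mul_of_nonneg_left e5 (by positivity)
    have e7 : 1 / (2 * (k : ℝ) + 1) * (k * ∑ i ∈ range (k + N), d i) ≤
        1 / 2 * ∑ i ∈ range (k + N), d i := by
      rw [← mul_assoc]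
      refine mul_le_mul_of_nonneg_right ?_ (hs _)
      rw [div_mul_eq_mul_div, one_mul, div_le_div_iff₀ (by positivity) (by norm_num)]
      linarith
    linarith
  refine summable_of_sum_range_le hd0 (c := 4 * (k : ℝ) + 2) fun N => ?_
  refine (Finset.sum_le_sum_of_subset_of_nonneg ?_ fun i _ _ => hd0 i).trans (hN N)
  exact Finset.range_subset_range.2 (by omega)

theorem Dk_tendsto (k : ℕ) : Tendsto (Dk k) atTop (𝓝 (Real.exp (-(HH k)))) := by
  obtain ⟨L, hL⟩ := cauchySeq_tendsto_of_complete (cauchySeq_of_summable_dist (LiD_summable k))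
  have hw : Z (mu k) (fun _ => 1) = ENNReal.ofReal (Real.exp (HH k)) := by
    rw [Z_one]
    congr 2
  obtain ⟨w, hwd⟩ : ∃ w : (Fin k → ℕ) → ℝ, w = fun a => ((wt (mu k) a : ℝ≥0) : ℝ) := ⟨_, rfl⟩
  have hw0 : ∀ a, 0 ≤ w a := fun a => by rw [hwd]; exact NNReal.coe_nonneg _
  have hwE : ∀ a, (wt (mu k) a : ℝ≥0∞) = ENNReal.ofReal (w a) := fun a => by
    rw [hwd]
    exact (ENNReal.ofReal_coe_nnreal).symm
  have hts : ∑' a, ENNReal.ofReal (w a) = ENNReal.ofReal (Real.exp (HH k)) := by
    rw [← hw]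
    unfold Z
    refine tsum_congr fun a => ?_
    rw [mul_one, hwE]
  have hsw : Summable w := by
    have h1 : ∑' a, ENNReal.ofReal (w a) ≠ ⊤ := by
      rw [hts]
      exact ENNReal.ofReal_ne_top
    have h2 : Summable fun a => (wt (mu k) a : ℝ≥0) := by
      refine ENNReal.tsum_coe_ne_top_iff_summable.1 ?_
      simp only [hwE]
      exact h1
    rw [hwd]
    exact NNReal.summable_coe.2 h2
  have hws : ∑' a, w a = Real.exp (HH k) := by
    rw [← ENNReal.ofReal_tsum_of_nonneg hw0 hsw] at hts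
    exact (ENNReal.ofReal_eq_ofReal_iff (tsum_nonneg hw0) (Real.exp_pos _).le).1 hts
  obtain ⟨g, hg⟩ : ∃ g : ℕ → (Fin k → ℕ) → ℝ,
      g = fun n a => w a * (if len a ≤ n then Dk k (n - len a) else 0) := ⟨_, rfl⟩
  have hg0 : ∀ n a, 0 ≤ g n a := fun n a => by
    rw [hg]
    refine mul_nonneg (hw0 a) ?_
    split_ifs
    · exact Dk_nonneg _ _
    · exact le_rfl
  have hgw : ∀ n a, g n a ≤ w a := fun n a => by
    rw [hg]
    refine mul_le_of_le_one_right (hw0 a) ?_
    split_ifs
    · exact Dk_le_one _ _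
    · exact zero_le_one
  have hg1 : ∀ n, k ≤ n → ∑' a, g n a = 1 := by
    intro n hn
    have h1 := conv hn (fun _ => 1)
    simp only [mul_one, one_mul] at h1
    rw [total n] at h1
    have h2 : ∑' a : Fin k → ℕ, ENNReal.ofReal (g n a) = 1 := by
      rw [h1]
      refine tsum_congr fun a => ?_
      rw [hg, hwE, ENNReal.ofReal_mul (hw0 a)]
      congr 1
      split_ifs
      · rfl
      · exact ENNReal.ofReal_zero
    rw [← ENNReal.ofReal_tsum_of_nonneg (hg0 n) (Summable.of_nonneg_of_le (hg0 n) (hgw n) hsw)] at h2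
    exact ENNReal.ofReal_eq_one.1 h2
  have hlim : Tendsto (fun n => ∑' a, g n a) atTop (𝓝 (∑' a, w a * L)) := by
    refine tendsto_tsum_of_dominated_convergence hsw (fun a => ?_)
      (Eventually.of_forall fun n a => ?_)
    · rw [hg]
      refine Tendsto.const_mul _ ?_
      have h1 : Tendsto (fun n => Dk k (n - len a)) atTop (𝓝 L) :=
        hL.comp (tendsto_sub_atTop_nat _)
      refine h1.congr' ?_
      filter_upwards [eventually_ge_atTop (len a)] with n hn
      rw [if_pos hn]
    · rw [Real.norm_of_nonneg (hg0 n a)]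
      exact hgw n a
  have hone : Tendsto (fun n => ∑' a, g n a) atTop (𝓝 1) := by
    refine (tendsto_const_nhds (x := (1 : ℝ))).congr' ?_
    filter_upwards [eventually_ge_atTop k] with n hn
    exact (hg1 n hn).symm
  have hfin := tendsto_nhds_unique hlim hone
  rw [tsum_mul_right, hws] at hfin
  have hLv : L = Real.exp (-(HH k)) := by
    rw [Real.exp_neg]
    exact eq_inv_of_mul_eq_one_right hfin
  rw [← hLv]
  exact hL

end Pool.Agent.Lib.MP_134bf7_pr.RL
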