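import Pool.Agent.Lib.MP_134bf7_pr.RL.LiA
import Pool.Agent.Lib.MP_134bf7_pr.RL.LiB
import Pool.Agent.Lib.MP_134bf7_pr.RL.LiD

/-!
# RL-LiE: the limit law

For `n ≥ k`: by `fixes_iff`, `len_cyc`, `card_cyc`
`ofReal (prob n k) = ∑_{a, len a = n, Good k a} wt (mu n) a = Z (mu n) (a ↦ ind (len a = n) * ind (Good k a))`
(group the permutations by `cyc σ`), and `Good k a ↔ Good k (short a)` (a sub-configuration of total
length `k` has no cycle of length `> k`; extend by `0`).  By `conv` with `F = ind ∘ Good k`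
`ofReal (prob n k) = ∑' a, wt (mu k) a * (ind (Good k a) * [len a ≤ n] * ofReal (Dk k (n - len a)))`; the terms
are at most `wt (mu k) a` (`Dk_le_one`), which is summable (`Z_one`), and tend to
`wt (mu k) a * ind (Good k a) * exp (- HH k)` (`Dk_tendsto`), so the sum tends to `PG k k = ofReal (p k)`
(`PG_self`).
-/

namespace Pool.Agent.Lib.MP_134bf7_pr.RL

open Finset Filter Topology
open scoped ENNReal NNReal

/-- group the permutations by their cycle counts -/
private theorem LiE_card (n k : ℕ) :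
    ENNReal.ofReal (prob n k) = Z (mu n) (fun a => ind (len a = n) * ind (Good k a)) := by
  classical
  have hfac : (n.factorial : ℝ≥0) ≠ 0 := by exact_mod_cast n.factorial_ne_zero
  -- the sum is over the image of `cyc`
  have hZ : Z (mu n) (fun a => ind (len a = n) * ind (Good k a)) =
      ∑ a ∈ (univ : Finset (Equiv.Perm (Fin n))).image cyc,
        (wt (mu n) a : ℝ≥0∞) * ind (Good k a) := by
    unfold Z
    rw [tsum_eq_sum (s := (univ : Finset (Equiv.Perm (Fin n))).image cyc)]
    · refine Finset.sum_congr rfl fun a ha => ?_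
      obtain ⟨σ, -, rfl⟩ := Finset.mem_image.1 ha
      beta_reduce
      rw [ind_true (len_cyc σ), one_mul]
    · intro a ha
      by_cases hl : len a = n
      · have h1 := card_cyc a hl
        have h2 : (univ.filter fun σ : Equiv.Perm (Fin n) => cyc σ = a) = ∅ := by
          apply Finset.filter_eq_empty_iff.2
          intro σ _ h
          exact ha (Finset.mem_image.2 ⟨σ, Finset.mem_univ _, h⟩)
        rw [h2, Finset.card_empty, Nat.cast_zero] at h1
        have h3 : wt (mu n) a = 0 := by
          rcases mul_eq_zero.1 h1.symm with h | h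
          · exact absurd h hfac
          · exact h
        rw [h3, ENNReal.coe_zero, zero_mul]
      · beta_reduce
        rw [ind_false hl, zero_mul, mul_zero]
  -- the cardinality
  have hc : (Fintype.card {σ : Equiv.Perm (Fin n) //
      ∃ S : Finset (Fin n), S.card = k ∧ S.image σ = S} : ℝ≥0∞) =
      ∑ a ∈ (univ : Finset (Equiv.Perm (Fin n))).image cyc,
        ((n.factorial : ℝ≥0) : ℝ≥0∞) * ((wt (mu n) a : ℝ≥0∞) * ind (Good k a)) := by
    have h1 : Fintype.card {σ : Equiv.Perm (Fin n) //
        ∃ S : Finset (Fin n), S.card = k ∧ S.image σ = S} =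
        (univ.filter fun σ : Equiv.Perm (Fin n) => Good k (cyc σ)).card := by
      rw [Fintype.card_subtype]
      congr 1
      ext σ
      simp only [mem_filter, mem_univ, true_and]
      exact fixes_iff σ k
    rw [h1, Finset.card_eq_sum_card_image cyc
      (univ.filter fun σ : Equiv.Perm (Fin n) => Good k (cyc σ)), Nat.cast_sum]
    rw [← Finset.sum_subset (s₁ := (univ.filter fun σ : Equiv.Perm (Fin n) =>
      Good k (cyc σ)).image cyc) (Finset.image_subset_image (Finset.filter_subset _ _))]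
    · refine Finset.sum_congr rfl fun a ha => ?_
      obtain ⟨σ, hσ, rfl⟩ := Finset.mem_image.1 ha
      have hG : Good k (cyc σ) := (Finset.mem_filter.1 hσ).2
      have h2 := card_cyc (cyc σ) (len_cyc σ)
      rw [ind_true hG, mul_one]
      have h3 : ((univ.filter fun σ : Equiv.Perm (Fin n) => Good k (cyc σ)).filter
          fun τ => cyc τ = cyc σ) = univ.filter fun τ : Equiv.Perm (Fin n) => cyc τ = cyc σ := by
        ext τ
        simp only [mem_filter, mem_univ, true_and]
        constructor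
        · exact fun h => h.2
        · intro h
          exact ⟨by rw [h]; exact hG, h⟩
      rw [h3, ← ENNReal.coe_mul, ← h2]
      simp
    · intro a ha hna
      obtain ⟨σ, -, rfl⟩ := Finset.mem_image.1 ha
      have hG : ¬ Good k (cyc σ) := by
        intro h
        exact hna (Finset.mem_image.2 ⟨σ, Finset.mem_filter.2 ⟨Finset.mem_univ _, h⟩, rfl⟩)
      rw [ind_false hG, mul_zero, mul_zero]
  unfold prob
  rw [hZ, ENNReal.ofReal_div_of_pos (by exact_mod_cast n.factorial_pos), ENNReal.ofReal_natCast,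
    ENNReal.ofReal_natCast, hc, ← Finset.mul_sum, ENNReal.coe_natCast, mul_comm, mul_div_assoc,
    ENNReal.div_self, mul_one]
  · exact_mod_cast n.factorial_ne_zero
  · exact ENNReal.natCast_ne_top _

private theorem LiE_good {k n : ℕ} (h : k ≤ n) (a : Fin n → ℕ) :
    Good k a ↔ Good k (short h a) := by
  obtain ⟨d, rfl⟩ := Nat.exists_eq_add_of_le h
  constructor
  · rintro ⟨c, hc, hl⟩
    unfold len at hl
    rw [Fin.sum_univ_add] at hl
    have h0 : ∀ i : Fin d, c (Fin.natAdd k i) = 0 := by
      intro i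
      by_contra h
      have h1 : (((Fin.natAdd k i : Fin (k + d)) : ℕ) + 1) * c (Fin.natAdd k i) ≤
          ∑ i : Fin d, (((Fin.natAdd k i : Fin (k + d)) : ℕ) + 1) * c (Fin.natAdd k i) :=
        Finset.single_le_sum
          (f := fun i : Fin d => (((Fin.natAdd k i : Fin (k + d)) : ℕ) + 1) * c (Fin.natAdd k i))
          (fun _ _ => Nat.zero_le _) (Finset.mem_univ i)
      have h2 : (((Fin.natAdd k i : Fin (k + d)) : ℕ) + 1) * 1 ≤
          (((Fin.natAdd k i : Fin (k + d)) : ℕ) + 1) * c (Fin.natAdd k i) :=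
        Nat.mul_le_mul_left _ (Nat.one_le_iff_ne_zero.2 h)
      rw [Fin.val_natAdd] at h2 h1
      simp only [Fin.val_natAdd] at h1 hl
      omega
    refine ⟨fun i => c (Fin.castAdd d i), fun i => hc (Fin.castAdd d i), ?_⟩
    unfold len
    have h1 : ∑ i : Fin d, (((Fin.natAdd k i : Fin (k + d)) : ℕ) + 1) * c (Fin.natAdd k i) = 0 := by
      refine Finset.sum_eq_zero fun i _ => ?_
      rw [h0 i, mul_zero]
    rw [h1, add_zero] at hl
    refine Eq.trans ?_ hl
    refine Finset.sum_congr rfl fun i _ => ?_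
    rw [Fin.val_castAdd]
  · rintro ⟨c, hc, hl⟩
    refine ⟨Fin.append c (fun _ => 0), fun i => ?_, ?_⟩
    · refine Fin.addCases (fun i => ?_) (fun i => ?_) i
      · rw [Fin.append_left]
        exact hc i
      · rw [Fin.append_right]
        exact Nat.zero_le _
    · unfold len at hl ⊢
      rw [Fin.sum_univ_add]
      simp only [Fin.append_left, Fin.append_right, mul_zero, Finset.sum_const_zero, add_zero,
        Fin.val_castAdd]
      exact hl

open Classical in
private noncomputable def LiE_T (k n : ℕ) (a : Fin k → ℕ) : ℝ :=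
  ((wt (mu k) a : ℝ≥0) : ℝ) *
    ((if Good k a then 1 else 0) * (if len a ≤ n then Dk k (n - len a) else 0))

private theorem LiE_T_nonneg (k n : ℕ) (a : Fin k → ℕ) : 0 ≤ LiE_T k n a := by
  unfold LiE_T
  have h1 : (0 : ℝ) ≤ if len a ≤ n then Dk k (n - len a) else 0 := by
    split_ifs
    · exact Dk_nonneg _ _
    · exact le_rfl
  positivity

private theorem LiE_T_le (k n : ℕ) (a : Fin k → ℕ) : LiE_T k n a ≤ ((wt (mu k) a : ℝ≥0) : ℝ) := by
  unfold LiE_T
  have h1 : (if len a ≤ n then Dk k (n - len a) else 0 : ℝ) ≤ 1 := by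
    split_ifs
    · exact Dk_le_one _ _
    · exact zero_le_one
  have h0 : (0 : ℝ) ≤ if len a ≤ n then Dk k (n - len a) else 0 := by
    split_ifs
    · exact Dk_nonneg _ _
    · exact le_rfl
  classical
  have h2 : (if Good k a then 1 else 0 : ℝ) ≤ 1 := by split_ifs <;> norm_num
  have h3 : (0 : ℝ) ≤ if Good k a then 1 else 0 := by split_ifs <;> norm_num
  calc _ ≤ ((wt (mu k) a : ℝ≥0) : ℝ) * (1 * 1) := by
        refine mul_le_mul_of_nonneg_left ?_ (NNReal.coe_nonneg _)
        exact mul_le_mul (by convert h2) h1 h0 zero_le_one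
    _ = _ := by ring

private theorem LiE_summable (k : ℕ) : Summable fun a : Fin k → ℕ => ((wt (mu k) a : ℝ≥0) : ℝ) := by
  have h := Z_one (mu k)
  unfold Z at h
  have h1 : ∑' a : Fin k → ℕ, (wt (mu k) a : ℝ≥0∞) ≠ ⊤ := by
    have h2 : (∑' a : Fin k → ℕ, (wt (mu k) a : ℝ≥0∞)) =
        ∑' a : Fin k → ℕ, (wt (mu k) a : ℝ≥0∞) * 1 := tsum_congr fun a => (mul_one _).symm
    rw [h2, h]
    exact ENNReal.ofReal_ne_top
  exact NNReal.summable_coe.2 (ENNReal.tsum_coe_ne_top_iff_summable.1 h1)

private theorem LiE_T_ofReal (k n : ℕ) (a : Fin k → ℕ) :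
    ENNReal.ofReal (LiE_T k n a) = (wt (mu k) a : ℝ≥0∞) * (ind (Good k a) *
        (if len a ≤ n then ENNReal.ofReal (Dk k (n - len a)) else 0)) := by
  unfold LiE_T
  rw [ENNReal.ofReal_mul (NNReal.coe_nonneg _), ENNReal.ofReal_coe_nnreal]
  congr 1
  by_cases hG : Good k a
  · rw [ind_true hG, if_pos hG, one_mul, one_mul]
    split_ifs
    · rfl
    · exact ENNReal.ofReal_zero
  · rw [ind_false hG, if_neg hG, zero_mul, zero_mul, ENNReal.ofReal_zero]

private theorem LiE_prob {k n : ℕ} (h : k ≤ n) : prob n k = ∑' a : Fin k → ℕ, LiE_T k n a := by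
  have hs : Summable (LiE_T k n) :=
    Summable.of_nonneg_of_le (LiE_T_nonneg k n) (LiE_T_le k n) (LiE_summable k)
  have h1 : ENNReal.ofReal (prob n k) = ENNReal.ofReal (∑' a : Fin k → ℕ, LiE_T k n a) := by
    rw [LiE_card, ENNReal.ofReal_tsum_of_nonneg (LiE_T_nonneg k n) hs]
    have h2 : (fun a : Fin n → ℕ => ind (len a = n) * ind (Good k a)) =
        fun a => ind (len a = n) * (fun b => ind (Good k b)) (short h a) := by
      funext a
      have h3 : ind (Good k a) = ind (Good k (short h a)) := by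
        by_cases hG : Good k a
        · rw [ind_true hG, ind_true ((LiE_good h a).1 hG)]
        · rw [ind_false hG, ind_false (fun h' => hG ((LiE_good h a).2 h'))]
      rw [h3]
    rw [h2, conv h (fun b => ind (Good k b))]
    exact tsum_congr fun a => (LiE_T_ofReal k n a).symm
  have h3 : 0 ≤ prob n k := by
    unfold prob
    positivity
  have h4 : 0 ≤ ∑' a : Fin k → ℕ, LiE_T k n a := tsum_nonneg (LiE_T_nonneg k n)
  have h5 := congrArg ENNReal.toReal h1
  rwa [ENNReal.toReal_ofReal h3, ENNReal.toReal_ofReal h4] at h5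

open Classical in
private theorem LiE_limit (k : ℕ) :
    ∑' a : Fin k → ℕ, ((wt (mu k) a : ℝ≥0) : ℝ) * ((if Good k a then 1 else 0) *
      Real.exp (-(HH k))) = p k := by
  have hs : Summable fun a : Fin k → ℕ => ((wt (mu k) a : ℝ≥0) : ℝ) *
      (if Good k a then 1 else 0) := by
    refine Summable.of_nonneg_of_le (fun a => ?_) (fun a => ?_) (LiE_summable k)
    · positivity
    · calc ((wt (mu k) a : ℝ≥0) : ℝ) * (if Good k a then 1 else 0)
          ≤ ((wt (mu k) a : ℝ≥0) : ℝ) * 1 :=
            mul_le_mul_of_nonneg_left (by split_ifs <;> norm_num) (NNReal.coe_nonneg _)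
        _ = _ := mul_one _
  have h1 : ENNReal.ofReal (∑' a : Fin k → ℕ, ((wt (mu k) a : ℝ≥0) : ℝ) * ((if Good k a then 1 else 0) *
      Real.exp (-(HH k)))) = ENNReal.ofReal (p k) := by
    rw [← PG_self]
    unfold PG Ex Z
    have h2 : ∑' a : Fin k → ℕ, ((wt (mu k) a : ℝ≥0) : ℝ) * ((if Good k a then 1 else 0) *
        Real.exp (-(HH k))) = Real.exp (-(HH k)) * ∑' a : Fin k → ℕ, ((wt (mu k) a : ℝ≥0) : ℝ) *
          (if Good k a then 1 else 0) := by
      rw [← tsum_mul_left]
      exact tsum_congr fun a => by ring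
    rw [h2, ENNReal.ofReal_mul (Real.exp_pos _).le, ENNReal.ofReal_tsum_of_nonneg (fun a => by
      positivity) hs]
    congr 1
    refine tsum_congr fun a => ?_
    rw [ENNReal.ofReal_mul (NNReal.coe_nonneg _), ENNReal.ofReal_coe_nnreal]
    congr 1
    beta_reduce
    by_cases hG : Good k a
    · rw [ind_true hG, if_pos hG, ENNReal.ofReal_one]
    · rw [ind_false hG, if_neg hG, ENNReal.ofReal_zero]
  have h4 : 0 ≤ ∑' a : Fin k → ℕ, ((wt (mu k) a : ℝ≥0) : ℝ) * ((if Good k a then 1 else 0) *
      Real.exp (-(HH k))) := tsum_nonneg fun a => by positivity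
  have h5 := congrArg ENNReal.toReal h1
  rwa [ENNReal.toReal_ofReal h4, ENNReal.toReal_ofReal (p_nonneg k)] at h5

theorem prob_tendsto (k : ℕ) : Tendsto (fun n => prob n k) atTop (𝓝 (p k)) := by
  classical
  have h1 : (fun n => ∑' a : Fin k → ℕ, LiE_T k n a) =ᶠ[atTop] fun n => prob n k := by
    filter_upwards [eventually_ge_atTop k] with n hn
    exact (LiE_prob hn).symm
  refine Tendsto.congr' h1 ?_
  rw [← LiE_limit k]
  refine tendsto_tsum_of_dominated_convergence (LiE_summable k) (fun a => ?_)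
    (Eventually.of_forall fun n a => ?_)
  · unfold LiE_T
    refine Tendsto.const_mul _ (Tendsto.const_mul _ ?_)
    have h2 : Tendsto (fun n : ℕ => Dk k (n - len a)) atTop (𝓝 (Real.exp (-(HH k)))) :=
      (Dk_tendsto k).comp (tendsto_sub_atTop_nat (len a))
    refine Tendsto.congr' ?_ h2
    filter_upwards [eventually_ge_atTop (len a)] with n hn
    rw [if_pos hn]
  · rw [Real.norm_of_nonneg (LiE_T_nonneg k n a)]
    exact LiE_T_le k n a

end Pool.Agent.Lib.MP_134bf7_pr.RL
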