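import Pool.Agent.Lib.MP_134bf7_pr.RL.LA

/-!
# RL-Ad: the statistics `g1`, `g2` are admissible

* `adm_g2`: by `bigV` the all-ones vector is in `V`, so `XV V` is closed under complement
  (`vec (fun l => !(q l)) = 1 - vec q`), and `∑ q ∈ XV V, g2 τ q = ind (τ ∈ XV V) - ind (¬τ ∈ XV V) = 0`
  (`g2 τ q` is `1` at `q = τ` minus `1` at `q = ¬τ`).
* `adm_g1`: by `bigV` `V = ⊤`, so `XV V = univ` and `∑ q, g1 τ q = 1 - 2 ^ r * (1/2) ^ r = 0`.
* `abs_g2`, `abs_g1`: for `r = 0` note that `g2 τ q = 1 - 1`.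
* `adm_zero` trivial.
-/

namespace Pool.Agent.Lib.MP_134bf7_pr.RL

open Finset

private theorem vec_not {r : ℕ} (q : Pat r) :
    vec (fun l => !(q l)) = (fun _ => (1 : ℚ)) - vec q := by
  funext l
  simp only [vec, Pi.sub_apply]
  rcases Bool.eq_false_or_eq_true (q l) with h | h <;> simp [h]

private theorem mem_XV {r : ℕ} (V : Submodule ℚ (Fin r → ℚ)) (q : Pat r) :
    q ∈ XV V ↔ vec q ∈ V := by
  simp [XV]

theorem adm_g2 {r : ℕ} (τ : Pat r) : Adm (fun _ _ => False) (g2 τ) := by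
  intro V h0 _
  by_cases hc : 4 * (XV V).card ≤ 3 * 2 ^ Module.finrank ℚ V
  · exact Or.inl hc
  · right
    have h1 := (bigV V h0 (not_le.mp hc)).1
    have hiff : τ ∈ XV V ↔ (fun l => !(τ l)) ∈ XV V := by
      rw [mem_XV, mem_XV, vec_not]
      constructor
      · intro h
        exact V.sub_mem h1 h
      · intro h
        have := V.sub_mem h1 h
        simpa using this
    have hs : ∑ q ∈ XV V, g2 τ q =
        (if τ ∈ XV V then (1 : ℝ) else 0) - (if (fun l => !(τ l)) ∈ XV V then (1 : ℝ) else 0) := by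
      unfold g2
      rw [Finset.sum_sub_distrib, Finset.sum_ite_eq', Finset.sum_ite_eq']
    rw [hs]
    by_cases ht : τ ∈ XV V
    · rw [if_pos ht, if_pos (hiff.mp ht)]; simp
    · rw [if_neg ht, if_neg (fun h => ht (hiff.mpr h))]; simp

theorem adm_g1 {r : ℕ} (τ : Pat r) : Adm (fun l l' => l ≠ l') (g1 τ) := by
  intro V h0 h2
  by_cases hc : 4 * (XV V).card ≤ 3 * 2 ^ Module.finrank ℚ V
  · exact Or.inl hc
  · right
    have hV := (bigV V h0 (not_le.mp hc)).2 h2
    have hX : XV V = (univ : Finset (Pat r)) := by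
      ext q
      simp [mem_XV, hV]
    rw [hX]
    unfold g1
    rw [Finset.sum_sub_distrib, Finset.sum_ite_eq', if_pos (Finset.mem_univ τ), Finset.sum_const,
      Finset.card_univ, nsmul_eq_mul]
    have hcard : (Fintype.card (Pat r) : ℝ) = 2 ^ r := by
      simp [Pat]
    rw [hcard, ← mul_pow]
    norm_num

theorem abs_g2 {r : ℕ} (τ q : Pat r) : |g2 τ q| ≤ 1 := by
  unfold g2
  split_ifs <;> norm_num

theorem abs_g1 {r : ℕ} (τ q : Pat r) : |g1 τ q| ≤ 1 := by
  unfold g1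
  have h1 : (0 : ℝ) ≤ (1 / 2) ^ r := by positivity
  have h2 : ((1 : ℝ) / 2) ^ r ≤ 1 := pow_le_one₀ (by norm_num) (by norm_num)
  rw [abs_le]
  split_ifs
  · constructor <;> linarith
  · constructor <;> linarith

theorem g2_not {r : ℕ} (τ q : Pat r) : g2 (fun l => !(τ l)) q = - g2 τ q := by
  unfold g2
  simp only [Bool.not_not]
  ring

theorem adm_zero {r : ℕ} (Δ : Fin r → Fin r → Prop) : Adm Δ (fun _ => 0) := by
  intro V _ _
  right
  simp

end Pool.Agent.Lib.MP_134bf7_pr.RL
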