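import Pool.Agent.Lib.MP_134bf7_pr.RL.Av

/-!
# RL-Sh: shifting the resampled cycle length by `h`

Let `J = Jn K A B` (the `x` with `A < x + 1 ≤ B`), `N a = ∑ x ∈ J, a x`,
`t (k, x) = Ex K (fun a => (N a + 1)⁻¹ * ind (MM k1 k x a)) ≤ PG K k1 + PG K (k - (x + 1))`
(`(N a + 1)⁻¹ ≤ 1`, `ind_or_le`); `Ex K (av J k1 k) = ∑_{x ∈ J} mu x * t (k, x)` (`Ex_av`).
For `x, x + h` both in `Fin K`: `MM k1 (m + h) (x + h) = MM k1 m x` (`x + h + 1 ≤ m + h ↔ x + 1 ≤ m`, and
`m + h - (x + h + 1) = m - (x + 1)`), so `t (m + h, x + h) = t (m, x)`.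
* `shift1`: split the `x' ∈ J` into `x' + 1 ≤ A + h` (contained in `Jn K A (A + h)`) and `x' = x + h` with
  `x ∈ J`; `mu (x + h) ≤ mu x`; the `x` are different elements of `J`.
* `shift2`: split the `x ∈ J` into `B - h < x + 1` (contained in `Jn K (B - h) B`) and `x + 1 ≤ B - h`, for
  which `x + h ∈ J` (`x + h + 1 ≤ B ≤ K`; if `h > B` there is none); `mu x ≤ (1 + h / A) * mu (x + h)` since
  `(x + h + 1) / (x + 1) ≤ 1 + h / A`.
* `err_le`: there are at most `b - a` elements in `Jn K a b`, each with `mu x ≤ 1 / a`.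
-/

namespace Pool.Agent.Lib.MP_134bf7_pr.RL

open Finset
open scoped ENNReal NNReal

private noncomputable def shT (K : ℕ) (J : Finset (Fin K)) (k1 k2 : ℕ) (x : Fin K) : ℝ≥0∞ :=
  Ex K (fun a => (((∑ x ∈ J, a x : ℕ) : ℝ≥0∞) + 1)⁻¹ * ind (MM k1 k2 x a))

private theorem shT_le {K : ℕ} (J : Finset (Fin K)) (k1 k2 : ℕ) (x : Fin K) :
    shT K J k1 k2 x ≤ PG K k1 + PG K (k2 - ((x : ℕ) + 1)) := by
  unfold shT PG
  rw [← Ex_add]
  apply Ex_mono
  intro a
  have h1 : (((∑ x ∈ J, a x : ℕ) : ℝ≥0∞) + 1)⁻¹ ≤ 1 := by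
    rw [ENNReal.inv_le_one]
    exact le_add_self
  have h2 : ind (MM k1 k2 x a) ≤ ind (Good k1 a) + ind (Good (k2 - ((x : ℕ) + 1)) a) := by
    refine le_trans ?_ (ind_or_le _ _)
    apply ind_mono
    rintro (h | h)
    · exact Or.inl h
    · exact Or.inr h.2
  calc (((∑ x ∈ J, a x : ℕ) : ℝ≥0∞) + 1)⁻¹ * ind (MM k1 k2 x a)
      ≤ 1 * (ind (Good k1 a) + ind (Good (k2 - ((x : ℕ) + 1)) a)) := mul_le_mul' h1 h2
    _ = _ := one_mul _

private theorem shT_shift {K : ℕ} (J : Finset (Fin K)) (k1 m h : ℕ) (x y : Fin K)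
    (hxy : (y : ℕ) = (x : ℕ) + h) : shT K J k1 (m + h) y = shT K J k1 m x := by
  unfold shT
  congr 1
  funext a
  have h1 : MM k1 (m + h) y a ↔ MM k1 m x a := by
    unfold MM
    rw [hxy]
    have e1 : (x : ℕ) + h + 1 ≤ m + h ↔ (x : ℕ) + 1 ≤ m := by omega
    have e2 : m + h - ((x : ℕ) + h + 1) = m - ((x : ℕ) + 1) := by omega
    rw [e1, e2]
  rw [propext h1]

private theorem sh_av {K : ℕ} (J : Finset (Fin K)) (k1 k2 : ℕ) :
    Ex K (av J k1 k2) = ∑ x ∈ J, (mu K x : ℝ≥0∞) * shT K J k1 k2 x :=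
  Ex_av J k1 k2

private theorem sh_mem {K A B : ℕ} {x : Fin K} :
    x ∈ Jn K A B ↔ A < (x : ℕ) + 1 ∧ (x : ℕ) + 1 ≤ B := by
  unfold Jn
  rw [Finset.mem_filter]
  simp

private theorem sh_sum_inj {K : ℕ} (S J : Finset (Fin K)) (φ : Fin K → Fin K)
    (h1 : ∀ x ∈ S, φ x ∈ J) (h2 : Set.InjOn φ (S : Set (Fin K))) (g : Fin K → ℝ≥0∞) :
    ∑ x ∈ S, g (φ x) ≤ ∑ x ∈ J, g x := by
  classical
  rw [← Finset.sum_image h2]
  apply Finset.sum_le_sum_of_subset
  intro y hy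
  obtain ⟨x, hx, rfl⟩ := Finset.mem_image.1 hy
  exact h1 x hx

theorem shift1 {K A B : ℕ} (hB : B ≤ K) (k1 m h : ℕ) :
    Ex K (av (Jn K A B) k1 (m + h)) ≤ Ex K (av (Jn K A B) k1 m) +
      ∑ x ∈ Jn K A (A + h), (mu K x : ℝ≥0∞) * (PG K k1 + PG K (m + h - ((x : ℕ) + 1))) := by
  classical
  rw [sh_av, sh_av, ← Finset.sum_filter_add_sum_filter_not (Jn K A B)
    (fun x => (x : ℕ) + 1 ≤ A + h), add_comm]
  apply add_le_add
  · have hlt : ∀ x : Fin K, (x : ℕ) - h < K := fun x => lt_of_le_of_lt (Nat.sub_le _ _) x.2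
    refine le_trans ?_ (sh_sum_inj ((Jn K A B).filter (fun x => ¬ ((x : ℕ) + 1 ≤ A + h)))
      (Jn K A B) (fun x => ⟨(x : ℕ) - h, hlt x⟩) ?_ ?_
      (fun x => (mu K x : ℝ≥0∞) * shT K (Jn K A B) k1 m x))
    · apply Finset.sum_le_sum
      intro x hx
      rw [Finset.mem_filter, sh_mem] at hx
      rw [shT_shift (Jn K A B) k1 m h ⟨(x : ℕ) - h, hlt x⟩ x (by simp only; omega)]
      apply mul_le_mul_left
      rw [ENNReal.coe_le_coe]
      unfold mu
      apply one_div_le_one_div_of_le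
      · positivity
      · have : (((x : ℕ) - h : ℕ) : ℝ≥0) ≤ ((x : ℕ) : ℝ≥0) := by
          exact_mod_cast Nat.sub_le _ _
        simpa using this
    · intro x hx
      rw [Finset.mem_filter, sh_mem] at hx
      rw [sh_mem]
      simp only
      omega
    · intro x hx y hy hxy
      rw [Finset.mem_coe, Finset.mem_filter, sh_mem] at hx hy
      have := congrArg Fin.val hxy
      simp only at this
      apply Fin.ext
      omega
  · refine le_trans (Finset.sum_le_sum fun x _ => mul_le_mul_right (shT_le _ _ _ _) _) ?_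
    apply Finset.sum_le_sum_of_subset
    intro x hx
    rw [Finset.mem_filter, sh_mem] at hx
    rw [sh_mem]
    omega

theorem shift2 {K A B : ℕ} (hA : 1 ≤ A) (hB : B ≤ K) (k1 m h : ℕ) :
    Ex K (av (Jn K A B) k1 m) ≤
      ENNReal.ofReal (1 + (h : ℝ) / A) * Ex K (av (Jn K A B) k1 (m + h)) +
      ∑ x ∈ Jn K (B - h) B, (mu K x : ℝ≥0∞) * (PG K k1 + PG K (m - ((x : ℕ) + 1))) := by
  classical
  rw [sh_av, sh_av, ← Finset.sum_filter_add_sum_filter_not (Jn K A B)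
    (fun x => B - h < (x : ℕ) + 1), add_comm]
  apply add_le_add
  · have hcast : (1 : ℝ) + (h : ℝ) / A = (((1 : ℝ≥0) + (h : ℝ≥0) / A : ℝ≥0) : ℝ) := by
      push_cast; rfl
    rw [hcast, ENNReal.ofReal_coe_nnreal, Finset.mul_sum]
    have hφ : ∀ x : Fin K, (if (x : ℕ) + h < K then (x : ℕ) + h else (x : ℕ)) < K := by
      intro x
      split_ifs with hc
      · exact hc
      · exact x.2
    refine le_trans ?_ (sh_sum_inj ((Jn K A B).filter (fun x => ¬ (B - h < (x : ℕ) + 1)))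
      (Jn K A B) (fun x => ⟨if (x : ℕ) + h < K then (x : ℕ) + h else (x : ℕ), hφ x⟩) ?_ ?_
      (fun x => (((1 : ℝ≥0) + (h : ℝ≥0) / A : ℝ≥0) : ℝ≥0∞) *
        ((mu K x : ℝ≥0∞) * shT K (Jn K A B) k1 (m + h) x)))
    · apply Finset.sum_le_sum
      intro x hx
      rw [Finset.mem_filter, sh_mem] at hx
      have hxK : (x : ℕ) + h < K := by omega
      simp only [if_pos hxK]
      rw [shT_shift (Jn K A B) k1 m h x ⟨(x : ℕ) + h, hxK⟩ rfl, ← mul_assoc]
      apply mul_le_mul_left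
      rw [← ENNReal.coe_mul, ENNReal.coe_le_coe, ← NNReal.coe_le_coe]
      unfold mu
      push_cast
      have hA' : (0 : ℝ) < A := by exact_mod_cast hA
      have hx0 : (0 : ℝ) < ((x : ℕ) : ℝ) + 1 := by positivity
      have hx1 : (A : ℝ) ≤ ((x : ℕ) : ℝ) + 1 := by
        have : A ≤ (x : ℕ) + 1 := by omega
        exact_mod_cast this
      have hx2 : (0 : ℝ) < ((x : ℕ) : ℝ) + (h : ℝ) + 1 := by positivity
      have hh : (0 : ℝ) ≤ (h : ℝ) := by positivity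
      rw [mul_one_div, div_le_div_iff₀ hx0 hx2]
      have h3 : (h : ℝ) ≤ (h : ℝ) / A * (((x : ℕ) : ℝ) + 1) := by
        rw [div_mul_eq_mul_div, le_div_iff₀ hA']
        exact mul_le_mul_of_nonneg_left hx1 hh
      linarith
    · intro x hx
      rw [Finset.mem_filter, sh_mem] at hx
      rw [sh_mem]
      have hxK : (x : ℕ) + h < K := by omega
      simp only [if_pos hxK]
      omega
    · intro x hx y hy hxy
      rw [Finset.mem_coe, Finset.mem_filter, sh_mem] at hx hy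
      have hxK : (x : ℕ) + h < K := by omega
      have hyK : (y : ℕ) + h < K := by omega
      have := congrArg Fin.val hxy
      simp only [if_pos hxK, if_pos hyK] at this
      apply Fin.ext
      omega
  · refine le_trans (Finset.sum_le_sum fun x _ => mul_le_mul_right (shT_le _ _ _ _) _) ?_
    apply Finset.sum_le_sum_of_subset
    intro x hx
    rw [Finset.mem_filter, sh_mem] at hx
    rw [sh_mem]
    omega

theorem err_le {K a b : ℕ} (ha : 1 ≤ a) (hab : a ≤ b) (F : Fin K → ℝ≥0∞) (X : ℝ≥0∞)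
    (hF : ∀ x ∈ Jn K a b, F x ≤ X) :
    ∑ x ∈ Jn K a b, (mu K x : ℝ≥0∞) * F x ≤ ENNReal.ofReal (((b - a : ℕ) : ℝ) / a) * X := by
  classical
  have hcard : (Jn K a b).card ≤ b - a := by
    rw [← Nat.card_Ioc a b]
    refine Finset.card_le_card_of_injOn (fun x : Fin K => (x : ℕ) + 1) ?_ ?_
    · intro x hx
      rw [Finset.mem_coe, sh_mem] at hx
      simp only [Finset.coe_Ioc, Set.mem_Ioc]
      exact hx
    · intro x _ y _ hxy
      simp only at hxy
      apply Fin.ext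
      omega
  have hone : ∀ x ∈ Jn K a b, (mu K x : ℝ≥0∞) * F x ≤ ((1 / (a : ℝ≥0) : ℝ≥0) : ℝ≥0∞) * X := by
    intro x hx
    apply mul_le_mul' _ (hF x hx)
    rw [ENNReal.coe_le_coe]
    unfold mu
    rw [sh_mem] at hx
    apply one_div_le_one_div_of_le
    · exact_mod_cast ha
    · have : a ≤ (x : ℕ) + 1 := by omega
      exact_mod_cast this
  refine le_trans (Finset.sum_le_sum hone) ?_
  rw [Finset.sum_const, nsmul_eq_mul, ← mul_assoc]
  apply mul_le_mul_left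
  have hcast : ((b - a : ℕ) : ℝ) / a = ((((b - a : ℕ) : ℝ≥0) / (a : ℝ≥0) : ℝ≥0) : ℝ) := by
    rw [NNReal.coe_div, NNReal.coe_natCast, NNReal.coe_natCast]
  rw [hcast, ENNReal.ofReal_coe_nnreal]
  have h1 : (((Jn K a b).card : ℕ) : ℝ≥0∞) = (((Jn K a b).card : ℝ≥0) : ℝ≥0∞) := by
    rw [ENNReal.coe_natCast]
  rw [h1, ← ENNReal.coe_mul, ENNReal.coe_le_coe, mul_one_div]
  apply div_le_div_of_nonneg_right _ (by positivity)
  exact_mod_cast hcard

end Pool.Agent.Lib.MP_134bf7_pr.RL
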