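import Pool.Agent.Lib.MP_134bf7_pr.RL.Co
import Pool.Agent.Lib.MP_134bf7_pr.RL.Sh

/-!
# RL-AsA: the comparison of `PG K k` and `PG K (k + h)`
-/

namespace Pool.Agent.Lib.MP_134bf7_pr.RL

open Finset
open scoped ENNReal NNReal

/-- `Jb` as an interval of lengths -/
theorem Jb_eq {K Q u M j : ℕ} (hQ : 2 ≤ Q) (hu : 1 ≤ u) :
    Jb K Q u M j = Jn K (Q ^ (u + j * M)) (Q ^ (u + (j + 1) * M)) := by
  ext x
  unfold Jb
  rw [Finset.mem_filter]
  constructor
  · rintro ⟨_, h⟩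
    exact (mem_cb hQ hu x).1 h
  · intro h
    exact ⟨Finset.mem_univ _, (mem_cb hQ hu x).2 h⟩

section

variable {Q T u M q r0 k h : ℕ} (hQ : 2 ≤ Q) (hu : 1 ≤ u) (hM : 1 ≤ M) (huM : u + q * M ≤ T)
  {η δ : ℝ} (hη : η ≤ 1) (hδ : 0 ≤ δ) (hh : 1 ≤ h) {X W e : ℝ≥0∞}

include hQ hM huM hη in
/-- no cycle in the block is exceptional -/
private theorem zero_le_W {k0 : ℕ} (hk0 : k0 = k ∨ k0 = k + h)
    (hW : Ex (Q ^ T) (fun a => ind (Exc Q T u M q r0 η δ k (k + h) a)) ≤ W) {j : ℕ} (hj : j < q) :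
    Ex (Q ^ T) (fun a => ind (Good k0 a ∧ ∑ x ∈ Jb (Q ^ T) Q u M j, a x = 0)) ≤ W := by
  refine le_trans (Ex_mono _ fun a => ind_mono ?_) hW
  rintro ⟨hg, h0⟩
  refine ⟨?_, Or.inl fun hT => ?_⟩
  · rcases hk0 with rfl | rfl
    · exact Or.inl hg
    · exact Or.inr hg
  · have h1 := NS_pos hQ hM huM hj hη hT
    rw [← sum_Jb, h0] at h1
    exact absurd h1 (by norm_num)

include hQ hu hM huM hη hδ hh in
/-- the pointwise comparison, summed -/
private theorem cmp12 (hW : Ex (Q ^ T) (fun a => ind (Exc Q T u M q r0 η δ k (k + h) a)) ≤ W) :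
    ∑ j ∈ range q, Ex (Q ^ T) (av (Jb (Q ^ T) Q u M j) (k + h) k) ≤
      ∑ j ∈ range q, Ex (Q ^ T) (av (Jb (Q ^ T) Q u M j) k (k + h)) +
        ENNReal.ofReal (1 + q * ((1 / 2) ^ r0 + δ)) * (PG (Q ^ T) k + PG (Q ^ T) (k + h)) +
        q * W ∧
    ∑ j ∈ range q, Ex (Q ^ T) (av (Jb (Q ^ T) Q u M j) k (k + h)) ≤
      ∑ j ∈ range q, Ex (Q ^ T) (av (Jb (Q ^ T) Q u M j) (k + h) k) +
        ENNReal.ofReal (1 + q * ((1 / 2) ^ r0 + δ)) * (PG (Q ^ T) k + PG (Q ^ T) (k + h)) +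
        q * W := by
  have hkk : k ≠ k + h := by omega
  set R : ℝ≥0∞ := ENNReal.ofReal (1 + q * ((1 / 2) ^ r0 + δ)) with hR
  -- general pointwise step
  have key : ∀ (F G : (Fin (Q ^ T) → ℕ) → ℝ≥0∞), (∀ a, F a ≤ q) →
      (∀ a, ¬ Good k a → ¬ Good (k + h) a → F a = 0) →
      (∀ a, (Good k a ∨ Good (k + h) a) → ¬ Exc Q T u M q r0 η δ k (k + h) a → F a ≤ G a + R) →
      Ex (Q ^ T) F ≤ Ex (Q ^ T) G + R * (PG (Q ^ T) k + PG (Q ^ T) (k + h)) + q * W := by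
    intro F G hF1 hF0 hFG
    have hpt : ∀ a, F a ≤ (G a + R * (ind (Good k a) + ind (Good (k + h) a))) +
        q * ind (Exc Q T u M q r0 η δ k (k + h) a) := by
      intro a
      by_cases hE : Exc Q T u M q r0 η δ k (k + h) a
      · rw [ind_true hE, mul_one]
        exact (hF1 a).trans le_add_self
      · rw [ind_false hE, mul_zero, add_zero]
        by_cases hg : Good k a ∨ Good (k + h) a
        · refine (hFG a hg hE).trans (add_le_add le_rfl ?_)
          rcases hg with hg | hg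
          · rw [ind_true hg]
            calc R = R * 1 := (mul_one _).symm
              _ ≤ R * (1 + ind (Good (k + h) a)) := by gcongr; exact le_self_add
          · rw [ind_true hg]
            calc R = R * 1 := (mul_one _).symm
              _ ≤ R * (ind (Good k a) + 1) := by gcongr; exact le_add_self
        · push Not at hg
          rw [hF0 a hg.1 hg.2]
          exact zero_le
    calc Ex (Q ^ T) F ≤ Ex (Q ^ T) (fun a => (G a + R * (ind (Good k a) + ind (Good (k + h) a))) +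
        q * ind (Exc Q T u M q r0 η δ k (k + h) a)) := Ex_mono _ hpt
      _ = Ex (Q ^ T) G + R * (PG (Q ^ T) k + PG (Q ^ T) (k + h)) +
          q * Ex (Q ^ T) (fun a => ind (Exc Q T u M q r0 η δ k (k + h) a)) := by
          rw [Ex_add, Ex_add, Ex_const_mul, Ex_const_mul, Ex_add]
          rfl
      _ ≤ _ := by gcongr
  have hle : ∀ k1 k2 : ℕ, ∀ a : Fin (Q ^ T) → ℕ,
      ∑ j ∈ range q, av (Jb (Q ^ T) Q u M j) k1 k2 a ≤ q := by
    intro k1 k2 a
    calc ∑ j ∈ range q, av (Jb (Q ^ T) Q u M j) k1 k2 a ≤ ∑ j ∈ range q, 1 :=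
          Finset.sum_le_sum fun j _ => av_le_one _ _ _ _
      _ = q := by simp
  have hz : ∀ k1 k2 : ℕ, ∀ a : Fin (Q ^ T) → ℕ, ¬ Good k1 a → ¬ Good k2 a →
      ∑ j ∈ range q, av (Jb (Q ^ T) Q u M j) k1 k2 a = 0 := by
    intro k1 k2 a h1 h2
    exact Finset.sum_eq_zero fun j _ => av_none _ h1 h2
  have hs : ∀ k1 k2 : ℕ, ∑ j ∈ range q, Ex (Q ^ T) (av (Jb (Q ^ T) Q u M j) k1 k2) =
      Ex (Q ^ T) (fun a => ∑ j ∈ range q, av (Jb (Q ^ T) Q u M j) k1 k2 a) :=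
    fun k1 k2 => (Ex_sum _ _ _).symm
  rw [hs, hs]
  constructor
  · refine key _ _ (hle _ _) (fun a h1 h2 => hz _ _ a h2 h1) fun a hg hE => ?_
    exact (co hQ hu hM huM hη hδ hkk hg hE).1
  · refine key _ _ (hle _ _) (fun a h1 h2 => hz _ _ a h1 h2) fun a hg hE => ?_
    exact (co hQ hu hM huM hη hδ hkk hg hE).2

include hQ hu hM huM in
/-- the errors of the shifts -/
private theorem shifts {D : ℕ} (hhu : h ≤ Q ^ u) (hT : u + q * M + 1 ≤ T) (hkT : k + h ≤ Q ^ T)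
    (hD : Q ^ T ≤ D * k) (hk2 : 2 * Q ^ (T - 1) ≤ k)
    (hX : ∀ m, 1 ≤ m → Q ^ T ≤ (2 * D) * m → PG (Q ^ T) m ≤ X) {k1 : ℕ} (hk1 : k ≤ k1) {j : ℕ}
    (hj : j < q) :
    Ex (Q ^ T) (av (Jb (Q ^ T) Q u M j) k1 (k + h)) ≤
      Ex (Q ^ T) (av (Jb (Q ^ T) Q u M j) k1 k) +
        ENNReal.ofReal ((h : ℝ) / (Q ^ u : ℕ)) * (X + X) ∧
    Ex (Q ^ T) (av (Jb (Q ^ T) Q u M j) k1 k) ≤
      ENNReal.ofReal (1 + (h : ℝ) / (Q ^ u : ℕ)) * Ex (Q ^ T) (av (Jb (Q ^ T) Q u M j) k1 (k + h)) +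
        ENNReal.ofReal ((h : ℝ) / (Q ^ u : ℕ)) * (X + X) := by
  have hQ1 : 1 ≤ Q := by omega
  set A := Q ^ (u + j * M) with hA
  set B := Q ^ (u + (j + 1) * M) with hB
  have huA : Q ^ u ≤ A := Nat.pow_le_pow_right hQ1 (by omega)
  have hAB : 2 * A ≤ B := by
    calc 2 * A ≤ Q * A := Nat.mul_le_mul_right _ hQ
      _ = Q ^ (u + j * M + 1) := by rw [hA, pow_succ, mul_comm]
      _ ≤ B := by
        rw [hB]
        refine Nat.pow_le_pow_right hQ1 ?_
        have : (j + 1) * M = j * M + M := by ring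
        omega
  have hjq : (j + 1) * M ≤ q * M := Nat.mul_le_mul_right _ hj
  have hBT : B ≤ Q ^ (T - 1) := by
    rw [hB]
    exact Nat.pow_le_pow_right hQ1 (by omega)
  have hTT : Q ^ (T - 1) ≤ Q ^ T := Nat.pow_le_pow_right hQ1 (by omega)
  have hA1 : 1 ≤ A := Nat.one_le_pow _ _ (by omega)
  have hu1 : 1 ≤ Q ^ u := Nat.one_le_pow _ _ (by omega)
  have hQT1 : 1 ≤ Q ^ (T - 1) := Nat.one_le_pow _ _ (by omega)
  have hX1 : PG (Q ^ T) k1 ≤ X := by
    refine hX k1 (by omega) (hD.trans ?_)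
    calc D * k ≤ D * k1 := Nat.mul_le_mul_left _ hk1
      _ ≤ 2 * D * k1 := by nlinarith [Nat.zero_le (D * k1)]
  -- the value at a remainder
  have hX2 : ∀ m x : ℕ, k ≤ m → x + 1 ≤ Q ^ (T - 1) → PG (Q ^ T) (m - (x + 1)) ≤ X := by
    intro m x hm hx
    refine hX _ (by omega) (hD.trans ?_)
    have h1 : k ≤ 2 * (m - (x + 1)) := by omega
    calc D * k ≤ D * (2 * (m - (x + 1))) := Nat.mul_le_mul_left _ h1
      _ = 2 * D * (m - (x + 1)) := by ring
  have hhA : (h : ℝ) / A ≤ (h : ℝ) / (Q ^ u : ℕ) := by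
    apply div_le_div_of_nonneg_left (by positivity)
    · exact_mod_cast hu1
    · exact_mod_cast huA
  rw [Jb_eq hQ hu]
  constructor
  · refine (shift1 (hBT.trans hTT) k1 k h).trans (add_le_add le_rfl ?_)
    refine (err_le hA1 (by omega) _ (X + X) ?_).trans ?_
    · intro x hx
      refine add_le_add hX1 (hX2 _ _ (by omega) ?_)
      have h2 := (Finset.mem_filter.1 hx).2.2
      omega
    · refine mul_le_mul' (ENNReal.ofReal_le_ofReal ?_) le_rfl
      rw [Nat.add_sub_cancel_left]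
      exact hhA
  · refine (shift2 hA1 (hBT.trans hTT) k1 k h).trans (add_le_add ?_ ?_)
    · refine mul_le_mul' (ENNReal.ofReal_le_ofReal ?_) le_rfl
      linarith
    · refine (err_le (show 1 ≤ B - h by omega) (by omega) _ (X + X) ?_).trans ?_
      · intro x hx
        refine add_le_add hX1 (hX2 _ _ le_rfl ?_)
        have h2 := (Finset.mem_filter.1 hx).2.2
        omega
      · refine mul_le_mul' (ENNReal.ofReal_le_ofReal ?_) le_rfl
        have h3 : B - (B - h) = h := by omega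
        rw [h3]
        refine le_trans ?_ hhA
        apply div_le_div_of_nonneg_left (by positivity)
        · exact_mod_cast hA1
        · exact_mod_cast (by omega : A ≤ B - h)

include hQ hu hM hη hδ hh in
/-- the two inequalities -/
theorem two_ineq {D : ℕ} (hhu : h ≤ Q ^ u) (hT : u + q * M + 1 ≤ T) (hkT : k + h ≤ Q ^ T)
    (hD : Q ^ T ≤ D * k) (hk2 : 2 * Q ^ (T - 1) ≤ k)
    (hX : ∀ m, 1 ≤ m → Q ^ T ≤ (2 * D) * m → PG (Q ^ T) m ≤ X)
    (hW : Ex (Q ^ T) (fun a => ind (Exc Q T u M q r0 η δ k (k + h) a)) ≤ W)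
    (he : e = ENNReal.ofReal ((h : ℝ) / (Q ^ u : ℕ)) * (X + X)) :
    q * PG (Q ^ T) (k + h) ≤ q * PG (Q ^ T) k +
      ENNReal.ofReal (1 + q * ((1 / 2) ^ r0 + δ)) * (PG (Q ^ T) k + PG (Q ^ T) (k + h)) +
      2 * (q * (e + W)) ∧
    q * PG (Q ^ T) k ≤ ENNReal.ofReal (1 + (h : ℝ) / (Q ^ u : ℕ)) *
      (ENNReal.ofReal (1 + (h : ℝ) / (Q ^ u : ℕ)) * (q * PG (Q ^ T) (k + h)) +
      ENNReal.ofReal (1 + q * ((1 / 2) ^ r0 + δ)) * (PG (Q ^ T) k + PG (Q ^ T) (k + h)) +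
      q * (e + W)) + q * (e + W) := by
  have huM' : u + q * M ≤ T := by omega
  obtain ⟨c1, c2⟩ := cmp12 hQ hu hM huM' hη hδ hh hW
  set P := PG (Q ^ T) k with hP
  set P' := PG (Q ^ T) (k + h) with hP'
  set R := ENNReal.ofReal (1 + q * ((1 / 2) ^ r0 + δ)) with hR
  set S := ENNReal.ofReal (1 + (h : ℝ) / (Q ^ u : ℕ)) with hS
  set s1 := ∑ j ∈ range q, Ex (Q ^ T) (av (Jb (Q ^ T) Q u M j) (k + h) k) with hs1
  set s2 := ∑ j ∈ range q, Ex (Q ^ T) (av (Jb (Q ^ T) Q u M j) k (k + h)) with hs2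
  have hsh : ∀ k1, k ≤ k1 → ∀ j ∈ range q, _ := fun k1 hk1 j hj =>
    shifts (h := h) hQ hu hM huM' hhu hT hkT hD hk2 hX hk1 (Finset.mem_range.1 hj)
  rw [← he] at hsh
  have hcard : ∀ x : ℝ≥0∞, ∑ _j ∈ range q, x = q * x := by
    intro x; rw [Finset.sum_const, Finset.card_range, nsmul_eq_mul]
  -- P' from s1
  have i1 : q * P' ≤ s1 + q * (e + W) := by
    rw [← hcard, ← hcard, hs1, ← Finset.sum_add_distrib]
    refine Finset.sum_le_sum fun j hj => ?_
    refine (PG_le_Ex_av (Jb (Q ^ T) Q u M j) (k + h)).trans ?_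
    rw [← add_assoc]
    refine add_le_add ((hsh (k + h) (by omega) j hj).1) ?_
    exact zero_le_W hQ hM huM' hη (Or.inr rfl) hW (Finset.mem_range.1 hj)
  -- s2 from P
  have i2 : s2 ≤ q * P + q * e := by
    rw [← hcard, ← hcard, hs2, ← Finset.sum_add_distrib]
    refine Finset.sum_le_sum fun j hj => ?_
    exact ((hsh k le_rfl j hj).1).trans (add_le_add (Ex_av_self_le _ _) le_rfl)
  -- P from s2
  have i3 : q * P ≤ S * s2 + q * (e + W) := by
    rw [← hcard, ← hcard, hs2, Finset.mul_sum, ← Finset.sum_add_distrib]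
    refine Finset.sum_le_sum fun j hj => ?_
    refine (PG_le_Ex_av (Jb (Q ^ T) Q u M j) k).trans ?_
    rw [← add_assoc]
    refine add_le_add ((hsh k le_rfl j hj).2) ?_
    exact zero_le_W hQ hM huM' hη (Or.inl rfl) hW (Finset.mem_range.1 hj)
  -- s1 from P'
  have i4 : s1 ≤ S * (q * P') + q * e := by
    rw [← hcard, ← hcard, hs1, Finset.mul_sum, ← Finset.sum_add_distrib]
    refine Finset.sum_le_sum fun j hj => ?_
    refine ((hsh (k + h) (by omega) j hj).2).trans (add_le_add ?_ le_rfl)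
    exact mul_le_mul' le_rfl (Ex_av_self_le _ _)
  constructor
  · calc q * P' ≤ s1 + q * (e + W) := i1
      _ ≤ (s2 + R * (P + P') + q * W) + q * (e + W) := by gcongr
      _ ≤ ((q * P + q * e) + R * (P + P') + q * W) + q * (e + W) := by gcongr
      _ = q * P + R * (P + P') + 2 * (q * (e + W)) := by ring
  · calc q * P ≤ S * s2 + q * (e + W) := i3
      _ ≤ S * (s1 + R * (P + P') + q * W) + q * (e + W) := by gcongr
      _ ≤ S * ((S * (q * P') + q * e) + R * (P + P') + q * W) + q * (e + W) := by gcongr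
      _ = S * (S * (q * P') + R * (P + P') + q * (e + W)) + q * (e + W) := by ring

end

end Pool.Agent.Lib.MP_134bf7_pr.RL
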