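import Pool.Agent.Lib.MP_134bf7_pr.RL.AsA
import Pool.Agent.Lib.MP_134bf7_pr.RL.Pr

/-!
# RL-AsB: the two inequalities in real numbers
-/

namespace Pool.Agent.Lib.MP_134bf7_pr.RL

open Finset
open scoped ENNReal NNReal

theorem two_real {Q T u M q r0 k h D : ℕ} {η δ x w : ℝ} (hQ : 2 ≤ Q) (hu : 1 ≤ u) (hM : 1 ≤ M)
    (hη : η ≤ 1) (hδ : 0 ≤ δ) (hh : 1 ≤ h) (hhu : h ≤ Q ^ u) (hT : u + q * M + 1 ≤ T)
    (hkT : k + h ≤ Q ^ T) (hD : Q ^ T ≤ D * k) (hk2 : 2 * Q ^ (T - 1) ≤ k) (hx : 0 ≤ x)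
    (hw : 0 ≤ w) (hX : ∀ m, 1 ≤ m → Q ^ T ≤ (2 * D) * m → PG (Q ^ T) m ≤ ENNReal.ofReal x)
    (hW : Ex (Q ^ T) (fun a => ind (Exc Q T u M q r0 η δ k (k + h) a)) ≤ ENNReal.ofReal w) :
    q * p (k + h) ≤ q * p k + (1 + q * ((1 / 2) ^ r0 + δ)) * (p k + p (k + h)) +
      2 * (q * ((h : ℝ) / (Q ^ u : ℕ) * (x + x) + w)) ∧
    q * p k ≤ (1 + (h : ℝ) / (Q ^ u : ℕ)) *
      ((1 + (h : ℝ) / (Q ^ u : ℕ)) * (q * p (k + h)) +
      (1 + q * ((1 / 2) ^ r0 + δ)) * (p k + p (k + h)) +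
      q * ((h : ℝ) / (Q ^ u : ℕ) * (x + x) + w)) + q * ((h : ℝ) / (Q ^ u : ℕ) * (x + x) + w) := by
  obtain ⟨h1, h2⟩ := two_ineq (e := ENNReal.ofReal ((h : ℝ) / (Q ^ u : ℕ)) *
    (ENNReal.ofReal x + ENNReal.ofReal x)) hQ hu hM hη hδ hh hhu hT hkT hD hk2 hX hW rfl
  have hP : 0 ≤ p k := p_nonneg k
  have hP' : 0 ≤ p (k + h) := p_nonneg (k + h)
  have hq : (0 : ℝ) ≤ q := Nat.cast_nonneg q
  have hr : (0 : ℝ) ≤ (h : ℝ) / (Q ^ u : ℕ) := by positivity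
  have hS : (0 : ℝ) ≤ 1 + (h : ℝ) / (Q ^ u : ℕ) := by positivity
  have hR : (0 : ℝ) ≤ 1 + q * ((1 / 2) ^ r0 + δ) := by positivity
  have hE : (0 : ℝ) ≤ (h : ℝ) / (Q ^ u : ℕ) * (x + x) + w := by positivity
  have eP : PG (Q ^ T) k = ENNReal.ofReal (p k) := p_eq (by omega)
  have eP' : PG (Q ^ T) (k + h) = ENNReal.ofReal (p (k + h)) := p_eq hkT
  have eq' : (q : ℝ≥0∞) = ENNReal.ofReal q := (ENNReal.ofReal_natCast q).symm
  have eE : ENNReal.ofReal ((h : ℝ) / (Q ^ u : ℕ)) * (ENNReal.ofReal x + ENNReal.ofReal x) +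
      ENNReal.ofReal w = ENNReal.ofReal ((h : ℝ) / (Q ^ u : ℕ) * (x + x) + w) := by
    rw [← ENNReal.ofReal_add hx hx, ← ENNReal.ofReal_mul hr,
      ← ENNReal.ofReal_add (by positivity) hw]
  have e2 : (2 : ℝ≥0∞) = ENNReal.ofReal 2 := by norm_num
  rw [eP, eP', eE, eq'] at h1 h2
  generalize (h : ℝ) / (Q ^ u : ℕ) * (x + x) + w = E at *
  generalize 1 + (q : ℝ) * ((1 / 2) ^ r0 + δ) = R at *
  generalize 1 + (h : ℝ) / (Q ^ u : ℕ) = S at *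
  generalize (q : ℝ) = q' at *
  generalize p (k + h) = P' at *
  generalize p k = P at *
  constructor
  · rw [e2, ← ENNReal.ofReal_mul hq, ← ENNReal.ofReal_mul hq, ← ENNReal.ofReal_add hP hP',
      ← ENNReal.ofReal_mul hR, ← ENNReal.ofReal_mul hq, ← ENNReal.ofReal_mul (by norm_num),
      ← ENNReal.ofReal_add (by positivity) (by positivity),
      ← ENNReal.ofReal_add (by positivity) (by positivity),
      ENNReal.ofReal_le_ofReal_iff (by positivity)] at h1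
    exact h1
  · rw [← ENNReal.ofReal_mul hq, ← ENNReal.ofReal_mul hq, ← ENNReal.ofReal_add hP hP',
      ← ENNReal.ofReal_mul hR, ← ENNReal.ofReal_mul hq, ← ENNReal.ofReal_mul hS,
      ← ENNReal.ofReal_add (by positivity) (by positivity),
      ← ENNReal.ofReal_add (by positivity) (by positivity), ← ENNReal.ofReal_mul hS,
      ← ENNReal.ofReal_add (by positivity) (by positivity),
      ENNReal.ofReal_le_ofReal_iff (by positivity)] at h2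
    exact h2

end Pool.Agent.Lib.MP_134bf7_pr.RL
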