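import Pool.Agent.Lib.MP_134bf7_pr.RL.Up

/-!
# RL-AsD: numerical steps of the proof of the theorem
-/

namespace Pool.Agent.Lib.MP_134bf7_pr.RL

open Finset Filter
open scoped ENNReal NNReal

theorem cast_pow_eq_exp {Q : ℕ} (hQ : 2 ≤ Q) (n : ℕ) :
    ((Q ^ n : ℕ) : ℝ) = Real.exp (n * Real.log Q) := by
  have hQpos : (0 : ℝ) < Q := by
    have : 0 < Q := by omega
    exact_mod_cast this
  push_cast
  rw [mul_comm, Real.exp_mul, Real.exp_log hQpos, Real.rpow_natCast]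

theorem k_le_exp {Q T k : ℕ} (hQ : 2 ≤ Q) (hk : k ≤ Q ^ T) :
    (k : ℝ) ≤ Real.exp (T * Real.log Q) := by
  rw [← cast_pow_eq_exp hQ]
  exact_mod_cast hk

theorem h_ratio {Q T u k h : ℕ} {ε : ℝ} (hQ : 2 ≤ Q) (hk1 : 1 ≤ k) (hk : k ≤ Q ^ T) (hε : ε ≤ 1)
    (hu : (T : ℝ) * (1 - ε) ≤ u - 1) (hh : (h : ℝ) ≤ (k : ℝ) ^ (1 - ε)) :
    (h : ℝ) / (Q ^ u : ℕ) ≤ 1 / Q := by
  have hQpos : (0 : ℝ) < Q := by
    have : 0 < Q := by omega
    exact_mod_cast this
  have hlam0 : 0 ≤ Real.log Q := Real.log_nonneg (by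
    have : 1 ≤ Q := by omega
    exact_mod_cast this)
  have hkpos : (0 : ℝ) ≤ k := Nat.cast_nonneg k
  rw [cast_pow_eq_exp hQ, div_le_iff₀ (Real.exp_pos _)]
  calc (h : ℝ) ≤ (k : ℝ) ^ (1 - ε) := hh
    _ ≤ (Real.exp (T * Real.log Q)) ^ (1 - ε) :=
        Real.rpow_le_rpow hkpos (k_le_exp hQ hk) (by linarith)
    _ = Real.exp (((T : ℝ) * (1 - ε)) * Real.log Q) := by
        rw [← Real.exp_mul]
        congr 1
        ring
    _ ≤ Real.exp ((u - 1) * Real.log Q) :=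
        Real.exp_le_exp.2 (mul_le_mul_of_nonneg_right hu hlam0)
    _ = 1 / Q * Real.exp (u * Real.log Q) := by
        rw [show ((u : ℝ) - 1) * Real.log Q = u * Real.log Q - Real.log Q by ring, Real.exp_sub,
          Real.exp_log hQpos]
        ring

theorem p_low {Q T k : ℕ} {c P : ℝ} (hQ : 2 ≤ Q) (hT : 1 ≤ T) (hk1 : 1 ≤ k) (hk : k ≤ Q ^ T)
    (hc : 0 < c) (hal : 0 < al) (hP : (k : ℝ) ^ (-(al + c / (2 * T))) ≤ P) :
    Real.exp (-(al * T + c / 2) * Real.log Q) ≤ P := by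
  have hT0 : (0 : ℝ) < T := by exact_mod_cast hT
  have hkpos : (0 : ℝ) < k := by exact_mod_cast hk1
  refine le_trans ?_ hP
  calc Real.exp (-(al * T + c / 2) * Real.log Q) =
      (Real.exp (T * Real.log Q)) ^ (-(al + c / (2 * T))) := by
        rw [← Real.exp_mul]
        congr 1
        field_simp
    _ ≤ (k : ℝ) ^ (-(al + c / (2 * T))) := by
        refine Real.rpow_le_rpow_of_nonpos hkpos (k_le_exp hQ hk) ?_
        have : 0 < al + c / (2 * T) := by positivity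
        linarith

theorem err_small {lam C U θ c αT P r x w : ℝ} (hlam : 0 ≤ lam) (hC : 0 ≤ C) (hU : 0 ≤ U)
    (hθ : 0 < θ) (hc : c ≤ 1) (hr : r ≤ Real.exp (-lam))
    (hx : x = U * (1 + lam) * Real.exp (-αT * lam))
    (hw : w = C * (1 + lam) * Real.exp (-(αT + c) * lam))
    (habs : (C + 2 * U) / θ * (1 + lam) ^ 2 ≤ Real.exp (c / 2 * lam))
    (hP : Real.exp (-(αT + c / 2) * lam) ≤ P) : r * (x + x) + w ≤ θ * P := by
  have hx0 : 0 ≤ x := by rw [hx]; positivity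
  have s1 : r * (x + x) ≤ 2 * U * (1 + lam) * Real.exp (-(αT + c) * lam) := by
    calc r * (x + x) ≤ Real.exp (-lam) * (x + x) := mul_le_mul_of_nonneg_right hr (by positivity)
      _ = 2 * U * (1 + lam) * (Real.exp (-αT * lam) * Real.exp (-lam)) := by rw [hx]; ring
      _ ≤ 2 * U * (1 + lam) * Real.exp (-(αT + c) * lam) := by
          rw [← Real.exp_add]
          refine mul_le_mul_of_nonneg_left (Real.exp_le_exp.2 ?_) (by positivity)
          have : c * lam ≤ 1 * lam := mul_le_mul_of_nonneg_right hc hlam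
          linarith
  have s2 : (C + 2 * U) * (1 + lam) ≤ θ * Real.exp (c / 2 * lam) := by
    have h3 : (C + 2 * U) / θ * (1 + lam) ≤ (C + 2 * U) / θ * (1 + lam) ^ 2 :=
      mul_le_mul_of_nonneg_left (by nlinarith) (by positivity)
    have h4 := h3.trans habs
    calc (C + 2 * U) * (1 + lam) = θ * ((C + 2 * U) / θ * (1 + lam)) := by field_simp
      _ ≤ _ := mul_le_mul_of_nonneg_left h4 hθ.le
  calc r * (x + x) + w ≤ 2 * U * (1 + lam) * Real.exp (-(αT + c) * lam) +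
        C * (1 + lam) * Real.exp (-(αT + c) * lam) := by rw [← hw]; linarith
    _ = ((C + 2 * U) * (1 + lam)) * Real.exp (-(αT + c) * lam) := by ring
    _ ≤ (θ * Real.exp (c / 2 * lam)) * Real.exp (-(αT + c) * lam) :=
        mul_le_mul_of_nonneg_right s2 (Real.exp_pos _).le
    _ = θ * Real.exp (-(αT + c / 2) * lam) := by
        rw [mul_assoc, ← Real.exp_add]
        congr 2
        ring
    _ ≤ θ * P := mul_le_mul_of_nonneg_left hP hθ.le

end Pool.Agent.Lib.MP_134bf7_pr.RL
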