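import Mathlib

/-!
# RL-AsR: the last step of the comparison: real arithmetic
-/

namespace Pool.Agent.Lib.MP_134bf7_pr.RL

/-- the last step: real arithmetic -/
theorem ratio {P P' θ κ q R S E : ℝ} (hP : 0 < P) (hP' : 0 ≤ P') (hθ : 0 < θ)
    (hθ1 : θ ≤ 1 / 40) (hθκ : 10 * θ ≤ κ) (hq : 0 < q) (hR0 : 0 ≤ R) (hR : R ≤ q * θ) (hS1 : 1 ≤ S)
    (hS : S ≤ 1 + θ) (hE0 : 0 ≤ E) (hE : E ≤ θ * P)
    (h1 : q * P' ≤ q * P + R * (P + P') + 2 * (q * E))
    (h2 : q * P ≤ S * (S * (q * P') + R * (P + P') + q * E) + q * E) : |P' / P - 1| ≤ κ := by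
  have hRP : R * (P + P') ≤ q * (θ * (P + P')) := by nlinarith [add_nonneg hP.le hP']
  have i1 : P' ≤ P + θ * (P + P') + 2 * (θ * P) := by
    have : q * P' ≤ q * (P + θ * (P + P') + 2 * (θ * P)) := by nlinarith
    exact le_of_mul_le_mul_left this hq
  have i2 : P ≤ (1 + θ) * ((1 + θ) * P' + θ * (P + P') + θ * P) + θ * P := by
    have hin : S * (q * P') + R * (P + P') + q * E ≤
        q * ((1 + θ) * P' + θ * (P + P') + θ * P) := by
      have : S * (q * P') ≤ (1 + θ) * (q * P') := by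
        exact mul_le_mul_of_nonneg_right hS (by positivity)
      nlinarith
    have hpos : 0 ≤ S * (q * P') + R * (P + P') + q * E := by positivity
    have hb : S * (S * (q * P') + R * (P + P') + q * E) ≤
        (1 + θ) * (q * ((1 + θ) * P' + θ * (P + P') + θ * P)) :=
      mul_le_mul hS hin hpos (by positivity)
    have : q * P ≤ q * ((1 + θ) * ((1 + θ) * P' + θ * (P + P') + θ * P) + θ * P) := by
      nlinarith
    exact le_of_mul_le_mul_left this hq
  have j1 : P' ≤ (1 + κ) * P := by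
    by_contra hcon
    push Not at hcon
    have h3 : (1 + 10 * θ) * P < P' := by nlinarith
    have hA : 0 < 1 - θ := by linarith
    have h4 := mul_lt_mul_of_pos_left h3 hA
    have h5 : (1 - θ) * P' ≤ (1 + 3 * θ) * P := by linarith
    have h6 : (1 + 3 * θ) * P ≤ (1 - θ) * ((1 + 10 * θ) * P) := by
      have : 1 + 3 * θ ≤ (1 - θ) * (1 + 10 * θ) := by nlinarith
      calc (1 + 3 * θ) * P ≤ ((1 - θ) * (1 + 10 * θ)) * P :=
            mul_le_mul_of_nonneg_right this hP.le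
        _ = _ := by ring
    linarith
  have j2 : (1 - κ) * P ≤ P' := by
    by_contra hcon
    push Not at hcon
    have h3 : P' < (1 - 10 * θ) * P := by nlinarith
    have hA : 0 < (1 + θ) * (1 + 2 * θ) := by positivity
    have h4 := mul_lt_mul_of_pos_left h3 hA
    have h5 : (1 - 3 * θ - 2 * θ ^ 2) * P ≤ (1 + θ) * (1 + 2 * θ) * P' := by nlinarith
    have h6 : (1 + θ) * (1 + 2 * θ) * ((1 - 10 * θ) * P) ≤ (1 - 3 * θ - 2 * θ ^ 2) * P := by
      have : (1 + θ) * (1 + 2 * θ) * (1 - 10 * θ) ≤ 1 - 3 * θ - 2 * θ ^ 2 := by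
        nlinarith [pow_pos hθ 2, pow_pos hθ 3]
      calc (1 + θ) * (1 + 2 * θ) * ((1 - 10 * θ) * P) =
          ((1 + θ) * (1 + 2 * θ) * (1 - 10 * θ)) * P := by ring
        _ ≤ _ := mul_le_mul_of_nonneg_right this hP.le
    linarith
  rw [abs_le]
  constructor
  · have := (le_div_iff₀ hP).2 j2
    linarith
  · have := (div_le_iff₀ hP).2 j1
    linarith

end Pool.Agent.Lib.MP_134bf7_pr.RL
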