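import Pool.Agent.Lib.MP_134bf7_pr.RL.Zb

/-!
# RL-Lb: from configurations to labelled configurations

* `exists_lab`: for each `x` choose the patterns of the `a x` cycles: the `t`-th cycle (`t < a x`) gets the
  pattern `q_t l = decide (t < c l x)`; `β (x, q)` is the number of `t < a x` with `q_t = q`.  Then
  `∑ q, β (x, q) = a x` and `∑_{q : q l} β (x, q) = |{t < a x | t < c l x}| = c l x`.
* `wt_le`: `wt (mu K) (mg β) ≤ wt (muP K r) β`: for each `x` the power of `mu K x` is the same and
  `∏ q, β (x, q)! ≤ (∑ q, β (x, q))!` (`Nat.prod_factorial_dvd_factorial_sum`).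
* `lab'`: choose `β a` for each `a` with `F a ≠ 0`; `a ↦ β a` is injective as `mg (β a) = a`, so
  `∑_{a, F a ≠ 0} wt a * F a ≤ ∑_{a, F a ≠ 0} wt (β a) * G (β a) ≤ ∑_β wt β * G β`
  (`wt_le`; `ENNReal.tsum_comp_le_tsum_of_injective`).
* `lab`: `lab'` for `F = ind ∘ E`.
* `badC_le`: by `lab`; given `a`, `c` as in `BadC` take `β` of `exists_lab`.  If `c l x ≠ c l' x` then
  `∑_{q : q l} β (x, q) ≠ ∑_{q : q l'} β (x, q)`, so some `q` with `q l ≠ q l'` has `β (x, q) ≥ 1`.
  If `bl Q x ∈ b` then `a x ≤ 1`: if `a x = 0` all `β (x, q)` are `0`; if `a x = 1` exactly one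
  `β (x, q)` is `1`, the others are `0`, and this `q` is `pat c x` because `c l x = 1` iff `q l`; so
  `∑ q, g q * β (x, q) = a x * g (pat c x)`.
-/

namespace Pool.Agent.Lib.MP_134bf7_pr.RL

open Finset
open scoped ENNReal NNReal

theorem exists_lab {K r : ℕ} (a : Fin K → ℕ) (c : Fin r → Fin K → ℕ) (h : ∀ l x, c l x ≤ a x) :
    ∃ β : Fin K × Pat r → ℕ, mg β = a ∧ ∀ l, cut l β = c l := by
  refine ⟨fun y => ((range (a y.1)).filter
    (fun t => (fun l => decide (t < c l y.1)) = y.2)).card, ?_, ?_⟩
  · funext x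
    unfold mg
    have h1 := Finset.card_eq_sum_card_fiberwise (s := range (a x)) (t := (univ : Finset (Pat r)))
      (f := fun t => (fun l => decide (t < c l x))) (fun _ _ => by simp)
    rw [card_range] at h1
    exact h1.symm
  · intro l
    funext x
    unfold cut
    have h1 : ((range (a x)).filter (fun t => t < c l x)).card = c l x := by
      have h2 : (range (a x)).filter (fun t => t < c l x) = range (c l x) := by
        ext t
        simp only [mem_filter, mem_range]
        have := h l x
        constructor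
        · exact fun h => h.2
        · exact fun h => ⟨by omega, h⟩
      rw [h2, card_range]
    rw [← Finset.sum_filter]
    have h3 := Finset.card_eq_sum_card_fiberwise
      (s := (range (a x)).filter (fun t => t < c l x))
      (t := (univ : Finset (Pat r)).filter (fun q => q l = true))
      (f := fun t => (fun l => decide (t < c l x))) (fun t ht => by
        simp only [coe_filter, mem_range, Set.mem_ofPred_eq] at ht
        simp only [coe_filter, mem_univ, true_and, Set.mem_ofPred_eq, decide_eq_true_eq]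
        exact ht.2)
    rw [h1] at h3
    rw [h3]
    refine Finset.sum_congr rfl fun q hq => ?_
    rw [mem_filter] at hq
    refine congrArg Finset.card ?_
    ext t
    simp only [mem_filter, mem_range]
    constructor
    · rintro ⟨h4, h5⟩
      refine ⟨⟨h4, ?_⟩, h5⟩
      have h6 := congrFun h5 l
      rw [hq.2] at h6
      exact of_decide_eq_true h6
    · rintro ⟨⟨h4, -⟩, h5⟩
      exact ⟨h4, h5⟩

theorem wt_le {K r : ℕ} (β : Fin K × Pat r → ℕ) : wt (mu K) (mg β) ≤ wt (muP K r) β := by
  unfold wt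
  rw [Fintype.prod_prod_type]
  refine Finset.prod_le_prod (fun _ _ => by positivity) fun x _ => ?_
  unfold muP mg
  rw [Finset.prod_div_distrib]
  have h0 : ∏ q : Pat r, mu K (x, q).1 ^ β (x, q) = mu K x ^ ∑ q : Pat r, β (x, q) :=
    Finset.prod_pow_eq_pow_sum univ (fun q : Pat r => β (x, q)) (mu K x)
  rw [h0]
  have h1 : (∏ q : Pat r, (β (x, q)).factorial) ≤ (∑ q : Pat r, β (x, q)).factorial :=
    Nat.le_of_dvd (Nat.factorial_pos _) (Nat.prod_factorial_dvd_factorial_sum _ _)
  have h2 : (∏ q : Pat r, ((β (x, q)).factorial : ℝ≥0)) ≤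
      ((∑ q : Pat r, β (x, q)).factorial : ℝ≥0) := by
    exact_mod_cast h1
  have h3 : (0 : ℝ≥0) < ∏ q : Pat r, ((β (x, q)).factorial : ℝ≥0) :=
    Finset.prod_pos fun q _ => by exact_mod_cast Nat.factorial_pos _
  exact div_le_div_of_nonneg_left (by positivity) h3 h2

theorem lab' {K r : ℕ} (F : (Fin K → ℕ) → ℝ≥0∞) (G : (Fin K × Pat r → ℕ) → ℝ≥0∞)
    (h : ∀ a, F a ≠ 0 → ∃ β, mg β = a ∧ F a ≤ G β) : Ex K F ≤ ExP K r G := by
  unfold Ex ExP
  refine mul_le_mul_right ?_ _
  unfold Z
  choose! f hf1 hf2 using h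
  have h1 : ∑' a : Fin K → ℕ, (wt (mu K) a : ℝ≥0∞) * F a =
      ∑' a : {a : Fin K → ℕ // F a ≠ 0}, (wt (mu K) a.1 : ℝ≥0∞) * F a.1 := by
    refine (tsum_subtype_eq_of_support_subset (s := {a : Fin K → ℕ | F a ≠ 0}) ?_).symm
    intro a ha
    rw [Function.mem_support] at ha
    exact right_ne_zero_of_mul ha
  rw [h1]
  have hinj : Function.Injective fun a : {a : Fin K → ℕ // F a ≠ 0} => f a.1 := by
    intro a a' haa
    apply Subtype.ext
    rw [← hf1 a.1 a.2, ← hf1 a'.1 a'.2]
    exact congrArg mg haa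
  refine le_trans ?_ (ENNReal.tsum_comp_le_tsum_of_injective hinj
    (fun β => (wt (muP K r) β : ℝ≥0∞) * G β))
  refine ENNReal.tsum_le_tsum fun a => ?_
  refine mul_le_mul' ?_ (hf2 a.1 a.2)
  have h2 := wt_le (f a.1)
  rw [hf1 a.1 a.2] at h2
  exact_mod_cast h2

theorem lab {K r : ℕ} (E : (Fin K → ℕ) → Prop) (F : (Fin K × Pat r → ℕ) → Prop)
    (h : ∀ a, E a → ∃ β, mg β = a ∧ F β) :
    Ex K (fun a => ind (E a)) ≤ ExP K r (fun β => ind (F β)) := by
  refine lab' _ _ fun a ha => ?_
  have hE : E a := by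
    by_contra hcon
    exact ha (ind_false hcon)
  obtain ⟨β, h1, h2⟩ := h a hE
  exact ⟨β, h1, ind_mono fun _ => h2⟩

theorem badC_le {K r : ℕ} (Q T : ℕ) (η δ : ℝ) (b : Finset ℕ) (g : Pat r → ℝ)
    (Δ : Fin r → Fin r → Prop) (m : Fin r → ℕ) :
    Ex K (fun a => ind (BadC Q T η δ b g Δ m a)) ≤
      ExP K r (fun β => ind (BadP Q T η δ b g Δ m β)) := by
  refine lab _ _ fun a ha => ?_
  obtain ⟨hT, ha1, c, hc, hlen, hΔ, hst⟩ := ha
  obtain ⟨β, hβ, hcut⟩ := exists_lab a c hc
  refine ⟨β, hβ, ?_⟩
  have hsum : ∀ x, ∑ q : Pat r, β (x, q) = a x := fun x => congrFun hβ x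
  have hcx : ∀ l x, (∑ q : Pat r, if q l = true then β (x, q) else 0) = c l x :=
    fun l x => congrFun (hcut l) x
  unfold BadP
  rw [hβ]
  refine ⟨hT, fun l => by rw [hcut l]; exact hlen l, ?_, ?_⟩
  · intro l l' hl
    obtain ⟨x, hx1, hx2⟩ := hΔ l l' hl
    by_contra hcon
    push Not at hcon
    apply hx2
    rw [← hcx l x, ← hcx l' x]
    refine Finset.sum_congr rfl fun q _ => ?_
    rcases Nat.eq_zero_or_pos (β (x, q)) with h0 | h0
    · rw [h0]
      simp
    · rw [hcon x q hx1 h0]
  · refine hst.trans (le_of_eq ?_)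
    unfold stat
    refine Finset.sum_congr rfl fun x _ => ?_
    by_cases hb : bl Q x ∈ b
    · rw [if_pos hb, if_pos hb]
      have h1 := ha1 x hb
      rcases Nat.le_one_iff_eq_zero_or_eq_one.1 h1 with h2 | h2
      · have h3 : ∀ q : Pat r, β (x, q) = 0 := by
          intro q
          have h4 := hsum x
          rw [h2, Finset.sum_eq_zero_iff] at h4
          exact h4 q (mem_univ q)
        rw [h2]
        simp [h3]
      · obtain ⟨q0, hq0⟩ : ∃ q0 : Pat r, 1 ≤ β (x, q0) := by
          by_contra hcon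
          push Not at hcon
          have h4 : ∑ q : Pat r, β (x, q) = 0 :=
            Finset.sum_eq_zero fun q _ => by have := hcon q; omega
          rw [hsum x, h2] at h4
          omega
        have h5 : β (x, q0) + ∑ q ∈ univ.erase q0, β (x, q) = 1 := by
          rw [Finset.add_sum_erase _ (fun q => β (x, q)) (mem_univ q0), hsum x, h2]
        have h6 : β (x, q0) = 1 := by omega
        have h7 : ∀ q, q ≠ q0 → β (x, q) = 0 := by
          intro q hq
          have h8 : ∑ q ∈ univ.erase q0, β (x, q) = 0 := by omega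
          rw [Finset.sum_eq_zero_iff] at h8
          exact h8 q (mem_erase.2 ⟨hq, mem_univ q⟩)
        have h9 : pat c x = q0 := by
          funext l
          unfold pat
          rw [← hcx l x]
          have h10 : (∑ q : Pat r, if q l = true then β (x, q) else 0) =
              if q0 l = true then 1 else 0 := by
            rw [Finset.sum_eq_single q0]
            · rw [h6]
            · intro q _ hq
              rw [h7 q hq]
              simp
            · intro h
              exact absurd (mem_univ q0) h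
          rw [h10]
          cases q0 l <;> simp
        rw [h9, h2, Finset.sum_eq_single q0]
        · rw [h6]
          push_cast
          ring
        · intro q _ hq
          rw [h7 q hq]
          simp
        · intro h
          exact absurd (mem_univ q0) h
    · rw [if_neg hb, if_neg hb]

end Pool.Agent.Lib.MP_134bf7_pr.RL
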