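import Pool.Agent.Lib.MP_134bf7_pr.RL.Be1
import Pool.Agent.Lib.MP_134bf7_pr.RL.Lb

/-!
# RL-Be: the bad events

* `be`: for each `β : Fin (Q ^ T) × Pat r → ℕ` the function `i ↦ sup Q β i` on `i ≥ 1` is `∅` for `i > T`
  (`bl_le`), so it is one of the functions `σ_s i = if h : 1 ≤ i ∧ i ≤ T then s ⟨i - 1, _⟩ else ∅`,
  `s : Fin T → Finset (Pat r)`; so `ind (BadP …) ≤ ∑ s, ind (BadP … ∧ ∀ i, 1 ≤ i → sup Q β i = σ_s i)`
  (`Z_sum`), and there are `(2 ^ 2 ^ r) ^ T` functions `s`.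
* `beC`: `badC_le` and `be`.
-/

namespace Pool.Agent.Lib.MP_134bf7_pr.RL

open Finset
open scoped ENNReal NNReal

/-- a constant -/
noncomputable def CB (T r : ℕ) : ℝ := (2 ^ 2 ^ r) ^ T * (2 ^ r * Real.exp T)

theorem CB_pos (T r : ℕ) : 0 < CB T r := by
  unfold CB; positivity

private def sg (T r : ℕ) (s : Fin T → Finset (Pat r)) (i : ℕ) : Finset (Pat r) :=
  if h : 1 ≤ i ∧ i ≤ T then s ⟨i - 1, by omega⟩ else ∅

private theorem sup_eq_sg {Q T r : ℕ} (hQ : 2 ≤ Q) (hT : 1 ≤ T) (β : Fin (Q ^ T) × Pat r → ℕ)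
    (i : ℕ) (hi : 1 ≤ i) : sup Q β i = sg T r (fun t => sup Q β ((t : ℕ) + 1)) i := by
  unfold sg
  split_ifs with h
  · have : i - 1 + 1 = i := by omega
    simp only [this]
  · have hT' : T < i := by omega
    unfold sup
    rw [filter_eq_empty_iff]
    rintro q - ⟨x, hx, -⟩
    have := bl_le hQ hT x
    omega

theorem be {Q T r : ℕ} (hQ : 2 ≤ Q) (hT : 1 ≤ T) {η δ : ℝ} (hη0 : 0 ≤ η) (hη1 : η ≤ 1)
    (hδ0 : 0 ≤ δ) (hδ1 : δ ≤ 1) {b : Finset ℕ} (hb : b ⊆ Icc 1 T) {g : Pat r → ℝ}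
    (hg : ∀ q, |g q| ≤ 1) {Δ : Fin r → Fin r → Prop} (hA : Adm Δ g) {m : Fin r → ℕ}
    (hm : ∀ l, (T : ℝ) * (zz + η) * Real.log Q * (Q : ℝ) ^ (T - 1) < m l) :
    ExP (Q ^ T) r (fun β => ind (BadP Q T η δ b g Δ m β)) ≤
    ENNReal.ofReal (CB T r * Real.exp (Real.log Q * (-(al * T) + r +
      η * (T * Real.log zz + r * T * Real.log 2) - zz * (δ ^ 2 / 16) * b.card))) := by
  have hpt : ∀ β : Fin (Q ^ T) × Pat r → ℕ, ind (BadP Q T η δ b g Δ m β) ≤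
      ∑ s : Fin T → Finset (Pat r),
        ind (BadP Q T η δ b g Δ m β ∧ ∀ i, 1 ≤ i → sup Q β i = sg T r s i) := by
    intro β
    have h1 : ind (BadP Q T η δ b g Δ m β) ≤
        ind (BadP Q T η δ b g Δ m β ∧
          ∀ i, 1 ≤ i → sup Q β i = sg T r (fun t => sup Q β ((t : ℕ) + 1)) i) := by
      apply ind_mono
      intro h
      exact ⟨h, fun i hi => sup_eq_sg hQ hT β i hi⟩
    exact h1.trans (Finset.single_le_sum
      (f := fun s : Fin T → Finset (Pat r) =>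
        ind (BadP Q T η δ b g Δ m β ∧ ∀ i, 1 ≤ i → sup Q β i = sg T r s i))
      (fun s _ => zero_le) (Finset.mem_univ (fun t : Fin T => sup Q β ((t : ℕ) + 1))))
  have hstep : ExP (Q ^ T) r (fun β => ind (BadP Q T η δ b g Δ m β)) ≤
      ∑ s : Fin T → Finset (Pat r), ExP (Q ^ T) r (fun β =>
        ind (BadP Q T η δ b g Δ m β ∧ ∀ i, 1 ≤ i → sup Q β i = sg T r s i)) := by
    unfold ExP
    rw [← Finset.mul_sum, ← Z_sum]
    exact mul_le_mul_right (Z_mono _ hpt) _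
  refine hstep.trans ?_
  refine (Finset.sum_le_sum fun s _ =>
    be1 hQ hT hη0 hη1 hδ0 hδ1 hb hg hA hm (sg T r s)).trans ?_
  rw [Finset.sum_const, Finset.card_univ, Fintype.card_fun, Fintype.card_finset,
    Fintype.card_fun, Fintype.card_bool, Fintype.card_fin, Fintype.card_fin, nsmul_eq_mul]
  rw [show (((2 ^ 2 ^ r) ^ T : ℕ) : ℝ≥0∞) = ENNReal.ofReal ((2 ^ 2 ^ r) ^ T) by
    rw [← ENNReal.ofReal_natCast]; push_cast; rfl]
  rw [← ENNReal.ofReal_mul (by positivity)]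
  apply le_of_eq
  congr 1
  unfold CB
  ring

theorem beC {Q T r : ℕ} (hQ : 2 ≤ Q) (hT : 1 ≤ T) {η δ : ℝ} (hη0 : 0 ≤ η) (hη1 : η ≤ 1)
    (hδ0 : 0 ≤ δ) (hδ1 : δ ≤ 1) {b : Finset ℕ} (hb : b ⊆ Icc 1 T) {g : Pat r → ℝ}
    (hg : ∀ q, |g q| ≤ 1) {Δ : Fin r → Fin r → Prop} (hA : Adm Δ g) {m : Fin r → ℕ}
    (hm : ∀ l, (T : ℝ) * (zz + η) * Real.log Q * (Q : ℝ) ^ (T - 1) < m l) :
    Ex (Q ^ T) (fun a => ind (BadC Q T η δ b g Δ m a)) ≤
    ENNReal.ofReal (CB T r * Real.exp (Real.log Q * (-(al * T) + r +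
      η * (T * Real.log zz + r * T * Real.log 2) - zz * (δ ^ 2 / 16) * b.card))) :=
  (badC_le Q T η δ b g Δ m).trans (be hQ hT hη0 hη1 hδ0 hδ1 hb hg hA hm)

end Pool.Agent.Lib.MP_134bf7_pr.RL
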