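import Pool.Agent.Lib.MP_134bf7_pr.RL.Mo
import Pool.Agent.Lib.MP_134bf7_pr.RL.Be

/-!
# RL-LoC: the second moment is at most `Q ^ (- al * T + 4)`

`lam = log Q`, `n = ⌊zz * lam⌋₊`, `η = 1 / (2 * T)`.  `mom2`, and the event there is contained in
`BadP Q T η 0 ∅ (fun _ => 0) (fun _ _ => False) (fun _ => k)`: `|n - zz * lam| ≤ 1 ≤ η * lam` for large
`Q`; the last condition is `0 ≤ 0`.  Apply `be` with `adm_zero`; its `hm`:
`T * (zz + η) * lam * Q ^ (T - 1) < k` because `Q ^ T ≤ D * k` and `D * T * (zz + 1) * lam < Q` for large `Q`.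
`η * (T * log zz + 2 * T * log 2) = (log zz + 2 * log 2) / 2 ≤ 1`, and `CB T 2 ≤ exp lam` for large `Q`.
(If `D = 0` then `Q ^ T ≤ 0` is impossible.)
-/

namespace Pool.Agent.Lib.MP_134bf7_pr.RL

open Finset Filter
open scoped ENNReal NNReal

private theorem loc_zz_pos : 0 < zz := by
  unfold zz
  exact one_div_pos.2 (Real.log_pos one_lt_two)

private theorem loc_zz_lt : zz < 3 / 2 := by
  unfold zz
  have h1 := Real.log_two_gt_d9
  rw [div_lt_iff₀ (by linarith)]
  linarith

private theorem loc_log : Real.log zz + 2 * Real.log 2 ≤ 2 := by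
  have h1 : Real.log zz + 2 * Real.log 2 = Real.log (zz * 4) := by
    rw [Real.log_mul loc_zz_pos.ne' (by norm_num)]
    rw [show (4 : ℝ) = 2 ^ 2 by norm_num, Real.log_pow]
    push_cast
    ring
  rw [h1, Real.log_le_iff_le_exp (by have := loc_zz_pos; positivity)]
  have h2 : Real.exp 2 = Real.exp 1 * Real.exp 1 := by
    rw [← Real.exp_add]; norm_num
  have h3 := Real.exp_one_gt_d9
  have h4 := loc_zz_lt
  rw [h2]
  nlinarith

private theorem loc_k {Q T D m : ℕ} {η : ℝ} (hT : 1 ≤ T) (hη1 : η ≤ 1) (hQ : 2 ≤ Q)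
    (hlar : (D : ℝ) * T * (zz + 1) * Real.log Q < Q) (hm : Q ^ T ≤ D * m) :
    (T : ℝ) * (zz + η) * Real.log Q * (Q : ℝ) ^ (T - 1) < m := by
  have hz := loc_zz_pos
  have hQ0 : (0 : ℝ) < Q := by
    have : 0 < Q := by omega
    exact_mod_cast this
  have hL : 0 ≤ Real.log Q := Real.log_natCast_nonneg Q
  have hm' : (Q : ℝ) ^ T ≤ D * m := by exact_mod_cast hm
  have hD : (0 : ℝ) < D := by
    rcases Nat.eq_zero_or_pos D with h | h
    · exfalso
      rw [h] at hm'
      have : (0 : ℝ) < (Q : ℝ) ^ T := by positivity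
      simp at hm'
      linarith
    · exact_mod_cast h
  have hP : (0 : ℝ) < (Q : ℝ) ^ (T - 1) := by positivity
  have hTT : (Q : ℝ) ^ T = (Q : ℝ) ^ (T - 1) * Q := by
    rw [← pow_succ]
    congr 1
    omega
  have h1 : (T : ℝ) * (zz + η) * Real.log Q * (Q : ℝ) ^ (T - 1) ≤
      (T : ℝ) * (zz + 1) * Real.log Q * (Q : ℝ) ^ (T - 1) := by
    gcongr
  refine lt_of_le_of_lt h1 ?_
  have h2 : (D : ℝ) * ((T : ℝ) * (zz + 1) * Real.log Q * (Q : ℝ) ^ (T - 1)) < D * m := by
    calc (D : ℝ) * ((T : ℝ) * (zz + 1) * Real.log Q * (Q : ℝ) ^ (T - 1))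
        = ((D : ℝ) * T * (zz + 1) * Real.log Q) * (Q : ℝ) ^ (T - 1) := by ring
      _ < Q * (Q : ℝ) ^ (T - 1) := by
        exact mul_lt_mul_of_pos_right hlar hP
      _ = (Q : ℝ) ^ T := by rw [hTT]; ring
      _ ≤ D * m := hm'
  exact lt_of_mul_lt_mul_left h2 hD.le

private theorem loc_large (c : ℝ) : ∀ᶠ Q : ℕ in atTop, c * Real.log Q < Q := by
  have h := (Real.isLittleO_log_id_atTop).tendsto_div_nhds_zero
  have h1 := h.comp tendsto_natCast_atTop_atTop (α := ℕ)
  have h2 := h1.eventually (gt_mem_nhds (show (0 : ℝ) < 1 / (|c| + 1) by positivity))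
  filter_upwards [h2, eventually_ge_atTop 2] with Q hQ hQ2
  simp only [Function.comp_apply, id_eq] at hQ
  have hQ0 : (0 : ℝ) < Q := by
    have : 0 < Q := by omega
    exact_mod_cast this
  rw [div_lt_div_iff₀ hQ0 (by positivity)] at hQ
  have hL : 0 ≤ Real.log Q := Real.log_natCast_nonneg Q
  have h3 : c * Real.log Q ≤ |c| * Real.log Q := mul_le_mul_of_nonneg_right (le_abs_self c) hL
  nlinarith

private theorem loc_log_large (c : ℝ) : ∀ᶠ Q : ℕ in atTop, c ≤ Real.log Q :=
  (Real.tendsto_log_atTop.comp tendsto_natCast_atTop_atTop).eventually (eventually_ge_atTop c)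

theorem snd {T D : ℕ} (hT : 1 ≤ T) : ∀ᶠ Q : ℕ in atTop, ∀ k : ℕ, Q ^ T ≤ D * k →
    Ex (Q ^ T) (fun a => ind (∀ i ∈ Icc 1 T, NB Q a i = ⌊zz * Real.log Q⌋₊) * Nl k a ^ 2) ≤
      ENNReal.ofReal (Real.exp ((-(al * T) + 4) * Real.log Q)) := by
  have hT0 : (0 : ℝ) < T := by
    have : 0 < T := by omega
    exact_mod_cast this
  have hT1 : (1 : ℝ) ≤ T := by exact_mod_cast hT
  filter_upwards [eventually_ge_atTop 2, loc_large ((D : ℝ) * T * (zz + 1)),
    loc_log_large (2 * T), loc_log_large (Real.log (CB T 2))] with Q hQ hlar hlog hCB k hk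
  set η : ℝ := 1 / (2 * T) with hη
  have hη0 : 0 ≤ η := by positivity
  have hη1 : η ≤ 1 := by
    rw [hη, div_le_one (by positivity)]
    linarith
  have hL0 : 0 ≤ Real.log Q := Real.log_natCast_nonneg Q
  have hηL : 1 ≤ η * Real.log Q := by
    rw [hη, one_div, inv_mul_eq_div, le_div_iff₀ (by positivity)]
    linarith
  refine (mom2 k _).trans ?_
  have hpt : ∀ β : Fin (Q ^ T) × Pat 2 → ℕ,
      ind (∀ i ∈ Icc 1 T, NB Q (mg β) i = ⌊zz * Real.log Q⌋₊) * ind (∀ l, len (cut l β) = k) ≤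
        ind (BadP Q T η 0 ∅ (fun _ => 0) (fun _ _ => False) (fun _ => k) β) := by
    intro β
    by_cases h1 : ∀ i ∈ Icc 1 T, NB Q (mg β) i = ⌊zz * Real.log Q⌋₊
    · by_cases h2 : ∀ l, len (cut l β) = k
      · have h3 : BadP Q T η 0 ∅ (fun _ => 0) (fun _ _ => False) (fun _ => k) β := by
          refine ⟨?_, h2, fun _ _ h => h.elim, ?_⟩
          · intro i hi
            rw [h1 i hi]
            have h4 := Nat.floor_le (show 0 ≤ zz * Real.log Q by
              have := loc_zz_pos; positivity)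
            have h5 := Nat.lt_floor_add_one (zz * Real.log Q)
            rw [abs_le]
            constructor <;> linarith
          · simp
        rw [ind_true h1, ind_true h2, ind_true h3, one_mul]
      · rw [ind_false h2, mul_zero]
        exact zero_le
    · rw [ind_false h1, zero_mul]
      exact zero_le
  have hmono : ExP (Q ^ T) 2 (fun β =>
      ind (∀ i ∈ Icc 1 T, NB Q (mg β) i = ⌊zz * Real.log Q⌋₊) * ind (∀ l, len (cut l β) = k)) ≤
      ExP (Q ^ T) 2 (fun β =>
        ind (BadP Q T η 0 ∅ (fun _ => 0) (fun _ _ => False) (fun _ => k) β)) := by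
    unfold ExP
    exact mul_le_mul_right (Z_mono _ hpt) _
  refine hmono.trans ?_
  have hbe := be (Q := Q) (T := T) (r := 2) hQ hT hη0 hη1 (δ := 0) le_rfl zero_le_one
    (b := ∅) (empty_subset _) (g := fun _ => 0) (fun _ => by simp)
    (Δ := fun _ _ => False) (adm_zero _) (m := fun _ => k)
    (fun _ => loc_k hT hη1 hQ hlar hk)
  refine hbe.trans (ENNReal.ofReal_le_ofReal ?_)
  have hC : CB T 2 ≤ Real.exp (Real.log Q) := by
    rw [← Real.log_le_iff_le_exp (CB_pos T 2)]
    exact hCB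
  have hE : Real.log Q * (-(al * T) + (2 : ℕ) +
      η * (T * Real.log zz + (2 : ℕ) * T * Real.log 2) - zz * ((0 : ℝ) ^ 2 / 16) *
        ((∅ : Finset ℕ).card : ℝ)) ≤ (-(al * T) + 3) * Real.log Q := by
    have h1 : η * (T * Real.log zz + (2 : ℕ) * T * Real.log 2) =
        (Real.log zz + 2 * Real.log 2) / 2 := by
      rw [hη]
      field_simp
      push_cast
      ring
    rw [h1]
    have h2 := loc_log
    simp only [card_empty, Nat.cast_zero, mul_zero, sub_zero]
    push_cast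
    rw [mul_comm]
    apply mul_le_mul_of_nonneg_right _ hL0
    linarith
  calc CB T 2 * Real.exp (Real.log Q * (-(al * T) + (2 : ℕ) +
      η * (T * Real.log zz + (2 : ℕ) * T * Real.log 2) - zz * ((0 : ℝ) ^ 2 / 16) *
        ((∅ : Finset ℕ).card : ℝ)))
      ≤ Real.exp (Real.log Q) * Real.exp ((-(al * T) + 3) * Real.log Q) := by
        apply mul_le_mul hC (Real.exp_le_exp.2 hE) (Real.exp_pos _).le (Real.exp_pos _).le
    _ = Real.exp ((-(al * T) + 4) * Real.log Q) := by
        rw [← Real.exp_add]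
        congr 1
        ring

end Pool.Agent.Lib.MP_134bf7_pr.RL
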