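import Pool.Agent.Lib.MP_134bf7_pr.RL.LoB
import Pool.Agent.Lib.MP_134bf7_pr.RL.LoC
import Pool.Agent.Lib.MP_134bf7_pr.RL.Pr

/-!
# RL-Lo: the lower bound `p k ≥ k ^ (- al - ε)`

* `exists_Q`: for `T ≥ 1`, `k ≥ 1` let `Q` be the least number with `k ≤ Q ^ T`; for `k ≥ 2` `Q ≥ 2` and
  `(Q - 1) ^ T < k`, `Q ≤ 2 * (Q - 1)`, so `Q ^ T ≤ 2 ^ T * k`; and `Q → ∞` with `k` (`Q ^ T ≥ k`).
* `lowerQ`: `cs`, `fst`, `snd`: `exp (-(al * T + 2) * lam) ^ 2 ≤ exp ((- al * T + 4) * lam) * PG`.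
* `lower`: choose `T ≥ 2` with `9 / T ≤ ε`, `D = 2 ^ T`; for large `k` take `Q` of `exists_Q`:
  `p k = PG (Q ^ T) k ≥ exp (-(al * T + 8) * log Q) = (Q ^ T) ^ (-(al + 8 / T)) ≥ (2 ^ T * k) ^ (-(al + 8 / T))
  ≥ k ^ (-(al + 9 / T))` for large `k`.
-/

namespace Pool.Agent.Lib.MP_134bf7_pr.RL

open Finset Filter
open scoped ENNReal NNReal

theorem exists_Q {T : ℕ} (hT : 1 ≤ T) (Q0 : ℕ) : ∀ᶠ k : ℕ in atTop, ∃ Q : ℕ, Q0 ≤ Q ∧ 2 ≤ Q ∧
    k ≤ Q ^ T ∧ Q ^ T ≤ 2 ^ T * k := by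
  classical
  filter_upwards [eventually_ge_atTop ((Q0 + 2) ^ T + 1)] with k hk
  have hex : ∃ Q : ℕ, k ≤ Q ^ T := ⟨k, Nat.le_self_pow (by omega) k⟩
  have h1 : k ≤ Nat.find hex ^ T := Nat.find_spec hex
  have h2 : Q0 + 2 < Nat.find hex := by
    by_contra hcon
    have h3 : Nat.find hex ^ T ≤ (Q0 + 2) ^ T := Nat.pow_le_pow_left (by omega) T
    omega
  refine ⟨Nat.find hex, by omega, by omega, h1, ?_⟩
  obtain ⟨q, hq⟩ : ∃ q, Nat.find hex = q + 1 := ⟨Nat.find hex - 1, by omega⟩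
  have h4 : ¬ k ≤ q ^ T := Nat.find_min hex (by omega)
  rw [hq]
  calc (q + 1) ^ T ≤ (2 * q) ^ T := Nat.pow_le_pow_left (by omega) T
    _ = 2 ^ T * q ^ T := by rw [mul_pow]
    _ ≤ 2 ^ T * k := Nat.mul_le_mul_left _ (by omega)

theorem lowerQ {T D : ℕ} (hT : 2 ≤ T) : ∀ᶠ Q : ℕ in atTop, ∀ k : ℕ, k ≤ Q ^ T → Q ^ T ≤ D * k →
    ENNReal.ofReal (Real.exp (-(al * T + 8) * Real.log Q)) ≤ PG (Q ^ T) k := by
  filter_upwards [fst (T := T) (D := D) hT, snd (T := T) (D := D) (by omega : 1 ≤ T)] with Q h1 h2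
  intro k hk hD
  have hA := h1 k hk hD
  have hB := h2 k hD
  have hcs := cs (K := Q ^ T) k
    (fun a => ∀ i ∈ Icc 1 T, NB Q a i = ⌊zz * Real.log Q⌋₊)
  obtain ⟨lam, hlam⟩ : ∃ lam, lam = Real.log Q := ⟨_, rfl⟩
  rw [← hlam] at hA hB ⊢
  have e0 : Real.exp ((-(al * T) + 4) * lam) ≠ 0 := (Real.exp_pos _).ne'
  have h3 : ENNReal.ofReal (Real.exp (-(al * T + 2) * lam)) ^ 2 ≤
      ENNReal.ofReal (Real.exp ((-(al * T) + 4) * lam)) * PG (Q ^ T) k := by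
    refine (pow_le_pow_left₀ zero_le hA 2).trans ?_
    refine le_trans ?_ (mul_le_mul_left hB (PG (Q ^ T) k))
    rw [hlam]
    exact hcs
  have h4 : ENNReal.ofReal (Real.exp (-(al * T + 2) * lam)) ^ 2 =
      ENNReal.ofReal (Real.exp ((-(al * T) + 4) * lam)) *
        ENNReal.ofReal (Real.exp (-(al * T + 8) * lam)) := by
    rw [← ENNReal.ofReal_pow (Real.exp_pos _).le, ← ENNReal.ofReal_mul (Real.exp_pos _).le,
      ← Real.exp_nat_mul, ← Real.exp_add]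
    congr 2
    push_cast
    ring
  rw [h4] at h3
  have h5 : ENNReal.ofReal (Real.exp ((-(al * T) + 4) * lam)) ≠ 0 := by
    rw [Ne, ENNReal.ofReal_eq_zero, not_le]
    exact Real.exp_pos _
  exact (ENNReal.mul_le_mul_iff_right h5 ENNReal.ofReal_ne_top).1 h3

private theorem al_nonneg : 0 ≤ al := by
  unfold al
  have h0 : 0 < Real.log 2 := Real.log_pos (by norm_num)
  have h1 := Real.log_le_sub_one_of_pos h0
  rw [sub_nonneg, div_le_one h0]
  linarith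

theorem lower (ε : ℝ) (hε : 0 < ε) : ∀ᶠ k : ℕ in atTop, (k : ℝ) ^ (-(al + ε)) ≤ p k := by
  obtain ⟨T, hT1⟩ : ∃ T : ℕ, 9 / ε < T := exists_nat_gt _
  obtain ⟨T, hT2, hT1⟩ : ∃ T : ℕ, 2 ≤ T ∧ 9 / ε < (T : ℝ) := by
    refine ⟨max 2 T, le_max_left _ _, hT1.trans_le ?_⟩
    exact_mod_cast le_max_right 2 T
  have hT0 : (0 : ℝ) < T := by
    have : 0 < T := by omega
    exact_mod_cast this
  have hTε : 9 < T * ε := by
    rw [div_lt_iff₀ hε] at hT1
    exact hT1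
  obtain ⟨Q0, hQ0⟩ := eventually_atTop.1 (lowerQ (T := T) (D := 2 ^ T) hT2)
  have hal := al_nonneg
  have hl2 : 0 < Real.log 2 := Real.log_pos (by norm_num)
  have hlim : ∀ᶠ k : ℕ in atTop, (al * T + 8) * (T * Real.log 2) ≤ Real.log k := by
    have h1 : Tendsto (fun k : ℕ => Real.log (k : ℝ)) atTop atTop :=
      Real.tendsto_log_atTop.comp tendsto_natCast_atTop_atTop
    exact h1.eventually_ge_atTop _
  filter_upwards [exists_Q (by omega : 1 ≤ T) Q0, hlim, eventually_ge_atTop 1] with k hk hlk hk1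
  obtain ⟨Q, hQ, hQ2, hkQ, hQk⟩ := hk
  have h1 := hQ0 Q hQ k hkQ hQk
  rw [p_eq hkQ, ENNReal.ofReal_le_ofReal_iff (p_nonneg k)] at h1
  refine le_trans ?_ h1
  have hk0 : (0 : ℝ) < k := by exact_mod_cast hk1
  have hQpos : (0 : ℝ) < Q := by
    have : 0 < Q := by omega
    exact_mod_cast this
  rw [Real.rpow_def_of_pos hk0, Real.exp_le_exp]
  have h2 : T * Real.log Q ≤ T * Real.log 2 + Real.log k := by
    have h3 : ((Q : ℝ)) ^ T ≤ 2 ^ T * k := by exact_mod_cast hQk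
    have h4 := Real.log_le_log (by positivity) h3
    rw [Real.log_pow, Real.log_mul (by positivity) hk0.ne', Real.log_pow] at h4
    exact h4
  have h5 : (al * T + 8) * (T * Real.log Q) ≤ (al * T + 8) * (T * Real.log 2 + Real.log k) :=
    mul_le_mul_of_nonneg_left h2 (by positivity)
  have hlk0 : 0 ≤ Real.log k := Real.log_nonneg (by exact_mod_cast hk1)
  have h6 : 9 * Real.log k ≤ T * ε * Real.log k := mul_le_mul_of_nonneg_right hTε.le hlk0
  have h7 : T * ((al * T + 8) * Real.log Q) ≤ T * ((al + ε) * Real.log k) := by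
    have h8 : T * ((al * T + 8) * Real.log Q) = (al * T + 8) * (T * Real.log Q) := by ring
    rw [h8]
    refine h5.trans ?_
    have h9 : (al * T + 8) * (T * Real.log 2 + Real.log k) =
        (al * T + 8) * (T * Real.log 2) + (al * T + 8) * Real.log k := by ring
    rw [h9]
    have h10 : T * ((al + ε) * Real.log k) = al * T * Real.log k + T * ε * Real.log k := by ring
    rw [h10]
    linarith
  have h11 := le_of_mul_le_mul_left h7 hT0
  linarith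

end Pool.Agent.Lib.MP_134bf7_pr.RL
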