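import Pool.Agent.Lib.MP_134bf7_pr.RL.Zb

/-!
# RL-Sq: no repeated long cycle lengths

`ind (∃ x, N < x + 1 ∧ 2 ≤ a x) ≤ ∑_{x, N < x + 1} a x * ((a x - 1 : ℕ))` and by `Ex_mecke` (with
`F a = ((a x - 1 : ℕ) : ℝ≥0∞)`, `ad a x x - 1 = a x`) and `Ex_mecke` again (`F = 1`, `Ex_one`)
`Ex (a x * (a x - 1)) = mu x ^ 2 = 1 / (x + 1) ^ 2`; `∑_{n > N} 1 / n ^ 2 ≤ ∑_{n > N} (1 / (n - 1) - 1 / n) ≤ 1 / N`.
-/

namespace Pool.Agent.Lib.MP_134bf7_pr.RL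

open Finset
open scoped ENNReal NNReal

private theorem sq_real_aux {N : ℕ} (hN : 1 ≤ N) (d : ℕ) :
    ∑ n ∈ range (N + d), (if N < n + 1 then (1 : ℝ) / ((n : ℝ) + 1) ^ 2 else 0) ≤
      1 / (N : ℝ) - 1 / ((N : ℝ) + d) := by
  have hN' : (1 : ℝ) ≤ N := by exact_mod_cast hN
  induction d with
  | zero =>
    have h0 : ∑ n ∈ range (N + 0), (if N < n + 1 then (1 : ℝ) / ((n : ℝ) + 1) ^ 2 else 0) = 0 := by
      refine Finset.sum_eq_zero fun n hn => ?_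
      rw [Finset.mem_range] at hn
      rw [if_neg (by omega)]
    rw [h0]
    simp
  | succ d ih =>
    rw [← add_assoc, Finset.sum_range_succ, if_pos (by omega)]
    have hd : (0 : ℝ) ≤ d := Nat.cast_nonneg d
    have h1 : (1 : ℝ) / (((N + d : ℕ) : ℝ) + 1) ^ 2 ≤ 1 / ((N : ℝ) + d) - 1 / ((N : ℝ) + d + 1) := by
      have hp : 0 < (N : ℝ) + d := by linarith
      push_cast
      rw [div_sub_div _ _ hp.ne' (by linarith), div_le_div_iff₀ (by positivity) (by positivity)]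
      nlinarith
    have h2 : ((N : ℝ) + ((d + 1 : ℕ) : ℝ)) = (N : ℝ) + d + 1 := by push_cast; ring
    rw [h2]
    linarith

private theorem sq_real {K N : ℕ} (hN : 1 ≤ N) :
    ∑ x ∈ univ.filter (fun x : Fin K => N < (x : ℕ) + 1), (1 : ℝ) / (((x : ℕ) : ℝ) + 1) ^ 2 ≤
      1 / (N : ℝ) := by
  rw [Finset.sum_filter, Fin.sum_univ_eq_sum_range
    (fun n : ℕ => if N < n + 1 then (1 : ℝ) / ((n : ℝ) + 1) ^ 2 else 0) K]
  have h1 : ∑ n ∈ range K, (if N < n + 1 then (1 : ℝ) / ((n : ℝ) + 1) ^ 2 else 0) ≤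
      ∑ n ∈ range (N + K), (if N < n + 1 then (1 : ℝ) / ((n : ℝ) + 1) ^ 2 else 0) := by
    refine Finset.sum_le_sum_of_subset_of_nonneg (Finset.range_mono (by omega)) fun n _ _ => ?_
    split_ifs
    · positivity
    · exact le_rfl
  have h2 := sq_real_aux hN K
  have h3 : 0 ≤ 1 / ((N : ℝ) + K) := by positivity
  linarith

private theorem sq_ex {K : ℕ} (x : Fin K) :
    Ex K (fun a => (a x : ℝ≥0∞) * ((a x - 1 : ℕ) : ℝ≥0∞)) =
      ENNReal.ofReal (1 / (((x : ℕ) : ℝ) + 1) ^ 2) := by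
  rw [Ex_mecke K x (fun a => ((a x - 1 : ℕ) : ℝ≥0∞))]
  have h1 : (fun a : Fin K → ℕ => ((ad a x x - 1 : ℕ) : ℝ≥0∞)) =
      fun a => (a x : ℝ≥0∞) * 1 := by
    funext a
    have : ad a x x = a x + 1 := by unfold ad; rw [if_pos rfl]
    rw [this, Nat.add_sub_cancel, mul_one]
  have h2 := Ex_mecke K x (fun _ => 1)
  rw [h1, h2, Ex_one, mul_one]
  have h3 : (mu K x : ℝ≥0∞) = ENNReal.ofReal (1 / (((x : ℕ) : ℝ) + 1)) := by
    rw [ENNReal.ofReal, ENNReal.coe_inj]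
    apply NNReal.eq
    rw [Real.coe_toNNReal _ (by positivity)]
    unfold mu
    push_cast
    rfl
  rw [h3, ← ENNReal.ofReal_mul (by positivity)]
  congr 1
  field_simp

theorem sq {K N : ℕ} (hN : 1 ≤ N) :
    Ex K (fun a => ind (∃ x : Fin K, N < (x : ℕ) + 1 ∧ 2 ≤ a x)) ≤ ENNReal.ofReal (1 / (N : ℝ)) := by
  have h1 : Ex K (fun a => ind (∃ x : Fin K, N < (x : ℕ) + 1 ∧ 2 ≤ a x)) ≤
      Ex K (fun a => ∑ x ∈ univ.filter (fun x : Fin K => N < (x : ℕ) + 1),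
        (a x : ℝ≥0∞) * ((a x - 1 : ℕ) : ℝ≥0∞)) := by
    refine Ex_mono K fun a => ?_
    by_cases h : ∃ x : Fin K, N < (x : ℕ) + 1 ∧ 2 ≤ a x
    · rw [ind_true h]
      obtain ⟨x, hx, hax⟩ := h
      have h2 : (a x : ℝ≥0∞) * ((a x - 1 : ℕ) : ℝ≥0∞) ≤
          ∑ x ∈ univ.filter (fun x : Fin K => N < (x : ℕ) + 1),
            (a x : ℝ≥0∞) * ((a x - 1 : ℕ) : ℝ≥0∞) :=
        Finset.single_le_sum (f := fun x : Fin K => (a x : ℝ≥0∞) * ((a x - 1 : ℕ) : ℝ≥0∞))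
          (fun i _ => zero_le) (by simp only [mem_filter, mem_univ, true_and]; exact hx)
      refine le_trans ?_ h2
      have h3 : (1 : ℕ) ≤ a x * (a x - 1) := by
        have : 1 ≤ a x - 1 := by omega
        nlinarith
      calc (1 : ℝ≥0∞) = ((1 : ℕ) : ℝ≥0∞) := by simp
        _ ≤ ((a x * (a x - 1) : ℕ) : ℝ≥0∞) := by exact_mod_cast h3
        _ = _ := by push_cast; rfl
    · rw [ind_false h]; exact zero_le
  refine h1.trans ?_
  rw [Ex_sum, Finset.sum_congr rfl fun x _ => sq_ex x, ← ENNReal.ofReal_sum_of_nonneg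
    (fun x _ => by positivity)]
  exact ENNReal.ofReal_le_ofReal (sq_real hN)

end Pool.Agent.Lib.MP_134bf7_pr.RL
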