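import Pool.Agent.Lib.MP_134bf7_pr.RL.BkA

/-!
# RL-BkB: the sum of `1 / n` over a fine block

`hb_bounds`: for `i ≥ 2` the block sum is `∑ 1 / n` over `Q ^ (i - 1) < n ≤ Q ^ i` (`lt_bl_iff`, `le_pow_bl`);
it is the difference of two harmonic numbers.
-/

namespace Pool.Agent.Lib.MP_134bf7_pr.RL

open Finset
open scoped ENNReal NNReal

private lemma hbB_harm {K B : ℕ} (hB : B ≤ K) :
    ∑ x : Fin K, (if (x : ℕ) + 1 ≤ B then (1 : ℝ) / (((x : ℕ) : ℝ) + 1) else 0) = (harmonic B : ℝ) := by
  rw [Fin.sum_univ_eq_sum_range (fun x : ℕ => if x + 1 ≤ B then (1 : ℝ) / ((x : ℝ) + 1) else 0) K]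
  rw [← Finset.sum_filter]
  have h1 : (range K).filter (fun x => x + 1 ≤ B) = range B := by
    ext x
    simp only [Finset.mem_filter, Finset.mem_range]
    omega
  rw [h1, harmonic]
  push_cast
  exact Finset.sum_congr rfl (fun x _ => one_div _)

private lemma hbB_lo (n : ℕ) (hn : 1 ≤ n) : Real.log n ≤ (harmonic n : ℝ) := by
  refine le_trans ?_ (log_add_one_le_harmonic n)
  apply Real.log_le_log
  · exact_mod_cast hn
  · push_cast
    linarith

theorem hb_bounds {Q T i : ℕ} (hQ : 2 ≤ Q) (hi : i ∈ Icc 1 T) :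
    |hb Q (Q ^ T) i - Real.log Q| ≤ 1 := by
  obtain ⟨hi1, hiT⟩ := Finset.mem_Icc.1 hi
  have hQ0 : 0 < Q := by omega
  have hQr : (0 : ℝ) < Q := by exact_mod_cast hQ0
  rcases Nat.lt_or_ge 1 i with h2 | h2
  · have hAB : Q ^ (i - 1) ≤ Q ^ i := Nat.pow_le_pow_right hQ0 (by omega)
    have hBK : Q ^ i ≤ Q ^ T := Nat.pow_le_pow_right hQ0 hiT
    have h3 : hb Q (Q ^ T) i = (harmonic (Q ^ i) : ℝ) - (harmonic (Q ^ (i - 1)) : ℝ) := by
      rw [← hbB_harm hBK, ← hbB_harm (hAB.trans hBK), ← Finset.sum_sub_distrib]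
      unfold hb
      refine Finset.sum_congr rfl (fun x _ => ?_)
      have e1 := lt_bl_iff (v := i) hQ (by omega) x
      have e2 := lt_bl_iff (v := i - 1) hQ (by omega) x
      by_cases c1 : (x : ℕ) + 1 ≤ Q ^ (i - 1)
      · have c2 : (x : ℕ) + 1 ≤ Q ^ i := c1.trans hAB
        rw [if_pos c2, if_pos c1, if_neg, sub_self]
        intro hc
        have : i - 1 < bl Q x := by omega
        have := e2.1 this
        omega
      · by_cases c2 : (x : ℕ) + 1 ≤ Q ^ i
        · rw [if_pos c2, if_neg c1, sub_zero, if_pos]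
          have h4 := e2.2 (by omega)
          have h5 : ¬ i < bl Q x := fun hc => by
            have := e1.1 hc
            omega
          omega
        · rw [if_neg c2, if_neg c1, sub_zero, if_neg]
          intro hc
          have := e1.2 (by omega)
          omega
    have h4 := hbB_lo (Q ^ i) (Nat.one_le_pow _ _ hQ0)
    have h5 := harmonic_le_one_add_log (Q ^ i)
    have h6 := hbB_lo (Q ^ (i - 1)) (Nat.one_le_pow _ _ hQ0)
    have h7 := harmonic_le_one_add_log (Q ^ (i - 1))
    rw [Nat.cast_pow, Real.log_pow] at h4 h5 h6 h7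
    have h8 : ((i - 1 : ℕ) : ℝ) = (i : ℝ) - 1 := by
      rw [Nat.cast_sub hi1, Nat.cast_one]
    rw [h8] at h6 h7
    rw [h3, abs_le]
    constructor <;> nlinarith
  · have h2' : i = 1 := by omega
    subst h2'
    have hBK : Q ≤ Q ^ T := by
      calc Q = Q ^ 1 := (pow_one Q).symm
        _ ≤ Q ^ T := Nat.pow_le_pow_right hQ0 hiT
    have h3 : hb Q (Q ^ T) 1 = (harmonic Q : ℝ) := by
      rw [← hbB_harm hBK]
      unfold hb
      refine Finset.sum_congr rfl (fun x _ => ?_)
      have e1 := lt_bl_iff (v := 1) hQ le_rfl x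
      rw [pow_one] at e1
      have e2 := one_le_bl Q x
      by_cases c1 : (x : ℕ) + 1 ≤ Q
      · rw [if_pos c1, if_pos]
        have h5 : ¬ 1 < bl Q x := fun hc => by
          have := e1.1 hc
          omega
        omega
      · rw [if_neg c1, if_neg]
        intro hc
        have := e1.2 (by omega)
        omega
    have h4 := hbB_lo Q (by omega)
    have h5 := harmonic_le_one_add_log Q
    rw [h3, abs_le]
    constructor <;> linarith

end Pool.Agent.Lib.MP_134bf7_pr.RL
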