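import Pool.Agent.Lib.MP_134bf7_pr.RL.HaA

/-!
# RL-HaB: asymptotics

`stir`: `n! ≤ e * n * (n / e) ^ n` for `n ≥ 1` (induction with `(1 + 1 / n) ^ (n + 1) ≥ e`, i.e.
`log (1 + 1 / n) ≥ 1 / (n + 1)`), so with `h = lam + O(1)`, `n = zz * lam + O(1)` (`al_eq`, `log zz`):
`log (exp (-h) * h ^ n / n!) ≥ - h + n * log (h / n) + n - log n - 1 = - al * lam - O (1 + log lam)`:
`log (h / n) = - log (n / h)`, `n / h → zz`, more exactly `|n / h - zz| ≤ C / lam`, so
`n * log (n / h) ≤ zz * lam * log zz + C'`.  And `log lam = o (lam)`.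
`two_pow`: `n * log 2 ≥ (zz * lam - 2) * log 2 = lam - 2 * log 2`.
`absorb`: the exponential beats polynomials.
-/

namespace Pool.Agent.Lib.MP_134bf7_pr.RL

open Finset Filter

private theorem hb_fact (n : ℕ) (hn : 1 ≤ n) :
    Real.log (n.factorial : ℝ) ≤ 1 + Real.log n + n * (Real.log n - 1) := by
  have hn0 : (0 : ℝ) < n := by exact_mod_cast hn
  have h1 : Stirling.stirlingSeq n ≤ Stirling.stirlingSeq 1 := by
    have := Stirling.stirlingSeq'_antitone (Nat.zero_le (n - 1))
    simp only [Function.comp_apply] at this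
    rw [Nat.succ_eq_add_one, Nat.succ_eq_add_one, Nat.sub_add_cancel hn] at this
    exact this
  rw [Stirling.stirlingSeq_one, Stirling.stirlingSeq] at h1
  have hp : 0 < Real.sqrt (2 * n) * ((n : ℝ) / Real.exp 1) ^ n := by positivity
  rw [div_le_iff₀ hp] at h1
  have h2 : Real.exp 1 / Real.sqrt 2 * (Real.sqrt (2 * n) * ((n : ℝ) / Real.exp 1) ^ n) =
      Real.exp 1 * Real.sqrt n * ((n : ℝ) / Real.exp 1) ^ n := by
    rw [Real.sqrt_mul (by norm_num)]
    have : Real.sqrt 2 ≠ 0 := by positivity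
    field_simp
  rw [h2] at h1
  have h3 : Real.sqrt n ≤ n := by
    rw [Real.sqrt_le_left hn0.le]
    have : (1 : ℝ) ≤ n := by exact_mod_cast hn
    nlinarith
  have h4 : (n.factorial : ℝ) ≤ Real.exp 1 * n * ((n : ℝ) / Real.exp 1) ^ n := by
    refine h1.trans ?_
    gcongr
  have hf : (0 : ℝ) < n.factorial := by exact_mod_cast n.factorial_pos
  have h5 := Real.log_le_log hf h4
  rw [Real.log_mul (by positivity) (by positivity), Real.log_mul (by positivity) (by positivity),
    Real.log_exp, Real.log_pow, Real.log_div (by positivity) (by positivity), Real.log_exp] at h5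
  exact h5

/-- the Poisson probability of `n = zz * lam + O(1)` for the mean `h = lam + O(1)` -/
theorem stir (θ : ℝ) (hθ : 0 < θ) : ∀ᶠ lam : ℝ in atTop, ∀ (h : ℝ) (n : ℕ), |h - lam| ≤ 1 →
    |(n : ℝ) - zz * lam| ≤ 2 →
      Real.exp (-((al + θ) * lam)) ≤ Real.exp (-h) * h ^ n / (n.factorial : ℝ) := by
  have hz := zz_bounds
  have hlog : ∀ᶠ lam : ℝ in atTop, ‖Real.log lam‖ ≤ θ / 2 * ‖id lam‖ :=
    Real.isLittleO_log_id_atTop.bound (by positivity)
  filter_upwards [hlog, eventually_ge_atTop (10 : ℝ), eventually_ge_atTop (26 / θ)] with lam hl h10 h13 h n hh hn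
  have hl' : Real.log lam ≤ θ / 2 * lam := by
    refine le_trans (le_abs_self _) ?_
    rw [← Real.norm_eq_abs]
    refine hl.trans (le_of_eq ?_)
    rw [id, Real.norm_of_nonneg (by linarith)]
  have h13' : 13 ≤ θ / 2 * lam := by
    rw [div_le_iff₀ hθ] at h13
    linarith
  obtain ⟨hh1, hh2⟩ := abs_le.1 hh
  obtain ⟨hn1, hn2⟩ := abs_le.1 hn
  have hh0 : 0 < h := by linarith
  have hnlow : (10 : ℝ) ≤ n := by nlinarith
  have hn0 : (0 : ℝ) < n := by linarith
  have hn1' : 1 ≤ n := by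
    have : (1 : ℝ) ≤ n := by linarith
    exact_mod_cast this
  have hf := hb_fact n hn1'
  have hlz : 0 ≤ Real.log zz := Real.log_nonneg (by linarith)
  have hlz2 : Real.log zz ≤ 1 := by
    have := Real.log_le_sub_one_of_pos (show (0 : ℝ) < zz by linarith)
    linarith
  -- the quotient
  have hq : Real.log (n / h) ≤ Real.log zz + 3 / (lam - 1) := by
    have hl1 : 0 < lam - 1 := by linarith
    have e1 : (n : ℝ) / h ≤ zz * (1 + 3 / (lam - 1)) := by
      rw [div_le_iff₀ hh0]
      have e2 : zz * (1 + 3 / (lam - 1)) * (lam - 1) ≤ zz * (1 + 3 / (lam - 1)) * h :=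
        mul_le_mul_of_nonneg_left (by linarith)
          (mul_nonneg (by linarith) (add_nonneg zero_le_one (div_nonneg (by norm_num) hl1.le)))
      have e3 : zz * (1 + 3 / (lam - 1)) * (lam - 1) = zz * (lam + 2) := by
        field_simp
        ring
      nlinarith
    have e4 := Real.log_le_log (by positivity) e1
    have e5 : Real.log (zz * (1 + 3 / (lam - 1))) = Real.log zz + Real.log (1 + 3 / (lam - 1)) :=
      Real.log_mul (by linarith) (by positivity)
    have e6 := Real.log_le_sub_one_of_pos (show (0 : ℝ) < 1 + 3 / (lam - 1) by positivity)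
    linarith
  have hb0 : 0 ≤ 3 / (lam - 1) := div_nonneg (by norm_num) (by linarith)
  have hnq : n * Real.log (n / h) ≤ zz * Real.log zz * lam + 8 := by
    have s1 : n * Real.log (n / h) ≤ n * (Real.log zz + 3 / (lam - 1)) :=
      mul_le_mul_of_nonneg_left hq hn0.le
    have s2 : n * (Real.log zz + 3 / (lam - 1)) ≤ (zz * lam + 2) * (Real.log zz + 3 / (lam - 1)) :=
      mul_le_mul_of_nonneg_right (by linarith) (add_nonneg hlz hb0)
    have s3 : (zz * lam + 2) * (3 / (lam - 1)) ≤ 6 := by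
      rw [mul_div_assoc', div_le_iff₀ (by linarith)]
      nlinarith
    nlinarith
  have hlogn : Real.log n ≤ 1 + Real.log lam := by
    have t1 : (n : ℝ) ≤ 2 * lam := by nlinarith
    have t2 := Real.log_le_log hn0 t1
    rw [Real.log_mul (by norm_num) (by linarith)] at t2
    have t3 := Real.log_two_lt_d9
    linarith
  have hlognh : Real.log (n / h) = Real.log n - Real.log h := Real.log_div hn0.ne' hh0.ne'
  rw [hlognh] at hnq
  have hfp : (0 : ℝ) < n.factorial := by exact_mod_cast n.factorial_pos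
  have hrhs : Real.exp (-h) * h ^ n / (n.factorial : ℝ) =
      Real.exp (-h + n * Real.log h - Real.log n.factorial) := by
    rw [Real.exp_sub, Real.exp_add, Real.exp_nat_mul, Real.exp_log hh0, Real.exp_log hfp]
  rw [hrhs, Real.exp_le_exp, al_eq]
  nlinarith

theorem two_pow (θ : ℝ) (hθ : 0 < θ) : ∀ᶠ lam : ℝ in atTop, ∀ n : ℕ, |(n : ℝ) - zz * lam| ≤ 2 →
    Real.exp ((1 - θ) * lam) ≤ 2 ^ n := by
  filter_upwards [eventually_ge_atTop (2 / θ)] with lam h1 n hn
  have h1' : 2 ≤ θ * lam := by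
    rw [div_le_iff₀ hθ] at h1
    linarith
  obtain ⟨hn1, _⟩ := abs_le.1 hn
  have h2 : (2 : ℝ) ^ n = Real.exp (n * Real.log 2) := by
    rw [Real.exp_nat_mul, Real.exp_log (by norm_num)]
  rw [h2, Real.exp_le_exp]
  have hl := Real.log_two_lt_d9
  have hl0 : 0 < Real.log 2 := Real.log_pos (by norm_num)
  have h3 := zz_log2
  have h4 : (zz * lam - 2) * Real.log 2 ≤ n * Real.log 2 :=
    mul_le_mul_of_nonneg_right (by linarith) hl0.le
  have h5 : (zz * lam - 2) * Real.log 2 = lam * (zz * Real.log 2) - 2 * Real.log 2 := by ring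
  rw [h5, h3] at h4
  linarith

/-- logarithms and constants are small powers -/
theorem absorb (C θ : ℝ) (hθ : 0 < θ) : ∀ᶠ lam : ℝ in atTop, C * (1 + lam) ^ 2 ≤ Real.exp (θ * lam) := by
  have h1 : ∀ᶠ lam : ℝ in atTop, ‖lam ^ 2‖ ≤ 1 / (4 * (|C| + 1)) * ‖Real.exp (θ * lam)‖ :=
    (isLittleO_pow_exp_pos_mul_atTop 2 hθ).bound (by positivity)
  filter_upwards [h1, eventually_ge_atTop (1 : ℝ)] with lam h2 h3
  rw [Real.norm_of_nonneg (by positivity), Real.norm_of_nonneg (Real.exp_pos _).le,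
    div_mul_eq_mul_div, one_mul, le_div_iff₀ (by positivity)] at h2
  have h4 : C * (1 + lam) ^ 2 ≤ |C| * (1 + lam) ^ 2 :=
    mul_le_mul_of_nonneg_right (le_abs_self C) (sq_nonneg _)
  have h5 : (1 + lam) ^ 2 ≤ 4 * lam ^ 2 := by nlinarith
  have h6 : |C| * (1 + lam) ^ 2 ≤ |C| * (4 * lam ^ 2) := mul_le_mul_of_nonneg_left h5 (abs_nonneg C)
  have h7 : 0 ≤ lam ^ 2 := sq_nonneg _
  nlinarith

end Pool.Agent.Lib.MP_134bf7_pr.RL
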