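import Pool.Agent.Lib.MP_134bf7_pr.RL.FM
import Pool.Agent.Lib.MP_134bf7_pr.RL.Bk
import Pool.Agent.Lib.MP_134bf7_pr.RL.Ha
import Pool.Agent.Lib.MP_134bf7_pr.RL.Lb

/-!
# RL-UpB: second half of the upper bound: few cycles

Let `K = Q ^ T`, `lam = log Q`, `n0 = zz * lam * T`.  Suppose `∑ x, a x < n0` and `Good m a`, `c ≤ a`,
`len c = m`; let `β` be the labelled configuration of `exists_lab` for `r = 1` and `c`
(patterns: `fun _ => true` for the elements of `c`, `fun _ => false` for the others); `mg β = a`.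
Some `x` with `c x ≥ 1` has `m ≤ n0 * (x + 1)` (otherwise `n0 * m = n0 * ∑ (x + 1) * c x < m * ∑ c x ≤ m * n0`).
With `B = {(x, fun _ => true) | m ≤ n0 * (x + 1)}` we have `∑_{z ∈ B} β z ≥ 1`, `len (cut 0 β) = m`, and
`1 ≤ (zz / 2) ^ (∑ β) * (zz / 2) ^ (- n0)` since `zz / 2 < 1`.  By `lab'` the left side is at most
`exp (- HH K) * (zz / 2) ^ (- n0) * Z (muP K 1) ((∑_{z ∈ B} β z) * (ind (len (cut 0 β) = m) * mon y β))` with
`y (x, q) = zz / 2 * exp s` if `bl Q x = i0` and `zz / 2` otherwise.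
By `fm_one` (`len (cut 0 (ad β (x, fun _ => true))) = len (cut 0 β) + x + 1`, so `x` is unique;
`mu K x = 1 / (x + 1) ≤ n0 / m`) this is at most
`exp (- HH K) * (zz / 2) ^ (- n0) * (n0 / m) * (zz / 2 * exp 1) * exp (∑_i 2 * hb i * (zz / 2) + hb i0 * zz * (exp s - 1))`
and `2 ^ n0 = exp (T * lam) = Q ^ T ≤ D * m` (`zz * log 2 = 1`), so `2 ^ n0 * n0 / m ≤ D * zz * T * lam`; the
rest is as in `UpA`: the exponent is at most `(- al * T + zz * (exp s - 1)) * lam + T + 3`, and
`zz * (zz / 2) * exp 1 ≤ 3`.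
-/

namespace Pool.Agent.Lib.MP_134bf7_pr.RL

open Finset
open scoped ENNReal NNReal

/-- the exponent of the weight -/
private noncomputable def uw (Q i0 : ℕ) (s : ℝ) {K : ℕ} (x : Fin K) : ℝ :=
  Real.log (zz / 2) + if bl Q x = i0 then s else 0

private noncomputable def uy (Q i0 : ℕ) (s : ℝ) {K : ℕ} (z : Fin K × Pat 1) : ℝ≥0 :=
  ⟨Real.exp (uw Q i0 s z.1), (Real.exp_pos _).le⟩

private theorem mon_uy {Q i0 : ℕ} {s : ℝ} {K : ℕ} (β : Fin K × Pat 1 → ℕ) :
    mon (uy Q i0 s) β = ENNReal.ofReal (Real.exp (Real.log (zz / 2) * ((∑ x, mg β x : ℕ) : ℝ) +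
      s * (NB Q (mg β) i0 : ℝ))) := by
  unfold mon
  rw [← ENNReal.ofReal_coe_nnreal]
  congr 1
  push_cast
  have h1 : ∀ z : Fin K × Pat 1, (uy Q i0 s z : ℝ) ^ β z = Real.exp (β z * uw Q i0 s z.1) := by
    intro z
    rw [Real.exp_nat_mul]
    rfl
  rw [Finset.prod_congr rfl fun z _ => h1 z, ← Real.exp_sum]
  congr 1
  rw [Fintype.sum_prod_type]
  unfold NB mg uw
  push_cast
  rw [Finset.mul_sum, Finset.mul_sum, ← Finset.sum_add_distrib]
  refine Finset.sum_congr rfl fun x _ => ?_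
  have hsm := Finset.sum_mul (Finset.univ : Finset (Pat 1)) (fun q => (β (x, q) : ℝ))
    (Real.log (zz / 2) + if bl Q x = i0 then s else 0)
  refine hsm.symm.trans ?_
  by_cases h : bl Q x = i0
  · simp only [if_pos h]
    ring
  · simp only [if_neg h]
    ring

private theorem cut_ad {K : ℕ} (β : Fin K × Pat 1 → ℕ) (z : Fin K × Pat 1)
    (hz : z.2 0 = true) : len (cut 0 (ad β z)) = len (cut 0 β) + ((z.1 : ℕ) + 1) := by
  have h1 : ∀ x, cut 0 (ad β z) x = cut 0 β x + if x = z.1 then 1 else 0 := by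
    intro x
    unfold cut ad
    have h2 : ∀ q : Pat 1, (if q 0 = true then (if (x, q) = z then β (x, q) + 1 else β (x, q))
        else 0) = (if q 0 = true then β (x, q) else 0) +
          if x = z.1 then (if q = z.2 then 1 else 0) else 0 := by
      intro q
      by_cases hx : x = z.1
      · by_cases hq : q = z.2
        · have h3 : (x, q) = z := Prod.ext hx hq
          have h4 : q 0 = true := by rw [hq]; exact hz
          rw [if_pos h4, if_pos h3, if_pos h4, if_pos hx, if_pos hq]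
        · have h3 : ¬ (x, q) = z := fun h => hq (congrArg Prod.snd h)
          rw [if_neg h3, if_pos hx, if_neg hq, add_zero]
      · have h3 : ¬ (x, q) = z := fun h => hx (congrArg Prod.fst h)
        rw [if_neg h3, if_neg hx, add_zero]
    rw [Finset.sum_congr rfl fun q _ => h2 q, Finset.sum_add_distrib]
    congr 1
    by_cases hx : x = z.1
    · simp [hx]
    · simp [hx]
  unfold len
  rw [Finset.sum_congr rfl fun x _ => by rw [h1 x, mul_add], Finset.sum_add_distrib]
  congr 1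
  simp

private theorem sum_muy {Q T i0 : ℕ} (s : ℝ) :
    ∑ z : Fin (Q ^ T) × Pat 1, (muP (Q ^ T) 1 z : ℝ) * (uy Q i0 s z : ℝ) =
      zz * HH (Q ^ T) + zz * (Real.exp s - 1) * hb Q (Q ^ T) i0 := by
  have hzz : 0 < zz / 2 := by
    have := zz_bounds.1
    linarith
  rw [Fintype.sum_prod_type]
  unfold HH hb
  rw [Finset.mul_sum, Finset.mul_sum, ← Finset.sum_add_distrib]
  refine Finset.sum_congr rfl fun x _ => ?_
  have h1 : ∀ q : Pat 1, (muP (Q ^ T) 1 (x, q) : ℝ) * (uy Q i0 s (x, q) : ℝ) =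
      (1 / (((x : ℕ) : ℝ) + 1)) * Real.exp (uw Q i0 s x) := by
    intro q
    unfold muP mu uy
    push_cast
    rfl
  rw [Finset.sum_congr rfl fun q _ => h1 q, Finset.sum_const, Finset.card_univ]
  have h2 : Fintype.card (Pat 1) = 2 := by simp [Pat]
  rw [h2, nsmul_eq_mul]
  unfold uw
  by_cases h : bl Q x = i0
  · rw [if_pos h, if_pos h, Real.exp_add, Real.exp_log hzz]
    push_cast
    ring
  · rw [if_neg h, if_neg h, add_zero, Real.exp_log hzz]
    push_cast
    ring

theorem upB {Q T D m : ℕ} (hQ : 2 ≤ Q) (hT : 1 ≤ T) (hm : 1 ≤ m) (hD : Q ^ T ≤ D * m) {i0 : ℕ}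
    (hi : i0 ∈ Icc 1 T) {s : ℝ} (hs : |s| ≤ 1) :
    Ex (Q ^ T) (fun a => ind (Good m a ∧ ((∑ x, a x : ℕ) : ℝ) < zz * Real.log Q * T) *
      ENNReal.ofReal (Real.exp (s * (NB Q a i0 : ℝ)))) ≤
    ENNReal.ofReal (3 * D * T * Real.log Q * Real.exp (T + 3) *
      Real.exp ((-(al * T) + zz * (Real.exp s - 1)) * Real.log Q)) := by
  classical
  obtain ⟨hz1, hz2⟩ := zz_bounds
  have hzz : 0 < zz / 2 := by linarith
  have hlz : Real.log (zz / 2) < 0 := Real.log_neg hzz (by linarith)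
  have hQ' : (2 : ℝ) ≤ Q := by exact_mod_cast hQ
  obtain ⟨lam, hlam⟩ : ∃ lam : ℝ, lam = Real.log Q := ⟨_, rfl⟩
  have hlam0 : 0 < lam := by rw [hlam]; exact Real.log_pos (by linarith)
  have hT' : (1 : ℝ) ≤ T := by exact_mod_cast hT
  have hm' : (1 : ℝ) ≤ m := by exact_mod_cast hm
  rw [← hlam]
  obtain ⟨n0, hn0⟩ : ∃ n0 : ℝ, n0 = zz * lam * T := ⟨_, rfl⟩
  rw [← hn0]
  have hn0pos : 0 < n0 := by rw [hn0]; positivity
  -- the set of large indices
  let B : Finset (Fin (Q ^ T) × Pat 1) :=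
    univ.filter fun z => z.2 0 = true ∧ (m : ℝ) ≤ n0 * (((z.1 : ℕ) : ℝ) + 1)
  let C : (Fin (Q ^ T) × Pat 1 → ℕ) → Prop := fun β => len (cut 0 β) = m
  let E1 : ℝ := Real.exp (-(n0 * Real.log (zz / 2)))
  have h1 : Ex (Q ^ T) (fun a => ind (Good m a ∧ ((∑ x, a x : ℕ) : ℝ) < n0) *
      ENNReal.ofReal (Real.exp (s * (NB Q a i0 : ℝ)))) ≤
      ExP (Q ^ T) 1 (fun β => ENNReal.ofReal E1 * (((∑ z ∈ B, β z : ℕ) : ℝ≥0∞) *
        (ind (C β) * mon (uy Q i0 s) β))) := by
    refine lab' _ _ fun a ha => ?_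
    have hP : Good m a ∧ ((∑ x, a x : ℕ) : ℝ) < n0 := by
      by_contra hP
      exact ha (by rw [ind_false hP, zero_mul])
    obtain ⟨⟨c, hc, hlen⟩, hlt⟩ := hP
    obtain ⟨β, hβ, hcut⟩ := exists_lab (r := 1) a (fun _ => c) fun _ x => hc x
    refine ⟨β, hβ, ?_⟩
    have hCβ : C β := by
      show len (cut 0 β) = m
      rw [hcut 0]
      exact hlen
    have hBβ : 1 ≤ ∑ z ∈ B, β z := by
      -- some large element of `c`
      obtain ⟨x, hx1, hx2⟩ : ∃ x, 1 ≤ c x ∧ (m : ℝ) ≤ n0 * (((x : ℕ) : ℝ) + 1) := by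
        by_contra hcon
        push Not at hcon
        have h2 : n0 * m ≤ m * ((∑ x, c x : ℕ) : ℝ) := by
          have h3 : (m : ℝ) = ∑ x : Fin (Q ^ T), (((x : ℕ) : ℝ) + 1) * (c x : ℝ) := by
            rw [← hlen]
            unfold len
            push_cast
            rfl
          calc n0 * m = ∑ x : Fin (Q ^ T), n0 * ((((x : ℕ) : ℝ) + 1) * (c x : ℝ)) := by
                rw [← Finset.mul_sum, ← h3]
            _ ≤ ∑ x : Fin (Q ^ T), (m : ℝ) * (c x : ℝ) := by
                refine Finset.sum_le_sum fun x _ => ?_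
                rcases Nat.eq_zero_or_pos (c x) with h0 | h0
                · rw [h0]; simp
                · rw [← mul_assoc]
                  exact mul_le_mul_of_nonneg_right (hcon x h0).le (Nat.cast_nonneg _)
            _ = m * ((∑ x, c x : ℕ) : ℝ) := by
                push_cast
                rw [Finset.mul_sum]
        have h4 : ((∑ x, c x : ℕ) : ℝ) ≤ ((∑ x, a x : ℕ) : ℝ) := by
          exact_mod_cast Finset.sum_le_sum fun x _ => hc x
        have h5 : (m : ℝ) * ((∑ x, c x : ℕ) : ℝ) < m * n0 :=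
          mul_lt_mul_of_pos_left (h4.trans_lt hlt) (by linarith)
        linarith
      have h2 : cut 0 β x = c x := by rw [hcut 0]
      unfold cut at h2
      have h3 : ∑ q : Pat 1, (if q 0 = true then β (x, q) else 0) ≠ 0 := by
        rw [h2]; omega
      obtain ⟨q, _, hq⟩ := Finset.exists_ne_zero_of_sum_ne_zero h3
      have hq0 : q 0 = true := by
        by_contra h
        exact hq (if_neg h)
      rw [if_pos hq0] at hq
      have hmem : (x, q) ∈ B := Finset.mem_filter.2 ⟨Finset.mem_univ _, hq0, hx2⟩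
      calc 1 ≤ β (x, q) := Nat.one_le_iff_ne_zero.2 hq
        _ ≤ ∑ z ∈ B, β z := Finset.single_le_sum (f := β) (fun _ _ => Nat.zero_le _) hmem
    have hI : ind (Good m a ∧ ((∑ x, a x : ℕ) : ℝ) < n0) ≤ 1 := ind_le_one _
    rw [ind_true hCβ, one_mul, mon_uy, hβ]
    calc ind (Good m a ∧ ((∑ x, a x : ℕ) : ℝ) < n0) *
          ENNReal.ofReal (Real.exp (s * (NB Q a i0 : ℝ)))
        ≤ 1 * ENNReal.ofReal (Real.exp (s * (NB Q a i0 : ℝ))) := mul_le_mul_left hI _
      _ ≤ ENNReal.ofReal E1 * ENNReal.ofReal (Real.exp (Real.log (zz / 2) *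
            ((∑ x, a x : ℕ) : ℝ) + s * (NB Q a i0 : ℝ))) := by
          rw [one_mul, ← ENNReal.ofReal_mul (Real.exp_pos _).le]
          refine ENNReal.ofReal_le_ofReal ?_
          rw [← Real.exp_add]
          refine Real.exp_le_exp.2 ?_
          have h6 : 0 ≤ (n0 - ((∑ x, a x : ℕ) : ℝ)) * (-Real.log (zz / 2)) :=
            mul_nonneg (by linarith) (by linarith)
          linarith
      _ ≤ ENNReal.ofReal E1 * (((∑ z ∈ B, β z : ℕ) : ℝ≥0∞) * ENNReal.ofReal (Real.exp
            (Real.log (zz / 2) * ((∑ x, a x : ℕ) : ℝ) + s * (NB Q a i0 : ℝ)))) := by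
          refine mul_le_mul_right ?_ _
          refine le_mul_of_one_le_left zero_le ?_
          exact_mod_cast hBβ
  refine h1.trans ?_
  -- removal of one element
  obtain ⟨Mr, hMr⟩ : ∃ Mr : ℝ, Mr = n0 / m * (zz / 2 * Real.exp 1) := ⟨_, rfl⟩
  have hMr0 : 0 ≤ Mr := by rw [hMr]; positivity
  have h2 := fm_one (muP (Q ^ T) 1) (uy Q i0 s) B C (by
    intro a x x' hx hx' hC hC'
    have e1 := (Finset.mem_filter.1 hx).2.1
    have e2 := (Finset.mem_filter.1 hx').2.1
    have e3 : len (cut 0 (ad a x)) = m := hC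
    have e4 : len (cut 0 (ad a x')) = m := hC'
    rw [cut_ad a x e1] at e3
    rw [cut_ad a x' e2] at e4
    apply Prod.ext
    · apply Fin.ext
      omega
    · funext i
      have hi0 : i = 0 := Subsingleton.elim _ _
      rw [hi0, e1, e2]) Mr.toNNReal (by
    intro z hz
    have e1 := (Finset.mem_filter.1 hz).2.2
    rw [← NNReal.coe_le_coe, Real.coe_toNNReal _ hMr0, hMr]
    push_cast
    have e2 : (muP (Q ^ T) 1 z : ℝ) ≤ n0 / m := by
      unfold muP mu
      push_cast
      rw [div_le_div_iff₀ (by positivity) (by linarith)]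
      linarith
    have e3 : (uy Q i0 s z : ℝ) ≤ zz / 2 * Real.exp 1 := by
      have e4 : (uy Q i0 s z : ℝ) = Real.exp (uw Q i0 s z.1) := rfl
      have e5 : zz / 2 * Real.exp 1 = Real.exp (Real.log (zz / 2) + 1) := by
        rw [Real.exp_add, Real.exp_log hzz]
      rw [e4, e5]
      refine Real.exp_le_exp.2 ?_
      unfold uw
      have := (abs_le.1 hs).2
      split_ifs <;> linarith
    exact mul_le_mul e2 e3 (NNReal.coe_nonneg _) (by positivity))
  unfold ExP
  rw [Z_const_mul]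
  have h3 : ENNReal.ofReal (Real.exp (-(HH (Q ^ T)))) * (ENNReal.ofReal E1 *
      Z (muP (Q ^ T) 1) (fun β => ((∑ z ∈ B, β z : ℕ) : ℝ≥0∞) *
        (ind (C β) * mon (uy Q i0 s) β))) ≤
      ENNReal.ofReal (Real.exp (-(HH (Q ^ T)))) * (ENNReal.ofReal E1 *
      ((Mr.toNNReal : ℝ≥0∞) * Z (muP (Q ^ T) 1) (mon (uy Q i0 s)))) :=
    mul_le_mul_right (mul_le_mul_right h2 _) _
  refine h3.trans ?_
  rw [Z_mon, sum_muy]
  have h4 : (Mr.toNNReal : ℝ≥0∞) = ENNReal.ofReal Mr := rfl
  rw [h4, ← ENNReal.ofReal_mul hMr0, ← ENNReal.ofReal_mul (Real.exp_pos _).le,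
    ← ENNReal.ofReal_mul (Real.exp_pos _).le]
  refine ENNReal.ofReal_le_ofReal ?_
  -- numbers
  obtain ⟨h, hh⟩ : ∃ h : ℝ, h = hb Q (Q ^ T) i0 := ⟨_, rfl⟩
  have hhb : |h - lam| ≤ 1 := by rw [hh, hlam]; exact hb_bounds hQ hi
  have hHH : HH (Q ^ T) ≤ T * lam + T := by
    rw [HH_eq hQ hT]
    calc ∑ i ∈ Icc 1 T, hb Q (Q ^ T) i ≤ ∑ _i ∈ Icc 1 T, (lam + 1) := by
          refine Finset.sum_le_sum fun i hi => ?_
          have := (abs_le.1 (hb_bounds hQ hi)).2
          rw [hlam]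
          linarith
      _ = T * lam + T := by
          rw [Finset.sum_const, Nat.card_Icc, nsmul_eq_mul]
          have : ((T + 1 - 1 : ℕ) : ℝ) = T := by simp
          rw [this]
          ring
  rw [← hh]
  obtain ⟨H, hH⟩ : ∃ H : ℝ, H = HH (Q ^ T) := ⟨_, rfl⟩
  rw [← hH] at hHH ⊢
  have hlog2 : Real.log (zz / 2) = Real.log zz - Real.log 2 := by
    rw [Real.log_div (by linarith) (by norm_num)]
  have hzl := zz_log2
  -- `exp (T lam) ≤ D m`
  have hQT : Real.exp (T * lam) ≤ D * m := by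
    rw [Real.exp_nat_mul, hlam, Real.exp_log (by linarith)]
    exact_mod_cast hD
  have hexps : |Real.exp s - 1| ≤ 1.72 := by
    have hs' := abs_le.1 hs
    have e1 : Real.exp s ≤ Real.exp 1 := Real.exp_le_exp.2 hs'.2
    have e2 := Real.exp_one_lt_d9
    have e3 := Real.exp_pos s
    rw [abs_le]
    constructor <;> linarith
  have hcross : zz * (Real.exp s - 1) * h ≤ zz * (Real.exp s - 1) * lam + 2.6 := by
    have e1 : zz * (Real.exp s - 1) * (h - lam) ≤ 2.6 := by
      calc zz * (Real.exp s - 1) * (h - lam) ≤ |zz * (Real.exp s - 1) * (h - lam)| := le_abs_self _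
        _ = zz * (|Real.exp s - 1| * |h - lam|) := by
            rw [abs_mul, abs_mul, abs_of_pos (by linarith : 0 < zz), mul_assoc]
        _ ≤ 1.45 * (1.72 * 1) := by
            refine mul_le_mul hz2.le (mul_le_mul hexps hhb (abs_nonneg _) (by norm_num))
              (by positivity) (by norm_num)
        _ ≤ 2.6 := by norm_num
    linarith
  have hE : E1 = Real.exp (-(zz * lam * T * Real.log zz)) * Real.exp (T * lam) := by
    show Real.exp (-(n0 * Real.log (zz / 2))) = _
    rw [← Real.exp_add, hlog2, hn0]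
    congr 1
    have : zz * lam * T * Real.log 2 = T * lam := by
      calc zz * lam * T * Real.log 2 = (zz * Real.log 2) * (T * lam) := by ring
        _ = T * lam := by rw [hzl, one_mul]
    linarith
  have hfac : Real.exp (T * lam) * Mr ≤ 3 * D * T * lam := by
    rw [hMr]
    have e0 : 0 ≤ n0 / m * (zz / 2 * Real.exp 1) := by positivity
    calc Real.exp (T * lam) * (n0 / m * (zz / 2 * Real.exp 1))
        ≤ (D * m) * (n0 / m * (zz / 2 * Real.exp 1)) := mul_le_mul_of_nonneg_right hQT e0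
      _ = (D * T * lam) * (zz * zz / 2 * Real.exp 1) := by
          rw [hn0]
          field_simp
      _ ≤ (D * T * lam) * 3 := by
          refine mul_le_mul_of_nonneg_left ?_ (by positivity)
          have e2 := Real.exp_one_lt_d9
          have e3 : zz * zz / 2 ≤ 1.06 := by nlinarith
          calc zz * zz / 2 * Real.exp 1 ≤ 1.06 * 2.7182818286 :=
                mul_le_mul e3 e2.le (Real.exp_pos _).le (by norm_num)
            _ ≤ 3 := by norm_num
      _ = 3 * D * T * lam := by ring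
  have hexpo : -H + (-(zz * lam * T * Real.log zz) + (zz * H + zz * (Real.exp s - 1) * h)) ≤
      (T + 3) + (-(al * T) + zz * (Real.exp s - 1)) * lam := by
    rw [al_eq]
    have e1 : (zz - 1) * H ≤ (zz - 1) * (T * lam + T) :=
      mul_le_mul_of_nonneg_left hHH (by linarith)
    have e2 : (zz - 1) * T ≤ 0.45 * T := mul_le_mul_of_nonneg_right (by linarith) (by linarith)
    have e3 : (zz - 1) * (T * lam + T) = (zz - 1) * (T * lam) + (zz - 1) * T := by ring
    have e4 : (-((zz * Real.log zz - zz + 1) * T) + zz * (Real.exp s - 1)) * lam =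
        -(zz * lam * T * Real.log zz) + (zz - 1) * (T * lam) + zz * (Real.exp s - 1) * lam := by
      ring
    rw [e4]
    linarith
  calc Real.exp (-H) * (E1 * (Mr * Real.exp (zz * H + zz * (Real.exp s - 1) * h)))
      = (Real.exp (T * lam) * Mr) * Real.exp (-H + (-(zz * lam * T * Real.log zz) +
          (zz * H + zz * (Real.exp s - 1) * h))) := by
        rw [hE, Real.exp_add (-H), Real.exp_add (-(zz * lam * T * Real.log zz))]
        ring
    _ ≤ (3 * D * T * lam) * Real.exp ((T + 3) + (-(al * T) + zz * (Real.exp s - 1)) * lam) :=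
        mul_le_mul hfac (Real.exp_le_exp.2 hexpo) (Real.exp_pos _).le (by positivity)
    _ = 3 * D * T * lam * Real.exp (T + 3) *
        Real.exp ((-(al * T) + zz * (Real.exp s - 1)) * lam) := by
        rw [Real.exp_add]
        ring

end Pool.Agent.Lib.MP_134bf7_pr.RL
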