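import Pool.Agent.Lib.MP_134bf7_pr.RL.UpA
import Pool.Agent.Lib.MP_134bf7_pr.RL.UpB

/-!
# RL-Up: upper bounds for `PG` and for the atypical part

Write `lam = log Q`.
* `upGen`: `ind (Good m a) ≤ ind (n0 ≤ ∑ a) + ind (Good m a ∧ ∑ a < n0)`; `upA`, `upB`,
  `CU T D * (1 + lam)` with `CU T D = (1 + 3 * D * T) * exp (T + 3)`.
* `up`: `s = 0`, `i0 = 1`.
* `upTyp`: if `¬ Typ` there is `i0 ∈ Icc 1 T` with `NB > (zz + η) * lam` or `NB < (zz - η) * lam`.  In the first
  case `1 ≤ exp (s * (NB - (zz + η) * lam))`, `s = η / (2 * zz)`; `exp s - 1 ≤ s + s ^ 2`, so with `upGen` the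
  exponent is at most `(- al * T + zz * (s + s ^ 2) - s * (zz + η)) * lam = (- al * T + zz * s ^ 2 - s * η) * lam`
  `= (- al * T - η ^ 2 / (4 * zz)) * lam`.  In the second case use `- s`:
  `exp (- s) - 1 ≤ - s + s ^ 2` and `1 ≤ exp (- s * NB + s * (zz - η) * lam)`.  Sum over `i0` and the two
  cases: factor `2 * T`.
-/

namespace Pool.Agent.Lib.MP_134bf7_pr.RL

open Finset
open scoped ENNReal NNReal

/-- a constant -/
noncomputable def CU (T D : ℕ) : ℝ := (1 + 3 * D * T) * Real.exp (T + 3)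

theorem CU_pos (T D : ℕ) : 0 < CU T D := by
  unfold CU; positivity

theorem upGen {Q T D m : ℕ} (hQ : 2 ≤ Q) (hT : 1 ≤ T) (hm : 1 ≤ m) (hD : Q ^ T ≤ D * m) {i0 : ℕ}
    (hi : i0 ∈ Icc 1 T) {s : ℝ} (hs : |s| ≤ 1) :
    Ex (Q ^ T) (fun a => ind (Good m a) * ENNReal.ofReal (Real.exp (s * (NB Q a i0 : ℝ)))) ≤
    ENNReal.ofReal (CU T D * (1 + Real.log Q) *
      Real.exp ((-(al * T) + zz * (Real.exp s - 1)) * Real.log Q)) := by
  have hA := upA hQ hT hi hs
  have hB := upB hQ hT hm hD hi hs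
  have h1 : Ex (Q ^ T) (fun a => ind (Good m a) * ENNReal.ofReal (Real.exp (s * (NB Q a i0 : ℝ)))) ≤
      Ex (Q ^ T) (fun a => ind (zz * Real.log Q * T ≤ ((∑ x, a x : ℕ) : ℝ)) *
          ENNReal.ofReal (Real.exp (s * (NB Q a i0 : ℝ))) +
        ind (Good m a ∧ ((∑ x, a x : ℕ) : ℝ) < zz * Real.log Q * T) *
          ENNReal.ofReal (Real.exp (s * (NB Q a i0 : ℝ)))) := by
    refine Ex_mono _ fun a => ?_
    rw [← add_mul]
    refine mul_le_mul_left ?_ _
    by_cases hG : Good m a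
    · rw [ind_true hG]
      rcases le_or_gt (zz * Real.log Q * T) ((∑ x, a x : ℕ) : ℝ) with h | h
      · rw [ind_true h]
        exact le_self_add
      · rw [ind_true (And.intro hG h)]
        exact le_add_self
    · rw [ind_false hG]
      exact bot_le
  refine h1.trans ?_
  rw [Ex_add]
  have hlam : 0 ≤ Real.log Q := Real.log_nonneg (by
    have : 1 ≤ Q := by omega
    exact_mod_cast this)
  set X := Real.exp ((-(al * T) + zz * (Real.exp s - 1)) * Real.log Q) with hX
  have hX0 : 0 ≤ X := (Real.exp_pos _).le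
  refine (add_le_add hA hB).trans ?_
  rw [← ENNReal.ofReal_add (by positivity) (by positivity)]
  apply ENNReal.ofReal_le_ofReal
  unfold CU
  have h2 : Real.exp ((T : ℝ) + 3) * X + 3 * D * T * Real.log Q * Real.exp ((T : ℝ) + 3) * X =
      (1 + 3 * D * T * Real.log Q) * (Real.exp ((T : ℝ) + 3) * X) := by ring
  have h3 : (1 + 3 * D * T) * Real.exp ((T : ℝ) + 3) * (1 + Real.log Q) * X =
      ((1 + 3 * D * T) * (1 + Real.log Q)) * (Real.exp ((T : ℝ) + 3) * X) := by ring
  rw [h2, h3]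
  refine mul_le_mul_of_nonneg_right ?_ (by positivity)
  have h4 : (0 : ℝ) ≤ 3 * D * T := by positivity
  nlinarith [mul_nonneg h4 hlam]

theorem up {Q T D m : ℕ} (hQ : 2 ≤ Q) (hT : 1 ≤ T) (hm : 1 ≤ m) (hD : Q ^ T ≤ D * m) :
    PG (Q ^ T) m ≤ ENNReal.ofReal (CU T D * (1 + Real.log Q) * Real.exp (-(al * T) * Real.log Q)) := by
  have h := upGen (i0 := 1) (s := 0) hQ hT hm hD (by rw [mem_Icc]; omega) (by simp)
  unfold PG
  simpa using h

theorem upTyp {Q T D m : ℕ} (hQ : 2 ≤ Q) (hT : 1 ≤ T) (hm : 1 ≤ m) (hD : Q ^ T ≤ D * m) {η : ℝ}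
    (h0 : 0 < η) (h1 : η ≤ 1) :
    Ex (Q ^ T) (fun a => ind (Good m a ∧ ¬ Typ Q T η a)) ≤
    ENNReal.ofReal (2 * T * CU T D * (1 + Real.log Q) *
      Real.exp (-(al * T + η ^ 2 / (4 * zz)) * Real.log Q)) := by
  have hz := zz_bounds
  have hz0 : 0 < zz := by linarith [hz.1]
  have hlam : 0 ≤ Real.log Q := Real.log_nonneg (by
    have : 1 ≤ Q := by omega
    exact_mod_cast this)
  obtain ⟨lam, hl⟩ : ∃ lam : ℝ, lam = Real.log Q := ⟨_, rfl⟩
  obtain ⟨s, hs⟩ : ∃ s : ℝ, s = η / (2 * zz) := ⟨_, rfl⟩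
  have hs0 : 0 < s := by rw [hs]; positivity
  have hs1 : s ≤ 1 := by
    rw [hs, div_le_one (by positivity)]
    linarith [hz.1]
  have hsz : zz * s ^ 2 - s * η = -(η ^ 2 / (4 * zz)) := by
    rw [hs]
    field_simp
    ring
  obtain ⟨Cs, hCs⟩ : ∃ Cs : ℝ, Cs = CU T D * (1 + Real.log Q) := ⟨_, rfl⟩
  have hC0 : 0 ≤ Cs := by
    rw [hCs]
    exact mul_nonneg (CU_pos T D).le (by linarith)
  obtain ⟨W, hW⟩ : ∃ W : ℝ, W = Real.exp (-(al * T + η ^ 2 / (4 * zz)) * Real.log Q) := ⟨_, rfl⟩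
  have hW0 : 0 ≤ W := by rw [hW]; exact (Real.exp_pos _).le
  have hpt : ∀ a : Fin (Q ^ T) → ℕ, ind (Good m a ∧ ¬ Typ Q T η a) ≤
      ∑ i ∈ Icc 1 T,
        (ENNReal.ofReal (Real.exp (-(s * (zz + η) * lam))) *
            (ind (Good m a) * ENNReal.ofReal (Real.exp (s * (NB Q a i : ℝ)))) +
          ENNReal.ofReal (Real.exp (s * (zz - η) * lam)) *
            (ind (Good m a) * ENNReal.ofReal (Real.exp ((-s) * (NB Q a i : ℝ))))) := by
    intro a
    by_cases hG : Good m a ∧ ¬ Typ Q T η a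
    · rw [ind_true hG]
      obtain ⟨hG1, hG2⟩ := hG
      unfold Typ at hG2
      push Not at hG2
      obtain ⟨i, hi, hi2⟩ := hG2
      refine le_trans ?_ (Finset.single_le_sum (f := fun i =>
        (ENNReal.ofReal (Real.exp (-(s * (zz + η) * lam))) *
            (ind (Good m a) * ENNReal.ofReal (Real.exp (s * (NB Q a i : ℝ)))) +
          ENNReal.ofReal (Real.exp (s * (zz - η) * lam)) *
            (ind (Good m a) * ENNReal.ofReal (Real.exp ((-s) * (NB Q a i : ℝ))))))
        (fun _ _ => bot_le) hi)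
      simp only [ind_true hG1, one_mul]
      rw [← ENNReal.ofReal_mul (Real.exp_pos _).le, ← ENNReal.ofReal_mul (Real.exp_pos _).le,
        ← Real.exp_add, ← Real.exp_add]
      rw [← hl] at hi2
      rcases lt_abs.1 hi2 with h | h
      · refine le_trans ?_ le_self_add
        rw [← ENNReal.ofReal_one]
        apply ENNReal.ofReal_le_ofReal
        rw [← Real.exp_zero]
        apply Real.exp_le_exp.2
        have : 0 ≤ s * ((NB Q a i : ℝ) - zz * lam - η * lam) := mul_nonneg hs0.le (by linarith)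
        nlinarith
      · refine le_trans ?_ le_add_self
        rw [← ENNReal.ofReal_one]
        apply ENNReal.ofReal_le_ofReal
        rw [← Real.exp_zero]
        apply Real.exp_le_exp.2
        have : 0 ≤ s * (-((NB Q a i : ℝ) - zz * lam) - η * lam) := mul_nonneg hs0.le (by linarith)
        nlinarith
    · rw [ind_false hG]
      exact bot_le
  refine (Ex_mono _ hpt).trans ?_
  rw [Ex_sum]
  have hterm : ∀ i ∈ Icc 1 T, Ex (Q ^ T) (fun a =>
        (ENNReal.ofReal (Real.exp (-(s * (zz + η) * lam))) *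
            (ind (Good m a) * ENNReal.ofReal (Real.exp (s * (NB Q a i : ℝ)))) +
          ENNReal.ofReal (Real.exp (s * (zz - η) * lam)) *
            (ind (Good m a) * ENNReal.ofReal (Real.exp ((-s) * (NB Q a i : ℝ)))))) ≤
      ENNReal.ofReal (2 * (Cs * W)) := by
    intro i hi
    rw [Ex_add, Ex_const_mul, Ex_const_mul]
    have hu1 := upGen (i0 := i) (s := s) hQ hT hm hD hi (by rw [abs_of_pos hs0]; exact hs1)
    have hu2 := upGen (i0 := i) (s := -s) hQ hT hm hD hi (by rw [abs_neg, abs_of_pos hs0]; exact hs1)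
    have he1 : Real.exp s - 1 ≤ s + s ^ 2 := by
      have := abs_le.1 (Real.abs_exp_sub_one_sub_id_le (x := s) (by rw [abs_of_pos hs0]; exact hs1))
      linarith [this.2]
    have he2 : Real.exp (-s) - 1 ≤ -s + s ^ 2 := by
      have := abs_le.1 (Real.abs_exp_sub_one_sub_id_le (x := -s) (by rw [abs_neg, abs_of_pos hs0]; exact hs1))
      have h2 := this.2
      nlinarith
    have k1 : ENNReal.ofReal (Real.exp (-(s * (zz + η) * lam))) *
        Ex (Q ^ T) (fun a => ind (Good m a) * ENNReal.ofReal (Real.exp (s * (NB Q a i : ℝ)))) ≤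
        ENNReal.ofReal (Cs * W) := by
      refine (mul_le_mul_right hu1 _).trans ?_
      rw [← ENNReal.ofReal_mul (Real.exp_pos _).le]
      apply ENNReal.ofReal_le_ofReal
      rw [← hCs]
      have e1 : Real.exp (-(s * (zz + η) * lam)) *
          (Cs * Real.exp ((-(al * T) + zz * (Real.exp s - 1)) * Real.log Q)) =
          Cs * Real.exp (-(s * (zz + η) * lam) + (-(al * T) + zz * (Real.exp s - 1)) * Real.log Q) := by
        rw [Real.exp_add]; ring
      rw [e1, hW]
      refine mul_le_mul_of_nonneg_left (Real.exp_le_exp.2 ?_) hC0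
      rw [hl]
      have e2 : -(s * (zz + η) * Real.log Q) + (-(al * T) + zz * (Real.exp s - 1)) * Real.log Q =
          (-(al * T) + (zz * (Real.exp s - 1) - s * (zz + η))) * Real.log Q := by ring
      have e3 : -(al * T + η ^ 2 / (4 * zz)) * Real.log Q =
          (-(al * T) + (zz * s ^ 2 - s * η)) * Real.log Q := by rw [hsz]; ring
      rw [e2, e3]
      refine mul_le_mul_of_nonneg_right ?_ hlam
      have := mul_le_mul_of_nonneg_left he1 hz0.le
      nlinarith
    have k2 : ENNReal.ofReal (Real.exp (s * (zz - η) * lam)) *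
        Ex (Q ^ T) (fun a => ind (Good m a) * ENNReal.ofReal (Real.exp ((-s) * (NB Q a i : ℝ)))) ≤
        ENNReal.ofReal (Cs * W) := by
      refine (mul_le_mul_right hu2 _).trans ?_
      rw [← ENNReal.ofReal_mul (Real.exp_pos _).le]
      apply ENNReal.ofReal_le_ofReal
      rw [← hCs]
      have e1 : Real.exp (s * (zz - η) * lam) *
          (Cs * Real.exp ((-(al * T) + zz * (Real.exp (-s) - 1)) * Real.log Q)) =
          Cs * Real.exp (s * (zz - η) * lam + (-(al * T) + zz * (Real.exp (-s) - 1)) * Real.log Q) := by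
        rw [Real.exp_add]; ring
      rw [e1, hW]
      refine mul_le_mul_of_nonneg_left (Real.exp_le_exp.2 ?_) hC0
      rw [hl]
      have e2 : s * (zz - η) * Real.log Q + (-(al * T) + zz * (Real.exp (-s) - 1)) * Real.log Q =
          (-(al * T) + (zz * (Real.exp (-s) - 1) + s * (zz - η))) * Real.log Q := by ring
      have e3 : -(al * T + η ^ 2 / (4 * zz)) * Real.log Q =
          (-(al * T) + (zz * s ^ 2 - s * η)) * Real.log Q := by rw [hsz]; ring
      rw [e2, e3]
      refine mul_le_mul_of_nonneg_right ?_ hlam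
      have := mul_le_mul_of_nonneg_left he2 hz0.le
      nlinarith
    refine (add_le_add k1 k2).trans ?_
    rw [← ENNReal.ofReal_add (by positivity) (by positivity)]
    apply ENNReal.ofReal_le_ofReal
    linarith
  refine (Finset.sum_le_sum hterm).trans ?_
  rw [Finset.sum_const, Nat.card_Icc, nsmul_eq_mul]
  have hc : ((T + 1 - 1 : ℕ) : ℝ≥0∞) = ENNReal.ofReal (T : ℝ) := by
    rw [Nat.add_sub_cancel, ENNReal.ofReal_natCast]
  rw [hc, ← ENNReal.ofReal_mul (by positivity)]
  apply ENNReal.ofReal_le_ofReal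
  rw [← hW]
  have e : 2 * (T : ℝ) * CU T D * (1 + Real.log Q) * W = T * (2 * (Cs * W)) := by
    rw [hCs]; ring
  rw [e]

end Pool.Agent.Lib.MP_134bf7_pr.RL
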