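import Pool.Agent.Lib.MP_134bf7_pr.RL.Be
import Pool.Agent.Lib.MP_134bf7_pr.RL.Up
import Pool.Agent.Lib.MP_134bf7_pr.RL.Sq

/-!
# RL-Xc: the exceptional configurations

Write `lam = log Q`.  `ind (Exc …) ≤` sum of
(1) `ind (Good k a ∧ ¬ Typ) + ind (Good k' a ∧ ¬ Typ)`: `upTyp`, exponent `-(al * T + η ^ 2 / (4 * zz))`;
(2) `ind (∃ x, Q ^ u < x + 1 ∧ 2 ≤ a x)`: `sq` with `N = Q ^ u`: `≤ exp (- u * lam)`, `u ≥ al * T + 1`;
(3) for each `j < q`, `r ≤ 2 * r0`, `τ, τ'`: `beC` with `adm_g2`, `abs_g2`, `b = cb u M j` (`⊆ Icc 1 T` since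
`u + q * M ≤ T`, with `M` elements): exponent
`- al * T + r + η * (T * log zz + r * T * log 2) - zz * (δ ^ 2 / 16) * M ≤ - al * T + 2 * r0 + 1 - (2 * r0 + 2)`;
(4) for each `j < q`, `τ, τ'`: `beC` with `adm_g1`, `abs_g1`, `r = r0`.
`hm` of `beC`: the targets `tg k k' τ l` are `k` or `k'`, and
`T * (zz + η) * lam * Q ^ (T - 1) < k` because `Q ^ T ≤ D * k` and `D * T * (zz + 1) * lam < Q` for large `Q`;
the same for `k'`.
The number of terms and the constants do not depend on `Q`.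
-/

namespace Pool.Agent.Lib.MP_134bf7_pr.RL

open Finset Filter
open scoped ENNReal NNReal

private theorem zz_pos : 0 < zz := by
  unfold zz
  exact one_div_pos.2 (Real.log_pos one_lt_two)

private theorem xc_k {Q T D m : ℕ} {η : ℝ} (hT : 1 ≤ T) (_hη0 : 0 < η) (hη1 : η ≤ 1) (hQ : 2 ≤ Q)
    (hlar : (D : ℝ) * T * (zz + 1) * Real.log Q < Q) (hm : Q ^ T ≤ D * m) :
    (T : ℝ) * (zz + η) * Real.log Q * (Q : ℝ) ^ (T - 1) < m := by
  have hz := zz_pos
  have hQ0 : (0 : ℝ) < Q := by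
    have : 0 < Q := by omega
    exact_mod_cast this
  have hL : 0 ≤ Real.log Q := Real.log_natCast_nonneg Q
  have hm' : (Q : ℝ) ^ T ≤ D * m := by exact_mod_cast hm
  have hD : (0 : ℝ) < D := by
    rcases Nat.eq_zero_or_pos D with h | h
    · exfalso
      rw [h] at hm'
      have : (0 : ℝ) < (Q : ℝ) ^ T := by positivity
      simp at hm'
      linarith
    · exact_mod_cast h
  have hP : (0 : ℝ) < (Q : ℝ) ^ (T - 1) := by positivity
  have hTT : (Q : ℝ) ^ T = (Q : ℝ) ^ (T - 1) * Q := by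
    rw [← pow_succ]
    congr 1
    omega
  have h1 : (T : ℝ) * (zz + η) * Real.log Q * (Q : ℝ) ^ (T - 1) ≤
      (T : ℝ) * (zz + 1) * Real.log Q * (Q : ℝ) ^ (T - 1) := by
    gcongr
  refine lt_of_le_of_lt h1 ?_
  have h2 : (D : ℝ) * ((T : ℝ) * (zz + 1) * Real.log Q * (Q : ℝ) ^ (T - 1)) < D * m := by
    calc (D : ℝ) * ((T : ℝ) * (zz + 1) * Real.log Q * (Q : ℝ) ^ (T - 1))
        = ((D : ℝ) * T * (zz + 1) * Real.log Q) * (Q : ℝ) ^ (T - 1) := by ring
      _ < Q * (Q : ℝ) ^ (T - 1) := by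
        exact mul_lt_mul_of_pos_right hlar hP
      _ = (Q : ℝ) ^ T := by rw [hTT]; ring
      _ ≤ D * m := hm'
  exact lt_of_mul_lt_mul_left h2 hD.le

private theorem xc_ind {K : ℕ} (Q T u M q r0 : ℕ) (η δ : ℝ) (k k' : ℕ) (a : Fin K → ℕ) :
    ind (Exc Q T u M q r0 η δ k k' a) ≤
      (ind (Good k a ∧ ¬ Typ Q T η a) + ind (Good k' a ∧ ¬ Typ Q T η a)) +
      ind (∃ x : Fin K, Q ^ u < (x : ℕ) + 1 ∧ 2 ≤ a x) +
      (∑ j ∈ range q, ∑ r ∈ range (2 * r0 + 1), ∑ τ : Pat r, ∑ τ' : Pat r,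
        ind (BadC Q T η δ (cb u M j) (g2 τ') (fun _ _ => False) (tg k k' τ) a)) +
      (∑ j ∈ range q, ∑ τ : Pat r0, ∑ τ' : Pat r0,
        ind (BadC Q T η δ (cb u M j) (g1 τ') (fun l l' => l ≠ l') (tg k k' τ) a)) := by
  by_cases h : Exc Q T u M q r0 η δ k k' a
  · have h1 : ind (Exc Q T u M q r0 η δ k k' a) = 1 := by simp [ind, h]
    rw [h1]
    obtain ⟨hg, h⟩ := h
    rcases h with h | h | h | h
    · have : (1 : ℝ≥0∞) ≤ ind (Good k a ∧ ¬ Typ Q T η a) + ind (Good k' a ∧ ¬ Typ Q T η a) := by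
        rcases hg with hg | hg
        · refine le_add_right ?_
          simp [ind, hg, h]
        · refine le_add_left ?_
          simp [ind, hg, h]
      exact le_add_right (le_add_right (le_add_right this))
    · refine le_add_right (le_add_right (le_add_left ?_))
      rw [ind, if_pos h]
    · refine le_add_right (le_add_left ?_)
      obtain ⟨j, hj, r, hr, τ, τ', hb⟩ := h
      calc (1 : ℝ≥0∞) = ind (BadC Q T η δ (cb u M j) (g2 τ') (fun _ _ => False) (tg k k' τ) a) := by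
            rw [ind, if_pos hb]
        _ ≤ ∑ τ' : Pat r, ind (BadC Q T η δ (cb u M j) (g2 τ') (fun _ _ => False) (tg k k' τ) a) :=
            Finset.single_le_sum (f := fun τ' => ind (BadC Q T η δ (cb u M j) (g2 τ')
              (fun _ _ => False) (tg k k' τ) a)) (fun _ _ => zero_le) (mem_univ τ')
        _ ≤ ∑ τ : Pat r, ∑ τ' : Pat r,
              ind (BadC Q T η δ (cb u M j) (g2 τ') (fun _ _ => False) (tg k k' τ) a) :=
            Finset.single_le_sum (f := fun τ => ∑ τ' : Pat r, ind (BadC Q T η δ (cb u M j) (g2 τ')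
              (fun _ _ => False) (tg k k' τ) a)) (fun _ _ => zero_le) (mem_univ τ)
        _ ≤ ∑ r ∈ range (2 * r0 + 1), ∑ τ : Pat r, ∑ τ' : Pat r,
              ind (BadC Q T η δ (cb u M j) (g2 τ') (fun _ _ => False) (tg k k' τ) a) :=
            Finset.single_le_sum (f := fun r => ∑ τ : Pat r, ∑ τ' : Pat r,
              ind (BadC Q T η δ (cb u M j) (g2 τ') (fun _ _ => False) (tg k k' τ) a))
              (fun _ _ => zero_le) (mem_range.2 (by omega))
        _ ≤ _ :=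
            Finset.single_le_sum (f := fun j => ∑ r ∈ range (2 * r0 + 1), ∑ τ : Pat r, ∑ τ' : Pat r,
              ind (BadC Q T η δ (cb u M j) (g2 τ') (fun _ _ => False) (tg k k' τ) a))
              (fun _ _ => zero_le) (mem_range.2 hj)
    · refine le_add_left ?_
      obtain ⟨j, hj, τ, τ', hb⟩ := h
      calc (1 : ℝ≥0∞) = ind (BadC Q T η δ (cb u M j) (g1 τ') (fun l l' => l ≠ l') (tg k k' τ) a) := by
            rw [ind, if_pos hb]
        _ ≤ ∑ τ' : Pat r0, ind (BadC Q T η δ (cb u M j) (g1 τ') (fun l l' => l ≠ l') (tg k k' τ) a) :=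
            Finset.single_le_sum (f := fun τ' => ind (BadC Q T η δ (cb u M j) (g1 τ')
              (fun l l' => l ≠ l') (tg k k' τ) a)) (fun _ _ => zero_le) (mem_univ τ')
        _ ≤ ∑ τ : Pat r0, ∑ τ' : Pat r0,
              ind (BadC Q T η δ (cb u M j) (g1 τ') (fun l l' => l ≠ l') (tg k k' τ) a) :=
            Finset.single_le_sum (f := fun τ => ∑ τ' : Pat r0, ind (BadC Q T η δ (cb u M j) (g1 τ')
              (fun l l' => l ≠ l') (tg k k' τ) a)) (fun _ _ => zero_le) (mem_univ τ)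
        _ ≤ _ :=
            Finset.single_le_sum (f := fun j => ∑ τ : Pat r0, ∑ τ' : Pat r0,
              ind (BadC Q T η δ (cb u M j) (g1 τ') (fun l l' => l ≠ l') (tg k k' τ) a))
              (fun _ _ => zero_le) (mem_range.2 hj)
  · have h1 : ind (Exc Q T u M q r0 η δ k k' a) = 0 := by simp [ind, h]
    rw [h1]
    exact zero_le

private theorem cb_sub {T u M q j : ℕ} (huM : u + q * M ≤ T) (hj : j < q) : cb u M j ⊆ Icc 1 T := by
  intro i hi
  unfold cb at hi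
  rw [mem_Ioc] at hi
  rw [mem_Icc]
  have : (j + 1) * M ≤ q * M := Nat.mul_le_mul_right _ hj
  constructor <;> omega

private theorem cb_card (u M j : ℕ) : (cb u M j).card = M := by
  unfold cb
  rw [Nat.card_Ioc]
  have : (j + 1) * M = j * M + M := by ring
  omega

theorem xc {T D u M q r0 : ℕ} {η δ c : ℝ} (hT : 1 ≤ T) (hη0 : 0 < η) (hη1 : η ≤ 1) (hδ0 : 0 < δ)
    (hδ1 : δ ≤ 1) (hη : η * (T * Real.log zz + 2 * r0 * T * Real.log 2) ≤ 1)
    (hM : 2 * (r0 : ℝ) + 2 ≤ zz * (δ ^ 2 / 16) * M) (hu : al * T + 1 ≤ u) (huM : u + q * M ≤ T)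
    (hc1 : c ≤ 1) (hc2 : c ≤ η ^ 2 / (4 * zz)) :
    ∃ C : ℝ, 0 ≤ C ∧ ∀ᶠ Q : ℕ in atTop, ∀ k k' : ℕ, 1 ≤ k → 1 ≤ k' → Q ^ T ≤ D * k →
      Q ^ T ≤ D * k' →
      Ex (Q ^ T) (fun a => ind (Exc Q T u M q r0 η δ k k' a)) ≤
        ENNReal.ofReal (C * (1 + Real.log Q) * Real.exp (-(al * T + c) * Real.log Q)) := by
  have hz := zz_pos
  have hl2 : 0 ≤ Real.log 2 := Real.log_nonneg one_le_two
  refine ⟨(2 * T * CU T D + 2 * T * CU T D) + 1 +
    (∑ j ∈ range q, ∑ r ∈ range (2 * r0 + 1), ∑ τ : Pat r, ∑ τ' : Pat r, CB T r) +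
    (∑ j ∈ range q, ∑ τ : Pat r0, ∑ τ' : Pat r0, CB T r0), ?_, ?_⟩
  · have h1 := CU_pos T D
    have h2 : 0 ≤ ∑ j ∈ range q, ∑ r ∈ range (2 * r0 + 1), ∑ τ : Pat r, ∑ τ' : Pat r, CB T r :=
      Finset.sum_nonneg fun _ _ => Finset.sum_nonneg fun r _ => Finset.sum_nonneg fun _ _ =>
        Finset.sum_nonneg fun _ _ => (CB_pos T r).le
    have h3 : 0 ≤ ∑ j ∈ range q, ∑ τ : Pat r0, ∑ τ' : Pat r0, CB T r0 :=
      Finset.sum_nonneg fun _ _ => Finset.sum_nonneg fun _ _ =>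
        Finset.sum_nonneg fun _ _ => (CB_pos T r0).le
    positivity
  have hlim : ∀ᶠ Q : ℕ in atTop, (D : ℝ) * T * (zz + 1) * Real.log Q < Q := by
    have h1 : (fun x : ℝ => Real.log x) =o[atTop] (fun x : ℝ => x) := Real.isLittleO_log_id_atTop
    have h2 : (fun x : ℝ => (D : ℝ) * T * (zz + 1) * Real.log x) =o[atTop] (fun x : ℝ => x) :=
      h1.const_mul_left _
    have h3 := (h2.comp_tendsto tendsto_natCast_atTop_atTop).def (c := 1 / 2) (by norm_num)
    filter_upwards [h3, eventually_ge_atTop 1] with Q hQ hQ1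
    simp only [Function.comp, Real.norm_eq_abs] at hQ
    have hQ0 : (0 : ℝ) < Q := by exact_mod_cast hQ1
    rw [abs_of_pos hQ0] at hQ
    have := le_abs_self ((D : ℝ) * T * (zz + 1) * Real.log Q)
    linarith
  filter_upwards [hlim, eventually_ge_atTop 2] with Q hlar hQ
  intro k k' hk hk' hDk hDk'
  have hL : 0 ≤ Real.log Q := Real.log_natCast_nonneg Q
  have hQ0 : (0 : ℝ) < Q := by
    have : 0 < Q := by omega
    exact_mod_cast this
  set L : ℝ := Real.log Q with hLd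
  set X : ℝ := (1 + L) * Real.exp (-(al * T + c) * L) with hX
  have hX0 : 0 ≤ X := by positivity
  -- the four bounds
  have b1 : ∀ m : ℕ, 1 ≤ m → Q ^ T ≤ D * m →
      Ex (Q ^ T) (fun a => ind (Good m a ∧ ¬ Typ Q T η a)) ≤ ENNReal.ofReal (2 * T * CU T D * X) := by
    intro m hm hDm
    refine (upTyp hQ hT hm hDm hη0 hη1).trans (ENNReal.ofReal_le_ofReal ?_)
    rw [hX]
    have h1 := CU_pos T D
    have h2 : Real.exp (-(al * T + η ^ 2 / (4 * zz)) * L) ≤ Real.exp (-(al * T + c) * L) := by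
      apply Real.exp_le_exp.2
      apply mul_le_mul_of_nonneg_right _ hL
      linarith
    calc 2 * T * CU T D * (1 + Real.log Q) * Real.exp (-(al * T + η ^ 2 / (4 * zz)) * Real.log Q)
        = 2 * T * CU T D * ((1 + L) * Real.exp (-(al * T + η ^ 2 / (4 * zz)) * L)) := by
          rw [← hLd]; ring
      _ ≤ _ := by gcongr
  have b2 : Ex (Q ^ T) (fun a => ind (∃ x : Fin (Q ^ T), Q ^ u < (x : ℕ) + 1 ∧ 2 ≤ a x)) ≤
      ENNReal.ofReal (1 * X) := by
    refine (sq (Nat.one_le_pow _ _ (by omega))).trans (ENNReal.ofReal_le_ofReal ?_)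
    have h1 : 1 / ((Q ^ u : ℕ) : ℝ) = Real.exp (-(u : ℝ) * L) := by
      rw [neg_mul, Real.exp_neg, one_div]
      congr 1
      push_cast
      rw [← Real.rpow_natCast, Real.rpow_def_of_pos hQ0, mul_comm]
    rw [h1, hX]
    have h2 : Real.exp (-(u : ℝ) * L) ≤ Real.exp (-(al * T + c) * L) := by
      apply Real.exp_le_exp.2
      apply mul_le_mul_of_nonneg_right _ hL
      linarith
    have h3 : 0 < Real.exp (-(al * T + c) * L) := Real.exp_pos _
    nlinarith
  have hr : ∀ r : ℕ, r ≤ 2 * r0 → (-(al * T) + r +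
      η * (T * Real.log zz + r * T * Real.log 2) - zz * (δ ^ 2 / 16) * M) ≤ -(al * T + c) := by
    intro r hr
    have hr' : (r : ℝ) ≤ 2 * r0 := by exact_mod_cast hr
    have h1 : η * (T * Real.log zz + r * T * Real.log 2) ≤
        η * (T * Real.log zz + 2 * r0 * T * Real.log 2) := by gcongr
    linarith
  have b3 : ∀ j ∈ range q, ∀ r : ℕ, r ≤ 2 * r0 → ∀ (τ : Pat r) (g : Pat r → ℝ)
      (Δ : Fin r → Fin r → Prop), (∀ q, |g q| ≤ 1) → Adm Δ g →
      Ex (Q ^ T) (fun a => ind (BadC Q T η δ (cb u M j) g Δ (tg k k' τ) a)) ≤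
        ENNReal.ofReal (CB T r * X) := by
    intro j hj r hr0 τ g Δ hg hA
    refine (beC hQ hT hη0.le hη1 hδ0.le hδ1 (cb_sub huM (mem_range.1 hj)) hg hA ?_).trans
      (ENNReal.ofReal_le_ofReal ?_)
    · intro l
      unfold tg
      split_ifs
      · exact xc_k hT hη0 hη1 hQ hlar hDk'
      · exact xc_k hT hη0 hη1 hQ hlar hDk
    · rw [cb_card]
      have h1 := CB_pos T r
      have h2 : Real.exp (L * (-(al * T) + r +
          η * (T * Real.log zz + r * T * Real.log 2) - zz * (δ ^ 2 / 16) * M)) ≤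
          Real.exp (-(al * T + c) * L) := by
        apply Real.exp_le_exp.2
        rw [mul_comm]
        exact mul_le_mul_of_nonneg_right (hr r hr0) hL
      have h3 : 0 < Real.exp (-(al * T + c) * L) := Real.exp_pos _
      have h4 : Real.exp (-(al * T + c) * L) ≤ X := by
        rw [hX]; nlinarith
      exact mul_le_mul_of_nonneg_left (h2.trans h4) h1.le
  -- the sum
  refine (Ex_mono _ (fun a => xc_ind Q T u M q r0 η δ k k' a)).trans ?_
  rw [Ex_add, Ex_add, Ex_add, Ex_add, Ex_sum, Ex_sum]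
  have e3 : ∑ j ∈ range q, Ex (Q ^ T) (fun a => ∑ r ∈ range (2 * r0 + 1), ∑ τ : Pat r, ∑ τ' : Pat r,
        ind (BadC Q T η δ (cb u M j) (g2 τ') (fun _ _ => False) (tg k k' τ) a)) ≤
      ENNReal.ofReal ((∑ j ∈ range q, ∑ r ∈ range (2 * r0 + 1), ∑ τ : Pat r, ∑ τ' : Pat r,
        CB T r) * X) := by
    rw [Finset.sum_mul, ENNReal.ofReal_sum_of_nonneg]
    swap
    · intro j _
      exact mul_nonneg (Finset.sum_nonneg fun r _ => Finset.sum_nonneg fun _ _ =>
        Finset.sum_nonneg fun _ _ => (CB_pos T r).le) hX0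
    refine Finset.sum_le_sum fun j hj => ?_
    rw [Ex_sum, Finset.sum_mul, ENNReal.ofReal_sum_of_nonneg]
    swap
    · intro r _
      exact mul_nonneg (Finset.sum_nonneg fun _ _ =>
        Finset.sum_nonneg fun _ _ => (CB_pos T r).le) hX0
    refine Finset.sum_le_sum fun r hr1 => ?_
    rw [Ex_sum, Finset.sum_mul, ENNReal.ofReal_sum_of_nonneg]
    swap
    · intro _ _
      exact mul_nonneg (Finset.sum_nonneg fun _ _ => (CB_pos T r).le) hX0
    refine Finset.sum_le_sum fun τ _ => ?_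
    rw [Ex_sum, Finset.sum_mul, ENNReal.ofReal_sum_of_nonneg]
    swap
    · intro _ _
      exact mul_nonneg (CB_pos T r).le hX0
    refine Finset.sum_le_sum fun τ' _ => ?_
    exact b3 j hj r (by have := mem_range.1 hr1; omega) τ _ _ (fun q => abs_g2 τ' q) (adm_g2 τ')
  have e4 : ∑ j ∈ range q, Ex (Q ^ T) (fun a => ∑ τ : Pat r0, ∑ τ' : Pat r0,
        ind (BadC Q T η δ (cb u M j) (g1 τ') (fun l l' => l ≠ l') (tg k k' τ) a)) ≤
      ENNReal.ofReal ((∑ j ∈ range q, ∑ τ : Pat r0, ∑ τ' : Pat r0, CB T r0) * X) := by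
    rw [Finset.sum_mul, ENNReal.ofReal_sum_of_nonneg]
    swap
    · intro j _
      exact mul_nonneg (Finset.sum_nonneg fun _ _ =>
        Finset.sum_nonneg fun _ _ => (CB_pos T r0).le) hX0
    refine Finset.sum_le_sum fun j hj => ?_
    rw [Ex_sum, Finset.sum_mul, ENNReal.ofReal_sum_of_nonneg]
    swap
    · intro _ _
      exact mul_nonneg (Finset.sum_nonneg fun _ _ => (CB_pos T r0).le) hX0
    refine Finset.sum_le_sum fun τ _ => ?_
    rw [Ex_sum, Finset.sum_mul, ENNReal.ofReal_sum_of_nonneg]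
    swap
    · intro _ _
      exact mul_nonneg (CB_pos T r0).le hX0
    refine Finset.sum_le_sum fun τ' _ => ?_
    exact b3 j hj r0 (by omega) τ _ _ (fun q => abs_g1 τ' q) (adm_g1 τ')
  have e12 := add_le_add (add_le_add (add_le_add (add_le_add (b1 k hk hDk) (b1 k' hk' hDk')) b2) e3) e4
  refine e12.trans ?_
  have h1 := CU_pos T D
  have h2 : 0 ≤ ∑ j ∈ range q, ∑ r ∈ range (2 * r0 + 1), ∑ τ : Pat r, ∑ τ' : Pat r, CB T r :=
    Finset.sum_nonneg fun _ _ => Finset.sum_nonneg fun r _ => Finset.sum_nonneg fun _ _ =>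
      Finset.sum_nonneg fun _ _ => (CB_pos T r).le
  have h3 : 0 ≤ ∑ j ∈ range q, ∑ τ : Pat r0, ∑ τ' : Pat r0, CB T r0 :=
    Finset.sum_nonneg fun _ _ => Finset.sum_nonneg fun _ _ =>
      Finset.sum_nonneg fun _ _ => (CB_pos T r0).le
  rw [← ENNReal.ofReal_add (by positivity) (by positivity),
    ← ENNReal.ofReal_add (by positivity) (by positivity),
    ← ENNReal.ofReal_add (by positivity) (mul_nonneg h2 hX0),
    ← ENNReal.ofReal_add (add_nonneg (by positivity) (mul_nonneg h2 hX0)) (mul_nonneg h3 hX0)]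
  apply ENNReal.ofReal_le_ofReal
  rw [hX]
  apply le_of_eq
  ring

end Pool.Agent.Lib.MP_134bf7_pr.RL
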