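import Pool.Agent.Lib.MP_134bf7_pr.RL.AsB
import Pool.Agent.Lib.MP_134bf7_pr.RL.Xc
import Pool.Agent.Lib.MP_134bf7_pr.RL.Lo
import Pool.Agent.Lib.MP_134bf7_pr.RL.AsR
import Pool.Agent.Lib.MP_134bf7_pr.RL.AsD

/-!
# RL-AsC: the theorem
-/

namespace Pool.Agent.Lib.MP_134bf7_pr.RL

open Finset Filter
open scoped ENNReal NNReal

/-- the parameters -/
private structure Par (ε κ : ℝ) where
  ε' : ℝ
  θ : ℝ
  δ : ℝ
  η : ℝ
  c : ℝ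
  r0 : ℕ
  q : ℕ
  M : ℕ
  T : ℕ
  u : ℕ
  hε1 : ε' ≤ 1 / 2
  hε2 : ε' ≤ ε
  hθ0 : 0 < θ
  hθ1 : θ ≤ 1 / 40
  hθκ : 10 * θ ≤ κ
  hr0 : (1 / 2 : ℝ) ^ r0 ≤ θ / 3
  hq1 : 1 ≤ q
  hq : 1 ≤ (q : ℝ) * (θ / 3)
  hδe : δ = θ / 3
  hM1 : 1 ≤ M
  hM : 2 * (r0 : ℝ) + 2 ≤ zz * (δ ^ 2 / 16) * M
  hu1 : 1 ≤ u
  hu : u + q * M + 1 = T
  hu2 : al * T + 1 ≤ u
  hu3 : (T : ℝ) * (1 - ε') ≤ u - 1
  hη0 : 0 < η
  hη1 : η ≤ 1
  hη : η * (T * Real.log zz + 2 * r0 * T * Real.log 2) ≤ 1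
  hc0 : 0 < c
  hc1 : c ≤ 1
  hc2 : c ≤ η ^ 2 / (4 * zz)

private theorem exists_Par (ε κ : ℝ) (hε : 0 < ε) (hκ : 0 < κ) : Nonempty (Par ε κ) := by
  obtain ⟨ε', hε'0, hε'1, hε'ε⟩ : ∃ ε' : ℝ, 0 < ε' ∧ ε' ≤ 1 / 2 ∧ ε' ≤ ε :=
    ⟨min ε (1 / 2), lt_min hε (by norm_num), min_le_right _ _, min_le_left _ _⟩
  obtain ⟨θ, hθ0, hθ1, hθκ⟩ : ∃ θ : ℝ, 0 < θ ∧ θ ≤ 1 / 40 ∧ 10 * θ ≤ κ := by
    refine ⟨min (κ / 10) (1 / 40), lt_min (by positivity) (by norm_num), min_le_right _ _, ?_⟩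
    have := min_le_left (κ / 10) (1 / 40)
    linarith
  obtain ⟨r0, hr0⟩ : ∃ r0 : ℕ, (1 / 2 : ℝ) ^ r0 ≤ θ / 3 := by
    obtain ⟨n, hn⟩ := exists_pow_lt_of_lt_one (show (0 : ℝ) < θ / 3 by positivity)
      (show (1 / 2 : ℝ) < 1 by norm_num)
    exact ⟨n, hn.le⟩
  obtain ⟨q, hq1, hq⟩ : ∃ q : ℕ, 1 ≤ q ∧ 1 ≤ (q : ℝ) * (θ / 3) := by
    obtain ⟨n, hn⟩ := exists_nat_ge (3 / θ)
    refine ⟨n + 1, by omega, ?_⟩
    have : 3 / θ ≤ ((n + 1 : ℕ) : ℝ) := by push_cast; linarith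
    rw [div_le_iff₀ hθ0] at this
    linarith
  obtain ⟨δ, hδe⟩ : ∃ δ : ℝ, δ = θ / 3 := ⟨_, rfl⟩
  have hδ0 : 0 < δ := by rw [hδe]; positivity
  have hzz := zz_bounds
  have hlzz := log_zz_bounds
  obtain ⟨M, hM1, hM⟩ : ∃ M : ℕ, 1 ≤ M ∧ 2 * (r0 : ℝ) + 2 ≤ zz * (δ ^ 2 / 16) * M := by
    have hc : 0 < zz * (δ ^ 2 / 16) := by
      have := hzz.1
      positivity
    obtain ⟨n, hn⟩ := exists_nat_ge ((2 * (r0 : ℝ) + 2) / (zz * (δ ^ 2 / 16)))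
    refine ⟨n + 1, by omega, ?_⟩
    have : (2 * (r0 : ℝ) + 2) / (zz * (δ ^ 2 / 16)) ≤ ((n + 1 : ℕ) : ℝ) := by
      push_cast; linarith
    rw [div_le_iff₀ hc] at this
    linarith
  obtain ⟨T, hT1, hT2⟩ : ∃ T : ℕ, 2 * (q * M + 3) ≤ T ∧ (q : ℝ) * M + 3 ≤ ε' * T := by
    obtain ⟨n, hn⟩ := exists_nat_ge (((q : ℝ) * M + 3) / ε')
    refine ⟨n + 2 * (q * M + 3), by omega, ?_⟩
    rw [div_le_iff₀ hε'0] at hn
    have h3 : (0 : ℝ) ≤ ((2 * (q * M + 3) : ℕ) : ℝ) := Nat.cast_nonneg _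
    have : ε' * ((n + 2 * (q * M + 3) : ℕ) : ℝ) = n * ε' + ε' * ((2 * (q * M + 3) : ℕ) : ℝ) := by
      push_cast; ring
    rw [this]
    have := mul_nonneg hε'0.le h3
    linarith
  obtain ⟨u, hu⟩ : ∃ u : ℕ, u + q * M + 1 = T := ⟨T - 1 - q * M, by omega⟩
  have hu1 : 1 ≤ u := by omega
  have huR : (u : ℝ) + q * M + 1 = T := by exact_mod_cast hu
  have hTpos : (0 : ℝ) < T := by
    have : 0 < T := by omega
    exact_mod_cast this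
  have hT1R : 2 * ((q : ℝ) * M + 3) ≤ T := by exact_mod_cast hT1
  have hal := al_bounds
  have hu2 : al * T + 1 ≤ u := by
    have : al * T ≤ 1 / 10 * T := mul_le_mul_of_nonneg_right hal.2.le hTpos.le
    linarith
  have hu3 : (T : ℝ) * (1 - ε') ≤ u - 1 := by linarith
  obtain ⟨η, hη0, hη1, hη⟩ : ∃ η : ℝ, 0 < η ∧ η ≤ 1 ∧
      η * (T * Real.log zz + 2 * r0 * T * Real.log 2) ≤ 1 := by
    have hl2 : 0 < Real.log 2 := Real.log_pos (by norm_num)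
    have hpos : 0 < T * Real.log zz + 2 * r0 * T * Real.log 2 := by
      have := hlzz.1
      positivity
    refine ⟨min 1 (1 / (T * Real.log zz + 2 * r0 * T * Real.log 2)),
      lt_min (by norm_num) (by positivity), min_le_left _ _, ?_⟩
    calc _ ≤ (1 / (T * Real.log zz + 2 * r0 * T * Real.log 2)) *
        (T * Real.log zz + 2 * r0 * T * Real.log 2) :=
          mul_le_mul_of_nonneg_right (min_le_right _ _) hpos.le
      _ = 1 := one_div_mul_cancel hpos.ne'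
  obtain ⟨c, hc0, hc1, hc2⟩ : ∃ c : ℝ, 0 < c ∧ c ≤ 1 ∧ c ≤ η ^ 2 / (4 * zz) := by
    have hzpos : 0 < zz := by linarith [hzz.1]
    exact ⟨min 1 (η ^ 2 / (4 * zz)), lt_min (by norm_num) (by positivity), min_le_left _ _,
      min_le_right _ _⟩
  exact ⟨⟨ε', θ, δ, η, c, r0, q, M, T, u, hε'1, hε'ε, hθ0, hθ1, hθκ, hr0, hq1, hq, hδe, hM1, hM,
    hu1, hu, hu2, hu3, hη0, hη1, hη, hc0, hc1, hc2⟩⟩

/-- one value of `Q`, `k`, `h` -/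
private theorem one_k {ε κ C : ℝ} (A : Par ε κ) {Q k h D : ℕ} (hC0 : 0 ≤ C)
    (hD : D = 2 ^ A.T * 2) (hk1 : 1 ≤ k)
    (hk : (k : ℝ) ^ (-(al + A.c / (2 * A.T))) ≤ p k) (hh : (h : ℝ) ≤ (k : ℝ) ^ (1 - ε))
    (hh1 : 1 ≤ h) (hQ2 : 2 ≤ Q) (hQθ : 1 / A.θ ≤ Q) (hQc : 2 * D + 2 ≤ Q) (hkQ1 : 2 * k ≤ Q ^ A.T)
    (hkQ2 : Q ^ A.T ≤ 2 ^ A.T * (2 * k))
    (hCQ : ∀ k k' : ℕ, 1 ≤ k → 1 ≤ k' → Q ^ A.T ≤ D * k → Q ^ A.T ≤ D * k' →
      Ex (Q ^ A.T) (fun a => ind (Exc Q A.T A.u A.M A.q A.r0 A.η A.δ k k' a)) ≤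
        ENNReal.ofReal (C * (1 + Real.log Q) * Real.exp (-(al * A.T + A.c) * Real.log Q)))
    (habs : (C + 2 * CU A.T (2 * D)) / A.θ * (1 + Real.log Q) ^ 2 ≤
      Real.exp (A.c / 2 * Real.log Q)) : |p (k + h) / p k - 1| ≤ κ := by
  have hkR : (1 : ℝ) ≤ k := by exact_mod_cast hk1
  have hkpos : (0 : ℝ) < k := by linarith
  have hPpos : 0 < p k := lt_of_lt_of_le (Real.rpow_pos_of_pos hkpos _) hk
  have hQpos : (0 : ℝ) < Q := by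
    have : 0 < Q := by omega
    exact_mod_cast this
  have hQge1 : (1 : ℝ) ≤ Q := by
    have : 1 ≤ Q := by omega
    exact_mod_cast this
  have hQθ' : 1 / (Q : ℝ) ≤ A.θ := by
    have h1 := hQθ
    rw [div_le_iff₀ A.hθ0] at h1
    rw [div_le_iff₀ hQpos]
    linarith
  have hlam0 : 0 ≤ Real.log Q := Real.log_nonneg hQge1
  have hε1 := A.hε1
  have hε2 := A.hε2
  have hTu := A.hu
  have hT1 : 1 ≤ A.T := by omega
  have hhε : (h : ℝ) ≤ (k : ℝ) ^ (1 - A.ε') :=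
    hh.trans (Real.rpow_le_rpow_of_exponent_le hkR (by linarith))
  have hhk : h ≤ k := by
    have : (h : ℝ) ≤ (k : ℝ) ^ (1 : ℝ) := by
      by_cases h0 : 0 ≤ A.ε'
      · exact hhε.trans (Real.rpow_le_rpow_of_exponent_le hkR (by linarith))
      · exfalso
        have := A.hu3
        have hT0 : (0 : ℝ) < A.T := by exact_mod_cast hT1
        have h3 : (A.T : ℝ) ≤ A.T * (1 - A.ε') := by nlinarith
        have h4 : (A.u : ℝ) ≤ A.T := by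
          have : A.u ≤ A.T := by omega
          exact_mod_cast this
        linarith
    rw [Real.rpow_one] at this
    exact_mod_cast this
  have hkT : k + h ≤ Q ^ A.T := by omega
  have hDk : Q ^ A.T ≤ D * k := by
    rw [hD]
    calc Q ^ A.T ≤ 2 ^ A.T * (2 * k) := hkQ2
      _ = 2 ^ A.T * 2 * k := by ring
  have hDpos : 0 < D := by rw [hD]; positivity
  have hk2 : 2 * Q ^ (A.T - 1) ≤ k := by
    by_contra hcon
    push Not at hcon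
    have h1 : D * k < D * (2 * Q ^ (A.T - 1)) := Nat.mul_lt_mul_of_pos_left hcon hDpos
    have h2 : Q ^ (A.T - 1) * (2 * D + 2) ≤ Q ^ (A.T - 1) * Q := Nat.mul_le_mul_left _ hQc
    have hQT1 : Q ^ A.T = Q ^ (A.T - 1) * Q := by
      rw [← pow_succ]
      congr 1
      omega
    have h3 : Q ^ (A.T - 1) * (2 * D + 2) = D * (2 * Q ^ (A.T - 1)) + 2 * Q ^ (A.T - 1) := by ring
    omega
  have hratio : (h : ℝ) / (Q ^ A.u : ℕ) ≤ 1 / Q :=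
    h_ratio hQ2 hk1 (by omega) (by linarith) A.hu3 hhε
  have hhu : h ≤ Q ^ A.u := by
    have h1 : (h : ℝ) / (Q ^ A.u : ℕ) ≤ 1 := by
      refine hratio.trans ?_
      rw [div_le_one hQpos]
      exact hQge1
    have h2 : (0 : ℝ) < ((Q ^ A.u : ℕ) : ℝ) := by
      have : 0 < Q ^ A.u := Nat.pow_pos (by omega)
      exact_mod_cast this
    rw [div_le_one h2] at h1
    exact_mod_cast h1
  obtain ⟨x, hx⟩ : ∃ x : ℝ, x = CU A.T (2 * D) * (1 + Real.log Q) *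
    Real.exp (-(al * A.T) * Real.log Q) := ⟨_, rfl⟩
  obtain ⟨w, hw⟩ : ∃ w : ℝ, w = C * (1 + Real.log Q) *
    Real.exp (-(al * A.T + A.c) * Real.log Q) := ⟨_, rfl⟩
  have hCU := (CU_pos A.T (2 * D)).le
  have hx0 : 0 ≤ x := by rw [hx]; positivity
  have hw0 : 0 ≤ w := by rw [hw]; positivity
  have hX : ∀ m, 1 ≤ m → Q ^ A.T ≤ (2 * D) * m → PG (Q ^ A.T) m ≤ ENNReal.ofReal x := by
    intro m hm1 hm2
    rw [hx]
    exact up hQ2 hT1 hm1 hm2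
  have hW := hCQ k (k + h) hk1 (by omega) hDk (hDk.trans (Nat.mul_le_mul_left _ (by omega)))
  rw [← hw] at hW
  have hδ0 : 0 < A.δ := by
    rw [A.hδe]
    have := A.hθ0
    positivity
  obtain ⟨i1, i2⟩ := two_real (q := A.q) (r0 := A.r0) (δ := A.δ) (x := x) (w := w) hQ2 A.hu1 A.hM1
    A.hη1 hδ0.le hh1 hhu hTu.le hkT hDk hk2 hx0 hw0 hX hW
  have hPlow : Real.exp (-(al * A.T + A.c / 2) * Real.log Q) ≤ p k :=
    p_low hQ2 hT1 hk1 (by omega) A.hc0 al_bounds.1 hk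
  have e1 : 1 / (Q : ℝ) = Real.exp (-Real.log Q) := by
    rw [Real.exp_neg, Real.exp_log hQpos, one_div]
  have hE : (h : ℝ) / (Q ^ A.u : ℕ) * (x + x) + w ≤ A.θ * p k :=
    err_small hlam0 hC0 hCU A.hθ0 A.hc1 (hratio.trans e1.le) hx hw habs hPlow
  have hqpos : (0 : ℝ) < A.q := by exact_mod_cast A.hq1
  have hr : (0 : ℝ) ≤ (h : ℝ) / (Q ^ A.u : ℕ) := by positivity
  have hR0 : (0 : ℝ) ≤ 1 + A.q * ((1 / 2) ^ A.r0 + A.δ) := by positivity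
  have hR : 1 + (A.q : ℝ) * ((1 / 2) ^ A.r0 + A.δ) ≤ A.q * A.θ := by
    rw [A.hδe]
    have h1 := mul_le_mul_of_nonneg_left A.hr0 hqpos.le
    have h2 := A.hq
    linarith
  exact ratio hPpos (p_nonneg _) A.hθ0 A.hθ1 A.hθκ hqpos hR0 hR (by linarith)
    (by linarith [hratio.trans hQθ']) (by positivity) hE i1 i2

theorem main (ε κ : ℝ) (hε : 0 < ε) (hκ : 0 < κ) : ∀ᶠ k : ℕ in atTop, ∀ h : ℕ,
    (h : ℝ) ≤ (k : ℝ) ^ (1 - ε) → |p (k + h) / p k - 1| ≤ κ := by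
  obtain ⟨A⟩ := exists_Par ε κ hε hκ
  obtain ⟨D, hD⟩ : ∃ D : ℕ, D = 2 ^ A.T * 2 := ⟨_, rfl⟩
  have hTu := A.hu
  have hT1 : 1 ≤ A.T := by omega
  have hT0 : (0 : ℝ) < A.T := by exact_mod_cast hT1
  have hδ0 : 0 < A.δ := by
    rw [A.hδe]
    have := A.hθ0
    positivity
  have hδ1 : A.δ ≤ 1 := by
    rw [A.hδe]
    have := A.hθ1
    linarith
  have hc0 := A.hc0
  obtain ⟨C, hC0, hC⟩ := xc (T := A.T) (D := D) (u := A.u) (M := A.M) (q := A.q) (r0 := A.r0) hT1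
    A.hη0 A.hη1 hδ0 hδ1 A.hη A.hM A.hu2 (by omega) A.hc1 A.hc2
  have hlow := lower (A.c / (2 * A.T)) (by positivity)
  have habs := absorb ((C + 2 * CU A.T (2 * D)) / A.θ) (A.c / 2) (by positivity)
  have hlog : Tendsto (fun Q : ℕ => Real.log (Q : ℝ)) atTop atTop :=
    Real.tendsto_log_atTop.comp tendsto_natCast_atTop_atTop
  obtain ⟨Q1, hQ1⟩ := eventually_atTop.1 (hC.and (hlog.eventually habs))
  obtain ⟨Q2, hQ2⟩ := exists_nat_ge (1 / A.θ)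
  have hex := (tendsto_id.const_mul_atTop' (show (0 : ℕ) < 2 by norm_num)).eventually
    (exists_Q (T := A.T) hT1 (max Q1 (max Q2 (2 * D + 2))))
  filter_upwards [hlow, hex, eventually_ge_atTop 1] with k hk hkQ hk1 h hh
  rcases Nat.eq_zero_or_pos h with h0 | hh1
  · have hkpos : (0 : ℝ) < k := by exact_mod_cast hk1
    have hPpos : 0 < p k := lt_of_lt_of_le (Real.rpow_pos_of_pos hkpos _) hk
    rw [h0, add_zero, div_self hPpos.ne', sub_self, abs_zero]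
    exact hκ.le
  · obtain ⟨Q, hQm, hQ2', hkQ1, hkQ2⟩ := hkQ
    have hQa : Q1 ≤ Q := le_trans (le_max_left _ _) hQm
    have hQb : Q2 ≤ Q := le_trans (le_trans (le_max_left _ _) (le_max_right _ _)) hQm
    have hQc : 2 * D + 2 ≤ Q := le_trans (le_trans (le_max_right _ _) (le_max_right _ _)) hQm
    obtain ⟨hCQ, habsQ⟩ := hQ1 Q hQa
    exact one_k A hC0 hD hk1 hk hh hh1 hQ2' (hQ2.trans (by exact_mod_cast hQb)) hQc hkQ1 hkQ2 hCQ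
      habsQ

end Pool.Agent.Lib.MP_134bf7_pr.RL
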