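import Pool.Agent.Lib.MP_134bf7_pr.RL.Zb

/-!
# RL-Av: the resampling averages

Let `N a = ∑ x ∈ J, a x`.
* `good_rmv`: for `1 ≤ a x`: `Good m a ↔ MM m m x (rmv a x)`: let `c ≤ a`, `len c = m`.  If `c x < a x` then
  `c ≤ rmv a x`.  If `c x = a x ≥ 1` then `rmv c x ≤ rmv a x` and `len (rmv c x) = m - (x + 1)`,
  `x + 1 ≤ m`.  Conversely `c ≤ rmv a x ≤ a`, resp. `ad c x ≤ a` with `len (ad c x) = len c + (x + 1)`.
* `av_le_one`: the weights `a x / N a` sum to at most `1` and `ind ≤ 1`.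
* `av_none`: if neither `Good k1 a` nor `Good k2 a` then every term is `0` (terms with `a x = 0` vanish;
  for `a x ≥ 1` `Good k1 (rmv a x)` gives `Good k1 a`, and `Good (k2 - (x + 1)) (rmv a x)` with
  `x + 1 ≤ k2` gives `Good k2 a`).
* `av_self`: for `N a ≥ 1`, `av J m m a = ∑_{x ∈ J} a x / N a * ind (Good m a) = ind (Good m a)` by `good_rmv`
  (terms with `a x = 0` vanish).
* `Ex_av`: `Ex_sum`, `Ex_mecke` for each `x`: `a x / N a * ind (MM k1 k2 x (rmv a x))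
  = a x * F a`, `F a = (N a)⁻¹ * ind (MM k1 k2 x (rmv a x))`, and `F (ad a x) = (N a + 1)⁻¹ * ind (MM k1 k2 x a)`
  since `rmv (ad a x) x = a` and `N (ad a x) = N a + 1` for `x ∈ J`.
-/

namespace Pool.Agent.Lib.MP_134bf7_pr.RL

open Finset
open scoped ENNReal NNReal

variable {K : ℕ}

private theorem rmv_le (a : Fin K → ℕ) (x i : Fin K) : rmv a x i ≤ a i := by
  unfold rmv
  split_ifs <;> omega

private theorem rmv_ad (a : Fin K → ℕ) (x : Fin K) : rmv (ad a x) x = a := by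
  funext i
  unfold rmv ad
  split_ifs <;> simp

private theorem ad_rmv {a : Fin K → ℕ} {x : Fin K} (hx : 1 ≤ a x) : ad (rmv a x) x = a := by
  funext i
  unfold rmv ad
  by_cases h : i = x
  · subst h
    simp only [if_true]
    omega
  · simp only [if_neg h]

private theorem sum_ad {J : Finset (Fin K)} {x : Fin K} (hx : x ∈ J) (a : Fin K → ℕ)
    (w : Fin K → ℕ) : ∑ i ∈ J, w i * ad a x i = ∑ i ∈ J, w i * a i + w x := by
  have h1 : ∀ i ∈ J, w i * ad a x i = w i * a i + (if i = x then w i else 0) := by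
    intro i _
    unfold ad
    split_ifs
    · ring
    · ring
  rw [Finset.sum_congr rfl h1, Finset.sum_add_distrib, Finset.sum_ite_eq' J x w, if_pos hx]

private theorem len_ad (a : Fin K → ℕ) (x : Fin K) : len (ad a x) = len a + ((x : ℕ) + 1) := by
  unfold len
  exact sum_ad (Finset.mem_univ x) a fun i => (i : ℕ) + 1

private theorem N_ad {J : Finset (Fin K)} {x : Fin K} (hx : x ∈ J) (a : Fin K → ℕ) :
    ∑ i ∈ J, ad a x i = ∑ i ∈ J, a i + 1 := by
  have h := sum_ad hx a fun _ => 1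
  simpa using h

private theorem good_mono {m : ℕ} {a b : Fin K → ℕ} (h : ∀ i, a i ≤ b i) (hg : Good m a) :
    Good m b := by
  obtain ⟨c, hc, hm⟩ := hg
  exact ⟨c, fun i => (hc i).trans (h i), hm⟩

private theorem good_add {m : ℕ} {a : Fin K → ℕ} {x : Fin K} (hx : 1 ≤ a x)
    (hm : (x : ℕ) + 1 ≤ m) (hg : Good (m - ((x : ℕ) + 1)) (rmv a x)) : Good m a := by
  obtain ⟨c, hc, hl⟩ := hg
  refine ⟨ad c x, fun i => ?_, ?_⟩
  · have h1 := hc i
    have h2 := congrFun (ad_rmv hx) i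
    rw [← h2]
    unfold ad
    split_ifs <;> omega
  · rw [len_ad, hl]
    omega

theorem good_rmv {a : Fin K → ℕ} {x : Fin K} (hx : 1 ≤ a x) (m : ℕ) :
    Good m a ↔ MM m m x (rmv a x) := by
  constructor
  · rintro ⟨c, hc, hm⟩
    by_cases h : c x < a x
    · refine Or.inl ⟨c, fun i => ?_, hm⟩
      unfold rmv
      split_ifs with hi
      · rw [hi]
        omega
      · exact hc i
    · have h1 : 1 ≤ c x := by omega
      have h2 := len_ad (rmv c x) x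
      rw [ad_rmv h1] at h2
      refine Or.inr ⟨by omega, rmv c x, fun i => ?_, by omega⟩
      have h3 := hc i
      unfold rmv
      split_ifs <;> omega
  · rintro (h | ⟨hm, h⟩)
    · exact good_mono (rmv_le a x) h
    · exact good_add hx hm h

private theorem sum_w_le (J : Finset (Fin K)) (a : Fin K → ℕ) :
    ∑ x ∈ J, (a x : ℝ≥0∞) / ((∑ x ∈ J, a x : ℕ) : ℝ≥0∞) ≤ 1 := by
  simp only [div_eq_mul_inv]
  rw [← Finset.sum_mul, Nat.cast_sum]
  exact ENNReal.mul_inv_le_one _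

private theorem sum_w_eq {J : Finset (Fin K)} {a : Fin K → ℕ} (h : 1 ≤ ∑ x ∈ J, a x) :
    ∑ x ∈ J, (a x : ℝ≥0∞) / ((∑ x ∈ J, a x : ℕ) : ℝ≥0∞) = 1 := by
  simp only [div_eq_mul_inv]
  rw [← Finset.sum_mul, ← Nat.cast_sum]
  refine ENNReal.mul_inv_cancel ?_ (ENNReal.natCast_ne_top _)
  exact Nat.cast_ne_zero.2 (by omega)

theorem av_le_one (J : Finset (Fin K)) (k1 k2 : ℕ) (a : Fin K → ℕ) : av J k1 k2 a ≤ 1 := by
  refine le_trans ?_ (sum_w_le J a)
  unfold av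
  refine Finset.sum_le_sum fun x _ => ?_
  calc (a x : ℝ≥0∞) / ((∑ x ∈ J, a x : ℕ) : ℝ≥0∞) * ind (MM k1 k2 x (rmv a x))
      ≤ (a x : ℝ≥0∞) / ((∑ x ∈ J, a x : ℕ) : ℝ≥0∞) * 1 := by
        gcongr
        exact ind_le_one _
    _ = _ := mul_one _

theorem av_none (J : Finset (Fin K)) {k1 k2 : ℕ} {a : Fin K → ℕ} (h1 : ¬ Good k1 a)
    (h2 : ¬ Good k2 a) : av J k1 k2 a = 0 := by
  unfold av
  refine Finset.sum_eq_zero fun x _ => ?_
  by_cases hx : 1 ≤ a x
  · have h : ¬ MM k1 k2 x (rmv a x) := by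
      rintro (h | ⟨hm, h⟩)
      · exact h1 (good_mono (rmv_le a x) h)
      · exact h2 (good_add hx hm h)
    rw [ind_false h, mul_zero]
  · have h : a x = 0 := by omega
    rw [h, Nat.cast_zero, ENNReal.zero_div, zero_mul]

private theorem av_self' (J : Finset (Fin K)) (m : ℕ) (a : Fin K → ℕ) :
    av J m m a = (∑ x ∈ J, (a x : ℝ≥0∞) / ((∑ x ∈ J, a x : ℕ) : ℝ≥0∞)) * ind (Good m a) := by
  unfold av
  rw [Finset.sum_mul]
  refine Finset.sum_congr rfl fun x _ => ?_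
  by_cases hx : 1 ≤ a x
  · rw [propext (good_rmv hx m)]
  · have h : a x = 0 := by omega
    rw [h, Nat.cast_zero, ENNReal.zero_div, zero_mul, zero_mul]

theorem av_self (J : Finset (Fin K)) {m : ℕ} {a : Fin K → ℕ} (h : 1 ≤ ∑ x ∈ J, a x) :
    av J m m a = ind (Good m a) := by
  rw [av_self', sum_w_eq h, one_mul]

theorem Ex_av_self_le (J : Finset (Fin K)) (m : ℕ) : Ex K (av J m m) ≤ PG K m := by
  unfold PG
  refine Ex_mono K fun a => ?_
  rw [av_self']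
  calc (∑ x ∈ J, (a x : ℝ≥0∞) / ((∑ x ∈ J, a x : ℕ) : ℝ≥0∞)) * ind (Good m a)
      ≤ 1 * ind (Good m a) := by
        gcongr
        exact sum_w_le J a
    _ = _ := one_mul _

theorem PG_le_Ex_av (J : Finset (Fin K)) (m : ℕ) :
    PG K m ≤ Ex K (av J m m) + Ex K (fun a => ind (Good m a ∧ ∑ x ∈ J, a x = 0)) := by
  unfold PG
  rw [← Ex_add]
  refine Ex_mono K fun a => ?_
  by_cases h : ∑ x ∈ J, a x = 0
  · refine le_trans ?_ le_add_self
    exact ind_mono fun hg => ⟨hg, h⟩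
  · rw [av_self J (by omega)]
    exact le_self_add

theorem Ex_av (J : Finset (Fin K)) (k1 k2 : ℕ) :
    Ex K (av J k1 k2) = ∑ x ∈ J, (mu K x : ℝ≥0∞) *
      Ex K (fun a => (((∑ x ∈ J, a x : ℕ) : ℝ≥0∞) + 1)⁻¹ * ind (MM k1 k2 x a)) := by
  have h0 : Ex K (av J k1 k2) = Ex K (fun a => ∑ x ∈ J, (a x : ℝ≥0∞) *
      ((((∑ y ∈ J, a y : ℕ) : ℝ≥0∞))⁻¹ * ind (MM k1 k2 x (rmv a x)))) := by
    congr 1
    funext a
    unfold av
    refine Finset.sum_congr rfl fun x _ => ?_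
    rw [div_eq_mul_inv, mul_assoc]
  rw [h0, Ex_sum K J (fun x a => (a x : ℝ≥0∞) *
      ((((∑ y ∈ J, a y : ℕ) : ℝ≥0∞))⁻¹ * ind (MM k1 k2 x (rmv a x))))]
  refine Finset.sum_congr rfl fun x hx => ?_
  rw [Ex_mecke K x (fun a => (((∑ y ∈ J, a y : ℕ) : ℝ≥0∞))⁻¹ * ind (MM k1 k2 x (rmv a x)))]
  congr 2
  funext a
  rw [rmv_ad, N_ad hx, Nat.cast_add, Nat.cast_one]

end Pool.Agent.Lib.MP_134bf7_pr.RL
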