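import Pool.Agent.Lib.MP_134bf7_pr.RL.ME
import Pool.Agent.Lib.MP_134bf7_pr.RL.Ha
import Pool.Agent.Lib.MP_134bf7_pr.RL.Ad

/-!
# RL-Be1: the labelled bad event with given supports

Write `K = Q ^ T`, `lam = log Q`, `d i = dm (σ i)`, `V i = spn (σ i)`, `s = δ / 8`, `c' = δ ^ 2 / 16`,
`J i = 1` if `i ∈ b` and `0` otherwise.  If the event is empty the left side is `0`.  Otherwise take a `β` in
it: (1) `σ T ⊆ σ i` for `1 ≤ i ≤ T` (as `σ i = sup Q β i`); (2) for every `l` there is `q ∈ σ T` with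
`q l = true`: otherwise all elements of `cut l β` have `bl ≤ T - 1`, so `x + 1 ≤ Q ^ (T - 1)`
(`le_pow_bl`; `cut l β x = 0` for `bl Q x = T`; for `T = 1` there is none) and
`m l = len (cut l β) ≤ Q ^ (T - 1) * ∑ mg β ≤ Q ^ (T - 1) * T * (zz + η) * lam` (`sum_NB`, `Typ`),
contradicting `hm`; (3) for `Δ l l'` there are `x, q` with `β (x, q) ≥ 1`, `i < bl Q x` for all `i ∈ b`,
`q l ≠ q l'`, so `q ∈ σ i` for all `i ∈ b`.  So for `i ∈ b` `V i` satisfies the hypotheses of `Adm`: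
`4 * |XV (V i)| ≤ 3 * 2 ^ d i` or `∑ q ∈ XV (V i), g q ≤ 0`.

Weights `y i q = zz * 2 ^ (- d i) * exp (J i * s * (g q - δ)) ≤ 2` (`zz * exp (1 / 8) ≤ 2`), for `i > T` or
`i = 0` anything, e.g. the same formula.
On the event `1 ≤ mon y β * C0`, `C0 = ∏_{i = 1}^T 2 ^ (d i * (zz + η) * lam) * zz ^ (-(zz - η) * lam)` (real
powers): by `Typ`, `2 ^ (- d i * N i) ≥ 2 ^ (- d i * (zz + η) * lam)` and
`zz ^ (N i) ≥ zz ^ ((zz - η) * lam)` for `N i = NB (mg β) i = ∑_{bl x = i, q} β (x, q)`, and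
`exp (s * ∑_{bl x ∈ b, q} (g q - δ) * β (x, q)) ≥ 1` by the last condition in `BadP`.
So by `me` (with `Y = 2`) the left side is at most
`exp (- ∑_i hb i) * C0 * 2 ^ r * exp (- lam * ∑_{i ≥ 2} d i) * exp (∑_i hb i * S i)`,
`S i = ∑_{q ∈ XV (V i)} y i q` (`dm_le`: `d 1 ≤ r`).
`S i ≤ zz` for `i ∉ b` by `card_XV_le`.  For `i ∈ b`: `S i ≤ zz * (1 - c')`: in the first case
`S i ≤ zz * (3 / 4) * exp (1 / 8) ≤ zz * (1 - 1 / 16)`; in the second case
`2 ^ (- d) * ∑_{q ∈ XV} exp (s * g q) ≤ 2 ^ (- d) * ∑ (1 + s * g q + s ^ 2) ≤ 1 + s ^ 2`, times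
`exp (- s * δ)`: `(1 + s ^ 2) * exp (- s * δ) ≤ exp (s ^ 2 - s * δ) = exp (- 7 * δ ^ 2 / 64) ≤ 1 - δ ^ 2 / 16`.
So `hb i * (S i - 1) ≤ lam * (zz * (1 - c' * J i) - 1) + 1` as `|hb i - lam| ≤ 1`, `hb i ≥ 0`.
As `zz * log 2 = 1`, `C0 = exp (lam * (∑_i d i * (1 + η * log 2) - T * (zz - η) * log zz))`.
The total exponent is at most
`T + lam * (d 1 + η * log 2 * ∑ d i - T * (zz - η) * log zz + T * (zz - 1) - zz * c' * |b|)
 ≤ T + lam * (- al * T + r + η * (T * log zz + r * T * log 2) - zz * c' * |b|)`.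
-/

namespace Pool.Agent.Lib.MP_134bf7_pr.RL

open Finset
open scoped ENNReal NNReal

private theorem be1_zz_pos : 0 < zz := by
  have := zz_bounds.1
  linarith

private theorem be1_pow (d : ℕ) : Real.exp (d * Real.log 2) = 2 ^ d := by
  rw [Real.exp_nat_mul, Real.exp_log (by norm_num)]

/-- splitting the exponential of the weight -/
private theorem be1_split (d : ℕ) (t : ℝ) :
    Real.exp (Real.log zz - d * Real.log 2 + t) = zz / 2 ^ d * Real.exp t := by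
  rw [Real.exp_add, Real.exp_sub, Real.exp_log be1_zz_pos, be1_pow]

/-- the sum of the weights outside the marked blocks -/
private theorem be1_S0 {r : ℕ} (W : Finset (Pat r)) (d : ℕ) (hW : W.card ≤ 2 ^ d) :
    ∑ _q ∈ W, Real.exp (Real.log zz - d * Real.log 2 + 0) ≤ zz := by
  rw [Finset.sum_const, nsmul_eq_mul, be1_split, Real.exp_zero, mul_one]
  have h1 : (W.card : ℝ) ≤ 2 ^ d := by exact_mod_cast hW
  have h2 : (0 : ℝ) < 2 ^ d := by positivity
  have h3 := be1_zz_pos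
  rw [mul_div_assoc', div_le_iff₀ h2]
  nlinarith

/-- the sum of the weights in the marked blocks -/
private theorem be1_S1 {r : ℕ} (W : Finset (Pat r)) (d : ℕ) (hW : W.card ≤ 2 ^ d) {δ : ℝ}
    (hδ0 : 0 ≤ δ) (hδ1 : δ ≤ 1) {g : Pat r → ℝ} (hg : ∀ q, |g q| ≤ 1)
    (hc : 4 * W.card ≤ 3 * 2 ^ d ∨ ∑ q ∈ W, g q ≤ 0) :
    ∑ q ∈ W, Real.exp (Real.log zz - d * Real.log 2 + δ / 8 * (g q - δ)) ≤
      zz * (1 - δ ^ 2 / 16) := by
  have h1 : (W.card : ℝ) ≤ 2 ^ d := by exact_mod_cast hW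
  have h2 : (0 : ℝ) < 2 ^ d := by positivity
  have h3 := be1_zz_pos
  have hδ2 : δ ^ 2 ≤ 1 := by nlinarith
  have e1 : ∑ q ∈ W, Real.exp (Real.log zz - d * Real.log 2 + δ / 8 * (g q - δ)) =
      zz / 2 ^ d * ∑ q ∈ W, Real.exp (δ / 8 * (g q - δ)) := by
    rw [Finset.mul_sum]
    exact Finset.sum_congr rfl fun q _ => be1_split d _
  rw [e1]
  have key : ∑ q ∈ W, Real.exp (δ / 8 * (g q - δ)) ≤ 2 ^ d * (1 - δ ^ 2 / 16) := by
    rcases hc with hc | hc
    · have h4 : 4 * (W.card : ℝ) ≤ 3 * 2 ^ d := by exact_mod_cast hc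
      have h5 : ∀ q ∈ W, Real.exp (δ / 8 * (g q - δ)) ≤ 5 / 4 := by
        intro q _
        have h6 : δ / 8 * (g q - δ) ≤ 1 / 8 := by
          have := (abs_le.1 (hg q)).2
          nlinarith
        have h7 : Real.exp (1 / 8) ≤ 5 / 4 := by
          have := (abs_le.1 (Real.abs_exp_sub_one_sub_id_le (x := 1 / 8)
            (by rw [abs_of_pos (by norm_num)]; norm_num))).2
          norm_num at this ⊢
          linarith
        exact (Real.exp_le_exp.2 h6).trans h7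
      have h8 := Finset.sum_le_card_nsmul W _ _ h5
      rw [nsmul_eq_mul] at h8
      nlinarith
    · have hx : ∀ q, |δ / 8 * g q| ≤ 1 := by
        intro q
        rw [abs_mul, abs_of_nonneg (by linarith)]
        have := hg q
        have := abs_nonneg (g q)
        nlinarith
      have h5 : ∀ q ∈ W, Real.exp (δ / 8 * (g q - δ)) ≤
          Real.exp (-(δ / 8 * δ)) * (1 + δ / 8 * g q + (δ / 8) ^ 2) := by
        intro q _
        have e2 : δ / 8 * (g q - δ) = -(δ / 8 * δ) + δ / 8 * g q := by ring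
        rw [e2, Real.exp_add]
        apply mul_le_mul_of_nonneg_left _ (Real.exp_pos _).le
        have h6 := (abs_le.1 (Real.abs_exp_sub_one_sub_id_le (hx q))).2
        have h7 : (δ / 8 * g q) ^ 2 ≤ (δ / 8) ^ 2 := by
          rw [mul_pow]
          have : (g q) ^ 2 ≤ 1 := by
            have := hg q
            rw [← sq_abs]
            have := abs_nonneg (g q)
            nlinarith
          have h8 : 0 ≤ (δ / 8) ^ 2 := sq_nonneg _
          nlinarith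
        linarith
      have h6 := Finset.sum_le_sum h5
      have e3 : ∑ q ∈ W, Real.exp (-(δ / 8 * δ)) * (1 + δ / 8 * g q + (δ / 8) ^ 2) =
          Real.exp (-(δ / 8 * δ)) * (W.card * (1 + (δ / 8) ^ 2) + δ / 8 * ∑ q ∈ W, g q) := by
        rw [← Finset.mul_sum]
        congr 1
        rw [Finset.sum_add_distrib, Finset.sum_add_distrib, Finset.sum_const, Finset.sum_const,
          ← Finset.mul_sum, nsmul_eq_mul, nsmul_eq_mul]
        ring
      rw [e3] at h6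
      have h7 : W.card * (1 + (δ / 8) ^ 2) + δ / 8 * ∑ q ∈ W, g q ≤ 2 ^ d * (1 + (δ / 8) ^ 2) := by
        have a1 : δ / 8 * ∑ q ∈ W, g q ≤ 0 := mul_nonpos_of_nonneg_of_nonpos (by linarith) hc
        have a2 : (W.card : ℝ) * (1 + (δ / 8) ^ 2) ≤ 2 ^ d * (1 + (δ / 8) ^ 2) :=
          mul_le_mul_of_nonneg_right h1 (by positivity)
        linarith
      have h8 : Real.exp (-(δ / 8 * δ)) * (1 + (δ / 8) ^ 2) ≤ 1 - δ ^ 2 / 16 := by
        have b1 : 1 + (δ / 8) ^ 2 ≤ Real.exp ((δ / 8) ^ 2) := by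
          have := Real.add_one_le_exp ((δ / 8) ^ 2)
          linarith
        have b2 : Real.exp (-(δ / 8 * δ)) * (1 + (δ / 8) ^ 2) ≤
            Real.exp (-(δ / 8 * δ)) * Real.exp ((δ / 8) ^ 2) :=
          mul_le_mul_of_nonneg_left b1 (Real.exp_pos _).le
        rw [← Real.exp_add] at b2
        have e4 : -(δ / 8 * δ) + (δ / 8) ^ 2 = -(7 * δ ^ 2 / 64) := by ring
        rw [e4] at b2
        refine b2.trans ?_
        rw [Real.exp_neg]
        have b3 := Real.add_one_le_exp (7 * δ ^ 2 / 64)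
        have b4 : 0 < 7 * δ ^ 2 / 64 + 1 := by positivity
        refine (inv_anti₀ b4 b3).trans ?_
        rw [inv_le_iff_one_le_mul₀ b4]
        nlinarith [sq_nonneg δ, mul_nonneg (sq_nonneg δ) (sub_nonneg.2 hδ2)]
      calc ∑ q ∈ W, Real.exp (δ / 8 * (g q - δ))
          ≤ Real.exp (-(δ / 8 * δ)) * (W.card * (1 + (δ / 8) ^ 2) + δ / 8 * ∑ q ∈ W, g q) := h6
        _ ≤ Real.exp (-(δ / 8 * δ)) * (2 ^ d * (1 + (δ / 8) ^ 2)) :=
            mul_le_mul_of_nonneg_left h7 (Real.exp_pos _).le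
        _ = 2 ^ d * (Real.exp (-(δ / 8 * δ)) * (1 + (δ / 8) ^ 2)) := by ring
        _ ≤ 2 ^ d * (1 - δ ^ 2 / 16) := mul_le_mul_of_nonneg_left h8 h2.le
  have h9 : 0 < zz / 2 ^ d := by positivity
  calc zz / 2 ^ d * ∑ q ∈ W, Real.exp (δ / 8 * (g q - δ))
      ≤ zz / 2 ^ d * (2 ^ d * (1 - δ ^ 2 / 16)) := mul_le_mul_of_nonneg_left key h9.le
    _ = zz * (1 - δ ^ 2 / 16) := by field_simp

/-- a sum over the lengths, by fine blocks -/
private theorem be1_mass {Q T : ℕ} (hQ : 2 ≤ Q) (hT : 1 ≤ T) (a : Fin (Q ^ T) → ℕ) (f : ℕ → ℝ) :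
    ∑ x, (a x : ℝ) * f (bl Q x) = ∑ i ∈ Icc 1 T, (NB Q a i : ℝ) * f i := by
  have e1 : ∀ i, (NB Q a i : ℝ) * f i = ∑ x, if bl Q x = i then (a x : ℝ) * f i else 0 := by
    intro i
    unfold NB
    push_cast
    rw [Finset.sum_mul]
    refine Finset.sum_congr rfl fun x _ => ?_
    split_ifs with h
    · rfl
    · simp
  rw [Finset.sum_congr rfl fun i _ => e1 i, Finset.sum_comm]
  refine Finset.sum_congr rfl fun x _ => ?_
  rw [Finset.sum_ite_eq, if_pos (Finset.mem_Icc.2 ⟨one_le_bl Q x, bl_le hQ hT x⟩)]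

/-- supports decrease -/
private theorem be1_sup {Q K r : ℕ} (β : Fin K × Pat r → ℕ) {i j : ℕ} (h : i ≤ j) :
    sup Q β j ⊆ sup Q β i := by
  intro q hq
  unfold sup at hq ⊢
  rw [Finset.mem_filter] at hq ⊢
  obtain ⟨_, x, h1, h2⟩ := hq
  exact ⟨Finset.mem_univ _, x, h.trans h1, h2⟩

/-- every target is met in the last block -/
private theorem be1_last {Q T r : ℕ} (hQ : 2 ≤ Q) (hT : 1 ≤ T) {η : ℝ} {m : Fin r → ℕ}
    (hm : ∀ l, (T : ℝ) * (zz + η) * Real.log Q * (Q : ℝ) ^ (T - 1) < m l)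
    (β : Fin (Q ^ T) × Pat r → ℕ) (hTyp : Typ Q T η (mg β)) (hlen : ∀ l, len (cut l β) = m l)
    (l : Fin r) : ∃ q ∈ sup Q β T, q l = true := by
  by_contra hcon
  push Not at hcon
  have h1 : ∀ x : Fin (Q ^ T), ((x : ℕ) + 1) * cut l β x ≤ Q ^ (T - 1) * mg β x := by
    intro x
    by_cases hx : bl Q x = T
    · have h2 : cut l β x = 0 := by
        unfold cut
        refine Finset.sum_eq_zero fun q _ => ?_
        by_cases hq : q l = true
        · rw [if_pos hq]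
          by_contra h3
          exact hcon q (by
            unfold sup
            rw [Finset.mem_filter]
            exact ⟨Finset.mem_univ _, x, hx.ge, Nat.one_le_iff_ne_zero.2 h3⟩) hq
        · rw [if_neg hq]
      rw [h2]
      simp
    · have h3 : bl Q x ≤ T - 1 := by
        have := bl_le hQ hT x
        omega
      have h4 : (x : ℕ) + 1 ≤ Q ^ (T - 1) :=
        (le_pow_bl hQ x).trans (Nat.pow_le_pow_right (by omega) h3)
      have h5 : cut l β x ≤ mg β x := by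
        unfold cut mg
        refine Finset.sum_le_sum fun q _ => ?_
        split_ifs <;> omega
      exact Nat.mul_le_mul h4 h5
  have h2 : m l ≤ Q ^ (T - 1) * ∑ x, mg β x := by
    rw [← hlen l, Finset.mul_sum]
    unfold len
    exact Finset.sum_le_sum fun x _ => h1 x
  have h3 : (∑ x, (mg β x : ℝ)) ≤ T * ((zz + η) * Real.log Q) := by
    have h4 := sum_NB hQ hT (mg β)
    have h5 : (∑ x, (mg β x : ℝ)) = ∑ i ∈ Icc 1 T, (NB Q (mg β) i : ℝ) := by
      exact_mod_cast h4.symm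
    rw [h5]
    have h6 : ∀ i ∈ Icc 1 T, (NB Q (mg β) i : ℝ) ≤ (zz + η) * Real.log Q := by
      intro i hi
      have := (abs_le.1 (hTyp i hi)).2
      linarith
    have h7 := Finset.sum_le_card_nsmul _ _ _ h6
    rw [nsmul_eq_mul, Nat.card_Icc, Nat.add_sub_cancel] at h7
    exact h7
  have h4 : (m l : ℝ) ≤ (Q : ℝ) ^ (T - 1) * ∑ x, (mg β x : ℝ) := by exact_mod_cast h2
  have h5 : (Q : ℝ) ^ (T - 1) * ∑ x, (mg β x : ℝ) ≤
      (Q : ℝ) ^ (T - 1) * (T * ((zz + η) * Real.log Q)) :=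
    mul_le_mul_of_nonneg_left h3 (by positivity)
  have h6 := hm l
  have h7 : (Q : ℝ) ^ (T - 1) * (T * ((zz + η) * Real.log Q)) =
      (T : ℝ) * (zz + η) * Real.log Q * (Q : ℝ) ^ (T - 1) := by ring
  linarith

/-- the exponent of the weight -/
private noncomputable def be1_L {r : ℕ} (δ : ℝ) (b : Finset ℕ) (g : Pat r → ℝ)
    (σ : ℕ → Finset (Pat r)) (i : ℕ) (q : Pat r) : ℝ :=
  Real.log zz - dm (σ i) * Real.log 2 + if i ∈ b then δ / 8 * (g q - δ) else 0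

/-- lower bound of the monomial on the event -/
private theorem be1_mon {Q T r : ℕ} (hQ : 2 ≤ Q) (hT : 1 ≤ T) {η δ : ℝ} (hδ0 : 0 ≤ δ)
    {b : Finset ℕ} {g : Pat r → ℝ} (σ : ℕ → Finset (Pat r)) (β : Fin (Q ^ T) × Pat r → ℕ)
    (hTyp : Typ Q T η (mg β))
    (hst : δ * (NS Q (mg β) b : ℝ) ≤
      ∑ x : Fin (Q ^ T), if bl Q x ∈ b then ∑ q : Pat r, g q * β (x, q) else 0) :
    0 ≤ (∑ z : Fin (Q ^ T) × Pat r, (β z : ℝ) * be1_L δ b g σ (bl Q z.1) z.2) +
      ∑ i ∈ Icc 1 T, (dm (σ i) * Real.log 2 * ((zz + η) * Real.log Q) -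
        (zz - η) * Real.log Q * Real.log zz) := by
  have e1 : (∑ z : Fin (Q ^ T) × Pat r, (β z : ℝ) * be1_L δ b g σ (bl Q z.1) z.2) =
      (∑ x, (mg β x : ℝ) * (Real.log zz - dm (σ (bl Q x)) * Real.log 2)) +
      δ / 8 * ((∑ x : Fin (Q ^ T), if bl Q x ∈ b then ∑ q : Pat r, g q * β (x, q) else 0) -
        δ * (NS Q (mg β) b : ℝ)) := by
    rw [Fintype.sum_prod_type]
    have e2 : (NS Q (mg β) b : ℝ) = ∑ x : Fin (Q ^ T), if bl Q x ∈ b then (mg β x : ℝ) else 0 := by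
      unfold NS
      push_cast
      rfl
    rw [e2, Finset.mul_sum (a := δ), ← Finset.sum_sub_distrib, Finset.mul_sum,
      ← Finset.sum_add_distrib]
    refine Finset.sum_congr rfl fun x _ => ?_
    have e3 : (mg β x : ℝ) = ∑ q : Pat r, (β (x, q) : ℝ) := by
      unfold mg
      push_cast
      rfl
    unfold be1_L
    by_cases hx : bl Q x ∈ b
    · simp only [hx, if_true]
      rw [e3, Finset.sum_mul, Finset.mul_sum (a := δ), ← Finset.sum_sub_distrib,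
        Finset.mul_sum, ← Finset.sum_add_distrib]
      refine Finset.sum_congr rfl fun q _ => ?_
      ring
    · simp only [hx, if_false]
      rw [e3, Finset.sum_mul]
      simp
  rw [e1, be1_mass hQ hT (mg β) fun i => Real.log zz - dm (σ i) * Real.log 2]
  have h1 : 0 ≤ δ / 8 * ((∑ x : Fin (Q ^ T), if bl Q x ∈ b then ∑ q : Pat r, g q * β (x, q) else 0) -
      δ * (NS Q (mg β) b : ℝ)) := mul_nonneg (by linarith) (by linarith)
  have h2 : 0 ≤ (∑ i ∈ Icc 1 T, (NB Q (mg β) i : ℝ) * (Real.log zz - dm (σ i) * Real.log 2)) +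
      ∑ i ∈ Icc 1 T, (dm (σ i) * Real.log 2 * ((zz + η) * Real.log Q) -
        (zz - η) * Real.log Q * Real.log zz) := by
    rw [← Finset.sum_add_distrib]
    refine Finset.sum_nonneg fun i hi => ?_
    have h3 := abs_le.1 (hTyp i hi)
    have h4 : 0 < Real.log zz := by
      have := log_zz_bounds.1
      linarith
    have h5 : 0 ≤ (dm (σ i) : ℝ) * Real.log 2 :=
      mul_nonneg (Nat.cast_nonneg _) (Real.log_nonneg (by norm_num))
    have h6 : (zz - η) * Real.log Q * Real.log zz ≤ (NB Q (mg β) i : ℝ) * Real.log zz :=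
      mul_le_mul_of_nonneg_right (by linarith) h4.le
    have h7 : (NB Q (mg β) i : ℝ) * (dm (σ i) * Real.log 2) ≤
        ((zz + η) * Real.log Q) * (dm (σ i) * Real.log 2) :=
      mul_le_mul_of_nonneg_right (by linarith) h5
    have e5 : (NB Q (mg β) i : ℝ) * (Real.log zz - dm (σ i) * Real.log 2) =
        (NB Q (mg β) i : ℝ) * Real.log zz - (NB Q (mg β) i : ℝ) * (dm (σ i) * Real.log 2) := by
      ring
    rw [e5]
    linarith
  linarith

theorem be1 {Q T r : ℕ} (hQ : 2 ≤ Q) (hT : 1 ≤ T) {η δ : ℝ} (hη0 : 0 ≤ η) (hη1 : η ≤ 1)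
    (hδ0 : 0 ≤ δ) (hδ1 : δ ≤ 1) {b : Finset ℕ} (hb : b ⊆ Icc 1 T) {g : Pat r → ℝ}
    (hg : ∀ q, |g q| ≤ 1) {Δ : Fin r → Fin r → Prop} (hA : Adm Δ g) {m : Fin r → ℕ}
    (hm : ∀ l, (T : ℝ) * (zz + η) * Real.log Q * (Q : ℝ) ^ (T - 1) < m l)
    (σ : ℕ → Finset (Pat r)) :
    ExP (Q ^ T) r (fun β => ind (BadP Q T η δ b g Δ m β ∧ ∀ i, 1 ≤ i → sup Q β i = σ i)) ≤
    ENNReal.ofReal (2 ^ r * Real.exp T * Real.exp (Real.log Q * (-(al * T) + r +
      η * (T * Real.log zz + r * T * Real.log 2) - zz * (δ ^ 2 / 16) * b.card))) := by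
  by_cases hE : ∃ β : Fin (Q ^ T) × Pat r → ℕ,
      BadP Q T η δ b g Δ m β ∧ ∀ i, 1 ≤ i → sup Q β i = σ i
  swap
  · push Not at hE
    have e0 : (fun β : Fin (Q ^ T) × Pat r → ℕ =>
        ind (BadP Q T η δ b g Δ m β ∧ ∀ i, 1 ≤ i → sup Q β i = σ i)) = fun _ => 0 := by
      funext β
      apply ind_false
      rintro ⟨h1, h2⟩
      obtain ⟨i, hi, h3⟩ := hE β h1
      exact h3 (h2 i hi)
    rw [e0]
    unfold ExP Z
    simp
  obtain ⟨β0, ⟨hTyp0, hlen0, hΔ0, -⟩, hsup0⟩ := hE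
  have hlQ : 0 ≤ Real.log Q := Real.log_nonneg (by exact_mod_cast (by omega : 1 ≤ Q))
  have hl2 : 0 < Real.log 2 := Real.log_pos (by norm_num)
  have hzz := be1_zz_pos
  have hzb := zz_bounds
  have hlz := log_zz_bounds
  -- the two conditions on the spans
  have hP1 : ∀ i ∈ Icc 1 T, ∀ l, ∃ v ∈ spn (σ i), v l ≠ 0 := by
    intro i hi l
    rw [Finset.mem_Icc] at hi
    obtain ⟨q, hq, hql⟩ := be1_last hQ hT hm β0 hTyp0 hlen0 l
    have hq' : q ∈ σ i := by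
      rw [← hsup0 i hi.1]
      exact be1_sup β0 hi.2 hq
    refine ⟨vec q, Submodule.subset_span ⟨q, hq', rfl⟩, ?_⟩
    unfold vec
    rw [if_pos hql]
    norm_num
  have hP2 : ∀ i ∈ b, ∀ l l', Δ l l' → ∃ v ∈ spn (σ i), v l ≠ v l' := by
    intro i hi l l' hll
    obtain ⟨x, q, h1, h2, h3⟩ := hΔ0 l l' hll
    have hi1 := Finset.mem_Icc.1 (hb hi)
    have hq' : q ∈ σ i := by
      rw [← hsup0 i hi1.1]
      unfold sup
      rw [Finset.mem_filter]
      exact ⟨Finset.mem_univ _, x, (h1 i hi).le, h2⟩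
    refine ⟨vec q, Submodule.subset_span ⟨q, hq', rfl⟩, ?_⟩
    unfold vec
    cases ha : q l <;> cases hb2 : q l' <;> simp [ha, hb2] at h3 ⊢
  -- the weights
  obtain ⟨y, hy⟩ : ∃ y : ℕ → Pat r → ℝ≥0, y = fun i q => (Real.exp (be1_L δ b g σ i q)).toNNReal :=
    ⟨_, rfl⟩
  have hyr : ∀ i q, (y i q : ℝ) = Real.exp (be1_L δ b g σ i q) := by
    intro i q
    rw [hy]
    exact Real.coe_toNNReal _ (Real.exp_pos _).le
  have hy2 : ∀ i q, y i q ≤ 2 := by
    intro i q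
    rw [← NNReal.coe_le_coe, hyr]
    have h1 : be1_L δ b g σ i q ≤ Real.log 2 := by
      unfold be1_L
      have h2 : 0 ≤ (dm (σ i) : ℝ) * Real.log 2 := mul_nonneg (Nat.cast_nonneg _) hl2.le
      have h3 := Real.log_two_gt_d9
      split_ifs
      · have := (abs_le.1 (hg q)).2
        have h4 : δ / 8 * (g q - δ) ≤ 1 / 8 := by nlinarith
        linarith
      · linarith
    calc Real.exp (be1_L δ b g σ i q) ≤ Real.exp (Real.log 2) := Real.exp_le_exp.2 h1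
      _ = ((2 : ℝ≥0) : ℝ) := by rw [Real.exp_log (by norm_num)]; rfl
  obtain ⟨E0, hE0⟩ : ∃ E0 : ℝ, E0 = ∑ i ∈ Icc 1 T, (dm (σ i) * Real.log 2 *
      ((zz + η) * Real.log Q) - (zz - η) * Real.log Q * Real.log zz) := ⟨_, rfl⟩
  -- pointwise bound
  have hpt : ∀ β : Fin (Q ^ T) × Pat r → ℕ,
      ind (BadP Q T η δ b g Δ m β ∧ ∀ i, 1 ≤ i → sup Q β i = σ i) ≤
      ENNReal.ofReal (Real.exp E0) *
        (ind ((∀ i, 1 ≤ i → sup Q β i = σ i) ∧ ∀ l, len (cut l β) = m l) *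
          mon (fun z : Fin (Q ^ T) × Pat r => y (bl Q z.1) z.2) β) := by
    intro β
    by_cases h : BadP Q T η δ b g Δ m β ∧ ∀ i, 1 ≤ i → sup Q β i = σ i
    swap
    · rw [ind_false h]
      exact bot_le
    · rw [ind_true h]
      obtain ⟨⟨h1, h2, h3, h4⟩, h5⟩ := h
      rw [ind_true ⟨h5, h2⟩, one_mul]
      have h6 := be1_mon hQ hT hδ0 σ β h1 h4
      rw [← hE0] at h6
      unfold mon ENNReal.ofReal
      rw [← ENNReal.coe_mul, ← ENNReal.coe_one, ENNReal.coe_le_coe, ← NNReal.coe_le_coe]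
      push_cast
      rw [Real.coe_toNNReal _ (Real.exp_pos _).le]
      have e6 : ∏ z : Fin (Q ^ T) × Pat r, (y (bl Q z.1) z.2 : ℝ) ^ β z =
          Real.exp (∑ z : Fin (Q ^ T) × Pat r, (β z : ℝ) * be1_L δ b g σ (bl Q z.1) z.2) := by
        rw [Real.exp_sum]
        refine Finset.prod_congr rfl fun z _ => ?_
        rw [hyr, Real.exp_nat_mul]
      rw [e6, ← Real.exp_add]
      apply Real.one_le_exp
      linarith
  -- the sums of the weights
  obtain ⟨S, hS⟩ : ∃ S : ℕ → ℝ, S = fun i => ∑ q ∈ XV (spn (σ i)), (y i q : ℝ) := ⟨_, rfl⟩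
  have hSi : ∀ i, S i = ∑ q ∈ XV (spn (σ i)), (y i q : ℝ) := fun i => by rw [hS]
  have hSle : ∀ i ∈ Icc 1 T, S i ≤ zz * (1 - δ ^ 2 / 16 * if i ∈ b then 1 else 0) := by
    intro i hi
    rw [hSi]
    have hcard := card_XV_le (spn (σ i))
    by_cases hib : i ∈ b
    · rw [if_pos hib, mul_one]
      have h1 := be1_S1 (XV (spn (σ i))) (dm (σ i)) hcard hδ0 hδ1 hg
        (hA (spn (σ i)) (hP1 i hi) (hP2 i hib))
      refine le_trans (le_of_eq ?_) h1
      refine Finset.sum_congr rfl fun q _ => ?_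
      rw [hyr]
      unfold be1_L
      rw [if_pos hib]
    · rw [if_neg hib, mul_zero, sub_zero, mul_one]
      have h1 := be1_S0 (XV (spn (σ i))) (dm (σ i)) hcard
      refine le_trans (le_of_eq ?_) h1
      refine Finset.sum_congr rfl fun q _ => ?_
      rw [hyr]
      unfold be1_L
      rw [if_neg hib]
  have hterm : ∀ i ∈ Icc 1 T, RL.hb Q (Q ^ T) i * (S i - 1) ≤
      Real.log Q * (zz * (1 - δ ^ 2 / 16 * if i ∈ b then 1 else 0) - 1) + 1 := by
    intro i hi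
    have h1 := hb_nonneg Q (Q ^ T) i
    have h2 := abs_le.1 (hb_bounds hQ hi)
    have h3 := hSle i hi
    have hδ2 : δ ^ 2 ≤ 1 := by nlinarith
    have hδ2' : 0 ≤ δ ^ 2 := sq_nonneg _
    obtain ⟨w, hw⟩ : ∃ w : ℝ, w = zz * (1 - δ ^ 2 / 16 * if i ∈ b then 1 else 0) - 1 := ⟨_, rfl⟩
    have hw0 : 0 ≤ w ∧ w ≤ 1 := by
      rw [hw]
      split_ifs
      · constructor
        · nlinarith
        · nlinarith
      · constructor <;> linarith
    rw [← hw] 
    have h4 : S i - 1 ≤ w := by rw [hw]; linarith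
    have h5 : RL.hb Q (Q ^ T) i * (S i - 1) ≤ RL.hb Q (Q ^ T) i * w := mul_le_mul_of_nonneg_left h4 h1
    have h6 : RL.hb Q (Q ^ T) i * w ≤ (Real.log Q + 1) * w :=
      mul_le_mul_of_nonneg_right (by linarith) hw0.1
    linarith [hw0.2]
  have hbcard : ∑ i ∈ Icc 1 T, (if i ∈ b then (1 : ℝ) else 0) = b.card := by
    rw [Finset.sum_ite_mem, Finset.inter_eq_right.2 hb, Finset.sum_const, nsmul_eq_mul, mul_one]
  have hsumterm : (∑ i ∈ Icc 1 T, RL.hb Q (Q ^ T) i * S i) - HH (Q ^ T) ≤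
      Real.log Q * (T * (zz - 1) - zz * (δ ^ 2 / 16) * b.card) + T := by
    rw [HH_eq hQ hT, ← Finset.sum_sub_distrib]
    have h1 : ∀ i ∈ Icc 1 T, RL.hb Q (Q ^ T) i * S i - RL.hb Q (Q ^ T) i ≤
        Real.log Q * (zz * (1 - δ ^ 2 / 16 * if i ∈ b then 1 else 0) - 1) + 1 := by
      intro i hi
      have := hterm i hi
      linarith
    refine (Finset.sum_le_sum h1).trans (le_of_eq ?_)
    rw [Finset.sum_add_distrib, ← Finset.mul_sum, Finset.sum_sub_distrib, ← Finset.mul_sum,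
      Finset.sum_sub_distrib, ← Finset.mul_sum, hbcard, Finset.sum_const, nsmul_eq_mul,
      Nat.card_Icc, Nat.add_sub_cancel]
    ring
  -- the dimensions
  have hd1 : (dm (σ 1) : ℝ) ≤ r := by exact_mod_cast dm_le (σ 1)
  have hds : ∑ i ∈ Icc 1 T, (dm (σ i) : ℝ) ≤ r * T := by
    have h1 : ∀ i ∈ Icc 1 T, (dm (σ i) : ℝ) ≤ r := fun i _ => by exact_mod_cast dm_le (σ i)
    have h2 := Finset.sum_le_card_nsmul _ _ _ h1
    rw [nsmul_eq_mul, Nat.card_Icc, Nat.add_sub_cancel] at h2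
    linarith
  have hdsplit : ∑ i ∈ Icc 1 T, (dm (σ i) : ℝ) = dm (σ 1) + ∑ i ∈ Icc 2 T, (dm (σ i) : ℝ) := by
    rw [← Finset.add_sum_Ioc_eq_sum_Icc (f := fun i => (dm (σ i) : ℝ)) hT]
    rfl
  have hE0' : E0 = Real.log Q * (∑ i ∈ Icc 1 T, (dm (σ i) : ℝ) +
      η * Real.log 2 * ∑ i ∈ Icc 1 T, (dm (σ i) : ℝ) - T * ((zz - η) * Real.log zz)) := by
    rw [hE0, Finset.sum_sub_distrib, Finset.sum_const, nsmul_eq_mul, Nat.card_Icc,
      Nat.add_sub_cancel]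
    have e7 : ∑ i ∈ Icc 1 T, (dm (σ i) * Real.log 2 * ((zz + η) * Real.log Q)) =
        (∑ i ∈ Icc 1 T, (dm (σ i) : ℝ)) * (Real.log 2 * ((zz + η) * Real.log Q)) := by
      rw [Finset.sum_mul]
      refine Finset.sum_congr rfl fun i _ => ?_
      ring
    rw [e7]
    have e8 : Real.log 2 * ((zz + η) * Real.log Q) = (zz * Real.log 2 + η * Real.log 2) * Real.log Q := by
      ring
    rw [e8, zz_log2]
    ring
  -- assembly
  have hmain := me hQ hT σ m y 2 hy2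
  have h1 : ExP (Q ^ T) r (fun β => ind (BadP Q T η δ b g Δ m β ∧ ∀ i, 1 ≤ i → sup Q β i = σ i)) ≤
      ENNReal.ofReal (Real.exp (-(HH (Q ^ T)))) * (ENNReal.ofReal (Real.exp E0) *
        ENNReal.ofReal (((2 : ℝ≥0) : ℝ) ^ dm (σ 1) *
          Real.exp (-(Real.log Q * ∑ i ∈ Icc 2 T, (dm (σ i) : ℝ))) *
          Real.exp (∑ i ∈ Icc 1 T, RL.hb Q (Q ^ T) i * ∑ q ∈ XV (spn (σ i)), (y i q : ℝ)))) := by
    unfold ExP
    refine mul_le_mul_right (le_trans (Z_mono _ hpt) ?_) _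
    rw [Z_const_mul]
    exact mul_le_mul_right hmain _
  refine h1.trans ?_
  rw [← ENNReal.ofReal_mul (Real.exp_pos _).le, ← ENNReal.ofReal_mul (Real.exp_pos _).le]
  apply ENNReal.ofReal_le_ofReal
  have e9 : ∑ i ∈ Icc 1 T, RL.hb Q (Q ^ T) i * ∑ q ∈ XV (spn (σ i)), (y i q : ℝ) =
      ∑ i ∈ Icc 1 T, RL.hb Q (Q ^ T) i * S i := by
    refine Finset.sum_congr rfl fun i _ => ?_
    rw [hSi]
  rw [e9]
  have e10 : Real.exp (-(HH (Q ^ T))) * (Real.exp E0 * (((2 : ℝ≥0) : ℝ) ^ dm (σ 1) *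
      Real.exp (-(Real.log Q * ∑ i ∈ Icc 2 T, (dm (σ i) : ℝ))) *
      Real.exp (∑ i ∈ Icc 1 T, RL.hb Q (Q ^ T) i * S i))) =
      2 ^ dm (σ 1) * Real.exp (-(HH (Q ^ T)) + E0 -
        Real.log Q * ∑ i ∈ Icc 2 T, (dm (σ i) : ℝ) + ∑ i ∈ Icc 1 T, RL.hb Q (Q ^ T) i * S i) := by
    have e11 : -(HH (Q ^ T)) + E0 - Real.log Q * ∑ i ∈ Icc 2 T, (dm (σ i) : ℝ) +
        ∑ i ∈ Icc 1 T, RL.hb Q (Q ^ T) i * S i =
        -(HH (Q ^ T)) + (E0 + (-(Real.log Q * ∑ i ∈ Icc 2 T, (dm (σ i) : ℝ)) +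
        ∑ i ∈ Icc 1 T, RL.hb Q (Q ^ T) i * S i)) := by ring
    rw [e11, Real.exp_add, Real.exp_add, Real.exp_add]
    push_cast
    ring
  rw [e10, mul_assoc, ← Real.exp_add]
  apply mul_le_mul
  · exact pow_le_pow_right₀ (by norm_num) (dm_le (σ 1))
  · apply Real.exp_le_exp.2
    rw [hE0']
    have h2 : Real.log Q * (∑ i ∈ Icc 1 T, (dm (σ i) : ℝ) +
        η * Real.log 2 * ∑ i ∈ Icc 1 T, (dm (σ i) : ℝ) - T * ((zz - η) * Real.log zz)) -
        Real.log Q * ∑ i ∈ Icc 2 T, (dm (σ i) : ℝ) ≤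
        Real.log Q * (r + η * Real.log 2 * (r * T) - T * ((zz - η) * Real.log zz)) := by
      rw [← mul_sub]
      apply mul_le_mul_of_nonneg_left _ hlQ
      have h3 : η * Real.log 2 * ∑ i ∈ Icc 1 T, (dm (σ i) : ℝ) ≤ η * Real.log 2 * (r * T) :=
        mul_le_mul_of_nonneg_left hds (mul_nonneg hη0 hl2.le)
      linarith [hdsplit]
    have h4 : Real.log Q * (r + η * Real.log 2 * (r * T) - T * ((zz - η) * Real.log zz)) +
        Real.log Q * (T * (zz - 1) - zz * (δ ^ 2 / 16) * b.card) =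
        Real.log Q * (-(al * T) + r + η * (T * Real.log zz + r * T * Real.log 2) -
          zz * (δ ^ 2 / 16) * b.card) := by
      rw [al_eq]
      ring
    linarith
  · exact (Real.exp_pos _).le
  · positivity

end Pool.Agent.Lib.MP_134bf7_pr.RL
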