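import Pool.Agent.Lib.MP_134bf7_pr.RL.Defs

/-!
# RL-BkA: fine blocks

`bl Q x = max 1 (Nat.clog Q (x + 1))`; `Nat.clog Q n ≤ e ↔ n ≤ Q ^ e` (`Nat.clog_le_iff_le_pow`,
`Nat.lt_pow_iff…`, `Nat.le_pow_clog`, `Nat.pow_pred_clog_lt_self` for `Q ≥ 2`).
* `sum_NB`, `HH_eq`: every `x : Fin (Q ^ T)` is in exactly one of the blocks `1, …, T`.
* `NS_eq`: exchange the two sums.
* `mem_cb`: by `lt_bl_iff` and its negation, `u ≥ 1`.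
-/

namespace Pool.Agent.Lib.MP_134bf7_pr.RL

open Finset
open scoped ENNReal NNReal

theorem one_le_bl {K : ℕ} (Q : ℕ) (x : Fin K) : 1 ≤ bl Q x := le_max_left _ _

theorem bl_le {Q T : ℕ} (hQ : 2 ≤ Q) (hT : 1 ≤ T) (x : Fin (Q ^ T)) : bl Q x ≤ T := by
  unfold bl
  apply max_le hT
  rw [Nat.clog_le_iff_le_pow (by omega)]
  exact x.2

theorem le_pow_bl {K Q : ℕ} (hQ : 2 ≤ Q) (x : Fin K) : (x : ℕ) + 1 ≤ Q ^ bl Q x := by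
  rw [← Nat.clog_le_iff_le_pow (by omega)]
  exact le_max_right _ _

theorem pow_bl_le {K Q : ℕ} (hQ : 2 ≤ Q) (x : Fin K) : Q ^ (bl Q x - 1) ≤ (x : ℕ) + 1 := by
  by_cases h : 1 < bl Q x
  · have h1 : bl Q x - 1 < Nat.clog Q ((x : ℕ) + 1) := by
      have h2 : bl Q x = max 1 (Nat.clog Q ((x : ℕ) + 1)) := rfl
      omega
    exact (Nat.pow_lt_of_lt_clog h1).le
  · have h1 : bl Q x - 1 = 0 := by omega
    rw [h1, pow_zero]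
    omega

theorem lt_bl_iff {K Q v : ℕ} (hQ : 2 ≤ Q) (hv : 1 ≤ v) (x : Fin K) :
    v < bl Q x ↔ Q ^ v < (x : ℕ) + 1 := by
  rw [← Nat.lt_clog_iff_pow_lt (by omega)]
  unfold bl
  omega

theorem mu_le {K Q : ℕ} (hQ : 2 ≤ Q) (x : Fin K) : mu K x ≤ ((Q : ℝ≥0) ^ (bl Q x - 1))⁻¹ := by
  unfold mu
  rw [one_div]
  have h1 : (Q : ℝ≥0) ^ (bl Q x - 1) ≤ ((x : ℕ) : ℝ≥0) + 1 := by
    have := pow_bl_le hQ x
    exact_mod_cast this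
  have h2 : (0 : ℝ≥0) < (Q : ℝ≥0) ^ (bl Q x - 1) := by
    apply pow_pos
    have : 0 < Q := by omega
    exact_mod_cast this
  exact inv_anti₀ h2 h1

private theorem sum_ite_bl {M : Type*} [AddCommMonoid M] {K : ℕ} (Q : ℕ) (f : Fin K → M)
    (b : Finset ℕ) :
    ∑ i ∈ b, (∑ x : Fin K, if bl Q x = i then f x else 0) =
      ∑ x : Fin K, if bl Q x ∈ b then f x else 0 := by
  rw [Finset.sum_comm]
  apply Finset.sum_congr rfl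
  intro x _
  rw [Finset.sum_ite_eq]

theorem sum_NB {Q T : ℕ} (hQ : 2 ≤ Q) (hT : 1 ≤ T) (a : Fin (Q ^ T) → ℕ) :
    ∑ i ∈ Icc 1 T, NB Q a i = ∑ x, a x := by
  unfold NB
  rw [sum_ite_bl]
  apply Finset.sum_congr rfl
  intro x _
  rw [if_pos (Finset.mem_Icc.mpr ⟨one_le_bl Q x, bl_le hQ hT x⟩)]

theorem NS_eq {K : ℕ} (Q : ℕ) (a : Fin K → ℕ) (b : Finset ℕ) : NS Q a b = ∑ i ∈ b, NB Q a i := by
  unfold NS NB
  rw [sum_ite_bl]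

theorem HH_eq {Q T : ℕ} (hQ : 2 ≤ Q) (hT : 1 ≤ T) : HH (Q ^ T) = ∑ i ∈ Icc 1 T, hb Q (Q ^ T) i := by
  unfold HH hb
  rw [sum_ite_bl]
  apply Finset.sum_congr rfl
  intro x _
  rw [if_pos (Finset.mem_Icc.mpr ⟨one_le_bl Q x, bl_le hQ hT x⟩)]

theorem hb_nonneg (Q K i : ℕ) : 0 ≤ hb Q K i := by
  unfold hb
  apply Finset.sum_nonneg
  intro x _
  split_ifs
  · positivity
  · exact le_rfl

theorem mem_cb {K Q u M j : ℕ} (hQ : 2 ≤ Q) (hu : 1 ≤ u) (x : Fin K) :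
    bl Q x ∈ cb u M j ↔ x ∈ Jn K (Q ^ (u + j * M)) (Q ^ (u + (j + 1) * M)) := by
  unfold cb Jn
  rw [Finset.mem_Ioc, Finset.mem_filter, lt_bl_iff hQ (by omega)]
  have h1 := lt_bl_iff hQ (v := u + (j + 1) * M) (by omega) x
  have h2 : bl Q x ≤ u + (j + 1) * M ↔ (x : ℕ) + 1 ≤ Q ^ (u + (j + 1) * M) := by
    rw [← not_lt, ← not_lt, h1]
  rw [h2]
  simp

end Pool.Agent.Lib.MP_134bf7_pr.RL
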