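import Pool.Agent.Lib.MP_134bf7_pr.RL.Ad

/-!
# RL-CoB: coarse blocks down to which there are few restrictions

Let `b = cb u M j`, `J = Jb K Q u M j`, `v = u + j * M` (every `x ∈ J` has `v < bl Q x`), `R = reps k k' a`
(nonempty), and consider `κ : R → Bool × (Fin K → ℕ)`, `κ c = (decide (len c = k'), rs Q v c)`.  Its image
has `r` elements, `1 ≤ r ≤ 2 * |DD Q v k k' a| ≤ 2 * r0`.  Choose `c 0, …, c (r - 1) ∈ R`, one for each element of
the image, and `τ l = decide (len (c l) = k')`; then `len (c l) = tg k k' τ l` (`k ≠ k'`).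
For `x ∈ J` and `c' ∈ R` we have `c' x = rs Q v c' x = c l x` where `κ c' = κ (c l)`, and the two have the
same total length.  So for `x ∈ J`: `UU k' k a x ↔ pat c x = τ`, and
`UU k k' a x ↔ pat c x = fun l => !(τ l)` (`pat c x l = decide (1 ≤ c l x)`).
Therefore `∑_{x ∈ J} a x * ([UU k' k a x] - [UU k k' a x]) = stat Q b (g2 τ) a c`
(`NS Q a b = ∑ x ∈ J, a x`), which is `≤ δ * NS` and, by `g2_not`, `≥ - δ * NS`.
-/

namespace Pool.Agent.Lib.MP_134bf7_pr.RL

open Finset
open scoped ENNReal NNReal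

private theorem sum_Jb' {K : ℕ} (Q u M j : ℕ) (a : Fin K → ℕ) :
    ∑ x ∈ Jb K Q u M j, a x = NS Q a (cb u M j) := by
  unfold Jb NS
  rw [Finset.sum_filter]

private theorem mem_reps {K k k' : ℕ} {a c : Fin K → ℕ} :
    c ∈ reps k k' a ↔ (∀ x, c x ≤ a x) ∧ (len c = k ∨ len c = k') := by
  unfold reps
  rw [Finset.mem_filter, Finset.mem_Icc]
  constructor
  · rintro ⟨⟨_, h⟩, h'⟩
    exact ⟨fun x => h x, h'⟩
  · rintro ⟨h, h'⟩
    exact ⟨⟨fun x => Nat.zero_le _, fun x => h x⟩, h'⟩

private theorem choose_reps {K : ℕ} (Q v r0 k k' : ℕ) (a : Fin K → ℕ)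
    (hD : (DD Q v k k' a).card ≤ r0) :
    ∃ r ≤ 2 * r0, ∃ c : Fin r → Fin K → ℕ, (∀ l, c l ∈ reps k k' a) ∧
      ∀ c' ∈ reps k k' a, ∃ l, (len c' = k' ↔ len (c l) = k') ∧ rs Q v c' = rs Q v (c l) := by
  classical
  set κ : (Fin K → ℕ) → Bool × (Fin K → ℕ) := fun c => (decide (len c = k'), rs Q v c) with hκ
  set I := (reps k k' a).image κ with hI
  have hcard : I.card ≤ 2 * r0 := by
    have hsub : I ⊆ (Finset.univ : Finset Bool) ×ˢ (DD Q v k k' a) := by
      intro y hy
      rw [hI, Finset.mem_image] at hy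
      obtain ⟨c, hc, rfl⟩ := hy
      rw [Finset.mem_product]
      exact ⟨Finset.mem_univ _, Finset.mem_image_of_mem _ hc⟩
    calc I.card ≤ ((Finset.univ : Finset Bool) ×ˢ (DD Q v k k' a)).card := Finset.card_le_card hsub
      _ = 2 * (DD Q v k k' a).card := by
        rw [Finset.card_product]
        simp
      _ ≤ 2 * r0 := Nat.mul_le_mul_left _ hD
  have hex : ∀ y : I, ∃ c ∈ reps k k' a, κ c = (y : Bool × (Fin K → ℕ)) := by
    rintro ⟨y, hy⟩
    exact Finset.mem_image.1 hy
  choose f hf1 hf2 using hex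
  refine ⟨I.card, hcard, fun l => f (I.equivFin.symm l), fun l => hf1 _, ?_⟩
  intro c' hc'
  have hm : κ c' ∈ I := Finset.mem_image_of_mem _ hc'
  refine ⟨I.equivFin ⟨κ c', hm⟩, ?_⟩
  have h := hf2 ⟨κ c', hm⟩
  simp only [Equiv.symm_apply_apply]
  simp only [hκ, Prod.mk.injEq, decide_eq_decide] at h
  exact ⟨h.1.symm, h.2.symm⟩

theorem coB {K Q u M j r0 k k' : ℕ} {δ : ℝ} {a : Fin K → ℕ} (hδ : 0 ≤ δ) (hkk : k ≠ k')
    (hG : Good k a ∨ Good k' a) (hN : 1 ≤ NS Q a (cb u M j))
    (hD : (DD Q (u + j * M) k k' a).card ≤ r0)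
    (H : ∀ r ≤ 2 * r0, ∀ τ τ' : Pat r, ∀ c : Fin r → Fin K → ℕ, (∀ l x, c l x ≤ a x) →
      (∀ l, len (c l) = tg k k' τ l) →
      stat Q (cb u M j) (g2 τ') a c ≤ δ * (NS Q a (cb u M j) : ℝ)) :
    |ph (Jb K Q u M j) a (UU k' k a) - ph (Jb K Q u M j) a (UU k k' a)| ≤ δ := by
  classical
  obtain ⟨r, hr, c, hc, hcov⟩ := choose_reps Q (u + j * M) r0 k k' a hD
  -- there is at least one representative
  obtain ⟨l0⟩ : Nonempty (Fin r) := by
    have hne : ∃ c', c' ∈ reps k k' a := by
      rcases hG with ⟨c', h1, h2⟩ | ⟨c', h1, h2⟩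
      · exact ⟨c', mem_reps.2 ⟨h1, Or.inl h2⟩⟩
      · exact ⟨c', mem_reps.2 ⟨h1, Or.inr h2⟩⟩
    obtain ⟨c', hc'⟩ := hne
    obtain ⟨l, _⟩ := hcov c' hc'
    exact ⟨l⟩
  set τ : Pat r := fun l => decide (len (c l) = k') with hτ
  have hle : ∀ l x, c l x ≤ a x := fun l x => (mem_reps.1 (hc l)).1 x
  have htg : ∀ l, len (c l) = tg k k' τ l := by
    intro l
    unfold tg
    rcases (mem_reps.1 (hc l)).2 with h | h
    · have : ¬ (len (c l) = k') := by rw [h]; exact hkk
      simp [hτ, h, hkk]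
    · simp [hτ, h]
  have hbl : ∀ x ∈ Jb K Q u M j, u + j * M < bl Q x := by
    intro x hx
    unfold Jb cb at hx
    rw [Finset.mem_filter, Finset.mem_Ioc] at hx
    exact hx.2.1
  have hval : ∀ x ∈ Jb K Q u M j, ∀ c' ∈ reps k k' a,
      ∃ l, (len c' = k' ↔ len (c l) = k') ∧ c' x = c l x := by
    intro x hx c' hc'
    obtain ⟨l, h1, h2⟩ := hcov c' hc'
    refine ⟨l, h1, ?_⟩
    have h3 := congrFun h2 x
    unfold rs at h3
    rw [if_pos (hbl x hx), if_pos (hbl x hx)] at h3
    exact h3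
  have hU1 : ∀ x ∈ Jb K Q u M j, (UU k' k a x ↔ pat c x = τ) := by
    intro x hx
    constructor
    · rintro ⟨h1, h2⟩
      funext l
      unfold pat
      rw [hτ, decide_eq_decide]
      constructor
      · intro h
        by_contra hk
        have hk' : len (c l) = k := by
          rcases (mem_reps.1 (hc l)).2 with h' | h'
          · exact h'
          · exact absurd h' hk
        have := h2 (c l) (hle l) hk'
        omega
      · intro h
        exact h1 (c l) (hle l) h
    · intro h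
      have hl : ∀ l, (1 ≤ c l x ↔ len (c l) = k') := by
        intro l
        have := congrFun h l
        unfold pat at this
        rw [hτ, decide_eq_decide] at this
        exact this
      constructor
      · intro c' h1 h2
        obtain ⟨l, h3, h4⟩ := hval x hx c' (mem_reps.2 ⟨h1, Or.inr h2⟩)
        rw [h4]
        exact (hl l).2 (h3.1 h2)
      · intro c' h1 h2
        obtain ⟨l, h3, h4⟩ := hval x hx c' (mem_reps.2 ⟨h1, Or.inl h2⟩)
        rw [h4]
        by_contra h5
        have h6 : 1 ≤ c l x := Nat.one_le_iff_ne_zero.2 h5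
        have h7 := h3.2 ((hl l).1 h6)
        exact hkk (h2.symm.trans h7)
  have hU2 : ∀ x ∈ Jb K Q u M j, (UU k k' a x ↔ pat c x = fun l => !(τ l)) := by
    intro x hx
    constructor
    · rintro ⟨h1, h2⟩
      funext l
      unfold pat
      rw [hτ]
      simp only
      by_cases hk : len (c l) = k'
      · have := h2 (c l) (hle l) hk
        simp [hk, this]
      · have hk' : len (c l) = k := by
          rcases (mem_reps.1 (hc l)).2 with h' | h'
          · exact h'
          · exact absurd h' hk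
        have := h1 (c l) (hle l) hk'
        simp [hk, this]
    · intro h
      have hl : ∀ l, (1 ≤ c l x ↔ ¬ len (c l) = k') := by
        intro l
        have := congrFun h l
        unfold pat at this
        rw [hτ] at this
        simp only at this
        by_cases hk : len (c l) = k'
        · simpa [hk] using this
        · simpa [hk] using this
      constructor
      · intro c' h1 h2
        obtain ⟨l, h3, h4⟩ := hval x hx c' (mem_reps.2 ⟨h1, Or.inl h2⟩)
        rw [h4]
        refine (hl l).2 fun h5 => ?_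
        exact hkk (h2.symm.trans (h3.2 h5))
      · intro c' h1 h2
        obtain ⟨l, h3, h4⟩ := hval x hx c' (mem_reps.2 ⟨h1, Or.inr h2⟩)
        rw [h4]
        by_contra h5
        have h6 : 1 ≤ c l x := Nat.one_le_iff_ne_zero.2 h5
        exact (hl l).1 h6 (h3.1 h2)
  have hsum : (∑ x ∈ Jb K Q u M j, if UU k' k a x then (a x : ℝ) else 0) -
      (∑ x ∈ Jb K Q u M j, if UU k k' a x then (a x : ℝ) else 0) =
      stat Q (cb u M j) (g2 τ) a c := by
    rw [← Finset.sum_sub_distrib]
    unfold stat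
    rw [show (∑ x : Fin K, if bl Q x ∈ cb u M j then (a x : ℝ) * g2 τ (pat c x) else 0) =
      ∑ x ∈ Jb K Q u M j, (a x : ℝ) * g2 τ (pat c x) by
        unfold Jb
        rw [Finset.sum_filter]]
    refine Finset.sum_congr rfl fun x hx => ?_
    unfold g2
    rw [mul_sub]
    congr 1
    · by_cases h : UU k' k a x
      · rw [if_pos h, if_pos ((hU1 x hx).1 h), mul_one]
      · rw [if_neg h, if_neg (fun h' => h ((hU1 x hx).2 h')), mul_zero]
    · by_cases h : UU k k' a x
      · rw [if_pos h, if_pos ((hU2 x hx).1 h), mul_one]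
      · rw [if_neg h, if_neg (fun h' => h ((hU2 x hx).2 h')), mul_zero]
  have hneg : stat Q (cb u M j) (g2 fun l => !(τ l)) a c = - stat Q (cb u M j) (g2 τ) a c := by
    unfold stat
    rw [← Finset.sum_neg_distrib]
    refine Finset.sum_congr rfl fun x _ => ?_
    split_ifs
    · rw [g2_not]
      ring
    · simp
  have hup := H r hr τ τ c hle htg
  have hlo := H r hr τ (fun l => !(τ l)) c hle htg
  rw [hneg] at hlo
  have hNpos : (0 : ℝ) < ((∑ x ∈ Jb K Q u M j, a x : ℕ) : ℝ) := by
    rw [sum_Jb']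
    exact_mod_cast hN
  unfold ph
  rw [← sub_div, abs_div, abs_of_pos hNpos, div_le_iff₀ hNpos]
  have hsum' := hsum
  rw [sum_Jb', abs_le]
  constructor
  · have : (∑ x ∈ Jb K Q u M j, if UU k' k a x then (a x : ℝ) else 0) -
      (∑ x ∈ Jb K Q u M j, if UU k k' a x then (a x : ℝ) else 0) ≥ -(δ * (NS Q a (cb u M j) : ℝ)) := by
      rw [hsum]
      linarith
    convert this using 1
  · have : (∑ x ∈ Jb K Q u M j, if UU k' k a x then (a x : ℝ) else 0) -
      (∑ x ∈ Jb K Q u M j, if UU k k' a x then (a x : ℝ) else 0) ≤ (δ * (NS Q a (cb u M j) : ℝ)) := by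
      rw [hsum]
      linarith
    convert this using 1

end Pool.Agent.Lib.MP_134bf7_pr.RL
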