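import Pool.Agent.Lib.MP_134bf7_pr.RL.Ad

/-!
# RL-CoC: coarse blocks above which there are many restrictions

Let `b = cb u M j`, `J = Jb K Q u M j`, `v' = u + (j + 1) * M` (every `i ∈ b` is `≤ v'`).  Choose `r0` elements
`c 0, …, c (r0 - 1)` of `reps k k' a` with different restrictions `rs Q v' (c l)`, and
`τ l = decide (len (c l) = k')`, so `len (c l) = tg k k' τ l` (`k ≠ k'`).  For `l ≠ l'` there is `x` with
`rs Q v' (c l) x ≠ rs Q v' (c l') x`, so `v' < bl Q x` and `c l x ≠ c l' x`.  So `H` applies with this `τ` and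
every `τ'`.  For `x ∈ J`: `UU k' k a x → pat c x = τ` and `UU k k' a x → pat c x = fun l => !(τ l)`.
`∑_{x ∈ J} a x * [pat c x = τ'] = stat Q b (g1 τ') a c + (1 / 2) ^ r0 * NS ≤ (δ + (1 / 2) ^ r0) * NS`,
`NS Q a b = ∑ x ∈ J, a x ≥ 1`.
-/

namespace Pool.Agent.Lib.MP_134bf7_pr.RL

open Finset
open scoped ENNReal NNReal

private theorem coc_NS {K Q u M j : ℕ} (a : Fin K → ℕ) :
    NS Q a (cb u M j) = ∑ x ∈ Jb K Q u M j, a x := by
  unfold NS Jb
  rw [Finset.sum_filter]

private theorem coc_stat {K Q u M j r0 : ℕ} (a : Fin K → ℕ) (τ' : Pat r0)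
    (c : Fin r0 → Fin K → ℕ) :
    stat Q (cb u M j) (g1 τ') a c =
      (∑ x ∈ Jb K Q u M j, if pat c x = τ' then (a x : ℝ) else 0) -
        (1 / 2) ^ r0 * (NS Q a (cb u M j) : ℝ) := by
  rw [coc_NS]
  unfold stat Jb
  rw [← Finset.sum_filter]
  push_cast
  rw [Finset.mul_sum, ← Finset.sum_sub_distrib]
  refine Finset.sum_congr rfl fun x _ => ?_
  unfold g1
  by_cases h : pat c x = τ'
  · rw [if_pos h, if_pos h]
    ring
  · rw [if_neg h, if_neg h]
    ring

private theorem coc_ph {K Q u M j r0 : ℕ} {δ : ℝ} {a : Fin K → ℕ}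
    (hN : 1 ≤ NS Q a (cb u M j)) (τ' : Pat r0) (c : Fin r0 → Fin K → ℕ)
    (h : stat Q (cb u M j) (g1 τ') a c ≤ δ * (NS Q a (cb u M j) : ℝ)) (P : Fin K → Prop)
    (hP : ∀ x, P x → pat c x = τ') :
    ph (Jb K Q u M j) a P ≤ (1 / 2) ^ r0 + δ := by
  classical
  rw [coc_stat] at h
  unfold ph
  rw [← coc_NS]
  have hN' : (0 : ℝ) < (NS Q a (cb u M j) : ℝ) := by exact_mod_cast hN
  rw [div_le_iff₀ hN']
  have h1 : (∑ x ∈ Jb K Q u M j, if P x then (a x : ℝ) else 0) ≤
      ∑ x ∈ Jb K Q u M j, if pat c x = τ' then (a x : ℝ) else 0 := by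
    refine Finset.sum_le_sum fun x _ => ?_
    by_cases hx : P x
    · rw [if_pos hx, if_pos (hP x hx)]
    · rw [if_neg hx]
      split_ifs
      · exact Nat.cast_nonneg _
      · exact le_refl _
  linarith

theorem coC {K Q u M j r0 k k' : ℕ} {δ : ℝ} {a : Fin K → ℕ} (hkk : k ≠ k')
    (hN : 1 ≤ NS Q a (cb u M j)) (hD : r0 ≤ (DD Q (u + (j + 1) * M) k k' a).card)
    (H : ∀ τ τ' : Pat r0, ∀ c : Fin r0 → Fin K → ℕ, (∀ l x, c l x ≤ a x) →
      (∀ l, len (c l) = tg k k' τ l) →
      (∀ l l', l ≠ l' → ∃ x, (∀ i ∈ cb u M j, i < bl Q x) ∧ c l x ≠ c l' x) →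
      stat Q (cb u M j) (g1 τ') a c ≤ δ * (NS Q a (cb u M j) : ℝ)) :
    ph (Jb K Q u M j) a (UU k' k a) ≤ (1 / 2) ^ r0 + δ ∧
      ph (Jb K Q u M j) a (UU k k' a) ≤ (1 / 2) ^ r0 + δ := by
  classical
  obtain ⟨f⟩ : Nonempty (Fin r0 ↪ (DD Q (u + (j + 1) * M) k k' a)) := by
    apply Function.Embedding.nonempty_of_card_le
    rw [Fintype.card_fin, Fintype.card_coe]
    exact hD
  have hf : ∀ l, ∃ c ∈ reps k k' a, rs Q (u + (j + 1) * M) c = (f l : Fin K → ℕ) := fun l =>
    Finset.mem_image.1 (f l).2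
  choose c hc hrs using hf
  have hca : ∀ l x, c l x ≤ a x := fun l x =>
    (Finset.mem_Icc.1 (Finset.mem_filter.1 (hc l)).1).2 x
  have hcl : ∀ l, len (c l) = k ∨ len (c l) = k' := fun l => (Finset.mem_filter.1 (hc l)).2
  have hsep : ∀ l l', l ≠ l' → ∃ x, (∀ i ∈ cb u M j, i < bl Q x) ∧ c l x ≠ c l' x := by
    intro l l' hll
    have h1 : rs Q (u + (j + 1) * M) (c l) ≠ rs Q (u + (j + 1) * M) (c l') := by
      rw [hrs, hrs]
      intro h
      exact hll (f.injective (Subtype.ext h))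
    obtain ⟨x, hx⟩ := Function.ne_iff.1 h1
    refine ⟨x, ?_, ?_⟩
    · intro i hi
      have hi2 := (Finset.mem_Ioc.1 hi).2
      by_contra hcon
      apply hx
      unfold rs
      rw [if_neg (by omega), if_neg (by omega)]
    · intro h
      apply hx
      unfold rs
      rw [h]
  have htg : ∀ l, len (c l) = tg k k' (fun l => decide (len (c l) = k')) l := by
    intro l
    unfold tg
    rcases hcl l with h | h
    · rw [if_neg]
      · exact h
      · rw [decide_eq_true_eq, h]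
        exact hkk
    · rw [if_pos (by rw [decide_eq_true_eq]; exact h)]
      exact h
  have hH := fun τ' => H (fun l => decide (len (c l) = k')) τ' c hca htg hsep
  constructor
  · refine coc_ph hN _ c (hH (fun l => decide (len (c l) = k'))) _ ?_
    intro x hx
    funext l
    unfold pat
    apply decide_eq_decide.2
    constructor
    · intro h1
      rcases hcl l with h | h
      · have := hx.2 (c l) (hca l) h
        omega
      · exact h
    · intro h
      exact hx.1 (c l) (hca l) h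
  · refine coc_ph hN _ c (hH (fun l => !(decide (len (c l) = k')))) _ ?_
    intro x hx
    funext l
    unfold pat
    by_cases h : len (c l) = k'
    · have := hx.2 (c l) (hca l) h
      simp [h, this]
    · have h2 : len (c l) = k := (hcl l).resolve_right h
      have := hx.1 (c l) (hca l) h2
      simp [h, this]

end Pool.Agent.Lib.MP_134bf7_pr.RL
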