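import Pool.Agent.Lib.MP_134bf7_pr.RL.CoA
import Pool.Agent.Lib.MP_134bf7_pr.RL.CoB
import Pool.Agent.Lib.MP_134bf7_pr.RL.CoC
import Pool.Agent.Lib.MP_134bf7_pr.RL.Bk
import Pool.Agent.Lib.MP_134bf7_pr.RL.Ha

/-!
# RL-Co: comparing the two averages for a non-exceptional configuration

* `DD_mono`: for `v ≤ v'`, `DD Q v' k k' a` is the image of `DD Q v k k' a` under `rs Q v'`
  (`rs Q v' (rs Q v c) = rs Q v' c`), so its cardinality is at most that of `DD Q v k k' a`.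
* `co_sum`: let `D v = |DD Q v k k' a|`, decreasing in `v`, `φ j = ph (Jb j) a (UU k' k a)`,
  `ψ j = ph (Jb j) a (UU k k' a)`.  For `j < q`: if `D (u + j * M) ≤ r0` then `|φ j - ψ j| ≤ δ` (`coB`); if
  `r0 ≤ D (u + (j + 1) * M)` then `|φ j - ψ j| ≤ (1 / 2) ^ r0 + δ` (`coC`, `ph_nonneg`); otherwise
  `D (u + (j + 1) * M) < r0 < D (u + j * M)`, which happens for at most one `j` by monotonicity, and then
  `|φ j - ψ j| ≤ 1` (`ph_nonneg`, `ph_le_one`).  So `∑_{j < q} |φ j - ψ j| ≤ 1 + q * ((1 / 2) ^ r0 + δ)`.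
  The hypotheses of `coB`, `coC` follow from `¬ Exc`: `Typ` holds, every `x` with `bl Q x ∈ cb u M j` has
  `u < bl Q x`, so `Q ^ u < x + 1` (`lt_bl_iff`) and `a x ≤ 1`; `NS Q a (cb u M j) ≥ 1` since each
  `NB Q a i ≥ (zz - η) * log Q > 0` (`NS_eq`, `M ≥ 1`, `cb u M j ⊆ Icc 1 T`), and if
  `stat … > δ * NS` then `BadC …` holds.
* `co`: `av_eq`, `av (Jb j) k' k a = ofReal (1 - φ j) ≤ ofReal (1 - ψ j) + ofReal |φ j - ψ j|`, and symmetrically.
  `Jb K Q u M j` and `NS`: `∑ x ∈ Jb K Q u M j, a x = NS Q a (cb u M j)`.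
-/

namespace Pool.Agent.Lib.MP_134bf7_pr.RL

open Finset
open scoped ENNReal NNReal

private theorem rs_rs {K Q v v' : ℕ} (h : v ≤ v') (c : Fin K → ℕ) :
    rs Q v' (rs Q v c) = rs Q v' c := by
  funext x
  unfold rs
  by_cases h1 : v' < bl Q x
  · rw [if_pos h1, if_pos (by omega)]
    rw [if_pos h1]
  · rw [if_neg h1, if_neg h1]

theorem DD_mono {K Q k k' : ℕ} (a : Fin K → ℕ) {v v' : ℕ} (h : v ≤ v') :
    (DD Q v' k k' a).card ≤ (DD Q v k k' a).card := by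
  have h1 : DD Q v' k k' a = (DD Q v k k' a).image (rs Q v') := by
    unfold DD
    rw [Finset.image_image]
    refine Finset.image_congr fun c _ => ?_
    rw [Function.comp_apply, rs_rs h]
  rw [h1]
  exact Finset.card_image_le

theorem sum_Jb {K : ℕ} (Q u M j : ℕ) (a : Fin K → ℕ) :
    ∑ x ∈ Jb K Q u M j, a x = NS Q a (cb u M j) := by
  unfold Jb NS
  rw [Finset.sum_filter]

theorem NS_pos {Q T u M q j : ℕ} (hQ : 2 ≤ Q) (hM : 1 ≤ M) (huM : u + q * M ≤ T) (hj : j < q)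
    {η : ℝ} (hη : η ≤ 1) {a : Fin (Q ^ T) → ℕ} (hTyp : Typ Q T η a) :
    1 ≤ NS Q a (cb u M j) := by
  rw [NS_eq]
  have h0 : (j + 1) * M ≤ q * M := Nat.mul_le_mul_right M hj
  have e : (j + 1) * M = j * M + M := by ring
  have hi : u + (j + 1) * M ∈ cb u M j := by
    unfold cb
    rw [Finset.mem_Ioc]
    omega
  have hI : u + (j + 1) * M ∈ Icc 1 T := by
    rw [Finset.mem_Icc]
    omega
  have h1 := hTyp _ hI
  have hlog : 0 < Real.log Q := Real.log_pos (by exact_mod_cast (by omega : 1 < Q))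
  have h2 := (abs_le.1 h1).1
  have h3 := zz_bounds.1
  have h4 : (0 : ℝ) < (NB Q a (u + (j + 1) * M) : ℝ) := by nlinarith
  have h5 : 1 ≤ NB Q a (u + (j + 1) * M) := by
    have : 0 < NB Q a (u + (j + 1) * M) := by exact_mod_cast h4
    omega
  exact h5.trans (Finset.single_le_sum (f := fun i => NB Q a i) (fun i _ => Nat.zero_le _) hi)

private theorem notExc {Q T u M q r0 k k' K : ℕ} {η δ : ℝ} {a : Fin K → ℕ}
    (hG : Good k a ∨ Good k' a) (hE : ¬ Exc Q T u M q r0 η δ k k' a) :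
    Typ Q T η a ∧ (∀ x : Fin K, Q ^ u < (x : ℕ) + 1 → a x ≤ 1) ∧
      (∀ j < q, ∀ r ≤ 2 * r0, ∀ τ τ' : Pat r,
        ¬ BadC Q T η δ (cb u M j) (g2 τ') (fun _ _ => False) (tg k k' τ) a) ∧
      (∀ j < q, ∀ τ τ' : Pat r0,
        ¬ BadC Q T η δ (cb u M j) (g1 τ') (fun l l' => l ≠ l') (tg k k' τ) a) := by
  have h1 : ¬ (¬ Typ Q T η a ∨ (∃ x : Fin K, Q ^ u < (x : ℕ) + 1 ∧ 2 ≤ a x) ∨
      (∃ j < q, ∃ r ≤ 2 * r0, ∃ τ τ' : Pat r,
        BadC Q T η δ (cb u M j) (g2 τ') (fun _ _ => False) (tg k k' τ) a) ∨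
      (∃ j < q, ∃ τ τ' : Pat r0,
        BadC Q T η δ (cb u M j) (g1 τ') (fun l l' => l ≠ l') (tg k k' τ) a)) :=
    fun h => hE ⟨hG, h⟩
  refine ⟨?_, ?_, ?_, ?_⟩
  · by_contra h
    exact h1 (Or.inl h)
  · intro x hx
    by_contra h
    exact h1 (Or.inr (Or.inl ⟨x, hx, by omega⟩))
  · intro j hj r hr τ τ' h
    exact h1 (Or.inr (Or.inr (Or.inl ⟨j, hj, r, hr, τ, τ', h⟩)))
  · intro j hj τ τ' h
    exact h1 (Or.inr (Or.inr (Or.inr ⟨j, hj, τ, τ', h⟩)))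

private theorem le_one_of {K Q u M j : ℕ} (hQ : 2 ≤ Q) (hu : 1 ≤ u) {a : Fin K → ℕ}
    (h : ∀ x : Fin K, Q ^ u < (x : ℕ) + 1 → a x ≤ 1) (x : Fin K) (hx : bl Q x ∈ cb u M j) :
    a x ≤ 1 := by
  refine h x ((lt_bl_iff hQ hu x).1 ?_)
  unfold cb at hx
  rw [Finset.mem_Ioc] at hx
  have := hx.1
  omega

private theorem term_le {Q T u M q r0 k k' : ℕ} (hQ : 2 ≤ Q) (hu : 1 ≤ u) (hM : 1 ≤ M)
    (huM : u + q * M ≤ T) {η δ : ℝ} (hη : η ≤ 1) (hδ : 0 ≤ δ) (hkk : k ≠ k')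
    {a : Fin (Q ^ T) → ℕ} (hG : Good k a ∨ Good k' a)
    (hE : ¬ Exc Q T u M q r0 η δ k k' a) {j : ℕ} (hj : j < q)
    (hn : ¬ ((DD Q (u + (j + 1) * M) k k' a).card < r0 ∧ r0 < (DD Q (u + j * M) k k' a).card)) :
    |ph (Jb (Q ^ T) Q u M j) a (UU k' k a) - ph (Jb (Q ^ T) Q u M j) a (UU k k' a)| ≤
      (1 / 2) ^ r0 + δ := by
  obtain ⟨hT, h1, h2, h3⟩ := notExc hG hE
  have hN := NS_pos hQ hM huM hj hη hT
  have hle := fun x hx => le_one_of (M := M) (j := j) hQ hu h1 x hx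
  by_cases hD : (DD Q (u + j * M) k k' a).card ≤ r0
  · have h4 := coB hδ hkk hG hN hD (by
      intro r hr τ τ' c hc hlen
      by_contra hcon
      push Not at hcon
      exact h2 j hj r hr τ τ' ⟨hT, hle, c, hc, hlen, fun l l' h => h.elim, hcon.le⟩)
    have h5 : (0 : ℝ) ≤ (1 / 2) ^ r0 := by positivity
    linarith
  · have hD' : r0 ≤ (DD Q (u + (j + 1) * M) k k' a).card := by
      by_contra hcon
      exact hn ⟨by omega, by omega⟩
    have h4 := coC (δ := δ) hkk hN hD' (by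
      intro τ τ' c hc hlen hdist
      by_contra hcon
      push Not at hcon
      exact h3 j hj τ τ' ⟨hT, hle, c, hc, hlen, hdist, hcon.le⟩)
    have h5 := ph_nonneg (Jb (Q ^ T) Q u M j) a (UU k' k a)
    have h6 := ph_nonneg (Jb (Q ^ T) Q u M j) a (UU k k' a)
    rw [abs_le]
    constructor
    · linarith [h4.2]
    · linarith [h4.1]

theorem co_sum {Q T u M q r0 k k' : ℕ} (hQ : 2 ≤ Q) (hu : 1 ≤ u) (hM : 1 ≤ M)
    (huM : u + q * M ≤ T) {η δ : ℝ} (hη : η ≤ 1) (hδ : 0 ≤ δ) (hkk : k ≠ k')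
    {a : Fin (Q ^ T) → ℕ} (hG : Good k a ∨ Good k' a)
    (hE : ¬ Exc Q T u M q r0 η δ k k' a) :
    ∑ j ∈ range q, |ph (Jb (Q ^ T) Q u M j) a (UU k' k a) -
      ph (Jb (Q ^ T) Q u M j) a (UU k k' a)| ≤ 1 + q * ((1 / 2) ^ r0 + δ) := by
  classical
  set P : ℕ → Prop := fun j => (DD Q (u + (j + 1) * M) k k' a).card < r0 ∧
    r0 < (DD Q (u + j * M) k k' a).card with hP
  have hc : (0 : ℝ) ≤ (1 / 2) ^ r0 + δ := by positivity
  have h1 : ∀ j ∈ range q, |ph (Jb (Q ^ T) Q u M j) a (UU k' k a) -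
      ph (Jb (Q ^ T) Q u M j) a (UU k k' a)| ≤ (if P j then (1 : ℝ) else 0) +
        ((1 / 2) ^ r0 + δ) := by
    intro j hj
    by_cases hPj : P j
    · rw [if_pos hPj]
      have h5 := ph_nonneg (Jb (Q ^ T) Q u M j) a (UU k' k a)
      have h6 := ph_nonneg (Jb (Q ^ T) Q u M j) a (UU k k' a)
      have h7 := ph_le_one (Jb (Q ^ T) Q u M j) a (UU k' k a)
      have h8 := ph_le_one (Jb (Q ^ T) Q u M j) a (UU k k' a)
      have h9 : |ph (Jb (Q ^ T) Q u M j) a (UU k' k a) -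
        ph (Jb (Q ^ T) Q u M j) a (UU k k' a)| ≤ 1 := by
        rw [abs_le]
        constructor <;> linarith
      linarith
    · rw [if_neg hPj, zero_add]
      exact term_le hQ hu hM huM hη hδ hkk hG hE (Finset.mem_range.1 hj) hPj
  refine (Finset.sum_le_sum h1).trans ?_
  rw [Finset.sum_add_distrib, Finset.sum_const, Finset.card_range, nsmul_eq_mul]
  have h2 : ∑ j ∈ range q, (if P j then (1 : ℝ) else 0) ≤ 1 := by
    rw [Finset.sum_boole]
    have h3 : ((range q).filter P).card ≤ 1 := by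
      rw [Finset.card_le_one]
      have key : ∀ i j, P i → P j → ¬ i < j := by
        intro i j hi hj hij
        have h4 : u + (i + 1) * M ≤ u + j * M := by
          have := Nat.mul_le_mul_right M (show i + 1 ≤ j from hij)
          omega
        have h5 := DD_mono (Q := Q) (k := k) (k' := k') a h4
        have h6 := hi.1
        have h7 := hj.2
        omega
      intro i hi j hj
      have hi' := (Finset.mem_filter.1 hi).2
      have hj' := (Finset.mem_filter.1 hj).2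
      have h6 := key i j hi' hj'
      have h7 := key j i hj' hi'
      omega
    exact_mod_cast h3
  linarith

private theorem sum_shift {q : ℕ} (φ ψ : ℕ → ℝ) {B : ℝ}
    (h : ∑ j ∈ range q, |φ j - ψ j| ≤ B) :
    ∑ j ∈ range q, ENNReal.ofReal (1 - φ j) ≤ ∑ j ∈ range q, ENNReal.ofReal (1 - ψ j) +
      ENNReal.ofReal B := by
  have h1 : ∀ j ∈ range q, ENNReal.ofReal (1 - φ j) ≤
      ENNReal.ofReal (1 - ψ j) + ENNReal.ofReal |φ j - ψ j| := by
    intro j _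
    refine le_trans (ENNReal.ofReal_le_ofReal ?_) ENNReal.ofReal_add_le
    have := neg_abs_le (φ j - ψ j)
    linarith
  refine (Finset.sum_le_sum h1).trans ?_
  rw [Finset.sum_add_distrib]
  gcongr
  rw [← ENNReal.ofReal_sum_of_nonneg (fun j _ => abs_nonneg _)]
  exact ENNReal.ofReal_le_ofReal h

theorem co {Q T u M q r0 k k' : ℕ} (hQ : 2 ≤ Q) (hu : 1 ≤ u) (hM : 1 ≤ M)
    (huM : u + q * M ≤ T) {η δ : ℝ} (hη : η ≤ 1) (hδ : 0 ≤ δ) (hkk : k ≠ k')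
    {a : Fin (Q ^ T) → ℕ} (hG : Good k a ∨ Good k' a)
    (hE : ¬ Exc Q T u M q r0 η δ k k' a) :
    ∑ j ∈ range q, av (Jb (Q ^ T) Q u M j) k' k a ≤ ∑ j ∈ range q, av (Jb (Q ^ T) Q u M j) k k' a +
        ENNReal.ofReal (1 + q * ((1 / 2) ^ r0 + δ)) ∧
    ∑ j ∈ range q, av (Jb (Q ^ T) Q u M j) k k' a ≤ ∑ j ∈ range q, av (Jb (Q ^ T) Q u M j) k' k a +
        ENNReal.ofReal (1 + q * ((1 / 2) ^ r0 + δ)) := by
  obtain ⟨hT, h1, _, _⟩ := notExc hG hE
  have hJ : ∀ j, ∀ x ∈ Jb (Q ^ T) Q u M j, a x ≤ 1 := by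
    intro j x hx
    unfold Jb at hx
    exact le_one_of hQ hu h1 x (Finset.mem_filter.1 hx).2
  have hN : ∀ j ∈ range q, 1 ≤ ∑ x ∈ Jb (Q ^ T) Q u M j, a x := by
    intro j hj
    rw [sum_Jb]
    exact NS_pos hQ hM huM (Finset.mem_range.1 hj) hη hT
  have e1 : ∑ j ∈ range q, av (Jb (Q ^ T) Q u M j) k' k a = ∑ j ∈ range q,
      ENNReal.ofReal (1 - ph (Jb (Q ^ T) Q u M j) a (UU k' k a)) :=
    Finset.sum_congr rfl fun j hj => av_eq _ _ _ a (hJ j) (hN j hj)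
  have e2 : ∑ j ∈ range q, av (Jb (Q ^ T) Q u M j) k k' a = ∑ j ∈ range q,
      ENNReal.ofReal (1 - ph (Jb (Q ^ T) Q u M j) a (UU k k' a)) :=
    Finset.sum_congr rfl fun j hj => av_eq _ _ _ a (hJ j) (hN j hj)
  have h2 := co_sum hQ hu hM huM hη hδ hkk hG hE
  rw [e1, e2]
  refine ⟨sum_shift _ _ h2, sum_shift _ _ ?_⟩
  refine le_trans (le_of_eq ?_) h2
  exact Finset.sum_congr rfl fun j _ => abs_sub_comm _ _

end Pool.Agent.Lib.MP_134bf7_pr.RL
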