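import Pool.Agent.Lib.MP_134bf7_pr.RL.Av

/-!
# RL-CoA: the average as a fraction

Let `a x ≤ 1` for `x ∈ J` and `N = ∑ x ∈ J, a x ≥ 1`.  For `x ∈ J` with `a x = 1`:
`¬ MM k1 k2 x (rmv a x) ↔ UU k1 k2 a x`: `Good k1 (rmv a x)` means that some `c ≤ a` with `len c = k1` has
`c x = 0` (`c x ≤ a x - 1 = 0`), and `x + 1 ≤ k2 ∧ Good (k2 - (x + 1)) (rmv a x)` that some `c ≤ a` with
`len c = k2` has `c x = 1` (add resp. remove the unit vector at `x`).
So `av J k1 k2 a = (1 / N) * |{x ∈ J | a x = 1, ¬ UU k1 k2 a x}| = 1 - ph J a (UU k1 k2 a)`.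
-/

namespace Pool.Agent.Lib.MP_134bf7_pr.RL

open Finset
open scoped ENNReal NNReal

private theorem CoA_ad_rmv {K : ℕ} {a : Fin K → ℕ} {x : Fin K} (hx : 1 ≤ a x) :
    ad (rmv a x) x = a := by
  funext i
  unfold rmv ad
  by_cases h : i = x
  · subst h
    simp only [if_true]
    omega
  · simp only [if_neg h]

private theorem CoA_len_ad {K : ℕ} (a : Fin K → ℕ) (x : Fin K) :
    len (ad a x) = len a + ((x : ℕ) + 1) := by
  unfold len
  have h1 : ∀ i ∈ (Finset.univ : Finset (Fin K)), ((i : ℕ) + 1) * ad a x i =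
      ((i : ℕ) + 1) * a i + (if i = x then ((i : ℕ) + 1) else 0) := by
    intro i _
    unfold ad
    split_ifs
    · ring
    · ring
  rw [Finset.sum_congr rfl h1, Finset.sum_add_distrib, Finset.sum_ite_eq' Finset.univ x
    (fun i => (i : ℕ) + 1), if_pos (Finset.mem_univ x)]

private theorem CoA_MM {K : ℕ} {k1 k2 : ℕ} {a : Fin K → ℕ} {x : Fin K} (hx : a x = 1) :
    MM k1 k2 x (rmv a x) ↔ ¬ UU k1 k2 a x := by
  constructor
  · rintro (⟨c, hc, hl⟩ | ⟨hk, c, hc, hl⟩) ⟨h1, h2⟩
    · have h3 := h1 c (fun y => (hc y).trans (by unfold rmv; split_ifs <;> omega)) hl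
      have h4 := hc x
      unfold rmv at h4
      rw [if_pos rfl] at h4
      omega
    · have h3 := h2 (ad c x) (fun y => by
        have h5 := hc y
        have h6 := congrFun (CoA_ad_rmv (a := a) (x := x) (by omega)) y
        rw [← h6]
        unfold ad
        split_ifs <;> omega) (by rw [CoA_len_ad, hl]; omega)
      unfold ad at h3
      rw [if_pos rfl] at h3
      omega
  · intro h
    unfold UU at h
    rw [not_and_or] at h
    rcases h with h | h
    · push Not at h
      obtain ⟨c, hc, hl, h0⟩ := h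
      refine Or.inl ⟨c, fun y => ?_, hl⟩
      have h3 := hc y
      unfold rmv
      split_ifs with hy
      · rw [hy]
        omega
      · exact h3
    · push Not at h
      obtain ⟨c, hc, hl, h0⟩ := h
      have h1 : 1 ≤ c x := by omega
      have h2 := CoA_len_ad (rmv c x) x
      rw [CoA_ad_rmv h1] at h2
      refine Or.inr ⟨by omega, rmv c x, fun y => ?_, by omega⟩
      have h3 := hc y
      unfold rmv
      split_ifs <;> omega

theorem av_eq {K : ℕ} (J : Finset (Fin K)) (k1 k2 : ℕ) (a : Fin K → ℕ) (h1 : ∀ x ∈ J, a x ≤ 1)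
    (hN : 1 ≤ ∑ x ∈ J, a x) : av J k1 k2 a = ENNReal.ofReal (1 - ph J a (UU k1 k2 a)) := by
  classical
  obtain ⟨N, hNN⟩ : ∃ N : ℕ, N = ∑ x ∈ J, a x := ⟨_, rfl⟩
  have hN0 : (0 : ℝ) < N := by
    rw [← hNN] at hN
    exact_mod_cast hN
  have hph : 1 - ph J a (UU k1 k2 a) =
      ∑ x ∈ J, if UU k1 k2 a x then (0 : ℝ) else (a x : ℝ) / N := by
    unfold ph
    rw [← hNN]
    have h2 : (N : ℝ) = ∑ x ∈ J, (a x : ℝ) := by rw [hNN]; push_cast; rfl
    have h3 : (1 : ℝ) = (∑ x ∈ J, (a x : ℝ)) / N := by rw [← h2, div_self hN0.ne']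
    rw [h3, ← sub_div, ← Finset.sum_sub_distrib, Finset.sum_div]
    refine Finset.sum_congr rfl fun x _ => ?_
    by_cases hU : UU k1 k2 a x
    · rw [if_pos hU, if_pos hU, sub_self, zero_div]
    · rw [if_neg hU, if_neg hU, sub_zero]
  rw [hph, ENNReal.ofReal_sum_of_nonneg]
  · unfold av
    refine Finset.sum_congr rfl fun x hx => ?_
    rw [← hNN]
    have hx1 := h1 x hx
    rcases Nat.eq_zero_or_pos (a x) with h0 | h0
    · rw [h0]
      simp
    · have hax : a x = 1 := by omega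
      have hM := CoA_MM (k1 := k1) (k2 := k2) hax
      unfold ind
      by_cases hU : UU k1 k2 a x
      · rw [if_pos hU, if_neg (fun h => (hM.1 h) hU)]
        simp
      · rw [if_neg hU, if_pos (hM.2 hU), mul_one, ENNReal.ofReal_div_of_pos hN0,
          ENNReal.ofReal_natCast, ENNReal.ofReal_natCast]
  · intro x _
    split_ifs
    · exact le_rfl
    · positivity

theorem ph_nonneg {K : ℕ} (J : Finset (Fin K)) (a : Fin K → ℕ) (P : Fin K → Prop) :
    0 ≤ ph J a P := by
  classical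
  unfold ph
  refine div_nonneg (Finset.sum_nonneg fun x _ => ?_) (Nat.cast_nonneg _)
  split_ifs
  · exact Nat.cast_nonneg _
  · exact le_rfl

theorem ph_le_one {K : ℕ} (J : Finset (Fin K)) (a : Fin K → ℕ) (P : Fin K → Prop) :
    ph J a P ≤ 1 := by
  classical
  unfold ph
  refine div_le_one_of_le₀ ?_ (Nat.cast_nonneg _)
  push_cast
  refine Finset.sum_le_sum fun x _ => ?_
  split_ifs
  · exact le_rfl
  · exact Nat.cast_nonneg _

end Pool.Agent.Lib.MP_134bf7_pr.RL
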