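import Pool.Agent.Lib.MP_134bf7_pr.RL.Zb

/-!
# RL-Cs: the second moment method

`Nl k a = ∑' c, ind (len c = k) * ∏ x, (a x).choose (c x)` (only `c ≤ a` contribute).
* `Nl_zero`: if `¬ Good k a`, a `c` with `len c = k` has `c x > a x` for some `x`, and the choose is `0`.
* `cs`: Cauchy-Schwarz for `ind E * Nl` and `ind Good` with the weights `wt`.
-/

namespace Pool.Agent.Lib.MP_134bf7_pr.RL

open Finset
open scoped ENNReal NNReal

variable {K : ℕ}

theorem Nl_zero {k : ℕ} {a : Fin K → ℕ} (h : ¬ Good k a) : Nl k a = 0 := by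
  unfold Nl
  rw [ENNReal.tsum_eq_zero]
  intro c
  by_cases hc : len c = k
  · have hx : ∃ x, ¬ c x ≤ a x := by
      by_contra hcon
      push Not at hcon
      exact h ⟨c, hcon, hc⟩
    obtain ⟨x, hx⟩ := hx
    have : (∏ x, (a x).choose (c x) : ℕ) = 0 :=
      Finset.prod_eq_zero (Finset.mem_univ x) (Nat.choose_eq_zero_of_lt (not_le.mp hx))
    rw [this]
    simp
  · simp [ind, hc]

private theorem cs_tsum {ι : Type*} (w X Y : ι → ℝ≥0∞) :
    (∑' a, w a * (X a * Y a)) ^ 2 ≤ (∑' a, w a * X a ^ 2) * ∑' a, w a * Y a ^ 2 := by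
  have hw : ∀ a, w a ^ (1 / 2 : ℝ) * w a ^ (1 / 2 : ℝ) = w a := by
    intro a
    rw [← ENNReal.rpow_add_of_nonneg _ _ (by norm_num) (by norm_num)]
    norm_num
  have h1 : ∑' a, w a * (X a * Y a) ≤
      (∑' a, w a * X a ^ 2) ^ (1 / 2 : ℝ) * (∑' a, w a * Y a ^ 2) ^ (1 / 2 : ℝ) := by
    rw [ENNReal.tsum_eq_iSup_sum]
    refine iSup_le fun s => ?_
    have h2 := ENNReal.inner_le_Lp_mul_Lq s (fun a => w a ^ (1 / 2 : ℝ) * X a)
      (fun a => w a ^ (1 / 2 : ℝ) * Y a) (p := 2) (q := 2) Real.HolderConjugate.two_two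
    have h3 : ∀ V : ι → ℝ≥0∞, ∑ a ∈ s, (w a ^ (1 / 2 : ℝ) * V a) ^ (2 : ℝ) =
        ∑ a ∈ s, w a * V a ^ 2 := by
      intro V
      refine Finset.sum_congr rfl fun a _ => ?_
      rw [ENNReal.rpow_two, mul_pow, sq (w a ^ (1 / 2 : ℝ)), hw]
    have h4 : ∑ a ∈ s, w a ^ (1 / 2 : ℝ) * X a * (w a ^ (1 / 2 : ℝ) * Y a) =
        ∑ a ∈ s, w a * (X a * Y a) := by
      refine Finset.sum_congr rfl fun a _ => ?_
      rw [mul_mul_mul_comm, hw]
    rw [h3, h3, h4] at h2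
    refine h2.trans ?_
    gcongr
    · exact ENNReal.sum_le_tsum s
    · exact ENNReal.sum_le_tsum s
  calc (∑' a, w a * (X a * Y a)) ^ 2
      ≤ ((∑' a, w a * X a ^ 2) ^ (1 / 2 : ℝ) * (∑' a, w a * Y a ^ 2) ^ (1 / 2 : ℝ)) ^ 2 := by
        gcongr
    _ = _ := by
        rw [mul_pow, ← ENNReal.rpow_natCast, ← ENNReal.rpow_natCast, ← ENNReal.rpow_mul,
          ← ENNReal.rpow_mul]
        norm_num

theorem cs (k : ℕ) (E : (Fin K → ℕ) → Prop) :
    Ex K (fun a => ind (E a) * Nl k a) ^ 2 ≤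
      Ex K (fun a => ind (E a) * Nl k a ^ 2) * PG K k := by
  have h1 := cs_tsum (fun a : Fin K → ℕ => (wt (mu K) a : ℝ≥0∞)) (fun a => ind (E a) * Nl k a)
    (fun a => ind (Good k a))
  have h2 : ∀ a : Fin K → ℕ, ind (E a) * Nl k a * ind (Good k a) = ind (E a) * Nl k a := by
    intro a
    by_cases h : Good k a
    · simp [ind, h]
    · rw [Nl_zero h]
      simp
  have h3 : ∀ a : Fin K → ℕ, (ind (E a) * Nl k a) ^ 2 = ind (E a) * Nl k a ^ 2 := by
    intro a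
    by_cases h : E a
    · simp [ind, h]
    · simp [ind, h]
  have h4 : ∀ a : Fin K → ℕ, ind (Good k a) ^ 2 = ind (Good k a) := by
    intro a
    by_cases h : Good k a
    · simp [ind, h]
    · simp [ind, h]
  simp only [h2, h3, h4] at h1
  unfold PG Ex Z
  rw [mul_pow, sq (ENNReal.ofReal (Real.exp (-HH K))), mul_mul_mul_comm]
  gcongr

end Pool.Agent.Lib.MP_134bf7_pr.RL
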