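import Mathlib

/-!
# MP_134bf7_pr, board RL: `p (k + h) / p k → 1` uniformly for `0 ≤ h ≤ k ^ (1 - ε)`. Definitions.

Configurations are functions `a : Fin K → ℕ`; `a i` is the number of cycles of length `i + 1`; they are
independent Poisson variables of means `mu K i = 1 / (i + 1)`.  `Ex K F` is the expectation of `F`.
Everything is `ℝ≥0∞`-valued, so that there are no summability questions.
`Ex K (fun a => ind (Good m a))` is `p m` for every `K ≥ m`.

Labelled configurations: `β : Fin K × Pat r → ℕ`, `Pat r = Fin r → Bool`: each cycle carries a pattern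
`p`, which says to which of the `r` sets of cycles it belongs (`p l = true`: it belongs to the `l`-th).

Fine blocks: `bl Q x` is the number `t` of the block `(Q ^ (t - 1), Q ^ t]` (for `t = 1`: `[1, Q]`) of the
length `x + 1`.  `K = Q ^ T`, `T` fixed, `Q → ∞`.
-/

namespace Pool.Agent.Lib.MP_134bf7_pr.RL

open Finset
open scoped ENNReal NNReal

/-- weight of a configuration -/
noncomputable def wt {ι : Type*} [Fintype ι] (μ : ι → ℝ≥0) (a : ι → ℕ) : ℝ≥0 :=
  ∏ i, μ i ^ a i / ((a i).factorial : ℝ≥0)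

/-- `exp (∑ i, μ i)` times the expectation of `F` for independent Poisson variables of means `μ i` -/
noncomputable def Z {ι : Type*} [Fintype ι] (μ : ι → ℝ≥0) (F : (ι → ℕ) → ℝ≥0∞) : ℝ≥0∞ :=
  ∑' a : ι → ℕ, (wt μ a : ℝ≥0∞) * F a

open Classical in
/-- indicator of a proposition -/
noncomputable def ind (P : Prop) : ℝ≥0∞ := if P then 1 else 0

/-- the monomial `∏ i, y i ^ a i` -/
noncomputable def mon {ι : Type*} [Fintype ι] (y : ι → ℝ≥0) (a : ι → ℕ) : ℝ≥0∞ :=
  ((∏ i, y i ^ a i : ℝ≥0) : ℝ≥0∞)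

/-- `a` plus the unit vector at `j` -/
def ad {ι : Type*} [DecidableEq ι] (a : ι → ℕ) (j : ι) : ι → ℕ := fun i => if i = j then a i + 1 else a i

/-- `a` minus the unit vector at `j` -/
def rmv {ι : Type*} [DecidableEq ι] (a : ι → ℕ) (j : ι) : ι → ℕ := fun i => if i = j then a i - 1 else a i

/-- `a` plus one unit vector for each `t` -/
def adf {ι τ : Type*} [DecidableEq ι] [Fintype τ] (a : ι → ℕ) (f : τ → ι) : ι → ℕ :=
  fun i => a i + (univ.filter fun t => f t = i).card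

/-- means of the cycle counts -/
noncomputable def mu (K : ℕ) (i : Fin K) : ℝ≥0 := 1 / (((i : ℕ) : ℝ≥0) + 1)

/-- the harmonic number -/
noncomputable def HH (K : ℕ) : ℝ := ∑ i : Fin K, (1 : ℝ) / (((i : ℕ) : ℝ) + 1)

/-- expectation -/
noncomputable def Ex (K : ℕ) (F : (Fin K → ℕ) → ℝ≥0∞) : ℝ≥0∞ :=
  ENNReal.ofReal (Real.exp (-(HH K))) * Z (mu K) F

/-- total length -/
def len {K : ℕ} (c : Fin K → ℕ) : ℕ := ∑ i : Fin K, ((i : ℕ) + 1) * c i

/-- `m` is the total length of a sub-configuration of `a` -/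
def Good {K : ℕ} (m : ℕ) (a : Fin K → ℕ) : Prop := ∃ c : Fin K → ℕ, (∀ i, c i ≤ a i) ∧ len c = m

/-- The probability that a random permutation fixes a `k`-set: the formula of the problem. -/
noncomputable def p (k : ℕ) : ℝ :=
  1 - ∑' a : {a : Fin k → ℕ // ¬ ∃ a' : Fin k → ℕ, (∀ i, a' i ≤ a i) ∧
        ∑ i : Fin k, ((i : ℕ) + 1) * a' i = k},
    ∏ i : Fin k, Real.exp (-(1 / (((i : ℕ) : ℝ) + 1))) * (1 / (((i : ℕ) : ℝ) + 1)) ^ (a.1 i) /
      ((a.1 i).factorial : ℝ)

/-- `Ex K (fun a => ind (Good m a))`, the probability that a configuration has a sub-configuration of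
total length `m` -/
noncomputable def PG (K m : ℕ) : ℝ≥0∞ := Ex K fun a => ind (Good m a)

/-! ### numbers -/

/-- `z = 1 / log 2`, the number of cycles per unit of log-scale -/
noncomputable def zz : ℝ := 1 / Real.log 2

/-- the exponent `α` -/
noncomputable def al : ℝ := 1 - (1 + Real.log (Real.log 2)) / Real.log 2

/-! ### labelled configurations -/

/-- patterns -/
abbrev Pat (r : ℕ) : Type := Fin r → Bool

/-- means for labelled configurations -/
noncomputable def muP (K r : ℕ) (q : Fin K × Pat r) : ℝ≥0 := mu K q.1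

/-- unnormalised by `2 ^ r`: `exp (- H_K)` times the labelled sum -/
noncomputable def ExP (K r : ℕ) (F : (Fin K × Pat r → ℕ) → ℝ≥0∞) : ℝ≥0∞ :=
  ENNReal.ofReal (Real.exp (-(HH K))) * Z (muP K r) F

/-- the underlying configuration -/
def mg {K r : ℕ} (β : Fin K × Pat r → ℕ) (x : Fin K) : ℕ := ∑ q : Pat r, β (x, q)

/-- the `l`-th sub-configuration -/
def cut {K r : ℕ} (l : Fin r) (β : Fin K × Pat r → ℕ) (x : Fin K) : ℕ :=
  ∑ q : Pat r, if q l = true then β (x, q) else 0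

/-- pattern of `x` with respect to sub-configurations `c l` -/
def pat {K r : ℕ} (c : Fin r → Fin K → ℕ) (x : Fin K) : Pat r := fun l => decide (1 ≤ c l x)

/-! ### blocks -/

/-- the number of the fine block of the length `x + 1` -/
def bl (Q : ℕ) {K : ℕ} (x : Fin K) : ℕ := max 1 (Nat.clog Q ((x : ℕ) + 1))

/-- the number of cycles in the fine block `i` -/
def NB (Q : ℕ) {K : ℕ} (a : Fin K → ℕ) (i : ℕ) : ℕ := ∑ x : Fin K, if bl Q x = i then a x else 0

/-- the number of cycles in the fine blocks `i ∈ b` -/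
def NS (Q : ℕ) {K : ℕ} (a : Fin K → ℕ) (b : Finset ℕ) : ℕ := ∑ x : Fin K, if bl Q x ∈ b then a x else 0

/-- sum of the means in block `i` -/
noncomputable def hb (Q K : ℕ) (i : ℕ) : ℝ :=
  ∑ x : Fin K, if bl Q x = i then (1 : ℝ) / (((x : ℕ) : ℝ) + 1) else 0

/-- a typical configuration has about `z` cycles per unit of log-scale in every fine block -/
def Typ (Q T : ℕ) (η : ℝ) {K : ℕ} (a : Fin K → ℕ) : Prop :=
  ∀ i ∈ Icc 1 T, |(NB Q a i : ℝ) - zz * Real.log Q| ≤ η * Real.log Q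

/-- the patterns which occur at blocks `≥ i` -/
def sup (Q : ℕ) {K r : ℕ} (β : Fin K × Pat r → ℕ) (i : ℕ) : Finset (Pat r) :=
  univ.filter fun q => ∃ x : Fin K, i ≤ bl Q x ∧ 1 ≤ β (x, q)

/-! ### linear algebra -/

/-- a pattern as a vector -/
def vec {r : ℕ} (q : Pat r) : Fin r → ℚ := fun l => if q l = true then 1 else 0

open Classical in
/-- the patterns in a subspace -/
noncomputable def XV {r : ℕ} (V : Submodule ℚ (Fin r → ℚ)) : Finset (Pat r) :=
  univ.filter fun q => vec q ∈ V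

/-- the span of a set of patterns -/
noncomputable def spn {r : ℕ} (σ : Finset (Pat r)) : Submodule ℚ (Fin r → ℚ) :=
  Submodule.span ℚ (vec '' (σ : Set (Pat r)))

/-- its dimension -/
noncomputable def dm {r : ℕ} (σ : Finset (Pat r)) : ℕ := Module.finrank ℚ (spn σ)

/-- The hypothesis on the statistic `g`: for every subspace `V` on which no coordinate vanishes
identically and the pairs of coordinates in `Δ` are different, either few patterns are in `V` or the
sum of `g` over them is `≤ 0`. -/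
def Adm {r : ℕ} (Δ : Fin r → Fin r → Prop) (g : Pat r → ℝ) : Prop :=
  ∀ V : Submodule ℚ (Fin r → ℚ), (∀ l, ∃ v ∈ V, v l ≠ 0) →
    (∀ l l', Δ l l' → ∃ v ∈ V, v l ≠ v l') →
    4 * (XV V).card ≤ 3 * 2 ^ Module.finrank ℚ V ∨ ∑ q ∈ XV V, g q ≤ 0

/-! ### bad events -/

/-- The labelled bad event. -/
def BadP (Q T : ℕ) (η δ : ℝ) {K r : ℕ} (b : Finset ℕ) (g : Pat r → ℝ) (Δ : Fin r → Fin r → Prop)
    (m : Fin r → ℕ) (β : Fin K × Pat r → ℕ) : Prop :=
  Typ Q T η (mg β) ∧ (∀ l, len (cut l β) = m l) ∧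
    (∀ l l', Δ l l' → ∃ x q, (∀ i ∈ b, i < bl Q x) ∧ 1 ≤ β (x, q) ∧ q l ≠ q l') ∧
    δ * (NS Q (mg β) b : ℝ) ≤ ∑ x : Fin K, if bl Q x ∈ b then ∑ q : Pat r, g q * β (x, q) else 0

/-- The statistic of sub-configurations `c` in the blocks `b`. -/
def stat (Q : ℕ) {K r : ℕ} (b : Finset ℕ) (g : Pat r → ℝ) (a : Fin K → ℕ)
    (c : Fin r → Fin K → ℕ) : ℝ :=
  ∑ x : Fin K, if bl Q x ∈ b then (a x : ℝ) * g (pat c x) else 0

/-- The bad event. -/
def BadC (Q T : ℕ) (η δ : ℝ) {K r : ℕ} (b : Finset ℕ) (g : Pat r → ℝ) (Δ : Fin r → Fin r → Prop)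
    (m : Fin r → ℕ) (a : Fin K → ℕ) : Prop :=
  Typ Q T η a ∧ (∀ x, bl Q x ∈ b → a x ≤ 1) ∧
    ∃ c : Fin r → Fin K → ℕ, (∀ l x, c l x ≤ a x) ∧ (∀ l, len (c l) = m l) ∧
      (∀ l l', Δ l l' → ∃ x, (∀ i ∈ b, i < bl Q x) ∧ c l x ≠ c l' x) ∧
      δ * (NS Q a b : ℝ) ≤ stat Q b g a c

/-! ### the resampling averages -/

/-- Adding a cycle of length `x + 1` to `a`: some set of total length `k1` without it or some set of
total length `k2` with it. -/
def MM {K : ℕ} (k1 k2 : ℕ) (x : Fin K) (a : Fin K → ℕ) : Prop :=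
  Good k1 a ∨ ((x : ℕ) + 1 ≤ k2 ∧ Good (k2 - ((x : ℕ) + 1)) a)

/-- Average over the cycles of `a` with index in `J`. -/
noncomputable def av {K : ℕ} (J : Finset (Fin K)) (k1 k2 : ℕ) (a : Fin K → ℕ) : ℝ≥0∞ :=
  ∑ x ∈ J, (a x : ℝ≥0∞) / ((∑ x ∈ J, a x : ℕ) : ℝ≥0∞) * ind (MM k1 k2 x (rmv a x))

/-- the indices of the lengths in `(A, B]` -/
def Jn (K A B : ℕ) : Finset (Fin K) := univ.filter fun x => A < (x : ℕ) + 1 ∧ (x : ℕ) + 1 ≤ B

/-- the fine blocks of the coarse block number `j` -/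
def cb (u M j : ℕ) : Finset ℕ := Ioc (u + j * M) (u + (j + 1) * M)

/-- statistic for comparing the types: `+1` at `τ`, `-1` at the complement of `τ` -/
noncomputable def g2 {r : ℕ} (τ : Pat r) (q : Pat r) : ℝ :=
  (if q = τ then 1 else 0) - (if q = (fun l => !(τ l)) then 1 else 0)

/-- statistic for one pattern -/
noncomputable def g1 {r : ℕ} (τ : Pat r) (q : Pat r) : ℝ := (if q = τ then 1 else 0) - (1 / 2) ^ r

/-- the targets: `k'` for type `true`, `k` for type `false` -/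
def tg {r : ℕ} (k k' : ℕ) (τ : Pat r) (l : Fin r) : ℕ := if τ l = true then k' else k

/-- The number of sets of cycles of `a` of total length `k` (cycles of equal length being
distinguished). -/
noncomputable def Nl {K : ℕ} (k : ℕ) (a : Fin K → ℕ) : ℝ≥0∞ :=
  ∑' c : Fin K → ℕ, ind (len c = k) * ((∏ x, (a x).choose (c x) : ℕ) : ℝ≥0∞)

/-- The exceptional configurations. -/
def Exc (Q T u M q r0 : ℕ) (η δ : ℝ) (k k' : ℕ) {K : ℕ} (a : Fin K → ℕ) : Prop :=
  (Good k a ∨ Good k' a) ∧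
    (¬ Typ Q T η a ∨ (∃ x : Fin K, Q ^ u < (x : ℕ) + 1 ∧ 2 ≤ a x) ∨
      (∃ j < q, ∃ r ≤ 2 * r0, ∃ τ τ' : Pat r,
        BadC Q T η δ (cb u M j) (g2 τ') (fun _ _ => False) (tg k k' τ) a) ∨
      (∃ j < q, ∃ τ τ' : Pat r0,
        BadC Q T η δ (cb u M j) (g1 τ') (fun l l' => l ≠ l') (tg k k' τ) a))

/-! ### restrictions of the sub-configurations -/

/-- the indices of the coarse block number `j` -/
def Jb (K Q u M j : ℕ) : Finset (Fin K) := univ.filter fun x => bl Q x ∈ cb u M j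

/-- restriction to the lengths above the fine block `v` -/
def rs (Q v : ℕ) {K : ℕ} (c : Fin K → ℕ) (x : Fin K) : ℕ := if v < bl Q x then c x else 0

/-- the sub-configurations of total length `k` or `k'` -/
def reps {K : ℕ} (k k' : ℕ) (a : Fin K → ℕ) : Finset (Fin K → ℕ) :=
  (Icc 0 a).filter fun c => len c = k ∨ len c = k'

/-- their restrictions -/
def DD (Q v : ℕ) {K : ℕ} (k k' : ℕ) (a : Fin K → ℕ) : Finset (Fin K → ℕ) :=
  (reps k k' a).image (rs Q v)

/-- all sets of total length `k1` use `x`, all sets of total length `k2` avoid `x` -/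
def UU {K : ℕ} (k1 k2 : ℕ) (a : Fin K → ℕ) (x : Fin K) : Prop :=
  (∀ c : Fin K → ℕ, (∀ y, c y ≤ a y) → len c = k1 → 1 ≤ c x) ∧
    (∀ c : Fin K → ℕ, (∀ y, c y ≤ a y) → len c = k2 → c x = 0)

open Classical in
/-- the fraction of the cycles of `a` with index in `J` which satisfy `P` -/
noncomputable def ph {K : ℕ} (J : Finset (Fin K)) (a : Fin K → ℕ) (P : Fin K → Prop) : ℝ :=
  (∑ x ∈ J, if P x then (a x : ℝ) else 0) / ((∑ x ∈ J, a x : ℕ) : ℝ)

end Pool.Agent.Lib.MP_134bf7_pr.RL
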