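import Pool.Agent.Lib.MP_134bf7_pr.RL.Zb

/-!
# RL-FM: removing one element from each of several disjoint sets

`fm`.  Expand `∏ t, ∑ x ∈ B t, a x = ∑ f ∈ Fintype.piFinset B, ∏ t, a (f t)` (`Finset.prod_univ_sum`); the
`f` are injective because the `B t` are disjoint; by `meckef` and `Z_sum` the left side is
`∑ f ∈ Fintype.piFinset B, (∏ t, μ (f t)) * Z μ (fun a => ind (C (adf a f)) * mon y (adf a f))`, and
`mon y (adf a f) = (∏ t, y (f t)) * mon y a`.  By `hM` the product `∏ t, μ (f t) * y (f t)` is at most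
`∏ t, M t`, so the left side is at most
`(∏ t, M t) * Z μ (fun a => (∑ f ∈ Fintype.piFinset B, ind (C (adf a f))) * mon y a)`, and by `hC` the
inner sum is at most `1`.
-/

namespace Pool.Agent.Lib.MP_134bf7_pr.RL

open Finset
open scoped ENNReal NNReal

variable {ι : Type*} [Fintype ι] [DecidableEq ι]

private theorem fm_mon (y : ι → ℝ≥0) {τ : Type*} [Fintype τ] (f : τ → ι) (a : ι → ℕ) :
    mon y (adf a f) = ((∏ t, y (f t) : ℝ≥0) : ℝ≥0∞) * mon y a := by
  unfold mon adf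
  rw [← ENNReal.coe_mul]
  congr 1
  have h1 : ∏ i, ∏ t ∈ univ.filter (fun t => f t = i), y (f t) = ∏ t, y (f t) :=
    Finset.prod_fiberwise univ f (fun t => y (f t))
  rw [← h1, ← Finset.prod_mul_distrib]
  refine Finset.prod_congr rfl fun i _ => ?_
  rw [pow_add, mul_comm]
  congr 1
  rw [Finset.prod_congr rfl (fun t ht => by rw [(Finset.mem_filter.1 ht).2] :
    ∀ t ∈ univ.filter (fun t => f t = i), y (f t) = y i), Finset.prod_const]

theorem fm (μ y : ι → ℝ≥0) {τ : Type*} [Fintype τ] [DecidableEq τ] (B : τ → Finset ι)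
    (hB : ∀ t t', t ≠ t' → Disjoint (B t) (B t')) (C : (ι → ℕ) → Prop)
    (hC : ∀ (a : ι → ℕ) (f f' : τ → ι), (∀ t, f t ∈ B t) → (∀ t, f' t ∈ B t) →
      C (adf a f) → C (adf a f') → f = f')
    (M : τ → ℝ≥0) (hM : ∀ t, ∀ x ∈ B t, μ x * y x ≤ M t) :
    Z μ (fun a => (∏ t, ((∑ x ∈ B t, a x : ℕ) : ℝ≥0∞)) * (ind (C a) * mon y a)) ≤
      ((∏ t, M t : ℝ≥0) : ℝ≥0∞) * Z μ (mon y) := by
  have h1 : Z μ (fun a => (∏ t, ((∑ x ∈ B t, a x : ℕ) : ℝ≥0∞)) * (ind (C a) * mon y a)) =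
      ∑ f ∈ Fintype.piFinset B, Z μ (fun a => (∏ t, (a (f t) : ℝ≥0∞)) * (ind (C a) * mon y a)) := by
    rw [← Z_sum]
    congr 1
    funext a
    rw [← Finset.sum_mul]
    congr 1
    have h0 := Finset.prod_univ_sum B (fun (_ : τ) (x : ι) => (a x : ℝ≥0∞))
    rw [← h0]
    refine Finset.prod_congr rfl fun t _ => ?_
    push_cast
    rfl
  have h2 : ∀ f ∈ Fintype.piFinset B,
      Z μ (fun a => (∏ t, (a (f t) : ℝ≥0∞)) * (ind (C a) * mon y a)) ≤
      ((∏ t, M t : ℝ≥0) : ℝ≥0∞) * Z μ (fun a => ind (C (adf a f)) * mon y a) := by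
    intro f hf
    rw [Fintype.mem_piFinset] at hf
    have hinj : Function.Injective f := by
      intro t t' h
      by_contra hne
      exact (Finset.disjoint_left.1 (hB t t' hne)) (hf t) (h ▸ hf t')
    rw [meckef μ f hinj (fun a => ind (C a) * mon y a)]
    have h3 : (fun a => ind (C (adf a f)) * mon y (adf a f)) =
        fun a => ((∏ t, y (f t) : ℝ≥0) : ℝ≥0∞) * (ind (C (adf a f)) * mon y a) := by
      funext a
      rw [fm_mon]
      ring
    rw [h3, Z_const_mul, ← mul_assoc]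
    refine mul_le_mul_left ?_ _
    have h4 : (∏ t, (μ (f t) : ℝ≥0∞)) * ((∏ t, y (f t) : ℝ≥0) : ℝ≥0∞) =
        ((∏ t, (μ (f t) * y (f t)) : ℝ≥0) : ℝ≥0∞) := by
      rw [Finset.prod_mul_distrib, ENNReal.coe_mul]
      push_cast
      rfl
    rw [h4]
    exact ENNReal.coe_le_coe.2 (Finset.prod_le_prod' fun t _ => hM t _ (hf t))
  rw [h1]
  refine (Finset.sum_le_sum h2).trans ?_
  rw [← Finset.mul_sum, ← Z_sum]
  refine mul_le_mul_right (Z_mono μ fun a => ?_) _
  rw [← Finset.sum_mul]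
  have h5 : ∑ f ∈ Fintype.piFinset B, ind (C (adf a f)) ≤ 1 := by
    by_cases hex : ∃ f ∈ Fintype.piFinset B, C (adf a f)
    · obtain ⟨f, hf, hCf⟩ := hex
      rw [Finset.sum_eq_single f]
      · exact ind_le_one _
      · intro f' hf' hne
        rw [Fintype.mem_piFinset] at hf hf'
        exact ind_false fun h => hne (hC a f' f hf' hf h hCf)
      · intro h
        exact absurd hf h
    · rw [Finset.sum_eq_zero]
      · exact zero_le
      · intro f hf
        exact ind_false fun h => hex ⟨f, hf, h⟩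
  calc (∑ f ∈ Fintype.piFinset B, ind (C (adf a f))) * mon y a ≤ 1 * mon y a :=
        mul_le_mul_left h5 _
    _ = mon y a := one_mul _

/-- one set -/
theorem fm_one (μ y : ι → ℝ≥0) (B : Finset ι) (C : (ι → ℕ) → Prop)
    (hC : ∀ (a : ι → ℕ) (x x' : ι), x ∈ B → x' ∈ B → C (ad a x) → C (ad a x') → x = x')
    (M : ℝ≥0) (hM : ∀ x ∈ B, μ x * y x ≤ M) :
    Z μ (fun a => ((∑ x ∈ B, a x : ℕ) : ℝ≥0∞) * (ind (C a) * mon y a)) ≤
      (M : ℝ≥0∞) * Z μ (mon y) := by
  have had : ∀ (a : ι → ℕ) (f : Unit → ι), adf a f = ad a (f ()) := by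
    intro a f
    funext i
    unfold adf ad
    by_cases h : i = f ()
    · rw [if_pos h]
      simp [h]
    · rw [if_neg h]
      have : ∀ t : Unit, f t ≠ i := fun t h' => h h'.symm
      simp [this]
  have h := fm μ y (τ := Unit) (fun _ => B) (fun t t' h => absurd (Subsingleton.elim t t') h) C
    (fun a f f' hf hf' h1 h2 => by
      rw [had] at h1 h2
      funext t
      exact hC a (f ()) (f' ()) (hf ()) (hf' ()) h1 h2)
    (fun _ => M) (fun _ => hM)
  simpa using h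

end Pool.Agent.Lib.MP_134bf7_pr.RL
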