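import Pool.Agent.Lib.MP_134bf7_pr.RL.Defs

/-!
# RL-Gr: a basis adapted to a decreasing chain of sets of patterns

By downward induction on `i` (from `T + 1`, where `σ i = ∅`, to `1`) there are linearly independent
`S i ⊆ σ i` (more exactly: the vectors `vec q`, `q ∈ S i`, are linearly independent) which span `spn (σ i)`,
with `S (i + 1) ⊆ S i`: given `S (i + 1) ⊆ σ (i + 1) ⊆ σ i` extend it to a maximal independent subset of
`σ i` (`exists_linearIndepOn_extension`, or take a maximal one in the finite set of the independent
subsets of `σ i` which contain `S (i + 1)`).  Take `S = S 1`.  For `i ≥ 1` the set `{q ∈ S | q ∈ σ i}` is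
independent and contained in `σ i`, so it has at most `dm (σ i)` elements; it contains `S i`, which has
`dm (σ i)` elements.  `vec` is injective.
-/

namespace Pool.Agent.Lib.MP_134bf7_pr.RL

open Finset

private theorem card_eq_finrank {r : ℕ} {S : Finset (Pat r)}
    (hS : LinearIndependent ℚ (fun q : S => vec q.1)) :
    Module.finrank ℚ (Submodule.span ℚ (vec '' (S : Set (Pat r)))) = S.card := by
  have h := finrank_span_eq_card hS
  have e : Set.range (fun q : S => vec q.1) = vec '' (S : Set (Pat r)) := by
    ext v
    constructor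
    · rintro ⟨⟨q, hq⟩, rfl⟩
      exact ⟨q, hq, rfl⟩
    · rintro ⟨q, hq, rfl⟩
      exact ⟨⟨q, hq⟩, rfl⟩
  rw [e, Fintype.card_coe] at h
  exact h

private theorem card_le_dm {r : ℕ} {S σ : Finset (Pat r)} (hSσ : S ⊆ σ)
    (hS : LinearIndependent ℚ (fun q : S => vec q.1)) : S.card ≤ dm σ := by
  rw [← card_eq_finrank hS]
  unfold dm spn
  exact Submodule.finrank_mono (Submodule.span_mono (Set.image_mono (by exact_mod_cast hSσ)))

private theorem indep_mono {r : ℕ} {S S' : Finset (Pat r)} (h : S ⊆ S')
    (hS : LinearIndependent ℚ (fun q : S' => vec q.1)) :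
    LinearIndependent ℚ (fun q : S => vec q.1) := by
  have h1 := hS.comp (fun q : S => (⟨q.1, h q.2⟩ : S')) (fun a b hab => by
    apply Subtype.ext
    exact congrArg (fun z : S' => z.1) hab)
  exact h1

theorem greedy {r : ℕ} (σ : ℕ → Finset (Pat r)) (hσ : ∀ i j, 1 ≤ i → i ≤ j → σ j ⊆ σ i) (T : ℕ)
    (hT : ∀ i, T < i → σ i = ∅) :
    ∃ S : Finset (Pat r), S ⊆ σ 1 ∧ LinearIndependent ℚ (fun q : S => vec q.1) ∧
      ∀ i, 1 ≤ i → (S.filter fun q => q ∈ σ i).card = dm (σ i) := by
  have key : ∀ n, n ≤ T → ∃ S : Finset (Pat r), S ⊆ σ (T + 1 - n) ∧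
      LinearIndependent ℚ (fun q : S => vec q.1) ∧
      ∀ j, T + 1 - n ≤ j → (S.filter fun q => q ∈ σ j).card = dm (σ j) := by
    intro n
    induction n with
    | zero =>
      intro _
      refine ⟨∅, Finset.empty_subset _, ?_, fun j hj => ?_⟩
      · have : IsEmpty (∅ : Finset (Pat r)) := by
          constructor
          rintro ⟨q, hq⟩
          exact absurd hq (Finset.notMem_empty q)
        exact linearIndependent_empty_type
      · rw [hT j (by omega), Finset.filter_empty, Finset.card_empty]
        unfold dm spn
        rw [Finset.coe_empty, Set.image_empty, Submodule.span_empty, finrank_bot]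
    | succ n ih =>
      intro hn
      obtain ⟨S, hS, hli, hc⟩ := ih (by omega)
      have hsub : σ (T + 1 - n) ⊆ σ (T + 1 - (n + 1)) := hσ _ _ (by omega) (by omega)
      have hli' : LinearIndepOn ℚ (vec (r := r)) (S : Set (Pat r)) := hli
      obtain ⟨b, hb1, hb2, hb3, hb4⟩ := exists_linearIndepOn_extension hli'
        (t := (σ (T + 1 - (n + 1)) : Set (Pat r))) (by exact_mod_cast hS.trans hsub)
      classical
      set B : Finset (Pat r) := (σ (T + 1 - (n + 1))).filter (fun q => q ∈ b) with hB
      have hBb : (B : Set (Pat r)) = b := by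
        ext q
        rw [Finset.mem_coe, hB, Finset.mem_filter]
        exact ⟨fun h => h.2, fun h => ⟨by exact_mod_cast hb1 h, h⟩⟩
      have hBli : LinearIndependent ℚ (fun q : B => vec q.1) := by
        have h1 : LinearIndepOn ℚ (vec (r := r)) (B : Set (Pat r)) := by rw [hBb]; exact hb4
        exact h1
      have hSB : S ⊆ B := by
        intro q hq
        have h1 : q ∈ (B : Set (Pat r)) := by rw [hBb]; exact hb2 (by exact_mod_cast hq)
        exact_mod_cast h1
      refine ⟨B, Finset.filter_subset _ _, hBli, fun j hj => ?_⟩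
      by_cases hj' : T + 1 - n ≤ j
      · apply le_antisymm
        · exact card_le_dm (fun q hq => (Finset.mem_filter.1 hq).2)
            (indep_mono (Finset.filter_subset _ _) hBli)
        · rw [← hc j hj']
          exact Finset.card_le_card (Finset.filter_subset_filter _ hSB)
      · have hji : j = T + 1 - (n + 1) := by omega
        subst hji
        have e1 : (B.filter fun q => q ∈ σ (T + 1 - (n + 1))) = B := by
          rw [Finset.filter_eq_self]
          intro q hq
          rw [hB, Finset.mem_filter] at hq
          exact hq.1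
        rw [e1, ← card_eq_finrank hBli, hBb]
        have e2 : Submodule.span ℚ (vec '' b) =
            Submodule.span ℚ (vec '' (σ (T + 1 - (n + 1)) : Set (Pat r))) := by
          apply le_antisymm
          · exact Submodule.span_mono (Set.image_mono hb1)
          · rw [Submodule.span_le]
            exact hb3
        unfold dm spn
        rw [e2]
  obtain ⟨S, hS, hli, hc⟩ := key T le_rfl
  rw [show T + 1 - T = 1 by omega] at hS hc
  exact ⟨S, hS, hli, hc⟩

theorem dm_le {r : ℕ} (σ : Finset (Pat r)) : dm σ ≤ r := by
  unfold dm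
  have h := Submodule.finrank_le (spn σ)
  rwa [Module.finrank_fin_fun] at h

end Pool.Agent.Lib.MP_134bf7_pr.RL
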