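import Pool.Agent.Lib.MP_134bf7_pr.RL.Defs

/-!
# RL-HaA: numbers

`0.6931471803 < log 2 < 0.6931471808` (`Real.log_two_gt_d9`, `Real.log_two_lt_d9`).
`log zz = - log (log 2)`.  `al_eq`: `zz * log zz - zz + 1 = 1 - (1 + log (log 2)) / log 2`.
`log_zz_bounds`: `1.4426 < zz < 1.4427`; bound `log` by the exponential series
(`0.36 < log 1.4426`, i.e. `exp 0.36 < 1.4426`; `Real.exp_bound'`, or `exp (0.36) = exp (0.09) ^ 4`).
`al_bounds`: `al = 1 - zz * (1 - log zz) = 0.0860713…`: `0 < al < 1/10` needs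
`0.3069 < log zz < 0.3761` only.
-/

namespace Pool.Agent.Lib.MP_134bf7_pr.RL

open Finset Filter

theorem zz_log2 : zz * Real.log 2 = 1 := by
  unfold zz
  have : Real.log 2 ≠ 0 := (Real.log_pos (by norm_num)).ne'
  field_simp

private theorem zz_fine : (1.4426 : ℝ) < zz ∧ zz < 1.4427 := by
  unfold zz
  have h1 := Real.log_two_gt_d9
  have h2 := Real.log_two_lt_d9
  have h0 : (0 : ℝ) < Real.log 2 := by linarith
  constructor
  · rw [lt_div_iff₀ h0]
    nlinarith
  · rw [div_lt_iff₀ h0]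
    nlinarith

theorem zz_bounds : (1.44 : ℝ) < zz ∧ zz < 1.45 := by
  have h := zz_fine
  constructor <;> linarith [h.1, h.2]

private theorem exp_lo : Real.exp 0.36 < 1.4426 := by
  have h := Real.exp_bound' (x := (0.36 : ℝ)) (by norm_num) (by norm_num) (n := 5) (by norm_num)
  have h2 : ∑ m ∈ Finset.range 5, (0.36 : ℝ) ^ m / (m.factorial : ℝ) +
      (0.36 : ℝ) ^ 5 * (5 + 1) / ((Nat.factorial 5 : ℕ) * 5) < 1.4426 := by
    simp [Finset.sum_range_succ, Nat.factorial]
    norm_num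
  exact lt_of_le_of_lt h h2

private theorem exp_hi : (1.4427 : ℝ) < Real.exp 0.37 := by
  have h := Real.sum_le_exp_of_nonneg (x := (0.37 : ℝ)) (by norm_num) 5
  have h2 : (1.4427 : ℝ) < ∑ i ∈ Finset.range 5, (0.37 : ℝ) ^ i / (i.factorial : ℝ) := by
    simp [Finset.sum_range_succ, Nat.factorial]
    norm_num
  exact lt_of_lt_of_le h2 h

private theorem log_fine : (0.36 : ℝ) < Real.log zz ∧ Real.log zz < 0.37 := by
  have h := zz_fine
  have h0 : (0 : ℝ) < zz := by linarith [h.1]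
  constructor
  · rw [Real.lt_log_iff_exp_lt h0]
    exact exp_lo.trans h.1
  · rw [Real.log_lt_iff_lt_exp h0]
    exact h.2.trans exp_hi

theorem log_zz_bounds : (0.3 : ℝ) < Real.log zz ∧ Real.log zz < 0.4 := by
  have h := log_fine
  constructor <;> linarith [h.1, h.2]

theorem al_eq : al = zz * Real.log zz - zz + 1 := by
  unfold al zz
  rw [one_div, Real.log_inv]
  have : Real.log 2 ≠ 0 := (Real.log_pos (by norm_num)).ne'
  field_simp
  ring

theorem al_bounds : 0 < al ∧ al < 1 / 10 := by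
  have h := zz_fine
  have hl := log_fine
  rw [al_eq]
  constructor
  · nlinarith [h.1, h.2, hl.1, hl.2]
  · nlinarith [h.1, h.2, hl.1, hl.2]

end Pool.Agent.Lib.MP_134bf7_pr.RL
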