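import Pool.Agent.Lib.MP_134bf7_pr.RL.Defs

/-!
# RL-LAb: a linear form on the cube which is mostly 0 or 1

`cube`.  Let `f s = ∑ j, c j * s j`, `s ∈ {0,1} ^ d`.  If two coefficients `x = c j`, `y = c j'` (`j ≠ j'`) are
nonzero, group the `s` by the other coordinates, in groups of four, with values
`f, f + x, f + y, f + x + y`; if all four were in `{0,1}` then (`f = 0` and `x = y = 1`) or
(`f = 1` and `x = y = -1`), and `f + x + y ∈ {2, -1}`, a contradiction; so at least one of each four is
bad and at most `3/4` of the `s` are good.  (For a formal proof: the involutions `s ↦ s` with the `j`-th,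
`j'`-th, or both bits flipped; the good set `G` is such that every `s` has one of the four images
outside `G`: the four images of the complement cover the cube, so `2 ^ d ≤ 4 * |Gᶜ|`.)
So there is at most one nonzero coefficient `x = c j`; the values are `0` (if `s j = 0`) and `x`
(if `s j = 1`); if `x ≠ 1` exactly one half of the `s` is good (flip the `j`-th bit), and `3 * 2 ^ d < 2 * 2 ^ d`
is false.  So `c = 0` or `c = Pi.single j 1`.
-/

namespace Pool.Agent.Lib.MP_134bf7_pr.RL

open Finset

private def LAb_F {d : ℕ} (c : Fin d → ℚ) (s : Fin d → Bool) : ℚ :=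
  ∑ j, c j * (if s j = true then 1 else 0)

private def LAb_fl {d : ℕ} (j : Fin d) (s : Fin d → Bool) : Fin d → Bool :=
  Function.update s j (!s j)

private theorem LAb_fl_fl {d : ℕ} (j : Fin d) (s : Fin d → Bool) :
    LAb_fl j (LAb_fl j s) = s := by
  unfold LAb_fl
  simp

private theorem LAb_inj {d : ℕ} (j : Fin d) : Function.Injective (LAb_fl j) := by
  intro s t h
  have := congrArg (LAb_fl j) h
  rwa [LAb_fl_fl, LAb_fl_fl] at this

private theorem LAb_F_fl {d : ℕ} (c : Fin d → ℚ) (j : Fin d) (s : Fin d → Bool) :
    LAb_F c (LAb_fl j s) = LAb_F c s + c j * (if s j = true then -1 else 1) := by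
  unfold LAb_F
  rw [← Finset.add_sum_erase _ _ (mem_univ j)]
  rw [← Finset.add_sum_erase (s := univ) (f := fun j => c j * (if s j = true then 1 else 0))
    (a := j) (mem_univ j)]
  have e : ∑ i ∈ univ.erase j, c i * (if LAb_fl j s i = true then 1 else 0) =
      ∑ i ∈ univ.erase j, c i * (if s i = true then 1 else 0) := by
    refine Finset.sum_congr rfl fun i hi => ?_
    have hij : i ≠ j := (Finset.mem_erase.mp hi).1
    unfold LAb_fl
    rw [Function.update_of_ne hij]
  rw [e]
  have e2 : LAb_fl j s j = !s j := by
    unfold LAb_fl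
    rw [Function.update_self]
  rw [e2]
  generalize (∑ i ∈ univ.erase j, c i * (if s i = true then (1 : ℚ) else 0)) = S
  cases s j
  · simp only [Bool.not_false, if_true, Bool.false_eq_true, if_false]
    ring
  · simp only [Bool.not_true, if_true, Bool.false_eq_true, if_false]
    ring

private theorem LAb_card {d : ℕ} (B : Finset (Fin d → Bool)) (g : (Fin d → Bool) → (Fin d → Bool))
    (hg : Function.Injective g) : (univ.filter fun s => g s ∈ B).card ≤ B.card := by
  refine Finset.card_le_card_of_injOn g ?_ (fun _ _ _ _ h => hg h)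
  intro s hs
  exact (Finset.mem_filter.mp hs).2

theorem cube {d : ℕ} (c : Fin d → ℚ)
    (h : 3 * 2 ^ d < 4 * (univ.filter fun s : Fin d → Bool =>
      (∑ j, c j * (if s j = true then 1 else 0)) = 0 ∨
      (∑ j, c j * (if s j = true then 1 else 0)) = 1).card) :
    c = 0 ∨ ∃ j, c = Pi.single j 1 := by
  classical
  set G := univ.filter fun s : Fin d → Bool => LAb_F c s = 0 ∨ LAb_F c s = 1 with hG
  set B := univ.filter fun s : Fin d → Bool => ¬ (LAb_F c s = 0 ∨ LAb_F c s = 1) with hB
  have h' : 3 * 2 ^ d < 4 * G.card := h
  have hsum : G.card + B.card = 2 ^ d := by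
    have := Finset.card_filter_add_card_filter_not (s := (univ : Finset (Fin d → Bool)))
      (fun s => LAb_F c s = 0 ∨ LAb_F c s = 1)
    rw [Finset.card_univ, Fintype.card_fun, Fintype.card_bool, Fintype.card_fin] at this
    exact this
  have hmem : ∀ s, s ∈ B ↔ ¬ (LAb_F c s = 0 ∨ LAb_F c s = 1) := by
    intro s
    simp [hB]
  have hsg : ∀ (j : Fin d) (s : Fin d → Bool), c j ≠ 0 →
      c j * (if s j = true then (-1 : ℚ) else 1) ≠ 0 := by
    intro j s hj
    refine mul_ne_zero hj ?_
    split_ifs <;> norm_num
  -- at most one nonzero coefficient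
  have h1 : ∀ j j', c j ≠ 0 → c j' ≠ 0 → j = j' := by
    intro j j' hj hj'
    by_contra hne
    have hcov : (univ : Finset (Fin d → Bool)) ⊆
        ((univ.filter fun s => s ∈ B) ∪ (univ.filter fun s => LAb_fl j s ∈ B)) ∪
        ((univ.filter fun s => LAb_fl j' s ∈ B) ∪
          (univ.filter fun s => LAb_fl j (LAb_fl j' s) ∈ B)) := by
      intro s _
      by_contra hc
      simp only [Finset.mem_union, Finset.mem_filter, mem_univ, true_and, not_or] at hc
      obtain ⟨⟨c1, c2⟩, c3, c4⟩ := hc
      have hm : ∀ t, t ∉ B → LAb_F c t = 0 ∨ LAb_F c t = 1 := by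
        intro t ht
        by_contra hcc
        exact ht ((hmem t).mpr hcc)
      have a1 := hm _ c1
      have a2 := hm _ c2
      have a3 := hm _ c3
      have a4 := hm _ c4
      have f1 := LAb_F_fl c j s
      have f2 := LAb_F_fl c j' s
      have f3 := LAb_F_fl c j (LAb_fl j' s)
      have e : LAb_fl j' s j = s j := by
        unfold LAb_fl
        rw [Function.update_of_ne hne]
      rw [e, f2] at f3
      have p0 := hsg j s hj
      have q0 := hsg j' s hj'
      set p := c j * (if s j = true then (-1 : ℚ) else 1)
      set q := c j' * (if s j' = true then (-1 : ℚ) else 1)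
      set v := LAb_F c s
      rw [f1] at a2
      rw [f2] at a3
      rw [f3] at a4
      rcases a1 with b1 | b1 <;> rcases a2 with b2 | b2 <;> rcases a3 with b3 | b3 <;>
        rcases a4 with b4 | b4 <;>
        first
          | exact p0 (by linarith)
          | exact q0 (by linarith)
          | linarith
    have hle := Finset.card_le_card hcov
    have u1 := Finset.card_union_le
      ((univ.filter fun s => s ∈ B) ∪ (univ.filter fun s => LAb_fl j s ∈ B))
      ((univ.filter fun s => LAb_fl j' s ∈ B) ∪
          (univ.filter fun s => LAb_fl j (LAb_fl j' s) ∈ B))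
    have u2 := Finset.card_union_le (univ.filter fun s => s ∈ B)
      (univ.filter fun s => LAb_fl j s ∈ B)
    have u3 := Finset.card_union_le (univ.filter fun s => LAb_fl j' s ∈ B)
      (univ.filter fun s => LAb_fl j (LAb_fl j' s) ∈ B)
    have v0 := LAb_card B (fun s => s) (fun _ _ h => h)
    have v1 := LAb_card B (LAb_fl j) (LAb_inj j)
    have v2 := LAb_card B (LAb_fl j') (LAb_inj j')
    have v3 := LAb_card B (fun s => LAb_fl j (LAb_fl j' s))
      (fun _ _ h => LAb_inj j' (LAb_inj j h))
    have hu : (univ : Finset (Fin d → Bool)).card = 2 ^ d := by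
      rw [Finset.card_univ]; simp
    rw [hu] at hle
    omega
  by_cases hc : c = 0
  · exact Or.inl hc
  right
  obtain ⟨j, hj⟩ : ∃ j, c j ≠ 0 := by
    by_contra hcon
    apply hc
    funext j
    by_contra hne
    exact hcon ⟨j, hne⟩
  have hz : ∀ i, i ≠ j → c i = 0 := by
    intro i hi
    by_contra hne
    exact hi (h1 i j hne hj)
  refine ⟨j, ?_⟩
  have hF : ∀ s, LAb_F c s = c j * (if s j = true then 1 else 0) := by
    intro s
    unfold LAb_F
    refine Finset.sum_eq_single j (fun i _ hi => by rw [hz i hi, zero_mul]) ?_
    intro hni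
    exact absurd (mem_univ j) hni
  have hcj : c j = 1 := by
    by_contra hne
    have hGB : G.card ≤ B.card := by
      refine Finset.card_le_card_of_injOn (LAb_fl j) ?_ (fun _ _ _ _ h => LAb_inj j h)
      intro s hs
      have hs' : LAb_F c s = 0 ∨ LAb_F c s = 1 := (Finset.mem_filter.mp hs).2
      rw [Finset.mem_coe, hmem, LAb_F_fl]
      rw [hF s] at hs' ⊢
      have hsj : s j = false := by
        by_contra hcon
        have : s j = true := by
          cases hb : s j
          · exact absurd hb hcon
          · rfl
        rw [this] at hs'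
        simp only [if_true, mul_one] at hs'
        rcases hs' with h0 | h0
        · exact hj h0
        · exact hne h0
      rw [hsj]
      simp only [Bool.false_eq_true, if_false, mul_zero, mul_one, zero_add]
      rintro (h0 | h0)
      · exact hj h0
      · exact hne h0
    omega
  funext i
  by_cases hi : i = j
  · rw [hi, hcj, Pi.single_eq_same]
  · rw [hz i hi, Pi.single_eq_of_ne hi]

end Pool.Agent.Lib.MP_134bf7_pr.RL
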