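import Pool.Agent.Lib.MP_134bf7_pr.RL.LAa
import Pool.Agent.Lib.MP_134bf7_pr.RL.LAb

/-!
# RL-LA: 0/1 vectors in a subspace

Let `d = finrank V`, `π`, `c` from `pivots`.
* `card_XV_le`: a pattern `q` with `vec q ∈ V` is determined by its values `q (π j)` at the pivots (the map
  `q ↦ (j ↦ q (π j))` is injective on `XV V`): at most `2 ^ d`.
* `bigV`: for each `l`, the map `q ↦ (j ↦ q (π j))` sends `XV V` injectively into the set of the
  `s : Fin d → Bool` with `∑ j, c l j * s j ∈ {0, 1}` (this number is `vec q l`), so by `cube`, for every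
  `l`, `c l = 0` or `c l = Pi.single j 1` for some `j = ρ l`.  `c l = 0` would give `v l = 0` on `V`, excluded by
  `h0`.  So `v l = v (π (ρ l))` on `V`.  With `w = 1` in the last part of `pivots`: the all-ones vector is
  in `V` (`∑ j, c l j * 1 = 1`).  If moreover any two different coordinates are different on `V`, then
  `π (ρ l) = l` for all `l`, so `c l = Pi.single (ρ l) 1` and every vector `v` is
  `fun l => ∑ j, c l j * w j` with `w j = v (π j)`: `V = ⊤`.
-/

namespace Pool.Agent.Lib.MP_134bf7_pr.RL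

open Finset

private theorem vec_inj {r : ℕ} {q q' : Pat r} {l : Fin r} (h : vec q l = vec q' l) :
    q l = q' l := by
  unfold vec at h
  cases h1 : q l <;> cases h2 : q' l <;> rw [h1, h2] at h
  · norm_num at h
  · norm_num at h

private theorem mem_XV {r : ℕ} {V : Submodule ℚ (Fin r → ℚ)} {q : Pat r} :
    q ∈ XV V ↔ vec q ∈ V := by
  classical
  unfold XV
  rw [Finset.mem_filter]
  exact ⟨fun h => h.2, fun h => ⟨Finset.mem_univ _, h⟩⟩

private theorem piv_inj {r d : ℕ} {V : Submodule ℚ (Fin r → ℚ)} {π : Fin d → Fin r}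
    {c : Fin r → Fin d → ℚ} (hv : ∀ v ∈ V, ∀ l, v l = ∑ j, c l j * v (π j)) :
    Set.InjOn (fun (q : Pat r) (j : Fin d) => q (π j)) (XV V : Set (Pat r)) := by
  intro q hq q' hq' h
  funext l
  apply vec_inj
  rw [hv _ (mem_XV.1 hq) l, hv _ (mem_XV.1 hq') l]
  refine Finset.sum_congr rfl fun j _ => ?_
  have h1 : q (π j) = q' (π j) := congrFun h j
  unfold vec
  rw [h1]

theorem card_XV_le {r : ℕ} (V : Submodule ℚ (Fin r → ℚ)) :
    (XV V).card ≤ 2 ^ Module.finrank ℚ V := by
  classical
  obtain ⟨π, c, hπ, hv, hc, hw⟩ := pivots V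
  calc (XV V).card = ((XV V).image (fun (q : Pat r) (j : Fin (Module.finrank ℚ V)) => q (π j))).card :=
        (Finset.card_image_of_injOn (piv_inj hv)).symm
    _ ≤ (Finset.univ : Finset (Fin (Module.finrank ℚ V) → Bool)).card :=
        Finset.card_le_card (Finset.subset_univ _)
    _ = 2 ^ Module.finrank ℚ V := by
        rw [Finset.card_univ, Fintype.card_fun, Fintype.card_bool, Fintype.card_fin]

theorem bigV {r : ℕ} (V : Submodule ℚ (Fin r → ℚ)) (h0 : ∀ l, ∃ v ∈ V, v l ≠ 0)
    (hb : 3 * 2 ^ Module.finrank ℚ V < 4 * (XV V).card) :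
    (fun _ => (1 : ℚ)) ∈ V ∧ ((∀ l l', l ≠ l' → ∃ v ∈ V, v l ≠ v l') → V = ⊤) := by
  classical
  obtain ⟨π, c, hπ, hv, hc, hw⟩ := pivots V
  have hcl : ∀ l, ∃ j, c l = Pi.single j 1 := by
    intro l
    have hle : (XV V).card ≤ (univ.filter fun s : Fin (Module.finrank ℚ V) → Bool =>
        (∑ j, c l j * (if s j = true then 1 else 0)) = 0 ∨
        (∑ j, c l j * (if s j = true then 1 else 0)) = 1).card := by
      rw [← Finset.card_image_of_injOn (piv_inj hv)]
      refine Finset.card_le_card fun s hs => ?_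
      obtain ⟨q, hq, rfl⟩ := Finset.mem_image.1 hs
      refine Finset.mem_filter.2 ⟨Finset.mem_univ _, ?_⟩
      have h1 : (∑ j, c l j * (if q (π j) = true then 1 else 0)) = vec q l :=
        (hv _ (mem_XV.1 hq) l).symm
      rw [h1]
      unfold vec
      by_cases h2 : q l = true
      · right; rw [if_pos h2]
      · left; rw [if_neg h2]
    rcases cube (c l) (by omega) with h1 | h1
    · exfalso
      obtain ⟨v, hvV, hvl⟩ := h0 l
      apply hvl
      rw [hv v hvV l, h1]
      simp
    · exact h1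
  choose ρ hρ using hcl
  have hsum : ∀ (w : Fin (Module.finrank ℚ V) → ℚ) (l : Fin r), ∑ j, c l j * w j = w (ρ l) := by
    intro w l
    rw [hρ l, Finset.sum_eq_single (ρ l)]
    · rw [Pi.single_eq_same, one_mul]
    · intro j _ hj
      rw [Pi.single_eq_of_ne hj, zero_mul]
    · intro h
      exact absurd (Finset.mem_univ _) h
  refine ⟨?_, fun hne => ?_⟩
  · have h1 := hw (fun _ => 1)
    have h2 : (fun l => ∑ j, c l j * (fun _ : Fin (Module.finrank ℚ V) => (1 : ℚ)) j) =
        fun _ => (1 : ℚ) := by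
      funext l
      exact hsum (fun _ => 1) l
    rwa [h2] at h1
  · have hπρ : ∀ l, π (ρ l) = l := by
      intro l
      by_contra hcon
      obtain ⟨v, hvV, hvl⟩ := hne l (π (ρ l)) (fun h => hcon h.symm)
      apply hvl
      rw [hv v hvV l]
      exact hsum (fun j => v (π j)) l
    rw [eq_top_iff]
    intro v _
    have h1 := hw (fun j => v (π j))
    have h2 : (fun l => ∑ j, c l j * (fun j => v (π j)) j) = v := by
      funext l
      rw [hsum]
      show v (π (ρ l)) = v l
      rw [hπρ]
    rwa [h2] at h1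

end Pool.Agent.Lib.MP_134bf7_pr.RL
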