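import Pool.Agent.Lib.MP_134bf7_pr.RL.Defs

/-!
# RL-LAa: pivot coordinates of a subspace

Let `d = finrank V`.  The restrictions to `V` of the coordinate functions span the dual of `V` (a vector of `V`
on which all vanish is `0`), so `d` of them form a basis of the dual of `V`: pivots `π 0, …, π (d - 1)`,
and `v ↦ (v (π j))_j` is an isomorphism `V → ℚ ^ d`; `c l` expresses the `l`-th coordinate function in
terms of the pivots.  (Alternatively: induction on `r`, or by taking a set of coordinates of minimal
size such that `v ↦ (v (π j))_j` is injective on `V`: it is then surjective, as otherwise, if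
`∑ j, λ j * v (π j) = 0` on `V` with `λ j0 ≠ 0`, the coordinate `π j0` could be dropped.)
For `w : Fin d → ℚ` the vector `v ∈ V` with `v (π j) = w j` is `fun l => ∑ j, c l j * w j`.
-/

namespace Pool.Agent.Lib.MP_134bf7_pr.RL

open Finset

theorem pivots {r : ℕ} (V : Submodule ℚ (Fin r → ℚ)) :
    ∃ (π : Fin (Module.finrank ℚ V) → Fin r) (c : Fin r → Fin (Module.finrank ℚ V) → ℚ),
      Function.Injective π ∧ (∀ v ∈ V, ∀ l, v l = ∑ j, c l j * v (π j)) ∧
      (∀ j, c (π j) = Pi.single j 1) ∧ (∀ w : Fin (Module.finrank ℚ V) → ℚ,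
        (fun l => ∑ j, c l j * w j) ∈ V) := by
  classical
  let f : Fin r → Module.Dual ℚ V := fun l => (LinearMap.proj l : (Fin r → ℚ) →ₗ[ℚ] ℚ).comp V.subtype
  have hf : ∀ l (v : V), f l v = (v : Fin r → ℚ) l := fun l v => rfl
  -- the coordinate functions span the dual
  have hspan : Submodule.span ℚ (Set.range f) = ⊤ := by
    by_contra hne
    obtain ⟨φ, hφ0, hφ⟩ := Submodule.exists_dual_map_eq_bot_of_lt_top (lt_top_iff_ne_top.mpr hne)
      inferInstance
    obtain ⟨v, hv⟩ := (Module.evalEquiv ℚ V).surjective φ
    have hv0 : v = 0 := by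
      apply Subtype.ext
      funext l
      have h1 : φ (f l) = 0 := by
        have h2 : φ (f l) ∈ (Submodule.span ℚ (Set.range f)).map φ :=
          Submodule.mem_map_of_mem (Submodule.subset_span ⟨l, rfl⟩)
        rw [hφ] at h2
        exact (Submodule.mem_bot ℚ).1 h2
      rw [← hv] at h1
      simpa [Module.evalEquiv_apply, hf] using h1
    apply hφ0
    rw [← hv, hv0, map_zero]
  obtain ⟨κ, a, ha, hsp, hli⟩ := exists_linearIndependent' ℚ f
  have hfin : Finite κ := Finite.of_injective a ha
  have : Fintype κ := Fintype.ofFinite κ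
  let b : Module.Basis κ ℚ (Module.Dual ℚ V) := Module.Basis.mk hli (by rw [hsp, hspan])
  have hcard : Fintype.card κ = Module.finrank ℚ V := by
    rw [← Module.finrank_eq_card_basis b, Subspace.dual_finrank_eq]
  let e : κ ≃ Fin (Module.finrank ℚ V) := Fintype.equivFinOfCardEq hcard
  let B : Module.Basis (Fin (Module.finrank ℚ V)) ℚ (Module.Dual ℚ V) := b.reindex e
  have hB : ∀ j, B j = f (a (e.symm j)) := by
    intro j
    simp [B, b]
  have hexp : ∀ (v : V) l, (v : Fin r → ℚ) l = ∑ j, B.repr (f l) j * (v : Fin r → ℚ) (a (e.symm j)) := by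
    intro v l
    have h1 := congrArg (fun g : Module.Dual ℚ V => g v) (B.sum_repr (f l))
    simp only [hB] at h1
    rw [← hf l v, ← h1]
    simp [hf]
  refine ⟨fun j => a (e.symm j), fun l j => B.repr (f l) j, ?_, ?_, ?_, ?_⟩
  · exact ha.comp e.symm.injective
  · intro v hv l
    exact hexp ⟨v, hv⟩ l
  · intro j
    funext i
    simp only []
    rw [← hB j, Module.Basis.repr_self, Finsupp.single_apply, Pi.single_apply]
    simp [eq_comm]
  · intro w
    let T : V →ₗ[ℚ] (Fin (Module.finrank ℚ V) → ℚ) := LinearMap.pi (fun j => f (a (e.symm j)))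
    have hTinj : Function.Injective T := by
      rw [injective_iff_map_eq_zero]
      intro v hv
      apply Subtype.ext
      funext l
      rw [hexp v l]
      have : ∀ j, (v : Fin r → ℚ) (a (e.symm j)) = 0 := fun j => congrFun hv j
      simp [this]
    have hTsurj : Function.Surjective T := by
      rw [← LinearMap.injective_iff_surjective_of_finrank_eq_finrank]
      · exact hTinj
      · simp
    obtain ⟨v, hv⟩ := hTsurj w
    have : (fun l => ∑ j, B.repr (f l) j * w j) = (v : Fin r → ℚ) := by
      funext l
      rw [hexp v l]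
      apply Finset.sum_congr rfl
      intro j _
      rw [← hv]
      rfl
    rw [this]
    exact v.2

end Pool.Agent.Lib.MP_134bf7_pr.RL
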