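import Pool.Agent.Lib.MP_134bf7_pr.RL.LiDefs

/-!
# RL-LiA: invariant sets and cycle lengths

A finite set `S` is mapped onto itself by `σ` iff it is a union of cycles (classes of `σ.SameCycle`,
including the fixed points).
(→) Let `S.image σ = S`.  `c i` = number of the cycles of length `i + 1` contained in `S`; `c ≤ cyc σ`
(`cyc σ i` is the number of all cycles of length `i + 1`: `σ.partition.parts = σ.cycleType +
replicate (number of fixed points) 1`) and `len c = |S| = k`.
(For example: with the partition of the permutation induced on `S` (`Equiv.Perm.subtypePerm`) and on the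
complement, whose parts add up to those of `σ`; or through `cycleFactorsFinset` and the fixed points.)
(←) Let `c ≤ cyc σ`, `len c = k`; choose `c i` of the cycles of length `i + 1` for each `i`, and let `S` be
their union.
-/

namespace Pool.Agent.Lib.MP_134bf7_pr.RL

open Finset

open Classical in
/-- the cycle of `x`, as a set -/
private noncomputable def lia_cl {n : ℕ} (σ : Equiv.Perm (Fin n)) (x : Fin n) : Finset (Fin n) :=
  univ.filter fun y => σ.SameCycle x y

open Classical in
/-- the set of all cycles -/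
private noncomputable def lia_C {n : ℕ} (σ : Equiv.Perm (Fin n)) : Finset (Finset (Fin n)) :=
  univ.image (lia_cl σ)

variable {n : ℕ} {σ : Equiv.Perm (Fin n)}

private theorem lia_mem {x y : Fin n} : y ∈ lia_cl σ x ↔ σ.SameCycle x y := by
  unfold lia_cl
  rw [Finset.mem_filter]
  exact ⟨fun h => h.2, fun h => ⟨Finset.mem_univ _, h⟩⟩

private theorem lia_memC {C : Finset (Fin n)} : C ∈ lia_C σ ↔ ∃ x, lia_cl σ x = C := by
  unfold lia_C
  simp

private theorem lia_self (x : Fin n) : x ∈ lia_cl σ x :=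
  lia_mem.2 (Equiv.Perm.SameCycle.refl σ x)

private theorem lia_eq {x y : Fin n} (h : y ∈ lia_cl σ x) : lia_cl σ y = lia_cl σ x := by
  have h1 := lia_mem.1 h
  ext z
  rw [lia_mem, lia_mem]
  exact ⟨fun h2 => h1.trans h2, fun h2 => h1.symm.trans h2⟩

private theorem lia_of_mem {C : Finset (Fin n)} (hC : C ∈ lia_C σ) {x : Fin n} (hx : x ∈ C) :
    C = lia_cl σ x := by
  obtain ⟨y, rfl⟩ := lia_memC.1 hC
  exact (lia_eq hx).symm

private theorem lia_disj {C D : Finset (Fin n)} (hC : C ∈ lia_C σ) (hD : D ∈ lia_C σ)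
    (h : C ≠ D) : Disjoint C D := by
  rw [Finset.disjoint_left]
  intro x hx hx'
  exact h ((lia_of_mem hC hx).trans (lia_of_mem hD hx').symm)

private theorem lia_inv {C : Finset (Fin n)} (hC : C ∈ lia_C σ) (x : Fin n) :
    σ x ∈ C ↔ x ∈ C := by
  obtain ⟨y, rfl⟩ := lia_memC.1 hC
  rw [lia_mem, lia_mem, Equiv.Perm.sameCycle_apply_right]

private theorem lia_card {C : Finset (Fin n)} (hC : C ∈ lia_C σ) :
    ∃ i : Fin n, C.card = (i : ℕ) + 1 := by
  obtain ⟨y, rfl⟩ := lia_memC.1 hC
  have h1 : 0 < (lia_cl σ y).card := Finset.card_pos.2 ⟨y, lia_self y⟩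
  have h2 : (lia_cl σ y).card ≤ n := by
    have := Finset.card_le_univ (lia_cl σ y)
    rwa [Fintype.card_fin] at this
  exact ⟨⟨(lia_cl σ y).card - 1, by omega⟩, by simp only; omega⟩

private theorem lia_fix {x : Fin n} (h : σ x = x) : lia_cl σ x = {x} := by
  ext y
  rw [lia_mem, Finset.mem_singleton]
  constructor
  · intro h1
    exact (h1.eq_of_left h).symm
  · rintro rfl
    exact Equiv.Perm.SameCycle.refl σ _

open Classical in
private theorem lia_one : ((lia_C σ).filter fun C => C.card = 1).card =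
    (univ.filter fun x : Fin n => σ x = x).card := by
  symm
  refine Finset.card_bij (fun x _ => lia_cl σ x) ?_ ?_ ?_
  · intro x hx
    have h1 := (Finset.mem_filter.1 hx).2
    refine Finset.mem_filter.2 ⟨lia_memC.2 ⟨x, rfl⟩, ?_⟩
    rw [lia_fix h1, Finset.card_singleton]
  · intro x hx y hy hxy
    have h1 := (Finset.mem_filter.1 hx).2
    have h2 := (Finset.mem_filter.1 hy).2
    have h3 : lia_cl σ x = lia_cl σ y := hxy
    rw [lia_fix h1, lia_fix h2] at h3
    exact Finset.singleton_injective h3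
  · intro C hC
    obtain ⟨h1, h2⟩ := Finset.mem_filter.1 hC
    obtain ⟨x, rfl⟩ := lia_memC.1 h1
    refine ⟨x, Finset.mem_filter.2 ⟨Finset.mem_univ _, ?_⟩, rfl⟩
    have h3 : σ x ∈ lia_cl σ x := (lia_inv h1 x).2 (lia_self x)
    exact Finset.card_le_one.1 h2.le _ h3 _ (lia_self x)

private theorem lia_supp {x : Fin n} (hx : x ∈ σ.support) :
    (σ.cycleOf x).support = lia_cl σ x := by
  ext y
  rw [Equiv.Perm.mem_support_cycleOf_iff, lia_mem]
  exact ⟨fun h => h.1, fun h => ⟨h, hx⟩⟩

private theorem lia_fac {f : Equiv.Perm (Fin n)} (hf : f ∈ σ.cycleFactorsFinset) :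
    ∃ x ∈ σ.support, f = σ.cycleOf x ∧ x ∈ f.support := by
  have h1 := (Equiv.Perm.mem_cycleFactorsFinset_iff.1 hf).1
  obtain ⟨x, hx⟩ := h1.nonempty_support
  have h2 := Equiv.Perm.cycle_is_cycleOf hx hf
  refine ⟨x, ?_, h2, hx⟩
  rw [← Equiv.Perm.cycleOf_mem_cycleFactorsFinset_iff, ← h2]
  exact hf

open Classical in
private theorem lia_two {m : ℕ} (hm : 2 ≤ m) : ((lia_C σ).filter fun C => C.card = m).card =
    (σ.cycleFactorsFinset.filter fun f => m = f.support.card).card := by
  symm
  refine Finset.card_bij (fun f _ => f.support) ?_ ?_ ?_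
  · intro f hf
    obtain ⟨h1, h2⟩ := Finset.mem_filter.1 hf
    obtain ⟨x, hx, h3, -⟩ := lia_fac h1
    refine Finset.mem_filter.2 ⟨lia_memC.2 ⟨x, ?_⟩, h2.symm⟩
    rw [h3, lia_supp hx]
  · intro f hf g hg hfg
    obtain ⟨h1, -⟩ := Finset.mem_filter.1 hf
    obtain ⟨h2, -⟩ := Finset.mem_filter.1 hg
    obtain ⟨x, hx, h3, h4⟩ := lia_fac h1
    have h5 : f.support = g.support := hfg
    rw [h5] at h4
    rw [h3]
    exact (Equiv.Perm.cycle_is_cycleOf h4 h2).symm
  · intro C hC
    obtain ⟨h1, h2⟩ := Finset.mem_filter.1 hC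
    obtain ⟨x, rfl⟩ := lia_memC.1 h1
    have hx : x ∈ σ.support := by
      rw [Equiv.Perm.mem_support]
      intro h3
      rw [lia_fix h3, Finset.card_singleton] at h2
      omega
    refine ⟨σ.cycleOf x, Finset.mem_filter.2 ⟨?_, ?_⟩, lia_supp hx⟩
    · exact Equiv.Perm.cycleOf_mem_cycleFactorsFinset_iff.2 hx
    · rw [lia_supp hx, h2]

open Classical in
private theorem lia_cyc (i : Fin n) :
    ((lia_C σ).filter fun C => C.card = (i : ℕ) + 1).card = cyc σ i := by
  unfold cyc
  rw [Equiv.Perm.parts_partition, Multiset.count_add]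
  by_cases hi : (i : ℕ) = 0
  · rw [hi, zero_add, lia_one]
    have h1 : Multiset.count 1 σ.cycleType = 0 := by
      rw [Multiset.count_eq_zero]
      intro h
      have := Equiv.Perm.two_le_of_mem_cycleType h
      omega
    rw [h1, zero_add, Multiset.count_replicate_self, Fintype.card_fin]
    have h2 : (univ.filter fun x : Fin n => σ x = x) = σ.supportᶜ := by
      ext x
      rw [Finset.mem_filter, Finset.mem_compl, Equiv.Perm.mem_support, not_not]
      exact ⟨fun h => h.2, fun h => ⟨Finset.mem_univ _, h⟩⟩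
    rw [h2, Finset.card_compl, Fintype.card_fin]
  · rw [lia_two (by omega)]
    have h1 : Multiset.count ((i : ℕ) + 1)
        (Multiset.replicate (Fintype.card (Fin n) - σ.support.card) 1) = 0 := by
      rw [Multiset.count_replicate, if_neg]
      omega
    rw [h1, add_zero, Equiv.Perm.cycleType_def, Multiset.count_map]
    rfl

open Classical in
/-- the sum of the sizes of a family of cycles -/
private theorem lia_sum {𝒟 : Finset (Finset (Fin n))} (h𝒟 : 𝒟 ⊆ lia_C σ) :
    ∑ C ∈ 𝒟, C.card = ∑ i : Fin n, ((i : ℕ) + 1) * (𝒟.filter fun C => C.card = (i : ℕ) + 1).card := by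
  have h1 : ∀ i : Fin n, ((i : ℕ) + 1) * (𝒟.filter fun C => C.card = (i : ℕ) + 1).card =
      ∑ C ∈ 𝒟, if C.card = (i : ℕ) + 1 then C.card else 0 := by
    intro i
    rw [← Finset.sum_filter, Finset.sum_congr rfl (g := fun _ => (i : ℕ) + 1), Finset.sum_const,
      smul_eq_mul, mul_comm]
    intro C hC
    exact (Finset.mem_filter.1 hC).2
  rw [Finset.sum_congr rfl fun i _ => h1 i, Finset.sum_comm]
  refine Finset.sum_congr rfl fun C hC => ?_
  obtain ⟨i, hi⟩ := lia_card (h𝒟 hC)
  rw [Finset.sum_eq_single i, if_pos hi]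
  · intro j _ hj
    rw [if_neg]
    intro hc
    apply hj
    apply Fin.ext
    omega
  · intro h
    exact (h (Finset.mem_univ _)).elim

private theorem lia_closed {S : Finset (Fin n)} (hS : S.image σ = S) {x y : Fin n} (hx : x ∈ S)
    (h : σ.SameCycle x y) : y ∈ S := by
  have h1 : ∀ z ∈ S, σ z ∈ S := by
    intro z hz
    rw [← hS]
    exact Finset.mem_image_of_mem σ hz
  obtain ⟨j, rfl⟩ := h.exists_nat_pow_eq
  clear h
  induction j with
  | zero => simpa using hx
  | succ j ih =>
    rw [pow_succ', Equiv.Perm.mul_apply]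
    exact h1 _ ih

open Classical in
private theorem lia_union {𝒟 : Finset (Finset (Fin n))} (h𝒟 : 𝒟 ⊆ lia_C σ) :
    (𝒟.biUnion id).card = ∑ C ∈ 𝒟, C.card := by
  refine Finset.card_biUnion fun C hC D hD hCD => ?_
  exact lia_disj (h𝒟 hC) (h𝒟 hD) hCD

theorem fixes_iff {n : ℕ} (σ : Equiv.Perm (Fin n)) (k : ℕ) :
    (∃ S : Finset (Fin n), S.card = k ∧ S.image σ = S) ↔ Good k (cyc σ) := by
  classical
  constructor
  · rintro ⟨S, hk, hS⟩
    refine ⟨fun i => (((lia_C σ).filter fun C => C ⊆ S).filter fun C => C.card = (i : ℕ) + 1).card,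
      fun i => ?_, ?_⟩
    · rw [← lia_cyc i]
      exact Finset.card_le_card (Finset.filter_subset_filter _ (Finset.filter_subset _ _))
    · unfold len
      rw [← lia_sum (Finset.filter_subset (fun C => C ⊆ S) (lia_C σ)),
        ← lia_union (Finset.filter_subset (fun C => C ⊆ S) (lia_C σ)), ← hk]
      congr 1
      ext x
      rw [Finset.mem_biUnion]
      constructor
      · rintro ⟨C, hC, hx⟩
        exact (Finset.mem_filter.1 hC).2 hx
      · intro hx
        refine ⟨lia_cl σ x, Finset.mem_filter.2 ⟨lia_memC.2 ⟨x, rfl⟩, fun y hy => ?_⟩, lia_self x⟩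
        exact lia_closed hS hx (lia_mem.1 hy)
  · rintro ⟨c, hc, hlen⟩
    have h1 : ∀ i : Fin n, ∃ D ⊆ (lia_C σ).filter fun C => C.card = (i : ℕ) + 1, D.card = c i := by
      intro i
      refine Finset.exists_subset_card_eq ?_
      rw [lia_cyc i]
      exact hc i
    choose D hD1 hD2 using h1
    have h𝒟 : (univ.biUnion D) ⊆ lia_C σ := by
      intro C hC
      obtain ⟨i, -, hi⟩ := Finset.mem_biUnion.1 hC
      exact (Finset.mem_filter.1 (hD1 i hi)).1
    refine ⟨(univ.biUnion D).biUnion id, ?_, ?_⟩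
    · rw [lia_union h𝒟, lia_sum h𝒟, ← hlen]
      unfold len
      refine Finset.sum_congr rfl fun i _ => ?_
      rw [← hD2 i]
      congr 2
      ext C
      rw [Finset.mem_filter, Finset.mem_biUnion]
      constructor
      · rintro ⟨⟨j, -, hj⟩, h2⟩
        have h3 := (Finset.mem_filter.1 (hD1 j hj)).2
        have h4 : j = i := Fin.ext (by omega)
        rw [← h4]
        exact hj
      · intro h2
        exact ⟨⟨i, Finset.mem_univ _, h2⟩, (Finset.mem_filter.1 (hD1 i h2)).2⟩
    · ext y
      rw [Finset.mem_image]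
      constructor
      · rintro ⟨x, hx, rfl⟩
        obtain ⟨C, hC, hxC⟩ := Finset.mem_biUnion.1 hx
        exact Finset.mem_biUnion.2 ⟨C, hC, (lia_inv (h𝒟 hC) x).2 hxC⟩
      · intro hy
        obtain ⟨C, hC, hyC⟩ := Finset.mem_biUnion.1 hy
        refine ⟨σ.symm y, Finset.mem_biUnion.2 ⟨C, hC, ?_⟩, σ.apply_symm_apply y⟩
        refine (lia_inv (h𝒟 hC) _).1 ?_
        rw [σ.apply_symm_apply]
        exact hyC

end Pool.Agent.Lib.MP_134bf7_pr.RL
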