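import Pool.Agent.Lib.MP_134bf7_pr.RL.LiDefs

/-!
# RL-LiC: splitting a configuration of total length `n` into its short and its long part

* `total`: let `f (N, n) = Z (mu N) (a ↦ ind (len a = n))` for `n ≤ N`.  By `Z_sum`, `mecke`:
  `n * f (N, n) = Z (len a * ind (len a = n)) = ∑_{i < N} (i + 1) * mu i * Z (ind (len (ad a i) = n))
  = ∑_{i < n} f (N, n - (i + 1))` (`(i + 1) * mu i = 1`), `f (N, 0) = 1`; by strong induction `f (N, n) = 1`.
* `conv`: `(Fin n → ℕ) = (Fin k → ℕ) × (Fin (n - k) → ℕ)` (short and long part), `wt (mu n) a` is the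
  product of `wt (mu k) (short a)` and the weight of the long part `b` (`b i` cycles of length
  `k + i + 1`), `len a = len (short a) + ∑ i, (k + i + 1) * b i`.  So it is to show that for `l ≤ n`
  the sum of the weights of the `b` of total length `l` is `Dk k l`.  The same recursion: call it `g l`;
  `l * g l = ∑_{i} (k + i + 1) * (1 / (k + i + 1)) * g (l - (k + i + 1))` (Mecke), the sum over the `i` with
  `k + i + 1 ≤ l`, `g 0 = 1`, and `Dk k` satisfies `l * Dk k l = ∑_{i' < l, i' + k < l} Dk k i'`,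
  `i' = l - (k + i + 1)`.
-/

namespace Pool.Agent.Lib.MP_134bf7_pr.RL

open Finset
open scoped ENNReal NNReal

private theorem liC_true {P : Prop} (h : P) : ind P = 1 := if_pos h

private theorem liC_false {P : Prop} (h : ¬ P) : ind P = 0 := if_neg h

private theorem sum_ad {ι : Type*} [Fintype ι] [DecidableEq ι] (ℓ : ι → ℕ) (b : ι → ℕ) (j : ι) :
    ∑ i, ℓ i * ad b j i = ∑ i, ℓ i * b i + ℓ j := by
  have h1 : ∀ i, ℓ i * ad b j i = ℓ i * b i + if i = j then ℓ i else 0 := by
    intro i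
    unfold ad
    split_ifs <;> ring
  simp only [h1, Finset.sum_add_distrib]
  simp

/-- the Mecke recursion for the mass of total length `l` -/
private theorem rec_Z {ι : Type*} [Fintype ι] [DecidableEq ι] (μ : ι → ℝ≥0) (ℓ : ι → ℕ) (l : ℕ) :
    (l : ℝ≥0∞) * Z μ (fun b => ind (∑ i, ℓ i * b i = l)) =
      ∑ i, (ℓ i : ℝ≥0∞) * ((μ i : ℝ≥0∞) *
        (if ℓ i ≤ l then Z μ (fun b => ind (∑ i, ℓ i * b i = l - ℓ i)) else 0)) := by
  rw [← Z_const_mul]
  have h1 : (fun b : ι → ℕ => (l : ℝ≥0∞) * ind (∑ i, ℓ i * b i = l)) =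
      fun b => ∑ i, (ℓ i : ℝ≥0∞) * ((b i : ℝ≥0∞) * ind (∑ i, ℓ i * b i = l)) := by
    funext b
    by_cases hb : ∑ i, ℓ i * b i = l
    · rw [liC_true hb]
      simp only [mul_one]
      rw [← hb]
      push_cast
      rfl
    · rw [liC_false hb]
      simp
  rw [h1, Z_sum μ univ (fun i b => (ℓ i : ℝ≥0∞) * ((b i : ℝ≥0∞) * ind (∑ i, ℓ i * b i = l)))]
  refine Finset.sum_congr rfl fun j _ => ?_
  rw [Z_const_mul, mecke μ j (fun b => ind (∑ i, ℓ i * b i = l))]
  congr 2
  simp only [sum_ad]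
  by_cases hj : ℓ j ≤ l
  · rw [if_pos hj]
    congr 1
    funext b
    congr 1
    apply propext
    omega
  · rw [if_neg hj]
    have h2 : (fun b : ι → ℕ => ind (∑ i, ℓ i * b i + ℓ j = l)) = fun _ => (0 : ℝ≥0∞) := by
      funext b
      exact liC_false (by omega)
    rw [h2]
    simp [Z]

private theorem Z_zero_len {ι : Type*} [Fintype ι] (μ : ι → ℝ≥0) (ℓ : ι → ℕ) (hℓ : ∀ i, 0 < ℓ i) :
    Z μ (fun b => ind (∑ i, ℓ i * b i = 0)) = 1 := by
  unfold Z
  rw [tsum_eq_single 0]
  · show (wt μ 0 : ℝ≥0∞) * ind (∑ i, ℓ i * (0 : ι → ℕ) i = 0) = 1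
    rw [liC_true (by simp)]
    simp [wt]
  · intro b hb
    show (wt μ b : ℝ≥0∞) * ind (∑ i, ℓ i * b i = 0) = 0
    rw [liC_false, mul_zero]
    intro h
    apply hb
    funext i
    rw [Finset.sum_eq_zero_iff] at h
    have h1 := h i (Finset.mem_univ i)
    rcases Nat.mul_eq_zero.1 h1 with h2 | h2
    · exact absurd h2 (hℓ i).ne'
    · simpa using h2

private theorem one_aux (N : ℕ) : ∀ l, l ≤ N →
    Z (mu N) (fun a => ind (∑ i : Fin N, ((i : ℕ) + 1) * a i = l)) = 1 := by
  intro l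
  induction l using Nat.strong_induction_on with
  | _ l ih =>
    intro hl
    rcases Nat.eq_zero_or_pos l with rfl | hpos
    · exact Z_zero_len (mu N) (fun i : Fin N => (i : ℕ) + 1) (fun i => Nat.succ_pos _)
    · have h1 := rec_Z (mu N) (fun i : Fin N => (i : ℕ) + 1) l
      have h2 : ∀ i : Fin N, (((i : ℕ) + 1 : ℕ) : ℝ≥0∞) * ((mu N i : ℝ≥0∞) *
          (if (i : ℕ) + 1 ≤ l then Z (mu N) (fun b => ind (∑ i : Fin N, ((i : ℕ) + 1) * b i =
            l - ((i : ℕ) + 1))) else 0)) = if (i : ℕ) + 1 ≤ l then 1 else 0 := by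
        intro i
        by_cases hi : (i : ℕ) + 1 ≤ l
        · rw [if_pos hi, if_pos hi, ih (l - ((i : ℕ) + 1)) (by omega) (by omega), mul_one]
          have h3 : (((i : ℕ) + 1 : ℕ) : ℝ≥0∞) = ((((i : ℕ) + 1 : ℕ) : ℝ≥0) : ℝ≥0∞) := by
            push_cast; rfl
          rw [h3, ← ENNReal.coe_mul]
          have h4 : (((i : ℕ) + 1 : ℕ) : ℝ≥0) * mu N i = 1 := by
            unfold mu
            have : (((i : ℕ) : ℝ≥0) + 1) ≠ 0 := by positivity
            push_cast
            field_simp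
          rw [h4]
          rfl
        · rw [if_neg hi, if_neg hi, mul_zero, mul_zero]
      rw [Finset.sum_congr rfl fun i _ => h2 i] at h1
      have h5 : (∑ i : Fin N, if (i : ℕ) + 1 ≤ l then (1 : ℝ≥0∞) else 0) = l := by
        rw [Fin.sum_univ_eq_sum_range (fun i => if i + 1 ≤ l then (1 : ℝ≥0∞) else 0) N,
          ← Finset.sum_filter, Finset.sum_const, nsmul_eq_mul, mul_one]
        congr 1
        have h6 : (Finset.range N).filter (fun i => i + 1 ≤ l) = Finset.range l := by
          ext i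
          simp only [Finset.mem_filter, Finset.mem_range]
          omega
        rw [h6, Finset.card_range]
      rw [h5] at h1
      have hl0 : (l : ℝ≥0∞) ≠ 0 := by exact_mod_cast hpos.ne'
      have hlt : (l : ℝ≥0∞) ≠ ⊤ := ENNReal.natCast_ne_top l
      have h7 : (l : ℝ≥0∞) * Z (mu N) (fun a => ind (∑ i : Fin N, ((i : ℕ) + 1) * a i = l)) =
          (l : ℝ≥0∞) * 1 := by rw [h1, mul_one]
      exact (ENNReal.mul_right_inj hl0 hlt).1 h7

theorem total (n : ℕ) : Z (mu n) (fun a => ind (len a = n)) = 1 := one_aux n n le_rfl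

theorem Dk_nonneg (k l : ℕ) : 0 ≤ Dk k l := by
  induction l using Nat.strong_induction_on with
  | _ l ih =>
    cases l with
    | zero => rw [Dk]; norm_num
    | succ l =>
      rw [Dk]
      refine div_nonneg (Finset.sum_nonneg fun i _ => ?_) (by positivity)
      split_ifs
      · exact ih i i.2
      · exact le_rfl

private noncomputable def mu' (k m : ℕ) (i : Fin m) : ℝ≥0 := 1 / ((k : ℝ≥0) + (i : ℕ) + 1)

private theorem Dk_aux (k m : ℕ) : ∀ l, l ≤ k + m →
    Z (mu' k m) (fun b => ind (∑ i : Fin m, (k + (i : ℕ) + 1) * b i = l)) = ENNReal.ofReal (Dk k l) := by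
  intro l
  induction l using Nat.strong_induction_on with
  | _ l ih =>
    intro hl
    rcases Nat.eq_zero_or_pos l with rfl | hpos
    · rw [Z_zero_len (mu' k m) (fun i : Fin m => k + (i : ℕ) + 1) (fun i => Nat.succ_pos _), Dk]
      simp
    · have h1 := rec_Z (mu' k m) (fun i : Fin m => k + (i : ℕ) + 1) l
      have h2 : ∀ i : Fin m, ((k + (i : ℕ) + 1 : ℕ) : ℝ≥0∞) * ((mu' k m i : ℝ≥0∞) *
          (if k + (i : ℕ) + 1 ≤ l then Z (mu' k m) (fun b => ind (∑ i : Fin m, (k + (i : ℕ) + 1) * b i =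
            l - (k + (i : ℕ) + 1))) else 0)) =
          if k + (i : ℕ) + 1 ≤ l then ENNReal.ofReal (Dk k (l - (k + (i : ℕ) + 1))) else 0 := by
        intro i
        by_cases hi : k + (i : ℕ) + 1 ≤ l
        · rw [if_pos hi, if_pos hi, ih (l - (k + (i : ℕ) + 1)) (by omega) (by omega), ← mul_assoc]
          have h3 : ((k + (i : ℕ) + 1 : ℕ) : ℝ≥0∞) = (((k + (i : ℕ) + 1 : ℕ) : ℝ≥0) : ℝ≥0∞) := by
            push_cast; rfl
          rw [h3, ← ENNReal.coe_mul]
          have h4 : ((k + (i : ℕ) + 1 : ℕ) : ℝ≥0) * mu' k m i = 1 := by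
            unfold mu'
            have : ((k : ℝ≥0) + (i : ℕ) + 1) ≠ 0 := by positivity
            push_cast
            field_simp
          rw [h4]
          simp
        · rw [if_neg hi, if_neg hi, mul_zero, mul_zero]
      rw [Finset.sum_congr rfl fun i _ => h2 i] at h1
      obtain ⟨l', rfl⟩ : ∃ l', l = l' + 1 := ⟨l - 1, by omega⟩
      have h5 : (∑ i : Fin m, if k + (i : ℕ) + 1 ≤ l' + 1 then
          ENNReal.ofReal (Dk k (l' + 1 - (k + (i : ℕ) + 1))) else 0) =
          ∑ i ∈ Finset.range (l' + 1 - k), ENNReal.ofReal (Dk k i) := by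
        rw [Fin.sum_univ_eq_sum_range (fun i => if k + i + 1 ≤ l' + 1 then
          ENNReal.ofReal (Dk k (l' + 1 - (k + i + 1))) else 0) m, ← Finset.sum_filter,
          ← Finset.sum_range_reflect (fun i => ENNReal.ofReal (Dk k i)) (l' + 1 - k)]
        refine Finset.sum_congr ?_ fun i hi => ?_
        · ext i
          simp only [Finset.mem_filter, Finset.mem_range]
          omega
        · congr 2
          simp only [Finset.mem_range] at hi
          omega
      have h6 : ((l' : ℝ) + 1) * Dk k (l' + 1) = ∑ i ∈ Finset.range (l' + 1 - k), Dk k i := by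
        rw [Dk]
        have h7 : ((l' : ℝ) + 1) ≠ 0 := by positivity
        rw [mul_div_cancel₀ _ h7]
        rw [Fin.sum_univ_eq_sum_range (fun i => if i + k < l' + 1 then Dk k i else 0) (l' + 1),
          ← Finset.sum_filter]
        refine Finset.sum_congr ?_ fun i _ => rfl
        ext i
        simp only [Finset.mem_filter, Finset.mem_range]
        omega
      have h8 : (((l' + 1 : ℕ) : ℝ≥0∞)) * ENNReal.ofReal (Dk k (l' + 1)) =
          ∑ i ∈ Finset.range (l' + 1 - k), ENNReal.ofReal (Dk k i) := by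
        rw [← ENNReal.ofReal_sum_of_nonneg (fun i _ => Dk_nonneg k i), ← h6,
          ENNReal.ofReal_mul (by positivity)]
        congr 1
        rw [show ((l' : ℝ) + 1) = ((l' + 1 : ℕ) : ℝ) by push_cast; rfl, ENNReal.ofReal_natCast]
      rw [h5, ← h8] at h1
      have hl0 : ((l' + 1 : ℕ) : ℝ≥0∞) ≠ 0 := by exact_mod_cast (Nat.succ_ne_zero l')
      have hlt : ((l' + 1 : ℕ) : ℝ≥0∞) ≠ ⊤ := ENNReal.natCast_ne_top _
      exact (ENNReal.mul_right_inj hl0 hlt).1 h1

private theorem wt_append (k m : ℕ) (a : Fin k → ℕ) (b : Fin m → ℕ) :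
    wt (mu (k + m)) (Fin.append a b) = wt (mu k) a * wt (mu' k m) b := by
  unfold wt
  rw [Fin.prod_univ_add]
  congr 1
  · refine Finset.prod_congr rfl fun i _ => ?_
    rw [Fin.append_left]
    rfl
  · refine Finset.prod_congr rfl fun i _ => ?_
    rw [Fin.append_right]
    unfold mu mu'
    simp

private theorem len_append (k m : ℕ) (a : Fin k → ℕ) (b : Fin m → ℕ) :
    len (Fin.append a b) = len a + ∑ i : Fin m, (k + (i : ℕ) + 1) * b i := by
  unfold len
  rw [Fin.sum_univ_add]
  congr 1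
  · refine Finset.sum_congr rfl fun i _ => ?_
    rw [Fin.append_left]
    rfl
  · refine Finset.sum_congr rfl fun i _ => ?_
    rw [Fin.append_right]
    rfl

private theorem short_append (k m : ℕ) (h : k ≤ k + m) (a : Fin k → ℕ) (b : Fin m → ℕ) :
    short h (Fin.append a b) = a := by
  funext i
  unfold short
  have : Fin.castLE h i = Fin.castAdd m i := rfl
  rw [this, Fin.append_left]

theorem conv {k n : ℕ} (h : k ≤ n) (F : (Fin k → ℕ) → ℝ≥0∞) :
    Z (mu n) (fun a => ind (len a = n) * F (short h a)) =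
      ∑' a : Fin k → ℕ, (wt (mu k) a : ℝ≥0∞) * (F a *
        (if len a ≤ n then ENNReal.ofReal (Dk k (n - len a)) else 0)) := by
  obtain ⟨m, rfl⟩ : ∃ m, n = k + m := ⟨n - k, by omega⟩
  unfold Z
  rw [← (Fin.appendEquiv k m).tsum_eq]
  rw [ENNReal.tsum_prod']
  refine tsum_congr fun a => ?_
  have h1 : ∀ b : Fin m → ℕ, (wt (mu (k + m)) (Fin.appendEquiv k m (a, b)) : ℝ≥0∞) *
      (ind (len (Fin.appendEquiv k m (a, b)) = k + m) * F (short h (Fin.appendEquiv k m (a, b)))) =
      ((wt (mu k) a : ℝ≥0∞) * F a) * ((wt (mu' k m) b : ℝ≥0∞) *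
        ind (len a + ∑ i : Fin m, (k + (i : ℕ) + 1) * b i = k + m)) := by
    intro b
    have e1 : Fin.appendEquiv k m (a, b) = Fin.append a b := rfl
    rw [e1, wt_append, len_append, short_append, ENNReal.coe_mul]
    ring
  rw [tsum_congr h1, ENNReal.tsum_mul_left, mul_assoc]
  congr 2
  by_cases hl : len a ≤ k + m
  · rw [if_pos hl, ← Dk_aux k m (k + m - len a) (by omega)]
    unfold Z
    refine tsum_congr fun b => ?_
    congr 2
    apply propext
    omega
  · rw [if_neg hl]
    refine ENNReal.tsum_eq_zero.2 fun b => ?_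
    rw [liC_false (by omega), mul_zero]

end Pool.Agent.Lib.MP_134bf7_pr.RL
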