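import Pool.Agent.Lib.MP_134bf7_pr.RL.Pr

/-!
# RL-LiDefs: definitions for the limit law
-/

namespace Pool.Agent.Lib.MP_134bf7_pr.RL

open Finset
open scoped ENNReal NNReal

/-- the number of cycles of length `i + 1` of `σ` (fixed points are cycles of length `1`) -/
noncomputable def cyc {n : ℕ} (σ : Equiv.Perm (Fin n)) (i : Fin n) : ℕ :=
  σ.partition.parts.count ((i : ℕ) + 1)

/-- The probability that a uniformly random permutation of `n` points fixes a `k`-set. -/
noncomputable def prob (n k : ℕ) : ℝ :=
  (Fintype.card {σ : Equiv.Perm (Fin n) // ∃ S : Finset (Fin n), S.card = k ∧ S.image σ = S} : ℝ) /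
    n.factorial

/-- the proportion of the permutations of `l` points which have no cycle of length `≤ k`,
defined by the recursion `l * D l = ∑_{j > k} D (l - j)` -/
noncomputable def Dk (k : ℕ) : ℕ → ℝ
  | 0 => 1
  | l + 1 => (∑ i : Fin (l + 1), if (i : ℕ) + k < l + 1 then Dk k i else 0) / ((l : ℝ) + 1)

/-- the short part of a configuration -/
def short {k n : ℕ} (h : k ≤ n) (a : Fin n → ℕ) (i : Fin k) : ℕ := a (Fin.castLE h i)

end Pool.Agent.Lib.MP_134bf7_pr.RL
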