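import Pool.Agent.Lib.MP_134bf7_pr.RL.Zb

/-!
# RL-Pf: prescribed numbers in the classes of a partition

`Z_classes`: the function `cl : ι → κ` partitions the index set.  Induction on `∑ j, n j` (for all `n`).
If all `n j = 0` only `a = 0` counts (every `i` is in the class `cl i`) and `wt μ 0 = 1`.
If `n j0 = N + 1`: on the event `∑_{cl i = j0} a i = N + 1`, so
`(N + 1) * Z (ind (n)) = Z ((∑_{cl i = j0} a i) * ind (n)) = ∑_{cl i = j0} μ i * Z (a ↦ ind (n) (ad a i))`
(`Z_sum`, `mecke`) `= (∑_{cl i = j0} μ i) * Z (ind (n'))`, `n'` = `n` with `n j0` replaced by `N`.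
-/

namespace Pool.Agent.Lib.MP_134bf7_pr.RL

open Finset
open scoped ENNReal NNReal

private theorem sum_ad {ι κ : Type*} [Fintype ι] [DecidableEq ι] [DecidableEq κ]
    (cl : ι → κ) (a : ι → ℕ) (i0 : ι) (j : κ) :
    (∑ i, if cl i = j then (ad a i0) i else 0) =
      (∑ i, if cl i = j then a i else 0) + (if cl i0 = j then 1 else 0) := by
  have h : ∀ i, (if cl i = j then (ad a i0) i else 0) =
      (if cl i = j then a i else 0) + (if i = i0 then (if cl i0 = j then 1 else 0) else 0) := by
    intro i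
    unfold ad
    by_cases h1 : i = i0
    · subst h1
      by_cases h2 : cl i = j <;> simp [h2]
    · simp [h1]
  rw [Finset.sum_congr rfl fun i _ => h i, Finset.sum_add_distrib]
  simp

private theorem Z_classes_zero {ι κ : Type*} [Fintype ι] [DecidableEq ι] [Fintype κ] [DecidableEq κ]
    (μ : ι → ℝ≥0) (cl : ι → κ) (n : κ → ℕ) (hn : ∀ j, n j = 0) :
    Z μ (fun a => ind (∀ j, (∑ i, if cl i = j then a i else 0) = n j)) = 1 := by
  unfold Z
  rw [tsum_eq_single (fun _ => 0)]
  · dsimp only
    rw [ind_true (by intro j; simp [hn j]), mul_one]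
    simp [wt]
  · intro a ha
    dsimp only
    rw [ind_false, mul_zero]
    intro h
    apply ha
    funext i
    have h1 := h (cl i)
    rw [hn, Finset.sum_eq_zero_iff] at h1
    have h2 := h1 i (Finset.mem_univ i)
    simpa using h2

theorem Z_classes {ι κ : Type*} [Fintype ι] [DecidableEq ι] [Fintype κ] [DecidableEq κ]
    (μ : ι → ℝ≥0) (cl : ι → κ) (n : κ → ℕ) :
    Z μ (fun a => ind (∀ j, (∑ i, if cl i = j then a i else 0) = n j)) =
      ((∏ j, (∑ i, if cl i = j then μ i else 0) ^ n j / ((n j).factorial : ℝ≥0) : ℝ≥0) : ℝ≥0∞) := by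
  obtain ⟨N, hN⟩ : ∃ N, N = ∑ j, n j := ⟨_, rfl⟩
  induction N generalizing n with
  | zero =>
    have hn : ∀ j, n j = 0 := fun j => (Finset.sum_eq_zero_iff.1 hN.symm) j (Finset.mem_univ j)
    rw [Z_classes_zero μ cl n hn]
    simp [hn]
  | succ N ih =>
    obtain ⟨j0, hj0⟩ : ∃ j, n j ≠ 0 := by
      by_contra hcon
      push Not at hcon
      rw [Finset.sum_eq_zero fun j _ => hcon j] at hN
      omega
    obtain ⟨M, hM⟩ := Nat.exists_eq_succ_of_ne_zero hj0
    obtain ⟨n', hn'⟩ : ∃ n' : κ → ℕ, n' = Function.update n j0 M := ⟨_, rfl⟩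
    have hn'0 : n' j0 = M := by rw [hn', Function.update_self]
    have hn'1 : ∀ j, j ≠ j0 → n' j = n j := by
      intro j hj
      rw [hn', Function.update_of_ne hj]
    have hsum' : N = ∑ j, n' j := by
      have e1 := Finset.add_sum_erase univ n (Finset.mem_univ j0)
      have e2 := Finset.add_sum_erase univ n' (Finset.mem_univ j0)
      have e3 : ∑ j ∈ univ.erase j0, n' j = ∑ j ∈ univ.erase j0, n j :=
        Finset.sum_congr rfl fun j hj => hn'1 j (Finset.ne_of_mem_erase hj)
      rw [hn'0, e3] at e2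
      omega
    have hih := ih n' hsum'
    obtain ⟨I, hI⟩ : ∃ I : (κ → ℕ) → (ι → ℕ) → ℝ≥0∞,
      I = fun n a => ind (∀ j, (∑ i, if cl i = j then a i else 0) = n j) := ⟨_, rfl⟩
    have hIn : (fun a : ι → ℕ => ind (∀ j, (∑ i, if cl i = j then a i else 0) = n j)) = I n := by
      rw [hI]
    have hIn' : (fun a : ι → ℕ => ind (∀ j, (∑ i, if cl i = j then a i else 0) = n' j)) = I n' := by
      rw [hI]
    rw [hIn'] at hih
    rw [hIn]
    -- the main identity
    have h1 : ((M : ℝ≥0∞) + 1) * Z μ (I n) =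
        Z μ (fun a => ∑ i, (if cl i = j0 then (a i : ℝ≥0∞) else 0) * I n a) := by
      rw [← Z_const_mul]
      congr 1
      funext a
      rw [← Finset.sum_mul]
      by_cases h : ∀ j, (∑ i, if cl i = j then a i else 0) = n j
      · have h2 : (∑ i, if cl i = j0 then (a i : ℝ≥0∞) else 0) = (M : ℝ≥0∞) + 1 := by
          have h3 := h j0
          rw [hM] at h3
          have h4 : (((∑ i, if cl i = j0 then a i else 0) : ℕ) : ℝ≥0∞) = ((M.succ : ℕ) : ℝ≥0∞) := by
            rw [h3]
          push_cast at h4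
          exact h4
        rw [h2]
      · have h2 : I n a = 0 := by
          rw [hI]
          exact ind_false h
        rw [h2, mul_zero, mul_zero]
    have h2 : ∀ i, Z μ (fun a => (if cl i = j0 then (a i : ℝ≥0∞) else 0) * I n a) =
        (if cl i = j0 then (μ i : ℝ≥0∞) else 0) * Z μ (I n') := by
      intro i
      by_cases hi : cl i = j0
      · simp only [if_pos hi]
        rw [mecke μ i (I n)]
        congr 2
        funext a
        rw [hI]
        dsimp only
        congr 1
        apply propext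
        constructor
        · intro h j
          have h3 := h j
          rw [sum_ad] at h3
          by_cases hj : j = j0
          · subst hj
            rw [if_pos hi, hM] at h3
            rw [hn'0]
            omega
          · rw [if_neg (fun h4 => hj (by rw [← h4, hi])), add_zero] at h3
            rw [h3, hn'1 j hj]
        · intro h j
          have h3 := h j
          rw [sum_ad]
          by_cases hj : j = j0
          · subst hj
            rw [if_pos hi, hM, h3, hn'0]
          · rw [if_neg (fun h4 => hj (by rw [← h4, hi])), add_zero, h3, hn'1 j hj]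
      · simp only [if_neg hi, zero_mul]
        simp [Z]
    have h3 : ((M : ℝ≥0∞) + 1) * Z μ (I n) =
        ((∑ i, if cl i = j0 then μ i else 0 : ℝ≥0) : ℝ≥0∞) * Z μ (I n') := by
      rw [h1, Z_sum, Finset.sum_congr rfl fun i _ => h2 i, ← Finset.sum_mul]
      congr 1
      push_cast
      refine Finset.sum_congr rfl fun i _ => ?_
      split_ifs <;> rfl
    have hM0 : ((M : ℝ≥0∞) + 1) ≠ 0 := by positivity
    have hMt : ((M : ℝ≥0∞) + 1) ≠ ∞ := by
      exact ENNReal.add_ne_top.2 ⟨ENNReal.natCast_ne_top M, ENNReal.one_ne_top⟩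
    rw [← ENNReal.mul_right_inj hM0 hMt, h3, hih]
    have e4 : ((M : ℝ≥0∞) + 1) = (((M : ℝ≥0) + 1 : ℝ≥0) : ℝ≥0∞) := by push_cast; rfl
    rw [e4, ← ENNReal.coe_mul, ← ENNReal.coe_mul, ENNReal.coe_inj]
    rw [← Finset.mul_prod_erase univ _ (Finset.mem_univ j0),
      ← Finset.mul_prod_erase univ
        (fun j => (∑ i, if cl i = j then μ i else 0) ^ n j / ((n j).factorial : ℝ≥0))
        (Finset.mem_univ j0)]
    have e5 : ∏ j ∈ univ.erase j0, (∑ i, if cl i = j then μ i else 0) ^ n' j /
        ((n' j).factorial : ℝ≥0) = ∏ j ∈ univ.erase j0, (∑ i, if cl i = j then μ i else 0) ^ n j /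
        ((n j).factorial : ℝ≥0) :=
      Finset.prod_congr rfl fun j hj => by rw [hn'1 j (Finset.ne_of_mem_erase hj)]
    rw [e5, hn'0]
    rw [hM, Nat.factorial_succ, pow_succ]
    push_cast
    have hf : ((M.factorial : ℕ) : ℝ≥0) ≠ 0 := by exact_mod_cast Nat.factorial_ne_zero M
    have hM1 : (M : ℝ≥0) + 1 ≠ 0 := by positivity
    field_simp

end Pool.Agent.Lib.MP_134bf7_pr.RL
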