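import Pool.Agent.Lib.MP_134bf7_pr.RL.Mo
import Pool.Agent.Lib.MP_134bf7_pr.RL.Pf
import Pool.Agent.Lib.MP_134bf7_pr.RL.Bk

/-!
# RL-LoA: the first moment, exact lower bound

Let `K = Q ^ T`, `n` elements in every block.  By `mom1` the right side is
`ExP K 1 (ind (∀ i ∈ Icc 1 T, NB (mg β) i = n) * ind (len (cut 0 β) = k))`.
Let `t : Pat 1 = fun _ => true`, `N1 β = ∑_{bl x = T} β (x, t)`.  The function is at least
`N1 β * ind (A β)`, `A β` = (`N1 β = 1`, `∀ i, NB (mg β) i = n`, `len (cut 0 β) = k`).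
`Z_sum`, `mecke`: `Z (N1 * ind A) = ∑_{bl x = T} mu x * Z (β ↦ ind (A (ad β (x, t))))`.
Let `A' β` = (`N1 β = 0`, `NB (mg β) i = n` for `1 ≤ i ≤ T - 1`, `NB (mg β) T = n - 1`).  If `A' β` then
`cut 0 β` has no element in block `T`, so `len (cut 0 β) ≤ n * (T - 1) * Q ^ (T - 1)` (`le_pow_bl`), and
`x + 1 = k - len (cut 0 β)` is in `(Q ^ (T - 1), Q ^ T]` by `hbig`, `hk`; this `x` has `bl Q x = T`
(`lt_bl_iff`, `bl_le`), `A (ad β (x, t))`, and `mu x ≥ 1 / k`.  So the sum is at least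
`(1 / k) * Z (ind A')`, and by `Z_classes` with the classes `none` = `{(x, t) | bl x = T}`,
`some i` = the other `(x, q)` with `bl x = i + 1` (`κ = Option (Fin T)`), `Z (ind A')` is
`(hb T) ^ (n - 1) / (n - 1)! * ∏_{i = 1}^{T - 1} (2 * hb i) ^ n / n!`.
-/

namespace Pool.Agent.Lib.MP_134bf7_pr.RL

open Finset
open scoped ENNReal NNReal

private theorem sum_pat1 {M : Type*} [AddCommMonoid M] (f : Pat 1 → M) :
    ∑ q, f q = f (fun _ => true) + f (fun _ => false) := by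
  rw [← (Equiv.funUnique (Fin 1) Bool).symm.sum_comp, Fintype.sum_bool]
  rfl

private theorem cut_eq {K : ℕ} (β : Fin K × Pat 1 → ℕ) (x : Fin K) :
    cut 0 β x = β (x, fun _ => true) := by
  unfold cut
  rw [sum_pat1]
  simp

private theorem mg_eq {K : ℕ} (β : Fin K × Pat 1 → ℕ) (x : Fin K) :
    mg β x = β (x, fun _ => true) + β (x, fun _ => false) := by
  unfold mg
  rw [sum_pat1]

private theorem cut_ad {K : ℕ} (β : Fin K × Pat 1 → ℕ) (x : Fin K) :
    cut 0 (ad β (x, fun _ => true)) = ad (cut 0 β) x := by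
  funext y
  rw [cut_eq]
  unfold ad
  rw [cut_eq]
  by_cases h : y = x
  · rw [if_pos h, if_pos (by rw [h])]
  · rw [if_neg h, if_neg (fun hc => h (Prod.ext_iff.1 hc).1)]

private theorem mg_ad {K : ℕ} (β : Fin K × Pat 1 → ℕ) (x : Fin K) :
    mg (ad β (x, fun _ => true)) = ad (mg β) x := by
  funext y
  rw [mg_eq]
  unfold ad
  rw [mg_eq]
  have h2 : ¬ ((y, fun _ => false) : Fin K × Pat 1) = (x, fun _ => true) := by
    intro hc
    have := congrFun (Prod.ext_iff.1 hc).2 0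
    simp at this
  rw [if_neg h2]
  by_cases h : y = x
  · rw [if_pos h, if_pos (by rw [h])]
    omega
  · rw [if_neg h, if_neg (fun hc => h (Prod.ext_iff.1 hc).1)]

private theorem sum_ad' {K : ℕ} (a : Fin K → ℕ) (x : Fin K) (w : Fin K → ℕ) :
    ∑ i, w i * ad a x i = ∑ i, w i * a i + w x := by
  have h1 : ∀ i ∈ (univ : Finset (Fin K)), w i * ad a x i = w i * a i + (if i = x then w i else 0) := by
    intro i _
    unfold ad
    split_ifs
    · ring
    · ring
  rw [Finset.sum_congr rfl h1, Finset.sum_add_distrib, Finset.sum_ite_eq' univ x w,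
    if_pos (Finset.mem_univ x)]

private theorem len_ad' {K : ℕ} (a : Fin K → ℕ) (x : Fin K) :
    len (ad a x) = len a + ((x : ℕ) + 1) := by
  unfold len
  exact sum_ad' a x fun i => (i : ℕ) + 1

private theorem NB_w {K : ℕ} (Q : ℕ) (a : Fin K → ℕ) (i : ℕ) :
    NB Q a i = ∑ x, (if bl Q x = i then 1 else 0) * a x := by
  unfold NB
  refine Finset.sum_congr rfl fun x _ => ?_
  split_ifs <;> simp

private theorem NB_ad {K : ℕ} (Q : ℕ) (a : Fin K → ℕ) (x : Fin K) (i : ℕ) :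
    NB Q (ad a x) i = NB Q a i + (if bl Q x = i then 1 else 0) := by
  rw [NB_w, NB_w, sum_ad']

/-- the event of the first moment -/
private def EA (Q T n k : ℕ) (β : Fin (Q ^ T) × Pat 1 → ℕ) : Prop :=
  NB Q (cut 0 β) T = 1 ∧ (∀ i ∈ Icc 1 T, NB Q (mg β) i = n) ∧ len (cut 0 β) = k

/-- the event without the last element -/
private def EB (Q T n : ℕ) (β : Fin (Q ^ T) × Pat 1 → ℕ) : Prop :=
  NB Q (cut 0 β) T = 0 ∧ (∀ i ∈ Icc 1 (T - 1), NB Q (mg β) i = n) ∧ NB Q (mg β) T = n - 1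

private theorem cut_le_mg {K : ℕ} (β : Fin K × Pat 1 → ℕ) (x : Fin K) : cut 0 β x ≤ mg β x := by
  rw [cut_eq, mg_eq]
  omega

private theorem NB_mono {K : ℕ} (Q : ℕ) {a b : Fin K → ℕ} (h : ∀ x, a x ≤ b x) (i : ℕ) :
    NB Q a i ≤ NB Q b i := by
  unfold NB
  refine Finset.sum_le_sum fun x _ => ?_
  split_ifs
  · exact h x
  · exact le_rfl

private theorem len_le {Q T n : ℕ} (hQ : 2 ≤ Q) (hT : 2 ≤ T) {β : Fin (Q ^ T) × Pat 1 → ℕ}
    (h : EB Q T n β) : len (cut 0 β) ≤ n * (T - 1) * Q ^ (T - 1) := by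
  obtain ⟨h1, h2, _⟩ := h
  have h0 : ∀ x, bl Q x = T → cut 0 β x = 0 := by
    intro x hx
    unfold NB at h1
    rw [Finset.sum_eq_zero_iff] at h1
    have := h1 x (Finset.mem_univ x)
    rwa [if_pos hx] at this
  have h3 : len (cut 0 β) ≤ ∑ x, ∑ i ∈ Icc 1 (T - 1),
      Q ^ (T - 1) * (if bl Q x = i then cut 0 β x else 0) := by
    unfold len
    refine Finset.sum_le_sum fun x _ => ?_
    rw [← Finset.mul_sum]
    by_cases hx : bl Q x = T
    · rw [h0 x hx, mul_zero]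
      exact Nat.zero_le _
    · have h4 := one_le_bl Q x
      have h5 := bl_le hQ (by omega) x
      have h6 : bl Q x ∈ Icc 1 (T - 1) := Finset.mem_Icc.2 ⟨h4, by omega⟩
      rw [Finset.sum_ite_eq (Icc 1 (T - 1)) (bl Q x) (fun _ => cut 0 β x), if_pos h6]
      have h7 := le_pow_bl hQ x
      have h8 : Q ^ bl Q x ≤ Q ^ (T - 1) := Nat.pow_le_pow_right (by omega) (by omega)
      exact Nat.mul_le_mul_right _ (h7.trans h8)
  refine h3.trans ?_
  rw [Finset.sum_comm]
  have h9 : ∀ i ∈ Icc 1 (T - 1), (∑ x : Fin (Q ^ T),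
      Q ^ (T - 1) * (if bl Q x = i then cut 0 β x else 0)) ≤ Q ^ (T - 1) * n := by
    intro i hi
    rw [← Finset.mul_sum]
    refine Nat.mul_le_mul_left _ ?_
    rw [← h2 i hi]
    exact NB_mono Q (cut_le_mg β) i
  refine (Finset.sum_le_sum h9).trans ?_
  rw [Finset.sum_const, Nat.card_Icc, smul_eq_mul]
  have : T - 1 + 1 - 1 = T - 1 := by omega
  rw [this]
  exact le_of_eq (by ring)

private theorem point_le {Q T k n : ℕ} (hQ : 2 ≤ Q) (hT : 2 ≤ T) (hk : k ≤ Q ^ T) (hn : 1 ≤ n)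
    (hbig : Q ^ (T - 1) + n * (T - 1) * Q ^ (T - 1) < k) (β : Fin (Q ^ T) × Pat 1 → ℕ) :
    ENNReal.ofReal (1 / (k : ℝ)) * ind (EB Q T n β) ≤
      ∑ x ∈ univ.filter (fun x : Fin (Q ^ T) => bl Q x = T),
        (mu (Q ^ T) x : ℝ≥0∞) * ind (EA Q T n k (ad β (x, fun _ => true))) := by
  by_cases hB : EB Q T n β
  · have hl := len_le hQ hT hB
    have hx1 : k - len (cut 0 β) - 1 < Q ^ T := by omega
    set x : Fin (Q ^ T) := ⟨k - len (cut 0 β) - 1, hx1⟩ with hxdef
    have hxv : (x : ℕ) + 1 = k - len (cut 0 β) := by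
      rw [hxdef]
      simp only
      omega
    have hbx : bl Q x = T := by
      have h1 := (lt_bl_iff hQ (by omega : 1 ≤ T - 1) x).2 (by omega)
      have h2 := bl_le hQ (by omega) x
      omega
    have hA : EA Q T n k (ad β (x, fun _ => true)) := by
      obtain ⟨h1, h2, h3⟩ := hB
      refine ⟨?_, fun i hi => ?_, ?_⟩
      · rw [cut_ad, NB_ad, h1, if_pos hbx]
      · rw [mg_ad, NB_ad]
        obtain ⟨hi1, hi2⟩ := Finset.mem_Icc.1 hi
        by_cases hiT : i = T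
        · rw [if_pos (by rw [hbx, hiT]), hiT, h3]
          omega
        · rw [if_neg (by rw [hbx]; exact fun h => hiT h.symm),
            h2 i (Finset.mem_Icc.2 ⟨hi1, by omega⟩), add_zero]
      · rw [cut_ad, len_ad', hxv]
        omega
    have hmem : x ∈ univ.filter (fun x : Fin (Q ^ T) => bl Q x = T) :=
      Finset.mem_filter.2 ⟨Finset.mem_univ x, hbx⟩
    refine le_trans ?_ (Finset.single_le_sum (f := fun x : Fin (Q ^ T) =>
      (mu (Q ^ T) x : ℝ≥0∞) * ind (EA Q T n k (ad β (x, fun _ => true))))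
      (fun _ _ => zero_le) hmem)
    rw [ind_true hB, ind_true hA, mul_one, mul_one]
    have hk0 : 0 < k := by omega
    have h1 : ENNReal.ofReal (1 / (k : ℝ)) = ((1 / (k : ℝ≥0) : ℝ≥0) : ℝ≥0∞) := by
      rw [← ENNReal.ofReal_coe_nnreal]
      push_cast
      rfl
    rw [h1]
    refine ENNReal.coe_le_coe.2 ?_
    unfold mu
    have h2 : ((x : ℕ) : ℝ≥0) + 1 ≤ (k : ℝ≥0) := by
      have : (x : ℕ) + 1 ≤ k := by omega
      exact_mod_cast this
    gcongr
  · rw [ind_false hB, mul_zero]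
    exact zero_le

private theorem Z_EB {Q T k n : ℕ} (hQ : 2 ≤ Q) (hT : 2 ≤ T) (hk : k ≤ Q ^ T) (hn : 1 ≤ n)
    (hbig : Q ^ (T - 1) + n * (T - 1) * Q ^ (T - 1) < k) :
    ENNReal.ofReal (1 / (k : ℝ)) * Z (muP (Q ^ T) 1) (fun β => ind (EB Q T n β)) ≤
      Z (muP (Q ^ T) 1) (fun β => ind (∀ i ∈ Icc 1 T, NB Q (mg β) i = n) *
        ind (len (cut 0 β) = k)) := by
  calc ENNReal.ofReal (1 / (k : ℝ)) * Z (muP (Q ^ T) 1) (fun β => ind (EB Q T n β))
      = Z (muP (Q ^ T) 1) (fun β => ENNReal.ofReal (1 / (k : ℝ)) * ind (EB Q T n β)) :=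
        (Z_const_mul _ _ _).symm
    _ ≤ Z (muP (Q ^ T) 1) (fun β => ∑ x ∈ univ.filter (fun x : Fin (Q ^ T) => bl Q x = T),
        (mu (Q ^ T) x : ℝ≥0∞) * ind (EA Q T n k (ad β (x, fun _ => true)))) :=
        Z_mono _ (point_le hQ hT hk hn hbig)
    _ = ∑ x ∈ univ.filter (fun x : Fin (Q ^ T) => bl Q x = T), Z (muP (Q ^ T) 1) (fun β =>
        (mu (Q ^ T) x : ℝ≥0∞) * ind (EA Q T n k (ad β (x, fun _ => true)))) :=
        Z_sum _ _ (fun x β => (mu (Q ^ T) x : ℝ≥0∞) * ind (EA Q T n k (ad β (x, fun _ => true))))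
    _ = ∑ x ∈ univ.filter (fun x : Fin (Q ^ T) => bl Q x = T), Z (muP (Q ^ T) 1) (fun β =>
        (β (x, fun _ => true) : ℝ≥0∞) * ind (EA Q T n k β)) := by
        refine Finset.sum_congr rfl fun x _ => ?_
        rw [Z_const_mul, mecke (muP (Q ^ T) 1) (x, fun _ => true) (fun β => ind (EA Q T n k β))]
        rfl
    _ = Z (muP (Q ^ T) 1) (fun β => ∑ x ∈ univ.filter (fun x : Fin (Q ^ T) => bl Q x = T),
        (β (x, fun _ => true) : ℝ≥0∞) * ind (EA Q T n k β)) :=
        (Z_sum _ _ (fun x β => (β (x, fun _ => true) : ℝ≥0∞) * ind (EA Q T n k β))).symm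
    _ ≤ _ := by
        refine Z_mono _ fun β => ?_
        rw [← Finset.sum_mul]
        by_cases hA : EA Q T n k β
        · have h1 : ∑ x ∈ univ.filter (fun x : Fin (Q ^ T) => bl Q x = T),
              (β (x, fun _ => true) : ℝ≥0∞) = 1 := by
            have h2 := hA.1
            unfold NB at h2
            rw [← Finset.sum_filter] at h2
            have h3 : ∑ x ∈ univ.filter (fun x : Fin (Q ^ T) => bl Q x = T),
                (β (x, fun _ => true) : ℝ≥0∞) =
                ((∑ x ∈ univ.filter (fun x : Fin (Q ^ T) => bl Q x = T), cut 0 β x : ℕ) :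
                  ℝ≥0∞) := by
              rw [Nat.cast_sum]
              exact Finset.sum_congr rfl fun x _ => by rw [cut_eq]
            rw [h3, h2, Nat.cast_one]
          rw [h1, one_mul, ind_true hA, ind_true hA.2.1, ind_true hA.2.2, one_mul]
        · rw [ind_false hA, mul_zero]
          exact zero_le

/-- the classes -/
private def cls (Q T : ℕ) {K : ℕ} (i : Fin K × Pat 1) : ℕ :=
  if bl Q i.1 = T ∧ i.2 0 = true then 0 else bl Q i.1

private theorem cls_t {Q T K : ℕ} (x : Fin K) : cls Q T (x, (fun _ => true : Pat 1)) =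
    if bl Q x = T then 0 else bl Q x := by
  unfold cls
  simp

private theorem cls_f {Q T K : ℕ} (x : Fin K) : cls Q T (x, (fun _ => false : Pat 1)) = bl Q x := by
  unfold cls
  simp

/-- the prescribed numbers -/
private def num (T n j : ℕ) : ℕ := if j = 0 then 0 else if j = T then n - 1 else n

private theorem EB_of {Q T n : ℕ} (hT : 2 ≤ T) {β : Fin (Q ^ T) × Pat 1 → ℕ}
    (h : ∀ j ≤ T, (∑ i, if cls Q T i = j then β i else 0) = num T n j) : EB Q T n β := by
  have hs : ∀ j, (∑ i, if cls Q T i = j then β i else 0) =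
      ∑ x : Fin (Q ^ T), ((if cls Q T (x, (fun _ => true : Pat 1)) = j then
        β (x, fun _ => true) else 0) + (if cls Q T (x, (fun _ => false : Pat 1)) = j then
        β (x, fun _ => false) else 0)) := by
    intro j
    rw [Fintype.sum_prod_type]
    refine Finset.sum_congr rfl fun x _ => ?_
    rw [sum_pat1]
  refine ⟨?_, fun i hi => ?_, ?_⟩
  · have h0 := h 0 (by omega)
    rw [hs] at h0
    unfold num at h0
    rw [if_pos rfl, Finset.sum_eq_zero_iff] at h0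
    unfold NB
    refine Finset.sum_eq_zero fun x _ => ?_
    have h1 := h0 x (Finset.mem_univ x)
    split_ifs with hx
    · rw [cls_t, if_pos hx, if_pos rfl] at h1
      rw [cut_eq]
      omega
    · rfl
  · obtain ⟨hi1, hi2⟩ := Finset.mem_Icc.1 hi
    have h0 := h i (by omega)
    rw [hs] at h0
    unfold num at h0
    rw [if_neg (by omega), if_neg (by omega)] at h0
    rw [← h0]
    unfold NB
    refine Finset.sum_congr rfl fun x _ => ?_
    rw [cls_t, cls_f, mg_eq]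
    by_cases hx : bl Q x = i
    · rw [if_pos hx, if_pos hx, if_neg (by omega : ¬ bl Q x = T), if_pos hx]
    · rw [if_neg hx, if_neg hx, if_neg, zero_add]
      split_ifs
      · omega
      · exact hx
  · have h0 := h 0 (by omega)
    have hT' := h T le_rfl
    rw [hs] at h0 hT'
    unfold num at h0 hT'
    rw [if_pos rfl] at h0
    rw [if_neg (by omega), if_pos rfl] at hT'
    have e : NB Q (mg β) T = (∑ x : Fin (Q ^ T), ((if cls Q T (x, (fun _ => true : Pat 1)) = T then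
        β (x, fun _ => true) else 0) + (if cls Q T (x, (fun _ => false : Pat 1)) = T then
        β (x, fun _ => false) else 0))) +
        ∑ x : Fin (Q ^ T), ((if cls Q T (x, (fun _ => true : Pat 1)) = 0 then
        β (x, fun _ => true) else 0) + (if cls Q T (x, (fun _ => false : Pat 1)) = 0 then
        β (x, fun _ => false) else 0)) := by
      rw [← Finset.sum_add_distrib]
      unfold NB
      refine Finset.sum_congr rfl fun x _ => ?_
      have hb := one_le_bl Q x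
      rw [cls_t, cls_f, mg_eq]
      by_cases hx : bl Q x = T
      · have e1 : ¬ 0 = T := by omega
        have e2 : ¬ T = 0 := by omega
        simp only [hx, if_true, if_neg e1, if_neg e2]
        omega
      · have e2 : ¬ bl Q x = 0 := by omega
        simp only [if_neg hx, if_neg e2]
    rw [e, h0, hT', add_zero]

private theorem cls_lt {Q T : ℕ} (hQ : 2 ≤ Q) (hT : 2 ≤ T) (i : Fin (Q ^ T) × Pat 1) :
    cls Q T i < T + 1 := by
  unfold cls
  have := bl_le hQ (by omega) i.1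
  split_ifs <;> omega

private theorem sum_cls {Q T j : ℕ} (hT : 2 ≤ T) (hj : j ∈ Icc 1 (T - 1)) :
    (((∑ i : Fin (Q ^ T) × Pat 1, if cls Q T i = j then muP (Q ^ T) 1 i else 0 : ℝ≥0)) : ℝ) =
      2 * hb Q (Q ^ T) j := by
  obtain ⟨hi1, hi2⟩ := Finset.mem_Icc.1 hj
  rw [Fintype.sum_prod_type]
  unfold hb
  rw [Finset.mul_sum]
  push_cast
  refine Finset.sum_congr rfl fun x _ => ?_
  rw [sum_pat1, cls_t, cls_f]
  unfold muP mu
  by_cases hx : bl Q x = j
  · have hxT : ¬ bl Q x = T := by omega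
    simp only [if_neg hxT, if_pos hx]
    push_cast
    ring
  · have hb := one_le_bl Q x
    have h1 : ¬ (if bl Q x = T then 0 else bl Q x) = j := by
      split_ifs <;> omega
    simp only [if_neg h1, if_neg hx]
    simp

private theorem sum_cls_T {Q T : ℕ} (hT : 2 ≤ T) :
    (((∑ i : Fin (Q ^ T) × Pat 1, if cls Q T i = T then muP (Q ^ T) 1 i else 0 : ℝ≥0)) : ℝ) =
      hb Q (Q ^ T) T := by
  rw [Fintype.sum_prod_type]
  unfold hb
  push_cast
  refine Finset.sum_congr rfl fun x _ => ?_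
  rw [sum_pat1, cls_t, cls_f]
  unfold muP mu
  by_cases hx : bl Q x = T
  · have h1 : ¬ (0 = T) := by omega
    simp [hx, h1]
  · simp [hx]

private theorem prod_num {T n : ℕ} (hT : 2 ≤ T) (s : ℕ → ℝ) :
    ∏ j ∈ range (T + 1), (s j ^ num T n j / ((num T n j).factorial : ℝ)) =
      s T ^ (n - 1) / ((n - 1).factorial : ℝ) *
        ∏ i ∈ Icc 1 (T - 1), (s i ^ n / (n.factorial : ℝ)) := by
  rw [Finset.prod_range_succ, mul_comm]
  congr 1
  · unfold num
    rw [if_neg (by omega), if_pos rfl]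
  · obtain ⟨m, rfl⟩ : ∃ m, T = m + 1 := ⟨T - 1, by omega⟩
    rw [Finset.prod_range_succ', Nat.add_sub_cancel]
    have h0 : s 0 ^ num (m + 1) n 0 / ((num (m + 1) n 0).factorial : ℝ) = 1 := by
      unfold num
      simp
    rw [h0, mul_one, Finset.range_eq_Ico,
      Finset.prod_Ico_add' (fun j => s j ^ num (m + 1) n j / ((num (m + 1) n j).factorial : ℝ)) 0 m 1]
    have h1 : Ico (0 + 1) (m + 1) = Icc 1 m := by
      ext j
      simp only [Finset.mem_Ico, Finset.mem_Icc]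
      omega
    rw [h1]
    refine Finset.prod_congr rfl fun j hj => ?_
    obtain ⟨hj1, hj2⟩ := Finset.mem_Icc.1 hj
    unfold num
    rw [if_neg (by omega), if_neg (by omega)]

private theorem le_Z_EB {Q T n : ℕ} (hQ : 2 ≤ Q) (hT : 2 ≤ T) :
    ENNReal.ofReal ((hb Q (Q ^ T) T ^ (n - 1) / ((n - 1).factorial : ℝ)) *
      ∏ i ∈ Icc 1 (T - 1), ((2 * hb Q (Q ^ T) i) ^ n / (n.factorial : ℝ))) ≤
    Z (muP (Q ^ T) 1) (fun β => ind (EB Q T n β)) := by
  have hZ := Z_classes (muP (Q ^ T) 1)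
    (fun i => (⟨cls Q T i, cls_lt hQ hT i⟩ : Fin (T + 1))) (fun j => num T n (j : ℕ))
  have h1 : Z (muP (Q ^ T) 1) (fun a => ind (∀ j : Fin (T + 1),
      (∑ i, if (⟨cls Q T i, cls_lt hQ hT i⟩ : Fin (T + 1)) = j then a i else 0) =
        num T n (j : ℕ))) ≤ Z (muP (Q ^ T) 1) (fun β => ind (EB Q T n β)) := by
    refine Z_mono _ fun β => ind_mono fun h => EB_of hT fun j hj => ?_
    have h2 := h ⟨j, by omega⟩
    simp only [Fin.mk.injEq] at h2
    exact h2
  refine le_trans (le_of_eq ?_) h1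
  rw [hZ, ← ENNReal.ofReal_coe_nnreal]
  congr 1
  push_cast
  have h3 : ∀ j : Fin (T + 1), (∑ i : Fin (Q ^ T) × Pat 1,
      (((if (⟨cls Q T i, cls_lt hQ hT i⟩ : Fin (T + 1)) = j then muP (Q ^ T) 1 i else 0 : ℝ≥0)) : ℝ)) =
      (fun j : ℕ => ∑ i : Fin (Q ^ T) × Pat 1,
        (((if cls Q T i = j then muP (Q ^ T) 1 i else 0 : ℝ≥0)) : ℝ)) (j : ℕ) := by
    intro j
    refine Finset.sum_congr rfl fun i _ => ?_
    simp only [Fin.ext_iff]
  simp only [h3]
  rw [Fin.prod_univ_eq_prod_range (fun j : ℕ => (∑ i : Fin (Q ^ T) × Pat 1,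
        (((if cls Q T i = j then muP (Q ^ T) 1 i else 0 : ℝ≥0)) : ℝ)) ^ num T n j /
          ((num T n j).factorial : ℝ)) (T + 1),
    prod_num hT (fun j : ℕ => ∑ i : Fin (Q ^ T) × Pat 1,
        (((if cls Q T i = j then muP (Q ^ T) 1 i else 0 : ℝ≥0)) : ℝ))]
  have h4 := sum_cls_T (Q := Q) hT
  rw [NNReal.coe_sum] at h4
  rw [h4]
  congr 1
  refine Finset.prod_congr rfl fun j hj => ?_
  have h5 := sum_cls (Q := Q) hT hj
  rw [NNReal.coe_sum] at h5
  rw [h5]

theorem fst_le {Q T k n : ℕ} (hQ : 2 ≤ Q) (hT : 2 ≤ T) (hk : k ≤ Q ^ T) (hn : 1 ≤ n)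
    (hbig : Q ^ (T - 1) + n * (T - 1) * Q ^ (T - 1) < k) :
    ENNReal.ofReal (1 / (k : ℝ) * Real.exp (-(HH (Q ^ T))) *
      (hb Q (Q ^ T) T ^ (n - 1) / ((n - 1).factorial : ℝ)) *
      ∏ i ∈ Icc 1 (T - 1), ((2 * hb Q (Q ^ T) i) ^ n / (n.factorial : ℝ))) ≤
    Ex (Q ^ T) (fun a => ind (∀ i ∈ Icc 1 T, NB Q a i = n) * Nl k a) := by
  rw [mom1 k (fun a => ind (∀ i ∈ Icc 1 T, NB Q a i = n))]
  unfold ExP
  have h1 : ENNReal.ofReal (1 / (k : ℝ) * Real.exp (-(HH (Q ^ T))) *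
      (hb Q (Q ^ T) T ^ (n - 1) / ((n - 1).factorial : ℝ)) *
      ∏ i ∈ Icc 1 (T - 1), ((2 * hb Q (Q ^ T) i) ^ n / (n.factorial : ℝ))) =
      ENNReal.ofReal (Real.exp (-(HH (Q ^ T)))) * (ENNReal.ofReal (1 / (k : ℝ)) *
        ENNReal.ofReal ((hb Q (Q ^ T) T ^ (n - 1) / ((n - 1).factorial : ℝ)) *
      ∏ i ∈ Icc 1 (T - 1), ((2 * hb Q (Q ^ T) i) ^ n / (n.factorial : ℝ)))) := by
    rw [← ENNReal.ofReal_mul (by positivity), ← ENNReal.ofReal_mul (Real.exp_pos _).le]
    congr 1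
    ring
  rw [h1]
  gcongr
  refine le_trans ?_ (Z_EB hQ hT hk hn hbig)
  gcongr
  exact le_Z_EB hQ hT

end Pool.Agent.Lib.MP_134bf7_pr.RL
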