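import Pool.Agent.Lib.MP_134bf7_pr.RL.LoA
import Pool.Agent.Lib.MP_134bf7_pr.RL.Ha

/-!
# RL-LoB: the first moment is at least `Q ^ (- al * T - 2)`

`lam = log Q`, `n = ⌊zz * lam⌋₊`.  `hbig` of `fst_le`: `(1 + n * (T - 1)) * Q ^ (T - 1) < k` follows from
`Q ^ T ≤ D * k` for large `Q` as `D * (1 + n * (T - 1)) < Q`.
With `θ = 1 / (2 * T)`: by `stir` (`hb_bounds`) and `two_pow` each factor
`exp (- hb i) * (2 * hb i) ^ n / n! ≥ exp ((1 - θ - al - θ) * lam)`, the factor of block `T`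
`exp (- hb T) * hb T ^ (n - 1) / (n - 1)! ≥ exp (- (al + θ) * lam)`, `1 / k ≥ exp (- T * lam)`, `HH_eq`; the product
is at least `exp (lam * (- T - al - θ + (T - 1) * (1 - al - 2 * θ))) ≥ exp (- (al * T + 2) * lam)`.
-/

namespace Pool.Agent.Lib.MP_134bf7_pr.RL

open Finset Filter
open scoped ENNReal NNReal

private theorem num_ineq {Q T k n : ℕ} (hQ : 2 ≤ Q) (hT : 2 ≤ T) (hk : k ≤ Q ^ T) (hk0 : 1 ≤ k)
    (hn : 1 ≤ n) {θ : ℝ} (hθ : θ * (2 * T - 1) ≤ 1)
    (hnz : |(n : ℝ) - zz * Real.log Q| ≤ 1)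
    (h1 : ∀ (h : ℝ) (n : ℕ), |h - Real.log Q| ≤ 1 →
    |(n : ℝ) - zz * Real.log Q| ≤ 2 →
      Real.exp (-((al + θ) * Real.log Q)) ≤ Real.exp (-h) * h ^ n / (n.factorial : ℝ))
    (h2 : ∀ n : ℕ, |(n : ℝ) - zz * Real.log Q| ≤ 2 →
    Real.exp ((1 - θ) * Real.log Q) ≤ 2 ^ n) :
    Real.exp (-(al * T + 2) * Real.log Q) ≤ 1 / (k : ℝ) * Real.exp (-(HH (Q ^ T))) *
      (hb Q (Q ^ T) T ^ (n - 1) / ((n - 1).factorial : ℝ)) *
      ∏ i ∈ Icc 1 (T - 1), ((2 * hb Q (Q ^ T) i) ^ n / (n.factorial : ℝ)) := by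
  have hQ0 : (0 : ℝ) < Q := by exact_mod_cast (by omega : 0 < Q)
  have hlam : 0 < Real.log Q := Real.log_pos (by exact_mod_cast (by omega : 1 < Q))
  obtain ⟨hn1, hn2⟩ := abs_le.1 hnz
  have hH : Real.exp (-(HH (Q ^ T))) = Real.exp (-(hb Q (Q ^ T) T)) *
      ∏ i ∈ Icc 1 (T - 1), Real.exp (-(hb Q (Q ^ T) i)) := by
    rw [HH_eq hQ (by omega), ← Real.exp_sum, ← Real.exp_add]
    congr 1
    have h3 : Icc 1 T = insert T (Icc 1 (T - 1)) := by
      ext i
      simp only [Finset.mem_Icc, Finset.mem_insert]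
      omega
    rw [h3, Finset.sum_insert (by
      rw [Finset.mem_Icc]
      omega), Finset.sum_neg_distrib]
    ring
  have hb1 : ∀ i ∈ Icc 1 T, Real.exp (-((al + θ) * Real.log Q)) ≤
      Real.exp (-(hb Q (Q ^ T) i)) * hb Q (Q ^ T) i ^ n / (n.factorial : ℝ) :=
    fun i hi => h1 _ n (hb_bounds hQ hi) (by linarith)
  have hbT : Real.exp (-((al + θ) * Real.log Q)) ≤
      Real.exp (-(hb Q (Q ^ T) T)) * hb Q (Q ^ T) T ^ (n - 1) / ((n - 1).factorial : ℝ) := by
    refine h1 _ (n - 1) (hb_bounds hQ (Finset.mem_Icc.2 ⟨by omega, le_rfl⟩)) ?_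
    rw [Nat.cast_sub hn, Nat.cast_one, abs_le]
    constructor <;> linarith
  have h2n := h2 n (by linarith)
  have hfac : ∀ i ∈ Icc 1 (T - 1), Real.exp ((1 - 2 * θ - al) * Real.log Q) ≤
      Real.exp (-(hb Q (Q ^ T) i)) * ((2 * hb Q (Q ^ T) i) ^ n / (n.factorial : ℝ)) := by
    intro i hi
    have hi' : i ∈ Icc 1 T := by
      rw [Finset.mem_Icc] at hi ⊢
      omega
    have h3 := hb1 i hi'
    calc Real.exp ((1 - 2 * θ - al) * Real.log Q)
        = Real.exp ((1 - θ) * Real.log Q) * Real.exp (-((al + θ) * Real.log Q)) := by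
          rw [← Real.exp_add]
          congr 1
          ring
      _ ≤ 2 ^ n * (Real.exp (-(hb Q (Q ^ T) i)) * hb Q (Q ^ T) i ^ n / (n.factorial : ℝ)) :=
          mul_le_mul h2n h3 (Real.exp_pos _).le (by positivity)
      _ = _ := by
          rw [mul_pow]
          ring
  have hprod : Real.exp ((1 - 2 * θ - al) * Real.log Q) ^ (T - 1) ≤
      ∏ i ∈ Icc 1 (T - 1), (Real.exp (-(hb Q (Q ^ T) i)) *
        ((2 * hb Q (Q ^ T) i) ^ n / (n.factorial : ℝ))) := by
    have h4 := Finset.prod_le_prod (s := Icc 1 (T - 1))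
      (f := fun _ => Real.exp ((1 - 2 * θ - al) * Real.log Q))
      (fun i _ => (Real.exp_pos _).le) hfac
    rw [Finset.prod_const] at h4
    simpa using h4
  have hkk : Real.exp (-(T * Real.log Q)) ≤ 1 / (k : ℝ) := by
    have hk0' : (0 : ℝ) < k := by exact_mod_cast hk0
    have h5 : (k : ℝ) ≤ Real.exp (T * Real.log Q) := by
      have h6 : Real.exp (T * Real.log Q) = (Q : ℝ) ^ T := by
        rw [mul_comm, Real.exp_mul, Real.exp_log hQ0, Real.rpow_natCast]
      rw [h6]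
      exact_mod_cast hk
    rw [Real.exp_neg, ← one_div]
    exact one_div_le_one_div_of_le hk0' h5
  have hTT : (1 : ℕ) ≤ T := by omega
  calc Real.exp (-(al * T + 2) * Real.log Q)
      ≤ Real.exp (-(T * Real.log Q)) * Real.exp (-((al + θ) * Real.log Q)) *
        Real.exp ((1 - 2 * θ - al) * Real.log Q) ^ (T - 1) := by
        rw [← Real.exp_nat_mul, ← Real.exp_add, ← Real.exp_add]
        apply Real.exp_le_exp.2
        rw [Nat.cast_sub hTT, Nat.cast_one]
        have e : -(T * Real.log Q) + -((al + θ) * Real.log Q) +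
            ((T : ℝ) - 1) * ((1 - 2 * θ - al) * Real.log Q) =
            (-1 - al * T - θ * (2 * T - 1)) * Real.log Q := by ring
        rw [e]
        apply mul_le_mul_of_nonneg_right _ hlam.le
        linarith
    _ ≤ 1 / (k : ℝ) * (Real.exp (-(hb Q (Q ^ T) T)) * hb Q (Q ^ T) T ^ (n - 1) /
          ((n - 1).factorial : ℝ)) *
        ∏ i ∈ Icc 1 (T - 1), (Real.exp (-(hb Q (Q ^ T) i)) *
          ((2 * hb Q (Q ^ T) i) ^ n / (n.factorial : ℝ))) := by
        have hbn := hb_nonneg Q (Q ^ T) T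
        refine mul_le_mul (mul_le_mul hkk hbT (Real.exp_pos _).le (by positivity)) hprod
          (by positivity) (by positivity)
    _ = _ := by
        rw [Finset.prod_mul_distrib, hH]
        ring

theorem fst {T D : ℕ} (hT : 2 ≤ T) : ∀ᶠ Q : ℕ in atTop, ∀ k : ℕ, k ≤ Q ^ T → Q ^ T ≤ D * k →
    ENNReal.ofReal (Real.exp (-(al * T + 2) * Real.log Q)) ≤
      Ex (Q ^ T) (fun a => ind (∀ i ∈ Icc 1 T, NB Q a i = ⌊zz * Real.log Q⌋₊) * Nl k a) := by
  have hT0 : (0 : ℝ) < T := by exact_mod_cast (by omega : 0 < T)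
  set θ : ℝ := 1 / (2 * T) with hθ
  have hθ0 : 0 < θ := by positivity
  have hθ1 : θ * (2 * T - 1) ≤ 1 := by
    have h : θ * (2 * T) = 1 := by
      rw [hθ]
      field_simp
    linarith
  have hlog : Tendsto (fun Q : ℕ => Real.log (Q : ℝ)) atTop atTop :=
    Real.tendsto_log_atTop.comp tendsto_natCast_atTop_atTop
  have e1 := hlog.eventually (stir θ hθ0)
  have e2 := hlog.eventually (two_pow θ hθ0)
  have e3 := hlog.eventually (absorb (2 * D * T) (1 / 2) (by norm_num))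
  have e4 := hlog.eventually (eventually_ge_atTop 1)
  filter_upwards [e1, e2, e3, e4, eventually_ge_atTop 2] with Q h1 h2 h3 h4 hQ k hk hDk
  have hQ0 : (0 : ℝ) < Q := by exact_mod_cast (by omega : 0 < Q)
  obtain ⟨hz1, hz2⟩ := zz_bounds
  set lam : ℝ := Real.log Q with hlam
  set n : ℕ := ⌊zz * lam⌋₊ with hndef
  have hzl : 0 ≤ zz * lam := by positivity
  have hn_le : (n : ℝ) ≤ zz * lam := Nat.floor_le hzl
  have hn_lt : zz * lam < n + 1 := Nat.lt_floor_add_one _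
  have hn : 1 ≤ n := by
    rw [hndef]
    apply Nat.le_floor
    rw [Nat.cast_one]
    nlinarith
  have hDn : D * (1 + n * (T - 1)) < Q := by
    have h5 : ((D * (1 + n * (T - 1)) : ℕ) : ℝ) < Q := by
      push_cast
      rw [Nat.cast_sub (by omega : 1 ≤ T), Nat.cast_one]
      have hD0 : (0 : ℝ) ≤ D := Nat.cast_nonneg D
      have hT1 : (1 : ℝ) ≤ T := by exact_mod_cast (by omega : 1 ≤ T)
      have h6 : (n : ℝ) * ((T : ℝ) - 1) ≤ 2 * lam * T := by
        have : (n : ℝ) ≤ 2 * lam := by nlinarith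
        exact mul_le_mul this (by linarith) (by linarith) (by linarith)
      have h7 : 1 + (n : ℝ) * ((T : ℝ) - 1) ≤ 2 * T * (1 + lam) ^ 2 := by
        have h71 : 0 ≤ (T : ℝ) * lam := by positivity
        have h72 : 0 ≤ (T : ℝ) * lam ^ 2 := by positivity
        have h73 : 2 * (T : ℝ) * (1 + lam) ^ 2 = 2 * T + 4 * (T * lam) + 2 * (T * lam ^ 2) := by
          ring
        rw [h73]
        linarith
      have h8 : (D : ℝ) * (1 + (n : ℝ) * ((T : ℝ) - 1)) ≤ 2 * D * T * (1 + lam) ^ 2 := by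
        nlinarith
      have h9 : Real.exp (1 / 2 * lam) < Real.exp lam := by
        apply Real.exp_lt_exp.2
        linarith
      have h10 : Real.exp lam = Q := Real.exp_log hQ0
      linarith
    exact_mod_cast h5
  have hbig : Q ^ (T - 1) + n * (T - 1) * Q ^ (T - 1) < k := by
    have h6 : D * (Q ^ (T - 1) + n * (T - 1) * Q ^ (T - 1)) < D * k := by
      refine lt_of_lt_of_le ?_ hDk
      have h7 : Q ^ T = Q * Q ^ (T - 1) := by
        rw [← pow_succ']
        congr 1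
        omega
      rw [h7]
      have h8 : D * (Q ^ (T - 1) + n * (T - 1) * Q ^ (T - 1)) =
          D * (1 + n * (T - 1)) * Q ^ (T - 1) := by ring
      rw [h8]
      exact Nat.mul_lt_mul_of_pos_right hDn (by positivity)
    exact lt_of_mul_lt_mul_left h6 (Nat.zero_le _)
  have hk0 : 1 ≤ k := by omega
  refine le_trans (ENNReal.ofReal_le_ofReal ?_) (fst_le hQ hT hk hn hbig)
  refine num_ineq hQ hT hk hk0 hn hθ1 ?_ h1 h2
  rw [abs_le]
  constructor <;> linarith

end Pool.Agent.Lib.MP_134bf7_pr.RL
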