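import Pool.Agent.Lib.MP_134bf7_pr.RL.FM
import Pool.Agent.Lib.MP_134bf7_pr.RL.Gr
import Pool.Agent.Lib.MP_134bf7_pr.RL.Bk
import Pool.Agent.Lib.MP_134bf7_pr.RL.LA

/-!
# RL-ME: the main estimate for labelled configurations with given supports

Write `K = Q ^ T`.  If no `β` satisfies `∀ i, 1 ≤ i → sup Q β i = σ i` the left side is `0`.  Otherwise
`σ` is decreasing on `[1, ∞)` and `σ i = ∅` for `i > T` (`bl_le`).  Let `S` be the set of `greedy`, and for
`q ∈ S` let `lev q` be the largest `i` with `q ∈ σ i` (`1 ≤ lev q ≤ T`), and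
`B q = {(x, q) | bl Q x = lev q}` (disjoint for different `q`).
If `β` satisfies the support condition, then `∑_{z ∈ B q} β z ≥ 1` for every `q ∈ S` (`q` occurs at a
block `≥ lev q` and at no block `≥ lev q + 1`), and `β (x, q') = 0` unless `q' ∈ σ (bl Q x)`, so
`mon y β = mon y' β` for `y' (x, q') = y (bl Q x) q'` if `q' ∈ XV (spn (σ (bl Q x)))`, and `0`
otherwise.  Therefore the left side is at most
`Z (∏_{q ∈ S} (∑_{z ∈ B q} β z) * (ind (∀ l, len (cut l β) = m l) * mon y' β))`.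
Apply `fm` (index type `τ = S`, as a subtype) with `C β = ∀ l, len (cut l β) = m l`:
`hC`: for `f q = (x q, q)`, `len (cut l (adf β f)) = len (cut l β) + ∑_{q ∈ S, q l} (x q + 1)`, so
`∑_{q ∈ S} (x q + 1) • vec q` (a vector in `ℚ ^ r`) is determined by `β` and `m`, and the `vec q` are linearly
independent, so the `x q` are determined.
`hM`: `μ * y' ≤ (Q ^ (lev q - 1))⁻¹ * Y` by `mu_le`.
So the left side is at most `∏_{q ∈ S} (Q ^ (lev q - 1))⁻¹ * Y` times
`Z (mon y') = exp (∑_{x, q} mu x * y' (x, q))` (`Z_mon`).  Here `|S| = dm (σ 1)`,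
`∑_{q ∈ S} (lev q - 1) = ∑_{i = 2}^T |{q ∈ S | q ∈ σ i}| = ∑_{i = 2}^T dm (σ i)`
(`q ∈ σ i ↔ i ≤ lev q` for `i ≥ 1`), and
`∑_{x, q} mu x * y' (x, q) = ∑_{i = 1}^T hb i * ∑_{q ∈ XV (spn (σ i))} y i q`.
-/

namespace Pool.Agent.Lib.MP_134bf7_pr.RL

open Finset
open scoped ENNReal NNReal

/-- `σ i ⊆ XV (spn (σ i))` -/
theorem sub_XV {r : ℕ} (σ : Finset (Pat r)) : σ ⊆ XV (spn σ) := by
  classical
  intro q hq
  have h : vec q ∈ spn σ := Submodule.subset_span ⟨q, hq, rfl⟩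
  unfold XV
  exact Finset.mem_filter.2 ⟨Finset.mem_univ _, h⟩

private theorem sup_anti {Q K r : ℕ} (β : Fin K × Pat r → ℕ) {i j : ℕ} (h : i ≤ j) :
    sup Q β j ⊆ sup Q β i := by
  intro q hq
  unfold sup at hq ⊢
  obtain ⟨_, x, hx, hb⟩ := Finset.mem_filter.1 hq
  exact Finset.mem_filter.2 ⟨Finset.mem_univ _, x, h.trans hx, hb⟩

private theorem me_len {K r : ℕ} {S : Finset (Pat r)} (β : Fin K × Pat r → ℕ)
    (f : S → Fin K × Pat r) (hf : ∀ t, (f t).2 = t.1) (l : Fin r) :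
    ((len (cut l (adf β f)) : ℕ) : ℚ) = (len (cut l β) : ℚ) +
      ∑ t : S, ((((f t).1 : ℕ) : ℚ) + 1) * vec t.1 l := by
  classical
  have h0 : ∀ b : Fin K × Pat r → ℕ, ((len (cut l b) : ℕ) : ℚ) =
      ∑ z : Fin K × Pat r, (((z.1 : ℕ) : ℚ) + 1) * (vec z.2 l * (b z : ℚ)) := by
    intro b
    unfold len cut vec
    rw [Fintype.sum_prod_type]
    push_cast
    refine Finset.sum_congr rfl fun x _ => ?_
    rw [Finset.mul_sum]
    refine Finset.sum_congr rfl fun q _ => ?_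
    by_cases hq : q l = true <;> simp [hq]
  rw [h0, h0]
  have h1 : ∀ z : Fin K × Pat r, ((adf β f z : ℕ) : ℚ) = (β z : ℚ) +
      ∑ t : S, if f t = z then (1 : ℚ) else 0 := by
    intro z
    unfold adf
    rw [Nat.cast_add, Finset.card_filter]
    push_cast
    rfl
  simp only [h1, mul_add, Finset.sum_add_distrib]
  congr 1
  simp only [Finset.mul_sum]
  rw [Finset.sum_comm]
  refine Finset.sum_congr rfl fun t _ => ?_
  rw [Finset.sum_eq_single (f t)]
  · rw [if_pos rfl, hf]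
    ring
  · intro z _ hz
    rw [if_neg (fun h => hz h.symm)]
    ring
  · intro h
    exact absurd (Finset.mem_univ _) h

theorem me {Q T r : ℕ} (hQ : 2 ≤ Q) (hT : 1 ≤ T) (σ : ℕ → Finset (Pat r)) (m : Fin r → ℕ)
    (y : ℕ → Pat r → ℝ≥0) (Y : ℝ≥0) (hY : ∀ i q, y i q ≤ Y) :
    Z (muP (Q ^ T) r) (fun β => ind ((∀ i, 1 ≤ i → sup Q β i = σ i) ∧ ∀ l, len (cut l β) = m l) *
      mon (fun z : Fin (Q ^ T) × Pat r => y (bl Q z.1) z.2) β) ≤
    ENNReal.ofReal ((Y : ℝ) ^ dm (σ 1) *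
      Real.exp (-(Real.log Q * ∑ i ∈ Icc 2 T, (dm (σ i) : ℝ))) *
      Real.exp (∑ i ∈ Icc 1 T, hb Q (Q ^ T) i * ∑ q ∈ XV (spn (σ i)), (y i q : ℝ))) := by
  classical
  by_cases hex : ∃ β : Fin (Q ^ T) × Pat r → ℕ, ∀ i, 1 ≤ i → sup Q β i = σ i
  swap
  · have h0 : ∀ β : Fin (Q ^ T) × Pat r → ℕ,
        ind ((∀ i, 1 ≤ i → sup Q β i = σ i) ∧ ∀ l, len (cut l β) = m l) *
          mon (fun z : Fin (Q ^ T) × Pat r => y (bl Q z.1) z.2) β = 0 := by
      intro β
      rw [ind_false (fun h => hex ⟨β, h.1⟩), zero_mul]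
    have h1 : Z (muP (Q ^ T) r) (fun β =>
        ind ((∀ i, 1 ≤ i → sup Q β i = σ i) ∧ ∀ l, len (cut l β) = m l) *
          mon (fun z : Fin (Q ^ T) × Pat r => y (bl Q z.1) z.2) β) = 0 := by
      unfold Z
      rw [ENNReal.tsum_eq_zero]
      intro β
      have h2 := h0 β
      beta_reduce
      rw [h2, mul_zero]
    rw [h1]
    exact zero_le
  obtain ⟨β₀, hβ₀⟩ := hex
  have hanti : ∀ i j, 1 ≤ i → i ≤ j → σ j ⊆ σ i := by
    intro i j hi hij
    rw [← hβ₀ i hi, ← hβ₀ j (hi.trans hij)]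
    exact sup_anti β₀ hij
  have hemp : ∀ i, T < i → σ i = ∅ := by
    intro i hi
    rw [← hβ₀ i (by omega)]
    unfold sup
    rw [Finset.filter_eq_empty_iff]
    rintro q _ ⟨x, hx, _⟩
    have := bl_le hQ hT x
    omega
  obtain ⟨S, hS1, hli, hcard⟩ := greedy σ hanti T hemp
  -- the level of a pattern
  set lev : Pat r → ℕ := fun q => Nat.findGreatest (fun i => q ∈ σ i) T with hlev
  have hlevT : ∀ q, lev q ≤ T := fun q => Nat.findGreatest_le T
  have hlev1 : ∀ q ∈ S, 1 ≤ lev q := fun q hq => Nat.le_findGreatest hT (hS1 hq)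
  have hlevmem : ∀ q ∈ S, q ∈ σ (lev q) := fun q hq =>
    Nat.findGreatest_spec (P := fun i => q ∈ σ i) hT (hS1 hq)
  have hlevlt : ∀ q i, lev q < i → q ∉ σ i := by
    intro q i hi
    by_cases hiT : i ≤ T
    · exact Nat.findGreatest_is_greatest hi hiT
    · rw [hemp i (by omega)]
      exact Finset.notMem_empty q
  have hleviff : ∀ q ∈ S, ∀ i, 1 ≤ i → (q ∈ σ i ↔ i ≤ lev q) := by
    intro q hq i hi
    constructor
    · intro h
      by_contra hcon
      exact hlevlt q i (by omega) h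
    · intro h
      exact hanti i (lev q) hi h (hlevmem q hq)
  set B : S → Finset (Fin (Q ^ T) × Pat r) := fun t =>
    univ.filter fun z => z.2 = t.1 ∧ bl Q z.1 = lev t.1 with hB
  have hBmem : ∀ t z, z ∈ B t ↔ z.2 = t.1 ∧ bl Q z.1 = lev t.1 := by
    intro t z
    rw [hB]
    simp
  have hBd : ∀ t t', t ≠ t' → Disjoint (B t) (B t') := by
    intro t t' hne
    rw [Finset.disjoint_left]
    intro z hz hz'
    rw [hBmem] at hz hz'
    exact hne (Subtype.ext (hz.1.symm.trans hz'.1))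
  set y' : Fin (Q ^ T) × Pat r → ℝ≥0 := fun z =>
    if z.2 ∈ XV (spn (σ (bl Q z.1))) then y (bl Q z.1) z.2 else 0 with hy'
  set C : (Fin (Q ^ T) × Pat r → ℕ) → Prop := fun β => ∀ l, len (cut l β) = m l with hC
  set M : S → ℝ≥0 := fun t => ((Q : ℝ≥0) ^ (lev t.1 - 1))⁻¹ * Y with hM
  -- comparison of the integrands
  have hcomp : ∀ β : Fin (Q ^ T) × Pat r → ℕ,
      ind ((∀ i, 1 ≤ i → sup Q β i = σ i) ∧ ∀ l, len (cut l β) = m l) *
        mon (fun z : Fin (Q ^ T) × Pat r => y (bl Q z.1) z.2) β ≤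
      (∏ t, ((∑ z ∈ B t, β z : ℕ) : ℝ≥0∞)) * (ind (C β) * mon y' β) := by
    intro β
    by_cases hβ : (∀ i, 1 ≤ i → sup Q β i = σ i) ∧ ∀ l, len (cut l β) = m l
    swap
    · rw [ind_false hβ, zero_mul]
      exact zero_le
    rw [ind_true hβ, ind_true (P := C β) hβ.2, one_mul, one_mul]
    have hmem : ∀ x q, 1 ≤ β (x, q) → q ∈ σ (bl Q x) := by
      intro x q h
      rw [← hβ.1 (bl Q x) (one_le_bl Q x)]
      unfold sup
      exact Finset.mem_filter.2 ⟨Finset.mem_univ _, x, le_rfl, h⟩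
    have hmon : mon (fun z : Fin (Q ^ T) × Pat r => y (bl Q z.1) z.2) β = mon y' β := by
      unfold mon
      congr 1
      refine Finset.prod_congr rfl fun z _ => ?_
      rcases Nat.eq_zero_or_pos (β z) with h | h
      · rw [h, pow_zero, pow_zero]
      · have h1 : z.2 ∈ XV (spn (σ (bl Q z.1))) := sub_XV _ (hmem z.1 z.2 h)
        have h2 : y' z = y (bl Q z.1) z.2 := by
          rw [hy']
          exact if_pos h1
        rw [h2]
    have hone : ∀ t : S, 1 ≤ ∑ z ∈ B t, β z := by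
      intro t
      have h1 := hlevmem t.1 t.2
      rw [← hβ.1 _ (hlev1 t.1 t.2)] at h1
      unfold sup at h1
      obtain ⟨_, x, hx, hb⟩ := Finset.mem_filter.1 h1
      have h2 : bl Q x ≤ lev t.1 := by
        by_contra hcon
        exact hlevlt t.1 (bl Q x) (by omega) (hmem x t.1 hb)
      have h3 : (x, t.1) ∈ B t := (hBmem _ _).2 ⟨rfl, by
        change bl Q x = lev t.1
        omega⟩
      exact hb.trans (Finset.single_le_sum (f := fun z => β z) (fun _ _ => Nat.zero_le _) h3)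
    rw [hmon]
    have h4 : (1 : ℝ≥0∞) ≤ ∏ t : S, ((∑ z ∈ B t, β z : ℕ) : ℝ≥0∞) := by
      rw [← Nat.cast_prod]
      have h5 : 1 ≤ ∏ t : S, ∑ z ∈ B t, β z := Finset.one_le_prod' fun t _ => hone t
      exact_mod_cast h5
    calc mon y' β = 1 * mon y' β := (one_mul _).symm
      _ ≤ _ := mul_le_mul_left h4 _
  -- the hypotheses of `fm`
  have hCC : ∀ (a : Fin (Q ^ T) × Pat r → ℕ) (f f' : S → Fin (Q ^ T) × Pat r),
      (∀ t, f t ∈ B t) → (∀ t, f' t ∈ B t) → C (adf a f) → C (adf a f') → f = f' := by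
    intro a f f' hf hf' h1 h2
    have e1 : ∀ t, (f t).2 = t.1 := fun t => ((hBmem _ _).1 (hf t)).1
    have e2 : ∀ t, (f' t).2 = t.1 := fun t => ((hBmem _ _).1 (hf' t)).1
    have h3 : ∑ t : S, ((((f t).1 : ℕ) : ℚ) - (((f' t).1 : ℕ) : ℚ)) • vec t.1 = 0 := by
      funext l
      rw [Finset.sum_apply, Pi.zero_apply]
      have g1 := me_len a f e1 l
      have g2 := me_len a f' e2 l
      rw [h1 l] at g1
      rw [h2 l] at g2
      have g3 : ∑ t : S, ((((f t).1 : ℕ) : ℚ) + 1) * vec t.1 l =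
          ∑ t : S, ((((f' t).1 : ℕ) : ℚ) + 1) * vec t.1 l := by linarith
      have g4 : ∑ t : S, ((((f t).1 : ℕ) : ℚ) - (((f' t).1 : ℕ) : ℚ)) * vec t.1 l =
          ∑ t : S, ((((f t).1 : ℕ) : ℚ) + 1) * vec t.1 l -
            ∑ t : S, ((((f' t).1 : ℕ) : ℚ) + 1) * vec t.1 l := by
        rw [← Finset.sum_sub_distrib]
        exact Finset.sum_congr rfl fun t _ => by ring
      simp only [Pi.smul_apply, smul_eq_mul]
      rw [g4, g3, sub_self]
    have h4 := Fintype.linearIndependent_iff.1 hli _ h3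
    funext t
    refine Prod.ext ?_ ((e1 t).trans (e2 t).symm)
    apply Fin.ext
    have h5 := h4 t
    have h6 : (((f t).1 : ℕ) : ℚ) = (((f' t).1 : ℕ) : ℚ) := by linarith
    exact_mod_cast h6
  have hMM : ∀ t, ∀ z ∈ B t, muP (Q ^ T) r z * y' z ≤ M t := by
    intro t z hz
    have h1 := (hBmem t z).1 hz
    have h2 := mu_le hQ z.1
    rw [h1.2] at h2
    have h3 : y' z ≤ Y := by
      rw [hy']
      dsimp only
      split_ifs
      · exact hY _ _
      · exact zero_le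
    exact mul_le_mul' h2 h3
  refine (Z_mono _ hcomp).trans ((fm (muP (Q ^ T) r) y' B hBd C hCC M hMM).trans ?_)
  rw [Z_mon]
  -- the exponent
  have hE : ∑ z : Fin (Q ^ T) × Pat r, ((muP (Q ^ T) r z : ℝ≥0) : ℝ) * ((y' z : ℝ≥0) : ℝ) =
      ∑ i ∈ Icc 1 T, hb Q (Q ^ T) i * ∑ q ∈ XV (spn (σ i)), (y i q : ℝ) := by
    rw [Fintype.sum_prod_type]
    unfold hb
    simp only [Finset.sum_mul]
    conv_rhs => rw [Finset.sum_comm]
    refine Finset.sum_congr rfl fun x _ => ?_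
    rw [Finset.sum_eq_single (bl Q x)]
    · rw [if_pos rfl, Finset.mul_sum, ← Finset.sum_filter_add_sum_filter_not univ
        (fun q => q ∈ XV (spn (σ (bl Q x))))]
      have h1 : ∑ q ∈ univ.filter (fun q => ¬ q ∈ XV (spn (σ (bl Q x)))),
          ((muP (Q ^ T) r (x, q) : ℝ≥0) : ℝ) * ((y' (x, q) : ℝ≥0) : ℝ) = 0 := by
        refine Finset.sum_eq_zero fun q hq => ?_
        have h2 : y' (x, q) = 0 := by
          rw [hy']
          exact if_neg (Finset.mem_filter.1 hq).2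
        rw [h2]
        simp
      rw [h1, add_zero]
      have h3 : univ.filter (fun q => q ∈ XV (spn (σ (bl Q x)))) = XV (spn (σ (bl Q x))) := by
        ext q
        simp
      rw [h3]
      refine Finset.sum_congr rfl fun q hq => ?_
      have h2 : y' (x, q) = y (bl Q x) q := by
        rw [hy']
        exact if_pos hq
      rw [h2]
      unfold muP mu
      push_cast
      rfl
    · intro i _ hne
      rw [if_neg (fun h => hne h.symm), zero_mul]
    · intro h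
      exact absurd (Finset.mem_Icc.2 ⟨one_le_bl Q x, bl_le hQ hT x⟩) h
  rw [hE]
  -- the product
  have hdm1 : S.card = dm (σ 1) := by
    rw [← hcard 1 le_rfl]
    congr 1
    exact (Finset.filter_true_of_mem fun q hq => hS1 hq).symm
  have hsum : ∑ t : S, (lev t.1 - 1) = ∑ i ∈ Icc 2 T, dm (σ i) := by
    have h1 : ∀ t : S, lev t.1 - 1 = ∑ i ∈ Icc 2 T, if t.1 ∈ σ i then 1 else 0 := by
      intro t
      rw [← Finset.card_filter]
      have h2 : (Icc 2 T).filter (fun i => t.1 ∈ σ i) = Icc 2 (lev t.1) := by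
        ext i
        rw [Finset.mem_filter, Finset.mem_Icc, Finset.mem_Icc]
        constructor
        · rintro ⟨⟨h3, h4⟩, h5⟩
          exact ⟨h3, (hleviff t.1 t.2 i (by omega)).1 h5⟩
        · rintro ⟨h3, h4⟩
          exact ⟨⟨h3, h4.trans (hlevT _)⟩, (hleviff t.1 t.2 i (by omega)).2 h4⟩
      rw [h2, Nat.card_Icc]
      omega
    rw [Finset.sum_congr rfl (fun t _ => h1 t), Finset.sum_comm]
    refine Finset.sum_congr rfl fun i hi => ?_
    rw [← hcard i (by have := (Finset.mem_Icc.1 hi).1; omega), Finset.card_filter,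
      ← Finset.sum_coe_sort S (fun q => if q ∈ σ i then 1 else 0)]
  have hprod : ((∏ t, M t : ℝ≥0) : ℝ≥0∞) = ENNReal.ofReal ((Y : ℝ) ^ dm (σ 1) *
      Real.exp (-(Real.log Q * ∑ i ∈ Icc 2 T, (dm (σ i) : ℝ)))) := by
    have hQ0 : (0 : ℝ) < Q := by
      have : 0 < Q := by omega
      exact_mod_cast this
    have h1 : ((∏ t, M t : ℝ≥0) : ℝ) = (Y : ℝ) ^ dm (σ 1) *
        Real.exp (-(Real.log Q * ∑ i ∈ Icc 2 T, (dm (σ i) : ℝ))) := by
      rw [hM]
      push_cast
      rw [Finset.prod_mul_distrib, Finset.prod_const, Finset.prod_inv_distrib,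
        Finset.prod_pow_eq_pow_sum, hsum, Finset.card_univ, Fintype.card_coe, hdm1, mul_comm]
      congr 1
      rw [Real.exp_neg, mul_comm (Real.log Q), ← Nat.cast_sum, Real.exp_nat_mul,
        Real.exp_log hQ0]
    rw [← h1, ENNReal.ofReal_coe_nnreal]
  rw [hprod, ← ENNReal.ofReal_mul (by positivity)]

end Pool.Agent.Lib.MP_134bf7_pr.RL
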