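import Pool.Agent.Lib.MP_134bf7_pr.RL.Zb

/-!
# RL-Mo2: the second moment of `Nl`

`Nl k a = ∑' c, ind (len c = k) * ∏ x, (a x).choose (c x)` (only `c ≤ a` contribute).
* `mom2`: for `r = 2`, `c1 = cut 0 β`, `c2 = cut 1 β`.  For each `x`, with `n = a x`, `i = c1 x`, `j = c2 x` (both
  `≤ n`): `(n choose i) * (n choose j) = ∑_t n! / (t! (i - t)! (j - t)! (n - i - j + t)!)` over the `t` for
  which all four numbers are `≥ 0` (`(n choose j) = ∑_t (i choose t) * (n - i choose j - t)`,
  `Nat.add_choose_eq`).  `t` is the number of elements of pattern `(true, true)`, `i - t` of pattern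
  `(true, false)`, `j - t` of pattern `(false, true)`, the rest of pattern `(false, false)`.  Multiply over `x`
  (`Finset.prod_univ_sum`): `wt a * ∏_x (a x choose c1 x) (a x choose c2 x)` is the sum of `wt β` over the `β`
  with `mg β = a`, `cut 0 β = c1`, `cut 1 β = c2`.  Sum over `a`, `c1`, `c2`.
  Only the inequality `≤` is needed.
-/

namespace Pool.Agent.Lib.MP_134bf7_pr.RL

open Finset
open scoped ENNReal NNReal

variable {K : ℕ}

private theorem prod_pat2 {M : Type*} [CommMonoid M] (f : Pat 2 → M) :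
    ∏ q : Pat 2, f q = (f ![true, true] * f ![true, false]) * (f ![false, true] * f ![false, false]) := by
  rw [← (finTwoArrowEquiv Bool).symm.prod_comp f, Fintype.prod_prod_type, Fintype.prod_bool,
    Fintype.prod_bool, Fintype.prod_bool]
  rfl

private theorem sum_pat2 (f : Pat 2 → ℕ) :
    ∑ q : Pat 2, f q = (f ![true, true] + f ![true, false]) + (f ![false, true] + f ![false, false]) :=
  prod_pat2 (M := Multiplicative ℕ) (fun q => Multiplicative.ofAdd (f q))

private theorem mg2 (β : Fin K × Pat 2 → ℕ) (x : Fin K) :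
    mg β x = (β (x, ![true, true]) + β (x, ![true, false])) +
      (β (x, ![false, true]) + β (x, ![false, false])) :=
  sum_pat2 fun q => β (x, q)

private theorem cut20 (β : Fin K × Pat 2 → ℕ) (x : Fin K) :
    cut 0 β x = β (x, ![true, true]) + β (x, ![true, false]) := by
  have h := sum_pat2 fun q => if q 0 = true then β (x, q) else 0
  simpa [cut] using h

private theorem cut21 (β : Fin K × Pat 2 → ℕ) (x : Fin K) :
    cut 1 β x = β (x, ![true, true]) + β (x, ![false, true]) := by
  have h := sum_pat2 fun q => if q 1 = true then β (x, q) else 0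
  simpa [cut] using h

/-- the number of ways to choose two subsets of sizes `i`, `j` with `t` common elements of an
`n`-element set -/
private def W (n i j t : ℕ) : ℕ := if t ≤ j then n.choose i * (i.choose t * (n - i).choose (j - t)) else 0

private theorem W_sum {n i : ℕ} (j : ℕ) (hi : i ≤ n) :
    n.choose i * n.choose j = ∑ t ∈ range (j + 1), W n i j t := by
  obtain ⟨m, rfl⟩ := Nat.exists_eq_add_of_le hi
  have h := Nat.add_choose_eq i m j
  rw [Finset.Nat.sum_antidiagonal_eq_sum_range_succ_mk] at h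
  rw [h, Finset.mul_sum]
  refine Finset.sum_congr rfl fun t ht => ?_
  have ht' : t ≤ j := by
    have := Finset.mem_range.1 ht
    omega
  simp only [W, if_pos ht', Nat.add_sub_cancel_left]

private theorem W_sum' (n i j : ℕ) :
    n.choose i * n.choose j = ∑ t ∈ range (j + 1), W n i j t := by
  rcases le_or_gt i n with hi | hi
  · exact W_sum j hi
  · rw [Nat.choose_eq_zero_of_lt hi, zero_mul]
    symm
    refine Finset.sum_eq_zero fun t _ => ?_
    unfold W
    rw [Nat.choose_eq_zero_of_lt hi, zero_mul, ite_self]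

private theorem W_tsum (a c d : Fin K → ℕ) :
    ((∏ x, (a x).choose (c x) : ℕ) : ℝ≥0∞) * ((∏ x, (a x).choose (d x) : ℕ) : ℝ≥0∞) =
      ∑' t : Fin K → ℕ, ((∏ x, W (a x) (c x) (d x) (t x) : ℕ) : ℝ≥0∞) := by
  rw [tsum_eq_sum (s := Fintype.piFinset fun x => range (d x + 1))]
  · rw [← Nat.cast_mul, ← Finset.prod_mul_distrib, ← Nat.cast_sum]
    congr 1
    rw [← Finset.prod_univ_sum (fun x => range (d x + 1)) (fun x t => W (a x) (c x) (d x) t)]
    exact Finset.prod_congr rfl fun x _ => W_sum' _ _ _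
  · intro t ht
    rw [Fintype.mem_piFinset] at ht
    push Not at ht
    obtain ⟨x, hx⟩ := ht
    have hx' : ¬ t x ≤ d x := by
      intro h
      exact hx (Finset.mem_range.2 (by omega))
    have : (∏ x, W (a x) (c x) (d x) (t x)) = 0 :=
      Finset.prod_eq_zero (Finset.mem_univ x) (by simp only [W, if_neg hx'])
    rw [this, Nat.cast_zero]

private theorem W_fac (t u v w : ℕ) :
    W ((t + u) + (v + w)) (t + u) (t + v) t * (t.factorial * u.factorial * (v.factorial * w.factorial)) =
      ((t + u) + (v + w)).factorial := by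
  have h1 := Nat.choose_mul_factorial_mul_factorial (Nat.le_add_right (t + u) (v + w))
  have h2 := Nat.choose_mul_factorial_mul_factorial (Nat.le_add_right t u)
  have h3 := Nat.choose_mul_factorial_mul_factorial (Nat.le_add_right v w)
  rw [Nat.add_sub_cancel_left] at h1 h2 h3
  rw [← h1, ← h2, ← h3]
  simp only [W, if_pos (Nat.le_add_right t v), Nat.add_sub_cancel_left]
  ring

private theorem wt2 (β : Fin K × Pat 2 → ℕ) :
    wt (mu K) (mg β) * ((∏ x, W (mg β x) (cut 0 β x) (cut 1 β x) (β (x, ![true, true])) : ℕ) : ℝ≥0) =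
      wt (muP K 2) β := by
  unfold wt
  rw [Fintype.prod_prod_type, Nat.cast_prod, ← Finset.prod_mul_distrib]
  refine Finset.prod_congr rfl fun x _ => ?_
  rw [prod_pat2, mg2, cut20, cut21]
  simp only [muP]
  set t := β (x, ![true, true])
  set u := β (x, ![true, false])
  set v := β (x, ![false, true])
  set w := β (x, ![false, false])
  have h := W_fac t u v w
  have h' : (W ((t + u) + (v + w)) (t + u) (t + v) t : ℝ≥0) *
      ((t.factorial : ℝ≥0) * (u.factorial : ℝ≥0) * ((v.factorial : ℝ≥0) * (w.factorial : ℝ≥0))) =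
      (((t + u) + (v + w)).factorial : ℝ≥0) := by exact_mod_cast h
  have ht : (t.factorial : ℝ≥0) ≠ 0 := by exact_mod_cast Nat.factorial_ne_zero t
  have hu : (u.factorial : ℝ≥0) ≠ 0 := by exact_mod_cast Nat.factorial_ne_zero u
  have hv : (v.factorial : ℝ≥0) ≠ 0 := by exact_mod_cast Nat.factorial_ne_zero v
  have hw : (w.factorial : ℝ≥0) ≠ 0 := by exact_mod_cast Nat.factorial_ne_zero w
  have hn : (((t + u) + (v + w)).factorial : ℝ≥0) ≠ 0 := by
    exact_mod_cast Nat.factorial_ne_zero ((t + u) + (v + w))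
  rw [div_mul_eq_mul_div, div_mul_div_comm, div_mul_div_comm, div_mul_div_comm,
    div_eq_div_iff hn (mul_ne_zero (mul_ne_zero ht hu) (mul_ne_zero hv hw)), ← h', pow_add, pow_add,
    pow_add]
  ring

private theorem pat2_cases (q : Pat 2) :
    q = ![true, true] ∨ q = ![true, false] ∨ q = ![false, true] ∨ q = ![false, false] := by
  have h : q = ![q 0, q 1] := by
    funext i
    fin_cases i <;> rfl
  rcases h0 : q 0 with _ | _ <;> rcases h1 : q 1 with _ | _ <;> rw [h0, h1] at h <;> tauto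

private theorem inj2 : Function.Injective
    (fun β : Fin K × Pat 2 → ℕ => (((((mg β, cut 0 β), cut 1 β), fun x => β (x, ![true, true]))) :
      (((Fin K → ℕ) × (Fin K → ℕ)) × (Fin K → ℕ)) × (Fin K → ℕ))) := by
  intro β γ h
  have h1 : mg β = mg γ := congrArg (fun p => p.1.1.1) h
  have h2 : cut 0 β = cut 0 γ := congrArg (fun p => p.1.1.2) h
  have h3 : cut 1 β = cut 1 γ := congrArg (fun p => p.1.2) h
  have h4 : (fun x => β (x, ![true, true])) = fun x => γ (x, ![true, true]) := congrArg (fun p => p.2) h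
  funext p
  obtain ⟨x, q⟩ := p
  have e1 := congrFun h1 x
  have e2 := congrFun h2 x
  have e3 := congrFun h3 x
  have e4 : β (x, ![true, true]) = γ (x, ![true, true]) := congrFun h4 x
  rw [mg2, mg2] at e1
  rw [cut20, cut20] at e2
  rw [cut21, cut21] at e3
  rcases pat2_cases q with rfl | rfl | rfl | rfl
  · exact e4
  · omega
  · omega
  · omega

private theorem ind_and2 (P Q : Prop) : ind P * ind Q = ind (P ∧ Q) := by
  unfold ind
  by_cases hP : P <;> by_cases hQ : Q <;> simp [hP, hQ]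

private theorem mom2_eq (k : ℕ) (F : (Fin K → ℕ) → ℝ≥0∞) :
    Ex K (fun a => F a * Nl k a ^ 2) =
      ExP K 2 (fun β => F (mg β) * ind (∀ l, len (cut l β) = k)) := by
  unfold Ex ExP Z Nl
  congr 1
  have h1 : ∀ a : Fin K → ℕ, (wt (mu K) a : ℝ≥0∞) *
      (F a * (∑' c : Fin K → ℕ, ind (len c = k) * ((∏ x, (a x).choose (c x) : ℕ) : ℝ≥0∞)) ^ 2) =
      ∑' c : Fin K → ℕ, ∑' d : Fin K → ℕ, ∑' t : Fin K → ℕ, (wt (mu K) a : ℝ≥0∞) *
        (F a * (ind (len c = k ∧ len d = k) *
          ((∏ x, W (a x) (c x) (d x) (t x) : ℕ) : ℝ≥0∞))) := by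
    intro a
    rw [pow_two, ← ENNReal.tsum_mul_right, ← ENNReal.tsum_mul_left, ← ENNReal.tsum_mul_left]
    refine tsum_congr fun c => ?_
    rw [← ENNReal.tsum_mul_left, ← ENNReal.tsum_mul_left, ← ENNReal.tsum_mul_left]
    refine tsum_congr fun d => ?_
    rw [ENNReal.tsum_mul_left, ENNReal.tsum_mul_left, ENNReal.tsum_mul_left, ← W_tsum, ← ind_and2]
    ring
  simp only [h1]
  rw [← ENNReal.tsum_prod (f := fun (a c : Fin K → ℕ) => ∑' d : Fin K → ℕ, ∑' t : Fin K → ℕ,
      (wt (mu K) a : ℝ≥0∞) * (F a * (ind (len c = k ∧ len d = k) *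
          ((∏ x, W (a x) (c x) (d x) (t x) : ℕ) : ℝ≥0∞))))]
  rw [← ENNReal.tsum_prod (f := fun (p : (Fin K → ℕ) × (Fin K → ℕ)) (d : Fin K → ℕ) =>
      ∑' t : Fin K → ℕ,
      (wt (mu K) p.1 : ℝ≥0∞) * (F p.1 * (ind (len p.2 = k ∧ len d = k) *
          ((∏ x, W (p.1 x) (p.2 x) (d x) (t x) : ℕ) : ℝ≥0∞))))]
  rw [← ENNReal.tsum_prod (f := fun (p : ((Fin K → ℕ) × (Fin K → ℕ)) × (Fin K → ℕ))
      (t : Fin K → ℕ) =>
      (wt (mu K) p.1.1 : ℝ≥0∞) * (F p.1.1 * (ind (len p.1.2 = k ∧ len p.2 = k) *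
          ((∏ x, W (p.1.1 x) (p.1.2 x) (p.2 x) (t x) : ℕ) : ℝ≥0∞))))]
  rw [← inj2.tsum_eq]
  · refine tsum_congr fun β => ?_
    show (wt (mu K) (mg β) : ℝ≥0∞) * (F (mg β) * (ind (len (cut 0 β) = k ∧ len (cut 1 β) = k) *
      ((∏ x, W (mg β x) (cut 0 β x) (cut 1 β x) (β (x, ![true, true])) : ℕ) : ℝ≥0∞))) = _
    rw [← wt2, ENNReal.coe_mul, ENNReal.coe_natCast, Fin.forall_fin_two]
    ring
  · rintro ⟨⟨⟨a, c⟩, d⟩, t⟩ hac
    have hW : ∀ x, W (a x) (c x) (d x) (t x) ≠ 0 := by
      intro x hx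
      apply hac
      have : (∏ x, W (a x) (c x) (d x) (t x)) = 0 :=
        Finset.prod_eq_zero (Finset.mem_univ x) hx
      show (wt (mu K) a : ℝ≥0∞) * (F a * (ind (len c = k ∧ len d = k) *
        ((∏ x, W (a x) (c x) (d x) (t x) : ℕ) : ℝ≥0∞))) = 0
      rw [this]
      simp
    have hle : ∀ x, t x ≤ d x ∧ t x ≤ c x ∧ c x + (d x - t x) ≤ a x := by
      intro x
      have h := hW x
      unfold W at h
      split_ifs at h with htd
      swap
      · exact absurd rfl h
      have h1 : (a x).choose (c x) ≠ 0 := left_ne_zero_of_mul h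
      have h2 : (c x).choose (t x) ≠ 0 := left_ne_zero_of_mul (right_ne_zero_of_mul h)
      have h3 : (a x - c x).choose (d x - t x) ≠ 0 :=
        right_ne_zero_of_mul (right_ne_zero_of_mul h)
      rw [Ne, Nat.choose_eq_zero_iff, not_lt] at h1 h2 h3
      omega
    refine ⟨fun p => if p.2 0 = true then (if p.2 1 = true then t p.1 else c p.1 - t p.1)
      else (if p.2 1 = true then d p.1 - t p.1 else a p.1 - (c p.1 + (d p.1 - t p.1))), ?_⟩
    refine Prod.ext (Prod.ext (Prod.ext (funext fun x => ?_) (funext fun x => ?_))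
      (funext fun x => ?_)) (funext fun x => ?_)
    · show mg (fun p : Fin K × Pat 2 =>
        if p.2 0 = true then (if p.2 1 = true then t p.1 else c p.1 - t p.1)
        else (if p.2 1 = true then d p.1 - t p.1 else a p.1 - (c p.1 + (d p.1 - t p.1)))) x = a x
      rw [mg2]
      have := hle x
      simp
      omega
    · show cut 0 (fun p : Fin K × Pat 2 =>
        if p.2 0 = true then (if p.2 1 = true then t p.1 else c p.1 - t p.1)
        else (if p.2 1 = true then d p.1 - t p.1 else a p.1 - (c p.1 + (d p.1 - t p.1)))) x = c x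
      rw [cut20]
      have := hle x
      simp
      omega
    · show cut 1 (fun p : Fin K × Pat 2 =>
        if p.2 0 = true then (if p.2 1 = true then t p.1 else c p.1 - t p.1)
        else (if p.2 1 = true then d p.1 - t p.1 else a p.1 - (c p.1 + (d p.1 - t p.1)))) x = d x
      rw [cut21]
      have := hle x
      simp
      omega
    · simp

theorem mom2 (k : ℕ) (F : (Fin K → ℕ) → ℝ≥0∞) :
    Ex K (fun a => F a * Nl k a ^ 2) ≤
      ExP K 2 (fun β => F (mg β) * ind (∀ l, len (cut l β) = k)) :=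
  (mom2_eq k F).le

end Pool.Agent.Lib.MP_134bf7_pr.RL
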