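import Pool.Agent.Lib.MP_134bf7_pr.RL.Zb

/-!
# RL-Mo1: the first moment of `Nl`

`Nl k a = ∑' c, ind (len c = k) * ∏ x, (a x).choose (c x)` (only `c ≤ a` contribute).
* `mom1`: a labelled configuration `β` for `r = 1` is a pair `(c, e)`, `c x = β (x, fun _ => true)`,
  `e x = β (x, fun _ => false)`; `mg β = c + e`, `cut 0 β = c`, `wt β = wt c * wt e` and
  `wt a * ∏ (a x).choose (c x) = wt c * wt (a - c)` for `c ≤ a` (`(n choose j) / n! = 1 / (j! (n - j)!)`).
  So the pairs `(a, c)` with `c ≤ a` correspond to the `β`.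
-/

namespace Pool.Agent.Lib.MP_134bf7_pr.RL

open Finset
open scoped ENNReal NNReal

variable {K : ℕ}

private theorem prod_pat1 {M : Type*} [CommMonoid M] (f : Pat 1 → M) :
    ∏ q : Pat 1, f q = f (fun _ => true) * f (fun _ => false) := by
  rw [← (Equiv.funUnique (Fin 1) Bool).symm.prod_comp f]
  rw [Fintype.prod_bool]
  rfl

private theorem mg1 (β : Fin K × Pat 1 → ℕ) (x : Fin K) :
    mg β x = β (x, fun _ => true) + β (x, fun _ => false) := by
  have := prod_pat1 (M := Multiplicative ℕ) (fun q => Multiplicative.ofAdd (β (x, q)))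
  exact this

private theorem cut1 (β : Fin K × Pat 1 → ℕ) (x : Fin K) :
    cut 0 β x = β (x, fun _ => true) := by
  have := prod_pat1 (M := Multiplicative ℕ)
    (fun q => Multiplicative.ofAdd (if q 0 = true then β (x, q) else 0))
  have h2 : cut 0 β x = (if (fun _ : Fin 1 => true) 0 = true then β (x, fun _ => true) else 0) +
    (if (fun _ : Fin 1 => false) 0 = true then β (x, fun _ => false) else 0) := this
  simpa using h2

private theorem wt1 (β : Fin K × Pat 1 → ℕ) :
    wt (mu K) (mg β) * ((∏ x, (mg β x).choose (cut 0 β x) : ℕ) : ℝ≥0) = wt (muP K 1) β := by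
  unfold wt
  rw [Fintype.prod_prod_type, Nat.cast_prod, ← Finset.prod_mul_distrib]
  refine Finset.prod_congr rfl fun x _ => ?_
  rw [prod_pat1, mg1, cut1]
  simp only [muP]
  set t := β (x, fun _ => true)
  set f := β (x, fun _ => false)
  have h := Nat.choose_mul_factorial_mul_factorial (Nat.le_add_right t f)
  rw [Nat.add_sub_cancel_left] at h
  have h' : ((t + f).choose t : ℝ≥0) * (t.factorial : ℝ≥0) * (f.factorial : ℝ≥0) =
      ((t + f).factorial : ℝ≥0) := by exact_mod_cast h
  have ht : (t.factorial : ℝ≥0) ≠ 0 := by exact_mod_cast Nat.factorial_ne_zero t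
  have hf : (f.factorial : ℝ≥0) ≠ 0 := by exact_mod_cast Nat.factorial_ne_zero f
  have htf : ((t + f).factorial : ℝ≥0) ≠ 0 := by exact_mod_cast Nat.factorial_ne_zero (t + f)
  rw [div_mul_eq_mul_div, div_mul_div_comm, div_eq_div_iff htf (mul_ne_zero ht hf), ← h', pow_add]
  ring

private theorem pat1_cases (q : Pat 1) : q = (fun _ => true) ∨ q = (fun _ => false) := by
  rcases h : q 0 with _ | _
  · right
    funext i
    rw [Subsingleton.elim i 0]
    exact h
  · left
    funext i
    rw [Subsingleton.elim i 0]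
    exact h

private theorem inj1 : Function.Injective
    (fun β : Fin K × Pat 1 → ℕ => ((mg β, cut 0 β) : (Fin K → ℕ) × (Fin K → ℕ))) := by
  intro β γ h
  have h1 : mg β = mg γ := congrArg Prod.fst h
  have h2 : cut 0 β = cut 0 γ := congrArg Prod.snd h
  funext p
  obtain ⟨x, q⟩ := p
  have e1 := congrFun h1 x
  have e2 := congrFun h2 x
  rw [mg1, mg1] at e1
  rw [cut1, cut1] at e2
  rcases pat1_cases q with rfl | rfl
  · exact e2
  · omega

theorem mom1 (k : ℕ) (F : (Fin K → ℕ) → ℝ≥0∞) :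
    Ex K (fun a => F a * Nl k a) =
      ExP K 1 (fun β => F (mg β) * ind (len (cut 0 β) = k)) := by
  unfold Ex ExP Z Nl
  congr 1
  have h1 : ∀ a : Fin K → ℕ, (wt (mu K) a : ℝ≥0∞) *
      (F a * ∑' c : Fin K → ℕ, ind (len c = k) * ((∏ x, (a x).choose (c x) : ℕ) : ℝ≥0∞)) =
      ∑' c : Fin K → ℕ, (wt (mu K) a : ℝ≥0∞) *
        (F a * (ind (len c = k) * ((∏ x, (a x).choose (c x) : ℕ) : ℝ≥0∞))) := by
    intro a
    rw [ENNReal.tsum_mul_left, ENNReal.tsum_mul_left]
  simp only [h1]
  rw [← ENNReal.tsum_prod (f := fun (a c : Fin K → ℕ) => (wt (mu K) a : ℝ≥0∞) *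
        (F a * (ind (len c = k) * ((∏ x, (a x).choose (c x) : ℕ) : ℝ≥0∞))))]
  rw [← inj1.tsum_eq]
  · refine tsum_congr fun β => ?_
    show (wt (mu K) (mg β) : ℝ≥0∞) * (F (mg β) * (ind (len (cut 0 β) = k) *
      ((∏ x, (mg β x).choose (cut 0 β x) : ℕ) : ℝ≥0∞))) = _
    rw [← wt1]
    push_cast
    ring
  · rintro ⟨a, c⟩ hac
    have hle : ∀ x, c x ≤ a x := by
      by_contra hcon
      push Not at hcon
      obtain ⟨x, hx⟩ := hcon
      apply hac
      have : (∏ x, (a x).choose (c x) : ℕ) = 0 :=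
        Finset.prod_eq_zero (Finset.mem_univ x) (Nat.choose_eq_zero_of_lt hx)
      show (wt (mu K) a : ℝ≥0∞) *
        (F a * (ind (len c = k) * ((∏ x, (a x).choose (c x) : ℕ) : ℝ≥0∞))) = 0
      rw [this]
      simp
    refine ⟨fun p => if p.2 0 = true then c p.1 else a p.1 - c p.1, ?_⟩
    refine Prod.ext (funext fun x => ?_) (funext fun x => ?_)
    · show mg (fun p : Fin K × Pat 1 => if p.2 0 = true then c p.1 else a p.1 - c p.1) x = a x
      rw [mg1]
      have := hle x
      simp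
      omega
    · show cut 0 (fun p : Fin K × Pat 1 => if p.2 0 = true then c p.1 else a p.1 - c p.1) x = c x
      rw [cut1]
      simp

end Pool.Agent.Lib.MP_134bf7_pr.RL
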