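import Pool.Agent.Lib.MP_134bf7_pr.RL.Zb
import Pool.Agent.Lib.MP_134bf7_pr.RL.Bk
import Pool.Agent.Lib.MP_134bf7_pr.RL.Ha

/-!
# RL-UpA: first half of the upper bound: many cycles

Let `K = Q ^ T`, `lam = log Q`, `n0 = zz * lam * T` (real).  For a configuration `a` with `∑ x, a x ≥ n0` we have
`1 ≤ zz ^ (∑ x, a x) * zz ^ (- n0)` (`zz > 1`).  So the left side is at most
`zz ^ (- n0) * exp (- HH K) * Z (mu K) (mon y)`, `y x = zz * exp s` if `bl Q x = i0` and `y x = zz` otherwise,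
`= zz ^ (- n0) * exp (∑_i hb i * (zz - 1) + hb i0 * zz * (exp s - 1))` (`Z_mon`, `HH_eq`), and
`|hb i - lam| ≤ 1`, `zz ^ (- n0) = exp (- T * lam * zz * log zz)`, `al = zz * log zz - zz + 1`,
`|exp s - 1| ≤ 2`: the exponent is at most
`(- al * T + zz * (exp s - 1)) * lam + T * (zz - 1) + 2 * zz ≤ … + T + 3`.
-/

namespace Pool.Agent.Lib.MP_134bf7_pr.RL

open Finset
open scoped ENNReal NNReal

/-- the real version of the weights -/
private noncomputable def wy (Q i0 : ℕ) (s : ℝ) {K : ℕ} (x : Fin K) : ℝ :=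
  Real.log zz + if bl Q x = i0 then s else 0

private theorem mon_wy (Q i0 : ℕ) (s : ℝ) {K : ℕ} (a : Fin K → ℕ) :
    mon (fun x => Real.toNNReal (Real.exp (wy Q i0 s x))) a =
      ENNReal.ofReal (Real.exp (Real.log zz * ((∑ x, a x : ℕ) : ℝ) + s * (NB Q a i0 : ℝ))) := by
  have h1 : Real.exp (Real.log zz * ((∑ x, a x : ℕ) : ℝ) + s * (NB Q a i0 : ℝ)) =
      ∏ x : Fin K, Real.exp (wy Q i0 s x) ^ a x := by
    have h2 : ∀ x : Fin K, Real.exp (wy Q i0 s x) ^ a x = Real.exp ((a x : ℝ) * wy Q i0 s x) := by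
      intro x
      rw [← Real.exp_nat_mul]
    rw [Finset.prod_congr rfl fun x _ => h2 x, ← Real.exp_sum]
    congr 1
    unfold NB wy
    push_cast
    rw [Finset.mul_sum, Finset.mul_sum, ← Finset.sum_add_distrib]
    refine Finset.sum_congr rfl fun x _ => ?_
    by_cases h : bl Q x = i0
    · rw [if_pos h, if_pos h]
      ring
    · rw [if_neg h, if_neg h]
      ring
  unfold mon
  rw [h1, ENNReal.ofReal_prod_of_nonneg (fun x _ => by positivity)]
  push_cast
  refine Finset.prod_congr rfl fun x _ => ?_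
  rw [ENNReal.ofReal_pow (Real.exp_pos _).le]
  rfl

private theorem exp_s_bound {s : ℝ} (hs : |s| ≤ 1) : |Real.exp s - 1| ≤ 2 := by
  rw [abs_le] at hs ⊢
  have h1 := Real.exp_pos s
  have h2 : Real.exp s ≤ Real.exp 1 := Real.exp_le_exp.2 hs.2
  have h3 := Real.exp_one_lt_d9
  constructor
  · linarith
  · linarith

theorem upA {Q T : ℕ} (hQ : 2 ≤ Q) (hT : 1 ≤ T) {i0 : ℕ} (hi : i0 ∈ Icc 1 T) {s : ℝ}
    (hs : |s| ≤ 1) :
    Ex (Q ^ T) (fun a => ind (zz * Real.log Q * T ≤ ((∑ x, a x : ℕ) : ℝ)) *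
      ENNReal.ofReal (Real.exp (s * (NB Q a i0 : ℝ)))) ≤
    ENNReal.ofReal (Real.exp (T + 3) *
      Real.exp ((-(al * T) + zz * (Real.exp s - 1)) * Real.log Q)) := by
  obtain ⟨lam, hlam⟩ : ∃ lam : ℝ, lam = Real.log Q := ⟨_, rfl⟩
  have hzz := zz_bounds
  have hlz := log_zz_bounds
  have hzpos : 0 < zz := by linarith [hzz.1]
  rw [← hlam]
  have hstep : ∀ a : Fin (Q ^ T) → ℕ, ind (zz * lam * T ≤ ((∑ x, a x : ℕ) : ℝ)) *
      ENNReal.ofReal (Real.exp (s * (NB Q a i0 : ℝ))) ≤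
      ENNReal.ofReal (Real.exp (-(Real.log zz * (zz * lam * T)))) *
        mon (fun x => Real.toNNReal (Real.exp (wy Q i0 s x))) a := by
    intro a
    by_cases h : zz * lam * T ≤ ((∑ x, a x : ℕ) : ℝ)
    · rw [ind_true h, one_mul, mon_wy, ← ENNReal.ofReal_mul (Real.exp_pos _).le, ← Real.exp_add]
      apply ENNReal.ofReal_le_ofReal
      apply Real.exp_le_exp.2
      have := mul_le_mul_of_nonneg_left h (by linarith [hlz.1] : (0 : ℝ) ≤ Real.log zz)
      linarith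
    · rw [ind_false h, zero_mul]
      exact zero_le
  refine (Ex_mono (Q ^ T) hstep).trans ?_
  rw [Ex_const_mul]
  have hEx : Ex (Q ^ T) (mon (fun x => Real.toNNReal (Real.exp (wy Q i0 s x)))) =
      ENNReal.ofReal (Real.exp (-(HH (Q ^ T)))) * ENNReal.ofReal
        (Real.exp (zz * (HH (Q ^ T) + (Real.exp s - 1) * hb Q (Q ^ T) i0))) := by
    unfold Ex
    rw [Z_mon]
    congr 3
    unfold HH hb
    rw [Finset.mul_sum, ← Finset.sum_add_distrib, Finset.mul_sum]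
    refine Finset.sum_congr rfl fun x _ => ?_
    rw [Real.coe_toNNReal _ (Real.exp_pos _).le]
    unfold wy mu
    rw [Real.exp_add, Real.exp_log hzpos]
    push_cast
    by_cases h : bl Q x = i0
    · rw [if_pos h, if_pos h]
      ring
    · rw [if_neg h, if_neg h, Real.exp_zero]
      ring
  have hEx2 : Ex (Q ^ T) (fun a => mon (fun x => Real.toNNReal (Real.exp (wy Q i0 s x))) a) =
      ENNReal.ofReal (Real.exp (-(HH (Q ^ T)))) * ENNReal.ofReal
        (Real.exp (zz * (HH (Q ^ T) + (Real.exp s - 1) * hb Q (Q ^ T) i0))) := hEx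
  rw [hEx2, ← ENNReal.ofReal_mul (Real.exp_pos _).le, ← ENNReal.ofReal_mul (Real.exp_pos _).le,
    ← Real.exp_add, ← Real.exp_add, ← Real.exp_add]
  apply ENNReal.ofReal_le_ofReal
  apply Real.exp_le_exp.2
  have hHH : HH (Q ^ T) ≤ T * (lam + 1) := by
    rw [HH_eq hQ hT]
    calc ∑ i ∈ Icc 1 T, hb Q (Q ^ T) i ≤ ∑ i ∈ Icc 1 T, (lam + 1) := by
          refine Finset.sum_le_sum fun i hi => ?_
          have := hb_bounds hQ hi
          rw [abs_le, ← hlam] at this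
          linarith [this.2]
      _ = T * (lam + 1) := by
          rw [Finset.sum_const, Nat.card_Icc, nsmul_eq_mul]
          simp
  have hhb := hb_bounds hQ hi
  rw [← hlam] at hhb
  have hes := exp_s_bound hs
  have hprod : (Real.exp s - 1) * (hb Q (Q ^ T) i0 - lam) ≤ 2 := by
    calc (Real.exp s - 1) * (hb Q (Q ^ T) i0 - lam)
        ≤ |(Real.exp s - 1) * (hb Q (Q ^ T) i0 - lam)| := le_abs_self _
      _ = |Real.exp s - 1| * |hb Q (Q ^ T) i0 - lam| := abs_mul _ _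
      _ ≤ 2 * 1 := mul_le_mul hes hhb (abs_nonneg _) (by norm_num)
      _ = 2 := by norm_num
  have hTpos : (0 : ℝ) ≤ T := Nat.cast_nonneg T
  have h1 : (zz - 1) * HH (Q ^ T) ≤ (zz - 1) * (T * (lam + 1)) :=
    mul_le_mul_of_nonneg_left hHH (by linarith [hzz.1])
  have h2 : (zz - 1) * (T : ℝ) ≤ 1 * T := mul_le_mul_of_nonneg_right (by linarith [hzz.2]) hTpos
  have h3 : zz * ((Real.exp s - 1) * (hb Q (Q ^ T) i0 - lam)) ≤ zz * 2 :=
    mul_le_mul_of_nonneg_left hprod hzpos.le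
  have h4 := hzz.2
  rw [al_eq]
  nlinarith [h1, h2, h3, h4]

end Pool.Agent.Lib.MP_134bf7_pr.RL
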