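import Pool.Agent.Lib.MP_134bf7_pr.RL.Defs

/-!
# RL-Zb2: the Mecke identity

* `mecke`: `wt μ (ad a j) * (a j + 1) = μ j * wt μ a` (only the factor `j` changes and
  `(n + 1)! = (n + 1) * n!`).  The terms of the left side with `a j = 0` vanish, and `a ↦ ad a j` is a
  bijection of all configurations onto those with `a j ≥ 1`, so the left side is
  `∑' a, wt μ (ad a j) * (a j + 1) * F (ad a j)`.
* `meckef`: induction over a finite set of indices `s ⊆ τ` (products over `t ∈ s`, adding the unit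
  vectors at `f t`, `t ∈ s`), using `mecke` for the function `a ↦ (∏ t ∈ s, a (f t)) * F a` and that for
  `t ∉ s` and injective `f` adding the unit vector at `f t` does not change `a (f t')`, `t' ∈ s`.
-/

namespace Pool.Agent.Lib.MP_134bf7_pr.RL

open Finset
open scoped ENNReal NNReal

section

variable {ι : Type*} [Fintype ι]

private theorem wt_ad [DecidableEq ι] (μ : ι → ℝ≥0) (a : ι → ℕ) (j : ι) :
    wt μ (ad a j) * ((a j : ℝ≥0) + 1) = μ j * wt μ a := by
  unfold wt
  rw [← Finset.mul_prod_erase univ (fun i => μ i ^ (ad a j) i / (((ad a j) i).factorial : ℝ≥0))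
    (Finset.mem_univ j), ← Finset.mul_prod_erase univ
    (fun i => μ i ^ a i / ((a i).factorial : ℝ≥0)) (Finset.mem_univ j)]
  have h1 : ∏ i ∈ univ.erase j, μ i ^ (ad a j) i / (((ad a j) i).factorial : ℝ≥0) =
      ∏ i ∈ univ.erase j, μ i ^ a i / ((a i).factorial : ℝ≥0) := by
    refine Finset.prod_congr rfl fun i hi => ?_
    have hij : i ≠ j := (Finset.mem_erase.1 hi).1
    have : ad a j i = a i := by
      unfold ad
      rw [if_neg hij]
    rw [this]
  rw [h1]
  have h2 : ad a j j = a j + 1 := by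
    unfold ad
    rw [if_pos rfl]
  rw [h2, pow_succ, Nat.factorial_succ]
  push_cast
  have h3 : ((a j : ℝ≥0) + 1) ≠ 0 := by positivity
  have h4 : ((a j).factorial : ℝ≥0) ≠ 0 := by
    exact_mod_cast (Nat.factorial_pos (a j)).ne'
  have h5 : μ j ^ a j * μ j / (((a j : ℝ≥0) + 1) * ((a j).factorial : ℝ≥0)) * ((a j : ℝ≥0) + 1) =
      μ j * (μ j ^ a j / ((a j).factorial : ℝ≥0)) := by
    field_simp
  calc μ j ^ a j * μ j / (((a j : ℝ≥0) + 1) * ((a j).factorial : ℝ≥0)) *
        (∏ i ∈ univ.erase j, μ i ^ a i / ((a i).factorial : ℝ≥0)) * ((a j : ℝ≥0) + 1)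
      = (μ j ^ a j * μ j / (((a j : ℝ≥0) + 1) * ((a j).factorial : ℝ≥0)) * ((a j : ℝ≥0) + 1)) *
        (∏ i ∈ univ.erase j, μ i ^ a i / ((a i).factorial : ℝ≥0)) := by ring
    _ = _ := by rw [h5]; ring

private theorem ad_inj [DecidableEq ι] (j : ι) : Function.Injective (fun a : ι → ℕ => ad a j) := by
  intro a b hab
  funext i
  have h := congrFun hab i
  simp only [ad] at h
  by_cases hi : i = j
  · rw [if_pos hi, if_pos hi] at h
    omega
  · rw [if_neg hi, if_neg hi] at h
    exact h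

theorem mecke [DecidableEq ι] (μ : ι → ℝ≥0) (j : ι) (F : (ι → ℕ) → ℝ≥0∞) :
    Z μ (fun a => (a j : ℝ≥0∞) * F a) = (μ j : ℝ≥0∞) * Z μ (fun a => F (ad a j)) := by
  unfold Z
  rw [← ENNReal.tsum_mul_left]
  have hsupp : Function.support (fun a : ι → ℕ => (wt μ a : ℝ≥0∞) * ((a j : ℝ≥0∞) * F a)) ⊆
      Set.range (fun a : ι → ℕ => ad a j) := by
    intro a ha
    rw [Function.mem_support] at ha
    have haj : a j ≠ 0 := by
      intro h
      apply ha
      rw [h]
      simp
    refine ⟨rmv a j, ?_⟩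
    funext i
    change ad (rmv a j) j i = a i
    unfold ad rmv
    by_cases hi : i = j
    · subst hi
      simp only [if_true]
      omega
    · simp only [if_neg hi]
  rw [← (ad_inj j).tsum_eq hsupp]
  refine tsum_congr fun a => ?_
  have h1 := wt_ad μ a j
  have h2 : ((ad a j j : ℕ) : ℝ≥0∞) = (((a j : ℝ≥0) + 1 : ℝ≥0) : ℝ≥0∞) := by
    have : ad a j j = a j + 1 := by
      unfold ad
      rw [if_pos rfl]
    rw [this]
    push_cast
    rfl
  rw [h2, ← mul_assoc, ← ENNReal.coe_mul, h1, ENNReal.coe_mul, mul_assoc]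

/-- `a` plus one unit vector for each `t ∈ s`. -/
private def adS [DecidableEq ι] {τ : Type*} (a : ι → ℕ) (f : τ → ι) (s : Finset τ) : ι → ℕ :=
  fun i => a i + (s.filter fun t => f t = i).card

private theorem mecke_s [DecidableEq ι] {τ : Type*} [DecidableEq τ] (μ : ι → ℝ≥0) (f : τ → ι)
    (hf : Function.Injective f) (s : Finset τ) : ∀ F : (ι → ℕ) → ℝ≥0∞,
    Z μ (fun a => (∏ t ∈ s, (a (f t) : ℝ≥0∞)) * F a) =
      (∏ t ∈ s, (μ (f t) : ℝ≥0∞)) * Z μ (fun a => F (adS a f s)) := by
  induction s using Finset.induction_on with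
  | empty =>
    intro F
    simp only [Finset.prod_empty, one_mul]
    rfl
  | insert t s ht ih =>
    intro F
    have h1 : (fun a : ι → ℕ => (∏ t' ∈ insert t s, (a (f t') : ℝ≥0∞)) * F a) =
        fun a => (a (f t) : ℝ≥0∞) * ((∏ t' ∈ s, (a (f t') : ℝ≥0∞)) * F a) := by
      funext a
      rw [Finset.prod_insert ht, mul_assoc]
    rw [h1, mecke μ (f t) (fun a => (∏ t' ∈ s, (a (f t') : ℝ≥0∞)) * F a)]
    have h2 : (fun a : ι → ℕ => (∏ t' ∈ s, ((ad a (f t) (f t') : ℕ) : ℝ≥0∞)) * F (ad a (f t))) =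
        fun a => (∏ t' ∈ s, (a (f t') : ℝ≥0∞)) * F (ad a (f t)) := by
      funext a
      congr 1
      refine Finset.prod_congr rfl fun t' ht' => ?_
      have hne : f t' ≠ f t := by
        intro h
        apply ht
        rw [← hf h]
        exact ht'
      unfold ad
      rw [if_neg hne]
    rw [h2, ih (fun a => F (ad a (f t))), Finset.prod_insert ht, mul_assoc]
    have h3 : (fun a : ι → ℕ => F (ad (adS a f s) (f t))) =
        fun a => F (adS a f (insert t s)) := by
      funext a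
      congr 1
      funext i
      unfold ad adS
      rw [Finset.filter_insert]
      by_cases hi : i = f t
      · rw [if_pos hi, if_pos hi.symm, Finset.card_insert_of_notMem]
        · ring
        · intro h
          exact ht (Finset.mem_filter.1 h).1
      · rw [if_neg hi, if_neg (fun h => hi h.symm)]
    rw [h3]

theorem meckef [DecidableEq ι] {τ : Type*} [Fintype τ] (μ : ι → ℝ≥0) (f : τ → ι)
    (hf : Function.Injective f) (F : (ι → ℕ) → ℝ≥0∞) :
    Z μ (fun a => (∏ t, (a (f t) : ℝ≥0∞)) * F a) =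
      (∏ t, (μ (f t) : ℝ≥0∞)) * Z μ (fun a => F (adf a f)) := by
  classical
  exact mecke_s μ f hf univ F

end

end Pool.Agent.Lib.MP_134bf7_pr.RL
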