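import Pool.Agent.Lib.MP_134bf7_pr.RL.Zb1
import Pool.Agent.Lib.MP_134bf7_pr.RL.Zb2

/-!
# RL-Zb: the expectation `Ex`

`Ex K F = ofReal (exp (- HH K)) * Z (mu K) F`.
* `Ex_mono` … `Ex_sum`: from `Z_mono` … `Z_sum`.
* `Ex_one`: `Z_one`, `HH K = ∑ i, mu K i`, `exp (-x) * exp x = 1`.
* `Ex_mecke`: `mecke`.
-/

namespace Pool.Agent.Lib.MP_134bf7_pr.RL

open Finset
open scoped ENNReal NNReal

section

variable (K : ℕ)

theorem Ex_mono {F G : (Fin K → ℕ) → ℝ≥0∞} (h : ∀ a, F a ≤ G a) : Ex K F ≤ Ex K G := by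
  unfold Ex
  gcongr
  exact Z_mono (mu K) h

theorem Ex_add (F G : (Fin K → ℕ) → ℝ≥0∞) : Ex K (fun a => F a + G a) = Ex K F + Ex K G := by
  unfold Ex
  rw [Z_add, mul_add]

theorem Ex_const_mul (c : ℝ≥0∞) (F : (Fin K → ℕ) → ℝ≥0∞) :
    Ex K (fun a => c * F a) = c * Ex K F := by
  unfold Ex
  rw [Z_const_mul, mul_left_comm]

theorem Ex_sum {κ : Type*} (s : Finset κ) (F : κ → (Fin K → ℕ) → ℝ≥0∞) :
    Ex K (fun a => ∑ k ∈ s, F k a) = ∑ k ∈ s, Ex K (F k) := by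
  unfold Ex
  rw [Z_sum, Finset.mul_sum]

theorem Ex_one : Ex K (fun _ => 1) = 1 := by
  have h : HH K = ∑ i, ((mu K i : ℝ≥0) : ℝ) := by
    unfold HH mu
    refine Finset.sum_congr rfl fun i _ => ?_
    push_cast
    rfl
  unfold Ex
  rw [Z_one, ← h, ← ENNReal.ofReal_mul (Real.exp_pos _).le, ← Real.exp_add, neg_add_cancel,
    Real.exp_zero, ENNReal.ofReal_one]

theorem Ex_mecke (j : Fin K) (F : (Fin K → ℕ) → ℝ≥0∞) :
    Ex K (fun a => (a j : ℝ≥0∞) * F a) = (mu K j : ℝ≥0∞) * Ex K (fun a => F (ad a j)) := by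
  unfold Ex
  rw [mecke, mul_left_comm]

end

end Pool.Agent.Lib.MP_134bf7_pr.RL
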