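import Pool.Agent.Lib.MP_134bf7_pr.RL.Defs

/-!
# RL-Zb1: the functional `Z`

* `Z_add`, `Z_const_mul`, `Z_sum`: `ENNReal.tsum_add`, `ENNReal.tsum_mul_left`, induction on `s`.
* `Z_mon`: `wt μ a * mon y a = ∏ i, (μ i * y i) ^ a i / (a i)!`; the sum over `a : ι → ℕ` of a product of
  functions of the coordinates is the product of the sums (in `ℝ≥0∞` this needs no summability; by
  induction on the finite type, or transfer to a known statement about `∏ i, ∑' n`), and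
  `∑' n, x ^ n / n! = exp x` (`NormedSpace.expSeries_div_hasSum_exp`, `Real.exp_eq_exp_ℝ`; convert by
  `ENNReal.ofReal_tsum_of_nonneg`).  `Z_one`: `y = 1`.
-/

namespace Pool.Agent.Lib.MP_134bf7_pr.RL

open Finset
open scoped ENNReal NNReal

theorem ind_true {P : Prop} (h : P) : ind P = 1 := by
  unfold ind; rw [if_pos h]

theorem ind_false {P : Prop} (h : ¬ P) : ind P = 0 := by
  unfold ind; rw [if_neg h]

theorem ind_le_one (P : Prop) : ind P ≤ 1 := by
  by_cases h : P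
  · rw [ind_true h]
  · rw [ind_false h]; exact zero_le

theorem ind_mono {P P' : Prop} (h : P → P') : ind P ≤ ind P' := by
  by_cases hP : P
  · rw [ind_true hP, ind_true (h hP)]
  · rw [ind_false hP]; exact zero_le

theorem ind_or_le (P P' : Prop) : ind (P ∨ P') ≤ ind P + ind P' := by
  by_cases hP : P
  · rw [ind_true hP, ind_true (Or.inl hP)]; exact le_self_add
  · rw [ind_false hP, zero_add]; exact ind_mono fun h => h.resolve_left hP

theorem ind_and (P P' : Prop) : ind (P ∧ P') = ind P * ind P' := by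
  by_cases hP : P
  · by_cases hP' : P'
    · rw [ind_true hP, ind_true hP', ind_true ⟨hP, hP'⟩, one_mul]
    · rw [ind_false hP', ind_false fun h => hP' h.2, mul_zero]
  · rw [ind_false hP, ind_false fun h => hP h.1, zero_mul]

section

variable {ι : Type*} [Fintype ι]

theorem Z_mono (μ : ι → ℝ≥0) {F G : (ι → ℕ) → ℝ≥0∞} (h : ∀ a, F a ≤ G a) : Z μ F ≤ Z μ G :=
  ENNReal.tsum_le_tsum fun a => mul_le_mul_right (h a) _

theorem Z_add (μ : ι → ℝ≥0) (F G : (ι → ℕ) → ℝ≥0∞) :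
    Z μ (fun a => F a + G a) = Z μ F + Z μ G := by
  unfold Z
  rw [← ENNReal.tsum_add]
  exact tsum_congr fun a => mul_add _ _ _

theorem Z_const_mul (μ : ι → ℝ≥0) (c : ℝ≥0∞) (F : (ι → ℕ) → ℝ≥0∞) :
    Z μ (fun a => c * F a) = c * Z μ F := by
  unfold Z
  rw [← ENNReal.tsum_mul_left]
  exact tsum_congr fun a => mul_left_comm _ _ _

theorem Z_sum (μ : ι → ℝ≥0) {κ : Type*} (s : Finset κ) (F : κ → (ι → ℕ) → ℝ≥0∞) :
    Z μ (fun a => ∑ k ∈ s, F k a) = ∑ k ∈ s, Z μ (F k) := by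
  classical
  induction s using Finset.induction_on with
  | empty => simp [Z]
  | insert k s hk ih =>
    rw [Finset.sum_insert hk, ← ih, ← Z_add]
    exact congrArg (Z μ) (funext fun a => Finset.sum_insert hk)

private theorem tsum_prod_fin : ∀ (n : ℕ) (f : Fin n → ℕ → ℝ≥0∞),
    ∑' a : Fin n → ℕ, ∏ i, f i (a i) = ∏ i, ∑' m, f i m := by
  intro n
  induction n with
  | zero =>
    intro f
    simp
  | succ n ih =>
    intro f
    rw [← (Fin.consEquiv (fun _ : Fin (n + 1) => ℕ)).tsum_eq, ENNReal.tsum_prod', Fin.prod_univ_succ,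
      ← ENNReal.tsum_mul_right]
    refine tsum_congr fun m => ?_
    rw [← ih, ← ENNReal.tsum_mul_left]
    refine tsum_congr fun a => ?_
    rw [Fin.prod_univ_succ]
    simp [Fin.consEquiv]

private theorem tsum_prod_pi (f : ι → ℕ → ℝ≥0∞) :
    ∑' a : ι → ℕ, ∏ i, f i (a i) = ∏ i, ∑' m, f i m := by
  classical
  have e := Fintype.equivFin ι
  rw [← (Equiv.arrowCongr e.symm (Equiv.refl ℕ)).tsum_eq]
  have h1 : ∀ a : Fin (Fintype.card ι) → ℕ,
      ∏ i, f i ((Equiv.arrowCongr e.symm (Equiv.refl ℕ)) a i) = ∏ j, f (e.symm j) (a j) := by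
    intro a
    rw [← e.symm.prod_comp]
    refine Finset.prod_congr rfl fun j _ => ?_
    simp
  rw [tsum_congr h1, tsum_prod_fin _ (fun j => f (e.symm j)), e.symm.prod_comp (fun i => ∑' m, f i m)]

private theorem tsum_exp (x : ℝ≥0) :
    ∑' n : ℕ, ((x ^ n / (n.factorial : ℝ≥0) : ℝ≥0) : ℝ≥0∞) = ENNReal.ofReal (Real.exp (x : ℝ)) := by
  have h := NormedSpace.expSeries_div_hasSum_exp (𝔸 := ℝ) (x : ℝ)
  rw [← Real.exp_eq_exp_ℝ] at h
  rw [← h.tsum_eq, ENNReal.ofReal_tsum_of_nonneg (fun n => by positivity) h.summable]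
  refine tsum_congr fun n => ?_
  rw [ENNReal.coe_nnreal_eq]
  push_cast
  rfl

theorem Z_mon (μ y : ι → ℝ≥0) :
    Z μ (mon y) = ENNReal.ofReal (Real.exp (∑ i, (μ i : ℝ) * (y i : ℝ))) := by
  have h1 : ∀ a : ι → ℕ, (wt μ a : ℝ≥0∞) * mon y a =
      ∏ i, (((μ i * y i) ^ a i / ((a i).factorial : ℝ≥0) : ℝ≥0) : ℝ≥0∞) := by
    intro a
    unfold wt mon
    rw [← ENNReal.coe_mul, ← Finset.prod_mul_distrib, ENNReal.ofNNReal_finsetProd]
    refine Finset.prod_congr rfl fun i _ => ?_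
    congr 1
    rw [mul_pow, div_mul_eq_mul_div]
  unfold Z
  rw [tsum_congr h1, tsum_prod_pi (fun i m => (((μ i * y i) ^ m / (m.factorial : ℝ≥0) : ℝ≥0) : ℝ≥0∞)),
    Real.exp_sum, ENNReal.ofReal_prod_of_nonneg (fun i _ => (Real.exp_pos _).le)]
  refine Finset.prod_congr rfl fun i _ => ?_
  rw [tsum_exp, NNReal.coe_mul]

theorem Z_one (μ : ι → ℝ≥0) :
    Z μ (fun _ => 1) = ENNReal.ofReal (Real.exp (∑ i, (μ i : ℝ))) := by
  have h := Z_mon μ (fun _ => 1)
  have h2 : (mon (fun _ : ι => (1 : ℝ≥0))) = fun _ => (1 : ℝ≥0∞) := by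
    funext a
    simp [mon]
  rw [h2] at h
  rw [h]
  simp

end

end Pool.Agent.Lib.MP_134bf7_pr.RL
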